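import Mathlib

/-!
# Sequences in convex sets that are not weakly compact

For a bounded closed convex set `C` of a real Banach space that is not weakly compact we construct
a sequence `x_n` in `C` which is basic and dominates the summing basis, in the following
quantitative form: for all scalars `t_i`, all tail sums `Σ_{k ≤ i < n} t_i` and all norms
`‖Σ_{i<k} t_i x_i‖` are at most a constant times `‖Σ_{i<n} t_i x_i‖`.
-/

set_option autoImplicit false
set_option maxSynthPendingDepth 3

namespace Q197.WideS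

open Filter Topology Finset NormedSpace

variable {X : Type*} [NormedAddCommGroup X] [NormedSpace ℝ X]

/-- A functional in the weak star closure of `C` that is not evaluation at a point. -/
theorem exists_phi (C : Set X) (hb : Bornology.IsBounded C) (hc : IsClosed C)
    (hconv : Convex ℝ C) (hw : ¬ IsCompact (toWeakSpace ℝ X '' C)) :
    ∃ φ : StrongDual ℝ (StrongDual ℝ X), (∀ x : X, inclusionInDoubleDual ℝ X x ≠ φ) ∧
      ∀ (A : Finset (StrongDual ℝ X)) (ε : ℝ), 0 < ε → ∃ x ∈ C, ∀ g ∈ A, |g x - φ g| < ε := by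
  have hcl : closure (toWeakSpace ℝ X '' C) = toWeakSpace ℝ X '' C := by
    rw [← hconv.toWeakSpace_closure ℝ, hc.closure_eq]
  have h1 : ¬ (closure (inclusionInDoubleDualWeak ℝ X '' (toWeakSpace ℝ X '' C)) ⊆
      Set.range (inclusionInDoubleDualWeak ℝ X)) := by
    intro h
    have h2 := isCompact_closure_of_isBounded ℝ X (toWeakSpace ℝ X '' C) ?_ h
    · rw [hcl] at h2; exact hw h2
    · rw [Set.preimage_image_eq _ (toWeakSpace ℝ X).injective]
      exact hb
  rw [Set.not_subset] at h1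
  obtain ⟨ψ, hψ, hψr⟩ := h1
  refine ⟨StrongDual.toWeakDual.symm ψ, ?_, ?_⟩
  · intro x hx
    apply hψr
    refine ⟨toWeakSpace ℝ X x, ?_⟩
    apply StrongDual.toWeakDual.symm.injective
    rw [← hx]
    rfl
  · intro A ε hε
    let V : Set (WeakDual ℝ (StrongDual ℝ X)) := {χ | ∀ g ∈ A, |χ g - ψ g| < ε}
    have hV : IsOpen V := by
      have : V = ⋂ g ∈ A, {χ : WeakDual ℝ (StrongDual ℝ X) | |χ g - ψ g| < ε} := by
        ext χ; simp [V]
      rw [this]
      refine isOpen_biInter_finset fun g _ => ?_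
      exact isOpen_lt ((WeakDual.eval_continuous g).sub continuous_const).abs continuous_const
    have hψV : ψ ∈ V := by
      intro g _
      simpa using hε
    obtain ⟨χ, hχV, hχ⟩ := mem_closure_iff.1 hψ V hV hψV
    obtain ⟨_, ⟨x, hx, rfl⟩, rfl⟩ := hχ
    exact ⟨x, hx, fun g hg => hχV g hg⟩

/-- The distance of such a functional to the space is positive. -/
theorem exists_gap [CompleteSpace X] (φ : StrongDual ℝ (StrongDual ℝ X))
    (hφ : ∀ x : X, inclusionInDoubleDual ℝ X x ≠ φ) :
    ∃ d : ℝ, 0 < d ∧ ∀ x : X, d ≤ ‖φ - inclusionInDoubleDual ℝ X x‖ := by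
  have hcl : IsClosed (Set.range (inclusionInDoubleDual ℝ X)) := by
    have h1 : LipschitzWith 1 (inclusionInDoubleDual ℝ X) := by
      refine LipschitzWith.of_dist_le_mul fun a b => ?_
      rw [dist_eq_norm, dist_eq_norm, ← map_sub, NNReal.coe_one, one_mul]
      exact double_dual_bound ℝ X _
    have h2 : AntilipschitzWith 1 (inclusionInDoubleDual ℝ X) := by
      refine AntilipschitzWith.of_le_mul_dist fun a b => ?_
      rw [dist_eq_norm, dist_eq_norm, ← map_sub, NNReal.coe_one, one_mul]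
      exact le_of_eq ((inclusionInDoubleDualLi (𝕜 := ℝ) (E := X)).norm_map _).symm
    exact h2.isClosed_range h1.uniformContinuous
  have hφ' : φ ∉ Set.range (inclusionInDoubleDual ℝ X) := by
    rintro ⟨x, hx⟩; exact hφ x hx
  obtain ⟨d, hd, hball⟩ := Metric.isOpen_iff.1 hcl.isOpen_compl φ hφ'
  refine ⟨d, hd, fun x => ?_⟩
  by_contra hcon
  push Not at hcon
  have : inclusionInDoubleDual ℝ X x ∈ Metric.ball φ d := by
    rw [Metric.mem_ball, dist_eq_norm, norm_sub_rev]; exact hcon
  exact hball this ⟨x, rfl⟩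

/-- A Helly type lemma. -/
theorem helly (φ : StrongDual ℝ (StrongDual ℝ X)) (d : ℝ) (hd : 0 < d)
    (hgap : ∀ x : X, d ≤ ‖φ - inclusionInDoubleDual ℝ X x‖) (s : Finset X) :
    ∃ f : StrongDual ℝ X, ‖f‖ ≤ 1 ∧ (∀ x ∈ s, f x = 0) ∧ φ f = d / 2 := by
  by_contra hcon
  push Not at hcon
  -- on the annihilator of `s` the functional `φ` has norm at most `d/2`
  let M : Submodule ℝ (StrongDual ℝ X) :=
    ⨅ x : s, LinearMap.ker (inclusionInDoubleDual ℝ X (x : X) : StrongDual ℝ X →ₗ[ℝ] ℝ)
  have hM : ∀ f : StrongDual ℝ X, f ∈ M ↔ ∀ x ∈ s, f x = 0 := by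
    intro f
    simp only [M, Submodule.mem_iInf, LinearMap.mem_ker, Subtype.forall]
    rfl
  let φM : StrongDual ℝ M := φ.comp M.subtypeL
  have hnorm : ‖φM‖ ≤ d / 2 := by
    refine ContinuousLinearMap.opNorm_le_bound _ (by positivity) fun f => ?_
    by_contra hc
    push Not at hc
    have hφf : φ (f : StrongDual ℝ X) ≠ 0 := by
      intro h0
      have : ‖φM f‖ = 0 := by
        change ‖φ (f : StrongDual ℝ X)‖ = 0
        rw [h0, norm_zero]
      rw [this] at hc
      have : 0 ≤ d / 2 * ‖f‖ := by positivity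
      linarith
    set c : ℝ := (d / 2) / φ (f : StrongDual ℝ X) with hcdef
    refine hcon (c • (f : StrongDual ℝ X)) ?_ ?_ ?_
    · rw [norm_smul, hcdef, norm_div, Real.norm_of_nonneg (by positivity : (0:ℝ) ≤ d / 2),
        div_mul_eq_mul_div, div_le_one (norm_pos_iff.2 hφf)]
      exact hc.le
    · intro x hx
      have := (hM _).1 f.2 x hx
      simp [this]
    · rw [map_smul, hcdef, smul_eq_mul, div_mul_cancel₀ _ hφf]
  obtain ⟨ψ, hψ, hψn⟩ := exists_extension_norm_eq M φM
  have hker : (⨅ x : s, LinearMap.ker (inclusionInDoubleDual ℝ X (x : X) :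
      StrongDual ℝ X →ₗ[ℝ] ℝ)) ≤ LinearMap.ker ((φ - ψ : StrongDual ℝ (StrongDual ℝ X)) :
      StrongDual ℝ X →ₗ[ℝ] ℝ) := by
    intro f hf
    rw [LinearMap.mem_ker]
    change φ f - ψ f = 0
    have := hψ ⟨f, hf⟩
    change ψ f = φ f at this
    rw [this, sub_self]
  have hspan := mem_span_of_iInf_ker_le_ker hker
  rw [Submodule.mem_span_range_iff_exists_fun] at hspan
  obtain ⟨c, hc⟩ := hspan
  have hz : φ - inclusionInDoubleDual ℝ X (∑ i : s, c i • (i : X)) = ψ := by
    ext f
    have h1 := congrArg (fun L : StrongDual ℝ X →ₗ[ℝ] ℝ => L f) hc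
    simp only [LinearMap.sum_apply, LinearMap.smul_apply] at h1
    change (∑ i : s, c i • inclusionInDoubleDual ℝ X (i : X) f) = φ f - ψ f at h1
    change φ f - inclusionInDoubleDual ℝ X (∑ i : s, c i • (i : X)) f = ψ f
    rw [map_sum]
    simp only [map_smul]
    change φ f - (∑ i : s, c i • inclusionInDoubleDual ℝ X (i : X)) f = ψ f
    rw [_root_.sum_apply]
    simp only [_root_.smul_apply]
    rw [h1]; ring
  have h2 := hgap (∑ i : s, c i • (i : X))
  rw [hz, hψn] at h2
  linarith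

/-- A finite norming set for a finite-dimensional subspace of the bidual. -/
theorem norming (F : Submodule ℝ (StrongDual ℝ (StrongDual ℝ X))) [FiniteDimensional ℝ F] :
    ∃ A : Finset (StrongDual ℝ X), (∀ g ∈ A, ‖g‖ ≤ 1) ∧
      ∀ y ∈ F, ∃ g ∈ A, ‖y‖ ≤ 2 * |y g| := by
  classical
  have hcomp : IsCompact (Metric.sphere (0 : F) 1) := isCompact_sphere _ _
  let U : StrongDual ℝ X → Set F := fun g => if ‖g‖ ≤ 1 then {y : F | 1 / 2 < |(y : StrongDual ℝ (StrongDual ℝ X)) g|} else ∅
  have hU : ∀ g, IsOpen (U g) := by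
    intro g
    by_cases hg : ‖g‖ ≤ 1
    · simp only [U, if_pos hg]
      refine isOpen_lt continuous_const ?_
      have : Continuous fun y : F => (y : StrongDual ℝ (StrongDual ℝ X)) g :=
        (ContinuousLinearMap.apply ℝ ℝ g).continuous.comp continuous_subtype_val
      exact this.abs
    · simp only [U, if_neg hg]; exact isOpen_empty
  have hcover : Metric.sphere (0 : F) 1 ⊆ ⋃ g, U g := by
    intro y hy
    rw [mem_sphere_zero_iff_norm] at hy
    have hy' : ‖(y : StrongDual ℝ (StrongDual ℝ X))‖ = 1 := hy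
    by_contra hcon
    have hle : ‖(y : StrongDual ℝ (StrongDual ℝ X))‖ ≤ 1 / 2 := by
      refine ContinuousLinearMap.opNorm_le_of_unit_norm (by norm_num) fun g hg => ?_
      by_contra hc
      push Not at hc
      apply hcon
      rw [Set.mem_iUnion]
      refine ⟨g, ?_⟩
      simp only [U, if_pos hg.le]
      exact hc
    rw [hy'] at hle
    norm_num at hle
  obtain ⟨B, hB⟩ := hcomp.elim_finite_subcover U hU hcover
  refine ⟨insert 0 (B.filter fun g => ‖g‖ ≤ 1), ?_, ?_⟩
  · intro g hg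
    rw [Finset.mem_insert, Finset.mem_filter] at hg
    rcases hg with rfl | hg
    · simp
    · exact hg.2
  · intro y hy
    by_cases hy0 : y = 0
    · exact ⟨0, Finset.mem_insert_self _ _, by simp [hy0]⟩
    · have hyn : 0 < ‖y‖ := norm_pos_iff.2 hy0
      let z : F := (‖y‖⁻¹ : ℝ) • ⟨y, hy⟩
      have hz : z ∈ Metric.sphere (0 : F) 1 := by
        rw [mem_sphere_zero_iff_norm, norm_smul, norm_inv, norm_norm]
        exact inv_mul_cancel₀ hyn.ne'
      have hz2 := hB hz
      simp only [Set.mem_iUnion] at hz2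
      obtain ⟨g, hgB, hg⟩ := hz2
      by_cases hg1 : ‖g‖ ≤ 1
      · simp only [U, if_pos hg1] at hg
        refine ⟨g, Finset.mem_insert_of_mem (Finset.mem_filter.2 ⟨hgB, hg1⟩), ?_⟩
        have hg' : 1 / 2 < |‖y‖⁻¹ * y g| := hg
        rw [abs_mul, abs_of_pos (inv_pos.2 hyn), inv_mul_eq_div, lt_div_iff₀ hyn] at hg'
        linarith
      · simp only [U, if_neg hg1] at hg
        exact absurd hg (Set.notMem_empty _)

/-- The inductive construction. -/
theorem exists_seq [CompleteSpace X] (C : Set X) (hb : Bornology.IsBounded C) (hc : IsClosed C)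
    (hconv : Convex ℝ C) (hw : ¬ IsCompact (toWeakSpace ℝ X '' C)) :
    ∃ (φ : StrongDual ℝ (StrongDual ℝ X)) (θ : ℝ) (x : ℕ → X) (N : ℕ → Finset (StrongDual ℝ X)),
      0 < θ ∧ (∀ n, x n ∈ C) ∧ (∀ k, ∀ g ∈ N k, ‖g‖ ≤ 1) ∧
      (∀ k, ∃ f ∈ N k, (∀ i < k, f (x i) = 0) ∧ φ f = θ) ∧
      (∀ k, ∀ y ∈ Submodule.span ℝ ((fun i => inclusionInDoubleDual ℝ X (x i) - φ) '' (Set.Iio k)),
        ∃ g ∈ N k, ‖y‖ ≤ 2 * |y g|) ∧
      (∀ k j, k ≤ j → ∀ g ∈ N k, |g (x j) - φ g| ≤ θ / 8 * (1 / 2) ^ j) := by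
  classical
  obtain ⟨φ, hφ, happ⟩ := exists_phi C hb hc hconv hw
  obtain ⟨d, hd, hgap⟩ := exists_gap φ hφ
  have hθ : 0 < d / 2 := by positivity
  -- the finite set attached to a history
  have hN : ∀ l : List X, ∃ A : Finset (StrongDual ℝ X), (∀ g ∈ A, ‖g‖ ≤ 1) ∧
      (∃ f ∈ A, (∀ z ∈ l, f z = 0) ∧ φ f = d / 2) ∧
      (∀ y ∈ Submodule.span ℝ ((fun z => inclusionInDoubleDual ℝ X z - φ) '' {z | z ∈ l}),
        ∃ g ∈ A, ‖y‖ ≤ 2 * |y g|) := by
    intro l
    obtain ⟨f, hf1, hf2, hf3⟩ := helly φ d hd hgap l.toFinset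
    have hfin : ((fun z => inclusionInDoubleDual ℝ X z - φ) '' {z | z ∈ l}).Finite :=
      (List.finite_toSet l).image _
    have : FiniteDimensional ℝ (Submodule.span ℝ
        ((fun z => inclusionInDoubleDual ℝ X z - φ) '' {z | z ∈ l})) :=
      FiniteDimensional.span_of_finite ℝ hfin
    obtain ⟨A, hA1, hA2⟩ := norming (Submodule.span ℝ
        ((fun z => inclusionInDoubleDual ℝ X z - φ) '' {z | z ∈ l}))
    refine ⟨insert f A, ?_, ⟨f, Finset.mem_insert_self _ _, ?_, hf3⟩, ?_⟩
    · intro g hg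
      rw [Finset.mem_insert] at hg
      rcases hg with rfl | hg
      · exact hf1
      · exact hA1 g hg
    · intro z hz
      exact hf2 z (List.mem_toFinset.2 hz)
    · intro y hy
      obtain ⟨g, hg, hgy⟩ := hA2 y hy
      exact ⟨g, Finset.mem_insert_of_mem hg, hgy⟩
  choose NN hNN1 hNN2 hNN3 using hN
  -- next point
  have hstep : ∀ l : List X, ∃ z ∈ C, ∀ l' : List X, l' <:+ l → ∀ g ∈ NN l',
      |g z - φ g| ≤ (d / 2) / 8 * (1 / 2) ^ l.length := by
    intro l
    obtain ⟨z, hz, hzz⟩ := happ ((l.tails.toFinset).biUnion NN)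
      ((d / 2) / 8 * (1 / 2) ^ l.length) (by positivity)
    refine ⟨z, hz, fun l' hl' g hg => (hzz g ?_).le⟩
    rw [Finset.mem_biUnion]
    exact ⟨l', List.mem_toFinset.2 ((List.mem_tails _ _).2 hl'), hg⟩
  choose step hstepC hstep2 using hstep
  let hist : ℕ → List X := fun n => Nat.rec [] (fun _ l => step l :: l) n
  have hist0 : hist 0 = [] := rfl
  have histS : ∀ n, hist (n + 1) = step (hist n) :: hist n := fun n => rfl
  have hlen : ∀ n, (hist n).length = n := by
    intro n
    induction n with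
    | zero => rfl
    | succ n ih => rw [histS, List.length_cons, ih]
  have hsuf : ∀ k j, k ≤ j → hist k <:+ hist j := by
    intro k j hkj
    induction j with
    | zero =>
      have : k = 0 := by omega
      subst this; exact List.suffix_refl _
    | succ j ih =>
      rcases Nat.lt_or_ge k (j + 1) with h | h
      · exact (ih (by omega)).trans (by rw [histS]; exact List.suffix_cons _ _)
      · have : k = j + 1 := by omega
        subst this; exact List.suffix_refl _
  let x : ℕ → X := fun n => step (hist n)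
  have hmem : ∀ k, ∀ z, z ∈ hist k ↔ ∃ i < k, x i = z := by
    intro k
    induction k with
    | zero => intro z; simp [hist0]
    | succ k ih =>
      intro z
      rw [histS, List.mem_cons, ih]
      constructor
      · rintro (h | ⟨i, hi, rfl⟩)
        · exact ⟨k, by omega, h.symm⟩
        · exact ⟨i, by omega, rfl⟩
      · rintro ⟨i, hi, rfl⟩
        rcases Nat.lt_or_ge i k with h | h
        · exact Or.inr ⟨i, h, rfl⟩
        · have : i = k := by omega
          subst this; exact Or.inl rfl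
  refine ⟨φ, d / 2, x, fun k => NN (hist k), hθ, fun n => hstepC _, fun k => hNN1 _, ?_, ?_, ?_⟩
  · intro k
    obtain ⟨f, hf, hf0, hfθ⟩ := hNN2 (hist k)
    exact ⟨f, hf, fun i hi => hf0 _ ((hmem k _).2 ⟨i, hi, rfl⟩), hfθ⟩
  · intro k y hy
    refine hNN3 (hist k) y ?_
    refine Submodule.span_mono ?_ hy
    rintro _ ⟨i, hi, rfl⟩
    exact ⟨x i, (hmem k _).2 ⟨i, hi, rfl⟩, rfl⟩
  · intro k j hkj g hg
    have := hstep2 (hist j) (hist k) (hsuf k j hkj) g hg
    rw [hlen] at this
    exact this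

end Q197.WideS
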