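import Mathlib
import Pool.Agent.Q197.WideS

/-!
# Estimates for the sequence of `WideS`, and the partial sum functionals
-/

set_option autoImplicit false
set_option maxSynthPendingDepth 3

namespace Q197.WideEst

open Filter Topology Finset NormedSpace

variable {X : Type*} [NormedAddCommGroup X] [NormedSpace ℝ X]

lemma sum_geo (k n : ℕ) : ∑ j ∈ Ico k n, ((1 : ℝ) / 2) ^ j ≤ 2 := by
  have h1 : ∑ j ∈ Ico k n, ((1 : ℝ) / 2) ^ j ≤ ∑ j ∈ range n, ((1 : ℝ) / 2) ^ j := by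
    refine Finset.sum_le_sum_of_subset_of_nonneg ?_ fun i _ _ => by positivity
    intro j hj
    rw [mem_Ico] at hj
    exact mem_range.2 hj.2
  exact h1.trans (sum_geometric_two_le n)

/-- The properties of the sequence used below. -/
structure Wide (x : ℕ → X) (C₁ C₂ : ℝ) : Prop where
  tail : ∀ (t : ℕ → ℝ) (n k : ℕ), k ≤ n →
    |∑ i ∈ Ico k n, t i| ≤ C₁ * ‖∑ i ∈ range n, t i • x i‖
  part : ∀ (t : ℕ → ℝ) (n k : ℕ), k ≤ n →
    ‖∑ i ∈ range k, t i • x i‖ ≤ C₂ * ‖∑ i ∈ range n, t i • x i‖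

theorem exists_wide [CompleteSpace X] (C : Set X) (hb : Bornology.IsBounded C) (hc : IsClosed C)
    (hconv : Convex ℝ C) (hw : ¬ IsCompact (toWeakSpace ℝ X '' C)) :
    ∃ (x : ℕ → X) (C₁ C₂ : ℝ) (f : StrongDual ℝ X) (c : ℝ), (∀ n, x n ∈ C) ∧ Wide x C₁ C₂ ∧
      0 < c ∧ ∀ n, c ≤ f (x n) := by
  obtain ⟨φ, θ, x, N, hθ, hxC, hN1, hN2, hN3, hN4⟩ := Q197.WideS.exists_seq C hb hc hconv hw
  -- tails
  have htail : ∀ (t : ℕ → ℝ) (n k : ℕ), k ≤ n →
      |∑ i ∈ Ico k n, t i| ≤ (2 / θ) * ‖∑ i ∈ range n, t i • x i‖ := by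
    intro t n
    obtain ⟨k0, hk0, hmax⟩ := Finset.exists_max_image (range (n + 1))
      (fun k => |∑ i ∈ Ico k n, t i|) ⟨0, by simp⟩
    have hk0n : k0 ≤ n := by have := mem_range.1 hk0; omega
    set S : ℝ := |∑ i ∈ Ico k0 n, t i| with hS
    have hS0 : 0 ≤ S := abs_nonneg _
    have hall : ∀ k ≤ n, |∑ i ∈ Ico k n, t i| ≤ S := fun k hk =>
      hmax k (mem_range.2 (by omega))
    have htj : ∀ j < n, |t j| ≤ 2 * S := by
      intro j hj
      have h1 : t j = ∑ i ∈ Ico j n, t i - ∑ i ∈ Ico (j + 1) n, t i := by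
        rw [Finset.sum_eq_sum_Ico_succ_bot hj]; ring
      rw [h1]
      have h2 := hall j hj.le
      have h3 := hall (j + 1) hj
      have h4 := abs_sub (∑ i ∈ Ico j n, t i) (∑ i ∈ Ico (j + 1) n, t i)
      linarith
    obtain ⟨f, hf, hf0, hfθ⟩ := hN2 k0
    have hfX : f (∑ i ∈ range n, t i • x i) =
        θ * ∑ i ∈ Ico k0 n, t i + ∑ i ∈ Ico k0 n, t i * (f (x i) - θ) := by
      rw [map_sum, ← Finset.sum_range_add_sum_Ico _ hk0n]
      have hz : ∑ i ∈ range k0, f (t i • x i) = 0 := by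
        refine Finset.sum_eq_zero fun i hi => ?_
        rw [map_smul, hf0 i (mem_range.1 hi), smul_zero]
      rw [hz, zero_add, Finset.mul_sum, ← Finset.sum_add_distrib]
      refine Finset.sum_congr rfl fun i _ => ?_
      rw [map_smul, smul_eq_mul]; ring
    have herr : |∑ i ∈ Ico k0 n, t i * (f (x i) - θ)| ≤ θ / 2 * S := by
      refine (Finset.abs_sum_le_sum_abs _ _).trans ?_
      have h1 : ∀ i ∈ Ico k0 n, |t i * (f (x i) - θ)| ≤ (2 * S * (θ / 8)) * (1 / 2) ^ i := by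
        intro i hi
        rw [mem_Ico] at hi
        rw [abs_mul]
        have h2 := hN4 k0 i hi.1 f hf
        rw [hfθ] at h2
        calc |t i| * |f (x i) - θ| ≤ (2 * S) * (θ / 8 * (1 / 2) ^ i) :=
              mul_le_mul (htj i hi.2) h2 (abs_nonneg _) (by positivity)
          _ = _ := by ring
      refine (Finset.sum_le_sum h1).trans ?_
      rw [← Finset.mul_sum]
      have h3 := sum_geo k0 n
      have h4 : 0 ≤ 2 * S * (θ / 8) := by positivity
      calc (2 * S * (θ / 8)) * ∑ j ∈ Ico k0 n, ((1 : ℝ) / 2) ^ j ≤ (2 * S * (θ / 8)) * 2 :=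
            mul_le_mul_of_nonneg_left h3 h4
        _ = θ / 2 * S := by ring
    have hle : |f (∑ i ∈ range n, t i • x i)| ≤ ‖∑ i ∈ range n, t i • x i‖ := by
      have h1 := f.le_opNorm (∑ i ∈ range n, t i • x i)
      rw [Real.norm_eq_abs] at h1
      refine h1.trans ?_
      have h2 := hN1 k0 f hf
      nlinarith [norm_nonneg (∑ i ∈ range n, t i • x i)]
    have hfin : θ / 2 * S ≤ ‖∑ i ∈ range n, t i • x i‖ := by
      have h1 : θ * S ≤ |f (∑ i ∈ range n, t i • x i)| +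
          |∑ i ∈ Ico k0 n, t i * (f (x i) - θ)| := by
        have h2 : θ * ∑ i ∈ Ico k0 n, t i = f (∑ i ∈ range n, t i • x i) -
            ∑ i ∈ Ico k0 n, t i * (f (x i) - θ) := by rw [hfX]; ring
        have h3 : θ * S = |θ * ∑ i ∈ Ico k0 n, t i| := by rw [abs_mul, abs_of_pos hθ]
        rw [h3, h2]
        exact abs_sub _ _
      linarith
    intro k hk
    refine (hall k hk).trans ?_
    rw [div_mul_eq_mul_div, le_div_iff₀ hθ]
    linarith
  refine ⟨x, 2 / θ, 4 + 8 * ‖φ‖ / θ, ?_⟩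
  -- a functional that is positive on the sequence
  obtain ⟨f, hf, -, hfθ⟩ := hN2 0
  refine ⟨f, θ / 2, hxC, ⟨htail, ?_⟩, by positivity, ?_⟩
  · intro t n k hk
    set Xn : X := ∑ i ∈ range n, t i • x i with hXn
    have hS : ∀ k ≤ n, |∑ i ∈ Ico k n, t i| ≤ (2 / θ) * ‖Xn‖ := fun k hk => htail t n k hk
    set S : ℝ := (2 / θ) * ‖Xn‖ with hSdef
    have hS0 : 0 ≤ S := by positivity
    have htj : ∀ j < n, |t j| ≤ 2 * S := by
      intro j hj
      have h1 : t j = ∑ i ∈ Ico j n, t i - ∑ i ∈ Ico (j + 1) n, t i := by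
        rw [Finset.sum_eq_sum_Ico_succ_bot hj]; ring
      rw [h1]
      have h2 := hS j hj.le
      have h3 := hS (j + 1) hj
      have h4 := abs_sub (∑ i ∈ Ico j n, t i) (∑ i ∈ Ico (j + 1) n, t i)
      linarith
    let y : ℕ → StrongDual ℝ (StrongDual ℝ X) := fun i => inclusionInDoubleDual ℝ X (x i) - φ
    have hYk : ∀ k : ℕ, ∑ i ∈ range k, t i • y i =
        inclusionInDoubleDual ℝ X (∑ i ∈ range k, t i • x i) - (∑ i ∈ range k, t i) • φ := by
      intro k
      simp only [y, smul_sub, Finset.sum_sub_distrib, map_sum, map_smul, Finset.sum_smul]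
    obtain ⟨g, hg, hgY⟩ := hN3 k (∑ i ∈ range k, t i • y i) (by
      refine Submodule.sum_mem _ fun i hi => Submodule.smul_mem _ _ (Submodule.subset_span ?_)
      exact ⟨i, mem_range.1 hi, rfl⟩)
    have hsplit : (∑ i ∈ range n, t i • y i) g = (∑ i ∈ range k, t i • y i) g +
        ∑ i ∈ Ico k n, t i * (g (x i) - φ g) := by
      rw [← Finset.sum_range_add_sum_Ico (fun i => t i • y i) hk]
      rw [_root_.add_apply]
      congr 1
      rw [_root_.sum_apply]
      rfl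
    have herr : |∑ i ∈ Ico k n, t i * (g (x i) - φ g)| ≤ θ / 2 * S := by
      refine (Finset.abs_sum_le_sum_abs _ _).trans ?_
      have h1 : ∀ i ∈ Ico k n, |t i * (g (x i) - φ g)| ≤ (2 * S * (θ / 8)) * (1 / 2) ^ i := by
        intro i hi
        rw [mem_Ico] at hi
        rw [abs_mul]
        have h2 := hN4 k i hi.1 g hg
        calc |t i| * |g (x i) - φ g| ≤ (2 * S) * (θ / 8 * (1 / 2) ^ i) :=
              mul_le_mul (htj i hi.2) h2 (abs_nonneg _) (by positivity)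
          _ = _ := by ring
      refine (Finset.sum_le_sum h1).trans ?_
      rw [← Finset.mul_sum]
      have h3 := sum_geo k n
      have h4 : 0 ≤ 2 * S * (θ / 8) := by positivity
      calc (2 * S * (θ / 8)) * ∑ j ∈ Ico k n, ((1 : ℝ) / 2) ^ j ≤ (2 * S * (θ / 8)) * 2 :=
            mul_le_mul_of_nonneg_left h3 h4
        _ = θ / 2 * S := by ring
    have hσ0 : |∑ i ∈ range n, t i| ≤ S := by
      have := hS 0 (Nat.zero_le _)
      rwa [← Finset.range_eq_Ico] at this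
    have hYn : ‖∑ i ∈ range n, t i • y i‖ ≤ ‖Xn‖ + S * ‖φ‖ := by
      rw [hYk n]
      refine (norm_sub_le _ _).trans (add_le_add (double_dual_bound ℝ X _) ?_)
      rw [norm_smul, Real.norm_eq_abs]
      exact mul_le_mul_of_nonneg_right hσ0 (norm_nonneg _)
    have hYng : |(∑ i ∈ range n, t i • y i) g| ≤ ‖Xn‖ + S * ‖φ‖ := by
      have h1 := (∑ i ∈ range n, t i • y i).le_opNorm g
      rw [Real.norm_eq_abs] at h1
      refine h1.trans ?_
      have h2 := hN1 k g hg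
      calc ‖∑ i ∈ range n, t i • y i‖ * ‖g‖ ≤ ‖∑ i ∈ range n, t i • y i‖ * 1 :=
            mul_le_mul_of_nonneg_left h2 (norm_nonneg _)
        _ ≤ _ := by rw [mul_one]; exact hYn
    have hYkn : ‖∑ i ∈ range k, t i • y i‖ ≤ 2 * (‖Xn‖ + S * ‖φ‖ + θ / 2 * S) := by
      refine hgY.trans ?_
      have h1 : (∑ i ∈ range k, t i • y i) g = (∑ i ∈ range n, t i • y i) g -
          ∑ i ∈ Ico k n, t i * (g (x i) - φ g) := by rw [hsplit]; ring
      rw [h1]
      have h2 := abs_sub ((∑ i ∈ range n, t i • y i) g) (∑ i ∈ Ico k n, t i * (g (x i) - φ g))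
      linarith
    have hσk : |∑ i ∈ range k, t i| ≤ 2 * S := by
      have h1 : ∑ i ∈ range k, t i = ∑ i ∈ range n, t i - ∑ i ∈ Ico k n, t i := by
        rw [← Finset.sum_range_add_sum_Ico t hk]; ring
      rw [h1]
      have h2 := abs_sub (∑ i ∈ range n, t i) (∑ i ∈ Ico k n, t i)
      have h3 := hS k hk
      linarith
    have hXk : inclusionInDoubleDual ℝ X (∑ i ∈ range k, t i • x i) =
        ∑ i ∈ range k, t i • y i + (∑ i ∈ range k, t i) • φ := by
      rw [hYk k]; abel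
    have hnorm : ‖∑ i ∈ range k, t i • x i‖ = ‖inclusionInDoubleDual ℝ X (∑ i ∈ range k, t i • x i)‖ :=
      ((inclusionInDoubleDualLi (𝕜 := ℝ) (E := X)).norm_map _).symm
    rw [hnorm, hXk]
    refine (norm_add_le _ _).trans ?_
    rw [norm_smul, Real.norm_eq_abs]
    have h5 : |∑ i ∈ range k, t i| * ‖φ‖ ≤ 2 * S * ‖φ‖ :=
      mul_le_mul_of_nonneg_right hσk (norm_nonneg _)
    have h6 : 2 * (‖Xn‖ + S * ‖φ‖ + θ / 2 * S) + 2 * S * ‖φ‖ = (4 + 8 * ‖φ‖ / θ) * ‖Xn‖ := by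
      rw [hSdef]
      field_simp
      ring
    linarith
  · intro n
    have h1 := hN4 0 n (Nat.zero_le _) f hf
    rw [hfθ] at h1
    have h2 : ((1 : ℝ) / 2) ^ n ≤ 1 := pow_le_one₀ (by norm_num) (by norm_num)
    have h3 := (abs_le.1 h1).1
    nlinarith

end Q197.WideEst
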