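import Mathlib
import Pool.Agent.Q197.WideEst

/-!
# The affine map

From a sequence as in `WideEst` we build a bounded operator `T` on `X` with
`T v = v + Σ 2^{-(n+1)} W_{n+1}(v) (x_{n+1} - x_n)`, where `W_n` extends the functional
`Σ t_i x_i ↦ Σ_{i<n} t_i`.  All powers of `T` are uniformly bounded on the closed span of the
sequence, `T` maps the closed convex hull of the sequence into itself and has no fixed point there.
-/

set_option autoImplicit false
set_option maxSynthPendingDepth 3

namespace Q197.AffineShift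

open Filter Topology Finset NormedSpace Q197.WideEst

variable {X : Type*} [NormedAddCommGroup X] [NormedSpace ℝ X]

/-- Helly's moment lemma for sequences. -/
theorem moment (x : ℕ → X) (a : ℕ → ℝ) (C : ℝ) (hC : 0 ≤ C)
    (h : ∀ (t : ℕ → ℝ) (n : ℕ), |∑ i ∈ range n, t i * a i| ≤ C * ‖∑ i ∈ range n, t i • x i‖) :
    ∃ W : StrongDual ℝ X, (∀ i, W (x i) = a i) ∧ ‖W‖ ≤ C := by
  let Φ : (ℕ →₀ ℝ) →ₗ[ℝ] X := Finsupp.linearCombination ℝ x
  let A : (ℕ →₀ ℝ) →ₗ[ℝ] ℝ := Finsupp.linearCombination ℝ a
  have hAΦ : ∀ l : ℕ →₀ ℝ, |A l| ≤ C * ‖Φ l‖ := by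
    intro l
    obtain ⟨n, hn⟩ : ∃ n : ℕ, l.support ⊆ range n := by
      refine ⟨l.support.sup id + 1, fun i hi => ?_⟩
      rw [mem_range]
      exact Nat.lt_succ_of_le (Finset.le_sup (f := id) hi)
    have h1 : Φ l = ∑ i ∈ range n, l i • x i := by
      change Finsupp.linearCombination ℝ x l = _
      rw [Finsupp.linearCombination_apply, Finsupp.sum]
      exact Finset.sum_subset hn fun i _ hi => by
        rw [Finsupp.notMem_support_iff.1 hi, zero_smul]
    have h2 : A l = ∑ i ∈ range n, l i * a i := by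
      change Finsupp.linearCombination ℝ a l = _
      rw [Finsupp.linearCombination_apply, Finsupp.sum]
      exact Finset.sum_subset hn fun i _ hi => by
        rw [Finsupp.notMem_support_iff.1 hi, zero_smul]
    rw [h1, h2]
    exact h (fun i => l i) n
  have hker : LinearMap.ker Φ ≤ LinearMap.ker A := by
    intro l hl
    rw [LinearMap.mem_ker] at hl ⊢
    have := hAΦ l
    rw [hl, norm_zero, mul_zero] at this
    exact abs_nonpos_iff.1 this
  let f0 : LinearMap.range Φ →ₗ[ℝ] ℝ :=
    ((LinearMap.ker Φ).liftQ A hker).comp (Φ.quotKerEquivRange.symm : LinearMap.range Φ →ₗ[ℝ] _)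
  have hf0 : ∀ l : ℕ →₀ ℝ, f0 ⟨Φ l, LinearMap.mem_range_self Φ l⟩ = A l := by
    intro l
    change ((LinearMap.ker Φ).liftQ A hker) (Φ.quotKerEquivRange.symm ⟨Φ l, _⟩) = A l
    have : Φ.quotKerEquivRange.symm ⟨Φ l, LinearMap.mem_range_self Φ l⟩ =
        (LinearMap.ker Φ).mkQ l := by
      rw [LinearEquiv.symm_apply_eq]
      rfl
    rw [this]
    exact Submodule.liftQ_apply _ _ _
  let f : StrongDual ℝ (LinearMap.range Φ) := f0.mkContinuous C (by
    rintro ⟨v, l, rfl⟩
    rw [hf0 l, Real.norm_eq_abs]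
    exact hAΦ l)
  obtain ⟨W, hW, hWn⟩ := exists_extension_norm_eq (LinearMap.range Φ) f
  refine ⟨W, fun i => ?_, ?_⟩
  · have h1 : Φ (Finsupp.single i 1) = x i := by
      change Finsupp.linearCombination ℝ x _ = _
      simp
    have h2 : A (Finsupp.single i 1) = a i := by
      change Finsupp.linearCombination ℝ a _ = _
      simp
    have h3 := hW ⟨Φ (Finsupp.single i 1), LinearMap.mem_range_self Φ _⟩
    change W (Φ (Finsupp.single i 1)) = f0 ⟨Φ (Finsupp.single i 1), _⟩ at h3
    rw [hf0, h1, h2] at h3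
    exact h3
  · rw [hWn]
    exact LinearMap.mkContinuous_norm_le _ hC _

/-- The partial sum functionals. -/
theorem exists_W {x : ℕ → X} {C₁ C₂ : ℝ} (hx : Wide x C₁ C₂) (hC₁ : 0 ≤ C₁) :
    ∃ W : ℕ → StrongDual ℝ X, W 0 = 0 ∧ (∀ n i, W n (x i) = if i < n then 1 else 0) ∧
      ∀ n, ‖W n‖ ≤ 2 * C₁ := by
  have key : ∀ n : ℕ, ∃ W : StrongDual ℝ X, (∀ i, W (x i) = if i < n then 1 else 0) ∧
      ‖W‖ ≤ 2 * C₁ := by
    intro n
    refine moment x (fun i => if i < n then 1 else 0) (2 * C₁) (by positivity) ?_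
    intro t N
    have h1 : ∑ i ∈ range N, t i * (if i < n then (1 : ℝ) else 0) =
        ∑ i ∈ range (min n N), t i := by
      simp only [mul_ite, mul_one, mul_zero]
      rw [← Finset.sum_filter]
      refine Finset.sum_congr ?_ fun _ _ => rfl
      ext i; simp only [mem_filter, mem_range]; omega
    have h2 : ∑ i ∈ range (min n N), t i =
        ∑ i ∈ Ico 0 N, t i - ∑ i ∈ Ico (min n N) N, t i := by
      rw [← Finset.range_eq_Ico, ← Finset.sum_range_add_sum_Ico t (min_le_right n N)]; ring
    rw [h1, h2]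
    have h3 := hx.tail t N 0 (Nat.zero_le _)
    have h4 := hx.tail t N (min n N) (min_le_right n N)
    have h5 := abs_sub (∑ i ∈ Ico 0 N, t i) (∑ i ∈ Ico (min n N) N, t i)
    linarith
  choose W hW hWn using key
  refine ⟨fun n => if n = 0 then 0 else W n, by simp, ?_, ?_⟩
  · intro n i
    by_cases hn : n = 0
    · subst hn; simp
    · simp only [if_neg hn]; exact hW n i
  · intro n
    by_cases hn : n = 0
    · subst hn; simp only [if_true, norm_zero]; positivity
    · simp only [if_neg hn]; exact hWn n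

/-- Abel's inequality. -/
lemma abel_ineq (a : ℕ → X) (D : ℝ) (hD : ∀ j, ‖∑ n ∈ range j, a n‖ ≤ D) (c : ℕ → ℝ)
    (hc : Antitone c) (hc0 : ∀ n, 0 ≤ c n) (hc1 : ∀ n, c n ≤ 1) (m : ℕ) :
    ‖∑ n ∈ range m, c n • a n‖ ≤ D := by
  have hD0 : 0 ≤ D := (norm_nonneg _).trans (hD 0)
  have hform : ∀ m : ℕ, ∑ n ∈ range m, c n • a n = c m • ∑ n ∈ range m, a n +
      ∑ n ∈ range m, (c n - c (n + 1)) • ∑ i ∈ range (n + 1), a i := by
    intro m
    induction m with
    | zero => simp
    | succ m ih =>
      rw [Finset.sum_range_succ, ih, Finset.sum_range_succ (fun n => (c n - c (n + 1)) •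
        ∑ i ∈ range (n + 1), a i), Finset.sum_range_succ a m]
      module
  rw [hform]
  refine (norm_add_le _ _).trans ?_
  have h1 : ‖c m • ∑ n ∈ range m, a n‖ ≤ c m * D := by
    rw [norm_smul, Real.norm_of_nonneg (hc0 m)]
    exact mul_le_mul_of_nonneg_left (hD m) (hc0 m)
  have h2 : ‖∑ n ∈ range m, (c n - c (n + 1)) • ∑ i ∈ range (n + 1), a i‖ ≤ (c 0 - c m) * D := by
    refine (norm_sum_le _ _).trans ?_
    have h3 : ∀ n ∈ range m, ‖(c n - c (n + 1)) • ∑ i ∈ range (n + 1), a i‖ ≤
        (c n - c (n + 1)) * D := by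
      intro n _
      have h4 : 0 ≤ c n - c (n + 1) := sub_nonneg.2 (hc (Nat.le_succ n))
      rw [norm_smul, Real.norm_of_nonneg h4]
      exact mul_le_mul_of_nonneg_left (hD _) h4
    refine (Finset.sum_le_sum h3).trans (le_of_eq ?_)
    rw [← Finset.sum_mul, Finset.sum_range_sub']
  have h5 : c m * D + (c 0 - c m) * D = c 0 * D := by ring
  have h6 : c 0 * D ≤ 1 * D := mul_le_mul_of_nonneg_right (hc1 0) hD0
  linarith

/-- The weights. -/
noncomputable def δ (n : ℕ) : ℝ := (1 / 2) ^ (n + 1)

lemma δ_pos (n : ℕ) : 0 < δ n := by unfold δ; positivity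
lemma δ_le (n : ℕ) : δ n ≤ 1 / 2 := by
  unfold δ
  rw [pow_succ]
  have : ((1 : ℝ) / 2) ^ n ≤ 1 := pow_le_one₀ (by norm_num) (by norm_num)
  linarith
lemma δ_succ (n : ℕ) : δ (n + 1) = δ n / 2 := by unfold δ; rw [pow_succ]; ring
lemma δ_anti : Antitone δ := by
  refine antitone_nat_of_succ_le fun n => ?_
  rw [δ_succ]; linarith [δ_pos n]
lemma δ_summable : Summable δ := by
  unfold δ
  exact (summable_nat_add_iff 1).2 summable_geometric_two

lemma coeff_mem (k n : ℕ) : 0 ≤ 1 - (1 - δ n) ^ k ∧ 1 - (1 - δ n) ^ k ≤ 1 := by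
  have h1 : 0 ≤ 1 - δ n := by linarith [δ_le n]
  have h2 : 1 - δ n ≤ 1 := by linarith [δ_pos n]
  have h3 := pow_le_one₀ (n := k) h1 h2
  have h4 := pow_nonneg h1 k
  constructor <;> linarith

lemma coeff_anti (k : ℕ) : Antitone fun n => 1 - (1 - δ n) ^ k := by
  intro a b hab
  have h1 : 0 ≤ 1 - δ a := by linarith [δ_le a]
  have h2 : 1 - δ a ≤ 1 - δ b := by linarith [δ_anti hab]
  have := pow_le_pow_left₀ h1 h2 k
  dsimp only
  linarith

/-- The main construction. -/
theorem main [CompleteSpace X] {x : ℕ → X} {C₁ C₂ R : ℝ} (hx : Wide x C₁ C₂) (hC₁ : 0 ≤ C₁)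
    (hR : ∀ n, ‖x n‖ ≤ R) (f : StrongDual ℝ X) (c : ℝ) (hc : 0 < c) (hf : ∀ n, c ≤ f (x n)) :
    ∃ (T : X →L[ℝ] X) (L : ℝ), 0 < L ∧
      (∀ v ∈ closure (convexHull ℝ (Set.range x)), T v ∈ closure (convexHull ℝ (Set.range x))) ∧
      (∀ v ∈ (Submodule.span ℝ (Set.range x)).topologicalClosure, ∀ k : ℕ,
        ‖(T ^ k) v‖ ≤ L * ‖v‖) ∧
      (∀ v ∈ closure (convexHull ℝ (Set.range x)), T v ≠ v) := by
  obtain ⟨W, hW0, hW, hWn⟩ := exists_W hx hC₁
  have hR0 : 0 ≤ R := (norm_nonneg _).trans (hR 0)
  let term : ℕ → (X →L[ℝ] X) := fun n => (W (n + 1)).smulRight (x (n + 1) - x n)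
  have hterm : ∀ n, ‖term n‖ ≤ 2 * C₁ * (2 * R) := by
    intro n
    change ‖(W (n + 1)).smulRight (x (n + 1) - x n)‖ ≤ _
    rw [ContinuousLinearMap.norm_smulRight_apply]
    refine mul_le_mul (hWn _) ?_ (norm_nonneg _) (by positivity)
    have := norm_sub_le (x (n + 1)) (x n)
    linarith [hR n, hR (n + 1)]
  have hsumT : Summable fun n => δ n • term n := by
    refine Summable.of_norm_bounded (g := fun n => δ n * (2 * C₁ * (2 * R)))
      (δ_summable.mul_right _) fun n => ?_
    rw [norm_smul, Real.norm_of_nonneg (δ_pos n).le]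
    exact mul_le_mul_of_nonneg_left (hterm n) (δ_pos n).le
  let T : X →L[ℝ] X := 1 + ∑' n, δ n • term n
  have hT : ∀ v, HasSum (fun n => (δ n * W (n + 1) v) • (x (n + 1) - x n)) (T v - v) := by
    intro v
    have h1 := (ContinuousLinearMap.apply ℝ X v).hasSum hsumT.hasSum
    have h2 : (ContinuousLinearMap.apply ℝ X v) (∑' n, δ n • term n) = T v - v := by
      change (∑' n, δ n • term n) v = (v + (∑' n, δ n • term n) v) - v
      abel
    rw [h2] at h1
    refine h1.congr_fun ?_ |> fun h => h
    intro n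
    change (δ n * W (n + 1) v) • (x (n + 1) - x n) = δ n • (W (n + 1) v • (x (n + 1) - x n))
    rw [smul_smul]
  have hdiff : ∀ n m, W (n + 1) (x (m + 1) - x m) = if m = n then -1 else 0 := by
    intro n m
    rw [map_sub, hW, hW]
    by_cases h : m = n
    · subst h; simp
    · rw [if_neg h]
      by_cases h2 : m < n
      · rw [if_pos (by omega), if_pos (by omega), sub_self]
      · rw [if_neg (by omega), if_neg (by omega), sub_self]
  have hWT : ∀ n v, W (n + 1) (T v) = (1 - δ n) * W (n + 1) v := by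
    intro n v
    have h1 := (W (n + 1)).hasSum (hT v)
    have h2 : HasSum (fun m => W (n + 1) ((δ m * W (m + 1) v) • (x (m + 1) - x m)))
        (-(δ n * W (n + 1) v)) := by
      have h3 : ∀ m, m ≠ n → W (n + 1) ((δ m * W (m + 1) v) • (x (m + 1) - x m)) = 0 := by
        intro m hm
        rw [map_smul, hdiff, if_neg hm, smul_zero]
      have h4 := hasSum_single n h3
      have h5 : W (n + 1) ((δ n * W (n + 1) v) • (x (n + 1) - x n)) = -(δ n * W (n + 1) v) := by
        rw [map_smul, hdiff, if_pos rfl, smul_eq_mul]; ring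
      rwa [h5] at h4
    have h6 := h1.unique h2
    rw [map_sub] at h6
    linarith
  have hWTk : ∀ k n v, W (n + 1) ((T ^ k) v) = (1 - δ n) ^ k * W (n + 1) v := by
    intro k
    induction k with
    | zero => intro n v; simp
    | succ k ih =>
      intro n v
      rw [pow_succ' T k, mul_apply_eq_comp, hWT, ih, pow_succ]
      ring
  have hTk : ∀ (k : ℕ) (v : X), HasSum (fun n => ((1 - (1 - δ n) ^ k) * W (n + 1) v) •
      (x (n + 1) - x n)) ((T ^ k) v - v) := by
    intro k
    induction k with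
    | zero => intro v; simp
    | succ k ih =>
      intro v
      have h1 := (hT ((T ^ k) v)).add (ih v)
      have h2 : T ((T ^ k) v) - (T ^ k) v + ((T ^ k) v - v) = (T ^ (k + 1)) v - v := by
        rw [pow_succ' T k, mul_apply_eq_comp]; abel
      rw [h2] at h1
      refine h1.congr_fun ?_ |> fun h => h
      intro n
      rw [hWTk, ← add_smul]
      congr 1
      rw [pow_succ]; ring
  -- partial sums
  let P : ℕ → X → X := fun j v => ∑ n ∈ range j, (W (n + 1) v - W n v) • x n
  have hPcont : ∀ j, Continuous (P j) := by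
    intro j
    refine continuous_finsetSum _ fun n _ => ?_
    exact ((W (n + 1)).continuous.sub (W n).continuous).smul continuous_const
  have hrep : ∀ v ∈ Submodule.span ℝ (Set.range x), ∃ (t : ℕ → ℝ) (N : ℕ),
      (∀ i, N ≤ i → t i = 0) ∧ ∀ M, N ≤ M → v = ∑ i ∈ range M, t i • x i := by
    intro v hv
    rw [Finsupp.mem_span_range_iff_exists_finsupp] at hv
    obtain ⟨l, hl⟩ := hv
    refine ⟨fun i => l i, l.support.sup id + 1, ?_, ?_⟩
    · intro i hi
      by_contra hne
      have : i ∈ l.support := Finsupp.mem_support_iff.2 hne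
      have := Finset.le_sup (f := id) this
      simp only [id] at this
      omega
    · intro M hM
      rw [← hl, Finsupp.sum]
      refine Finset.sum_subset ?_ fun i _ hi => by
        rw [Finsupp.notMem_support_iff.1 hi, zero_smul]
      intro i hi
      rw [mem_range]
      have := Finset.le_sup (f := id) hi
      simp only [id] at this
      omega
  have hWrep : ∀ (t : ℕ → ℝ) (N : ℕ) (v : X), (∀ i, N ≤ i → t i = 0) →
      (∀ M, N ≤ M → v = ∑ i ∈ range M, t i • x i) → ∀ n, W (n + 1) v - W n v = t n := by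
    intro t N v ht hv n
    have hM := hv (max N (n + 1)) (le_max_left _ _)
    rw [hM, map_sum, map_sum, ← Finset.sum_sub_distrib]
    rw [Finset.sum_eq_single n]
    · rw [map_smul, map_smul, hW, hW, if_pos (by omega), if_neg (by omega)]; simp
    · intro i _ hi
      rw [map_smul, map_smul, hW, hW]
      by_cases h : i < n
      · rw [if_pos (by omega), if_pos h, sub_self]
      · rw [if_neg (by omega), if_neg h, sub_self]
    · intro h
      exact absurd (mem_range.2 (lt_of_lt_of_le (Nat.lt_succ_self n) (le_max_right _ _))) h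
  have hPspan : ∀ j, ∀ v ∈ Submodule.span ℝ (Set.range x), ‖P j v‖ ≤ C₂ * ‖v‖ := by
    intro j v hv
    obtain ⟨t, N, ht, hvt⟩ := hrep v hv
    have h1 : P j v = ∑ n ∈ range j, t n • x n :=
      Finset.sum_congr rfl fun n _ => by rw [hWrep t N v ht hvt n]
    rw [h1, hvt (max N j) (le_max_left _ _)]
    exact hx.part t (max N j) j (le_max_right _ _)
  have hPE : ∀ j, ∀ v ∈ (Submodule.span ℝ (Set.range x)).topologicalClosure,
      ‖P j v‖ ≤ C₂ * ‖v‖ := by
    intro j v hv
    have hcl : IsClosed {v : X | ‖P j v‖ ≤ C₂ * ‖v‖} :=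
      isClosed_le (hPcont j).norm (continuous_const.mul continuous_norm)
    exact closure_minimal (fun w hw => hPspan j w hw) hcl hv
  have hG : ∀ j v, ∑ n ∈ range j, W (n + 1) v • (x (n + 1) - x n) = W j v • x j - P j v := by
    intro j v
    induction j with
    | zero => simp [P, hW0]
    | succ j ih =>
      rw [Finset.sum_range_succ, ih]
      change W j v • x j - P j v + W (j + 1) v • (x (j + 1) - x j) =
        W (j + 1) v • x (j + 1) - ∑ n ∈ range (j + 1), (W (n + 1) v - W n v) • x n
      rw [Finset.sum_range_succ]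
      change _ = W (j + 1) v • x (j + 1) - (P j v + (W (j + 1) v - W j v) • x j)
      module
  set E := (Submodule.span ℝ (Set.range x)).topologicalClosure with hE
  have hGE : ∀ j, ∀ v ∈ E, ‖∑ n ∈ range j, W (n + 1) v • (x (n + 1) - x n)‖ ≤
      (2 * C₁ * R + C₂) * ‖v‖ := by
    intro j v hv
    rw [hG]
    refine (norm_sub_le _ _).trans ?_
    rw [norm_smul, add_mul]
    refine add_le_add ?_ (hPE j v hv)
    have h1 := (W j).le_opNorm v
    calc ‖W j v‖ * ‖x j‖ ≤ (2 * C₁ * ‖v‖) * R := by
          refine mul_le_mul ?_ (hR j) (norm_nonneg _) (by positivity)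
          exact h1.trans (mul_le_mul_of_nonneg_right (hWn j) (norm_nonneg _))
      _ = 2 * C₁ * R * ‖v‖ := by ring
  have hTkE : ∀ v ∈ E, ∀ k : ℕ, ‖(T ^ k) v - v‖ ≤ (2 * C₁ * R + C₂) * ‖v‖ := by
    intro v hv k
    have hlim := (hTk k v).tendsto_sum_nat
    refine le_of_tendsto hlim.norm (Eventually.of_forall fun m => ?_)
    have := abel_ineq (fun n => W (n + 1) v • (x (n + 1) - x n)) _ (fun j => hGE j v hv)
      (fun n => 1 - (1 - δ n) ^ k) (coeff_anti k) (fun n => (coeff_mem k n).1)
      (fun n => (coeff_mem k n).2) m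
    simpa only [smul_smul] using this
  -- the convex hull
  set K := closure (convexHull ℝ (Set.range x)) with hK
  have hKconv : Convex ℝ K := (convex_convexHull ℝ _).closure
  have hxK : ∀ i, x i ∈ convexHull ℝ (Set.range x) := fun i =>
    subset_convexHull ℝ _ ⟨i, rfl⟩
  have hTx : ∀ i, T (x i) ∈ K := by
    intro i
    have hlim := (hT (x i)).tendsto_sum_nat
    have hlim2 : Tendsto (fun m => x i + ∑ n ∈ range m, (δ n * W (n + 1) (x i)) •
        (x (n + 1) - x n)) atTop (𝓝 (T (x i))) := by
      have := hlim.const_add (x i)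
      have h2 : x i + (T (x i) - x i) = T (x i) := by abel
      rwa [h2] at this
    refine mem_closure_of_tendsto hlim2 (Eventually.of_forall fun m => ?_)
    -- the partial sums stay in the convex hull
    have hlow : ∀ m ≤ i, x i + ∑ n ∈ range m, (δ n * W (n + 1) (x i)) • (x (n + 1) - x n) =
        x i := by
      intro m hm
      rw [Finset.sum_eq_zero, add_zero]
      intro n hn
      have := mem_range.1 hn
      rw [hW, if_neg (by omega)]; simp
    have hhigh : ∀ e : ℕ, ∃ a ∈ convexHull ℝ (Set.range x),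
        x i + ∑ n ∈ range (i + e), (δ n * W (n + 1) (x i)) • (x (n + 1) - x n) =
          (1 - δ (i + e)) • a + δ (i + e) • x (i + e) := by
      intro e
      induction e with
      | zero =>
        refine ⟨x i, hxK i, ?_⟩
        rw [add_zero, hlow i le_rfl]
        module
      | succ e ih =>
        obtain ⟨a, ha, hsum⟩ := ih
        have hd1 := δ_pos (i + e)
        have hd2 := δ_le (i + e)
        have hs : δ (i + (e + 1)) = δ (i + e) / 2 := by rw [← add_assoc, δ_succ]
        have hpos : 0 < 1 - δ (i + e) / 2 := by linarith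
        refine ⟨((1 - δ (i + e)) / (1 - δ (i + e) / 2)) • a +
          ((δ (i + e) / 2) / (1 - δ (i + e) / 2)) • x (i + e + 1), ?_, ?_⟩
        · refine convex_convexHull ℝ _ ha (hxK _) (by apply div_nonneg <;> linarith)
            (by apply div_nonneg <;> linarith) ?_
          rw [← add_div, div_eq_one_iff_eq hpos.ne']
          ring
        · rw [← add_assoc i e 1, Finset.sum_range_succ, ← add_assoc, hsum, hW,
            if_pos (by omega), mul_one, add_assoc i e 1, hs, smul_add, smul_smul, smul_smul,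
            mul_div_cancel₀ _ hpos.ne', mul_div_cancel₀ _ hpos.ne']
          module
    rcases Nat.lt_or_ge m i with h | h
    · rw [hlow m h.le]; exact hxK i
    · obtain ⟨e, rfl⟩ := Nat.exists_eq_add_of_le h
      obtain ⟨a, ha, hsum⟩ := hhigh e
      rw [hsum]
      exact convex_convexHull ℝ _ ha (hxK _) (by linarith [δ_le (i + e)]) (δ_pos _).le (by ring)
  have hTK : ∀ v ∈ K, T v ∈ K := by
    intro v hv
    have h1 : T '' (convexHull ℝ (Set.range x)) ⊆ K := by
      have h2 : T '' (convexHull ℝ (Set.range x)) = convexHull ℝ (T '' Set.range x) :=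
        LinearMap.image_convexHull (T : X →ₗ[ℝ] X) (Set.range x)
      rw [h2]
      refine convexHull_min ?_ hKconv
      rintro _ ⟨_, ⟨i, rfl⟩, rfl⟩
      exact hTx i
    have h3 : T v ∈ closure (T '' (convexHull ℝ (Set.range x))) :=
      image_closure_subset_closure_image T.continuous ⟨v, hv, rfl⟩
    exact closure_minimal h1 isClosed_closure h3
  have hKE : K ⊆ E := by
    refine closure_mono ?_
    exact convexHull_min Submodule.subset_span (Submodule.convex _)
  have hfK : ∀ v ∈ K, c ≤ f v := by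
    intro v hv
    have hcl : IsClosed {v : X | c ≤ f v} := isClosed_le continuous_const f.continuous
    refine closure_minimal (convexHull_min ?_ ?_) hcl hv
    · rintro _ ⟨i, rfl⟩; exact hf i
    · exact convex_halfSpace_ge f.toLinearMap.isLinear c
  refine ⟨T, 1 + |2 * C₁ * R + C₂|, by positivity, hTK, ?_, ?_⟩
  · intro v hv k
    have h1 : (T ^ k) v = ((T ^ k) v - v) + v := by abel
    rw [h1]
    refine (norm_add_le _ _).trans ?_
    have h2 := hTkE v hv k
    have h3 : (2 * C₁ * R + C₂) * ‖v‖ ≤ |2 * C₁ * R + C₂| * ‖v‖ :=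
      mul_le_mul_of_nonneg_right (le_abs_self _) (norm_nonneg _)
    linarith
  · intro v hv hfix
    have hWv : ∀ n, W (n + 1) v = 0 := by
      intro n
      have h1 := hWT n v
      rw [hfix] at h1
      have h2 : δ n * W (n + 1) v = 0 := by linarith
      exact (mul_eq_zero.1 h2).resolve_left (δ_pos n).ne'
    have hWv' : ∀ n, W n v = 0 := by
      intro n
      cases n with
      | zero => rw [hW0]; rfl
      | succ n => exact hWv n
    have hPv : ∀ j, P j v = 0 := fun j =>
      Finset.sum_eq_zero fun n _ => by rw [hWv' n, hWv' (n + 1), sub_self, zero_smul]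
    have hv0 : ‖v‖ ≤ 0 := by
      refine le_of_forall_pos_le_add fun ε hε => ?_
      rw [zero_add]
      have hvE : v ∈ closure (Submodule.span ℝ (Set.range x) : Set X) := hKE hv
      set η : ℝ := ε / (1 + |C₂|) with hη
      have hη0 : 0 < η := by positivity
      obtain ⟨w, hw, hvw⟩ := Metric.mem_closure_iff.1 hvE η hη0
      rw [dist_eq_norm] at hvw
      obtain ⟨t, N, ht, hvt⟩ := hrep w hw
      have hPw : P N w = w := by
        have h1 : P N w = ∑ n ∈ range N, t n • x n :=
          Finset.sum_congr rfl fun n _ => by rw [hWrep t N w ht hvt n]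
        rw [h1, ← hvt N le_rfl]
      have hPvw : P N (v - w) = - w := by
        have h1 : P N (v - w) = P N v - P N w := by
          simp only [P]
          rw [← Finset.sum_sub_distrib]
          refine Finset.sum_congr rfl fun n _ => ?_
          rw [map_sub, map_sub]
          module
        rw [h1, hPv, hPw, zero_sub]
      have hmem : v - w ∈ E := E.sub_mem (hKE hv) ((Submodule.le_topologicalClosure _) hw)
      have h2 := hPE N (v - w) hmem
      rw [hPvw, norm_neg] at h2
      have h3 : ‖v‖ ≤ ‖v - w‖ + ‖w‖ := by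
        have := norm_add_le (v - w) w
        simpa using this
      have h4 : C₂ * ‖v - w‖ ≤ |C₂| * ‖v - w‖ :=
        mul_le_mul_of_nonneg_right (le_abs_self _) (norm_nonneg _)
      have h5 : ‖v‖ ≤ (1 + |C₂|) * ‖v - w‖ := by linarith
      have h6 : (1 + |C₂|) * ‖v - w‖ ≤ (1 + |C₂|) * η :=
        mul_le_mul_of_nonneg_left hvw.le (by positivity)
      have h7 : (1 + |C₂|) * η = ε := by
        rw [hη]; field_simp
      linarith
    have hv00 : v = 0 := norm_le_zero_iff.1 hv0
    have := hfK v hv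
    rw [hv00, map_zero] at this
    linarith

end Q197.AffineShift
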