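import Pool.Agent.Q197.CutPack

/-!
# Eulerian orientations and the finite case of the Beurling set theorem
-/

set_option autoImplicit false
set_option linter.unusedSectionVars false

namespace Pool.Agent.Q197.BeurFin

open Finset Pool.Agent.Q197.CutPack

variable {V E : Type*} [DecidableEq V] [DecidableEq E]

lemma bd_erase (s t : E → V) {C : Finset E} {g : E} (hg : g ∈ C) (v : V) :
    bd s t C v = (ind (s g = v) + ind (t g = v)) + bd s t (C.erase g) v := by
  unfold bd
  rw [Finset.add_sum_erase C (fun e => ind (s e = v) + ind (t e = v)) hg]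

/-- Every edge set with all degrees even has an Eulerian orientation. -/
theorem orient (n : ℕ) : ∀ (C : Finset E), C.card = n → ∀ (s t : E → V),
    (∀ v, bd s t C v = 0) → ∃ o : E → ℝ, (∀ e, o e = 1 ∨ o e = -1) ∧
      ∀ f : V → ℝ, ∑ e ∈ C, o e * (f (s e) - f (t e)) = 0 := by
  induction n with
  | zero =>
    intro C hC s t _
    rw [Finset.card_eq_zero] at hC
    refine ⟨fun _ => 1, fun _ => Or.inl rfl, fun f => ?_⟩
    rw [hC, Finset.sum_empty]
  | succ n ih =>
    intro C hC s t hbd
    have hne : C.Nonempty := by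
      rw [← Finset.card_pos, hC]; omega
    obtain ⟨e, he⟩ := hne
    by_cases hloop : s e = t e
    · obtain ⟨o, ho, hsum⟩ := ih (C.erase e) (by rw [Finset.card_erase_of_mem he, hC]; rfl) s t
        (fun v => by
          have := hbd v
          rw [bd_erase s t he, hloop, two_eq, zero_add] at this
          exact this)
      refine ⟨o, ho, fun f => ?_⟩
      rw [← Finset.add_sum_erase C _ he, hsum f, hloop, sub_self, mul_zero, add_zero]
    · -- another edge at the end of `e`
      have hex : ∃ g ∈ C.erase e, (ind (s g = t e) + ind (t g = t e)) ≠ 0 := by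
        by_contra hcon
        push Not at hcon
        have h1 := hbd (t e)
        rw [bd_erase s t he] at h1
        have h2 : bd s t (C.erase e) (t e) = 0 := by
          unfold bd
          exact Finset.sum_eq_zero hcon
        rw [h2] at h1
        unfold ind at h1
        simp [hloop] at h1
      obtain ⟨g, hg, hgne⟩ := hex
      have hgC : g ∈ C := Finset.mem_of_mem_erase hg
      have hge : g ≠ e := Finset.ne_of_mem_erase hg
      have heg : e ∈ C.erase g := Finset.mem_erase.2 ⟨hge.symm, he⟩
      have hcard : (C.erase g).card = n := by rw [Finset.card_erase_of_mem hgC, hC]; rfl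
      have hrest : ∀ (w z : V), bd s (Function.update t e w) ((C.erase g).erase e) z =
          bd s t ((C.erase g).erase e) z := by
        intro w z
        unfold bd
        refine Finset.sum_congr rfl fun a ha => ?_
        rw [Function.update_of_ne (Finset.ne_of_mem_erase ha)]
      have hz : ∀ z, (ind (s g = z) + ind (t g = z)) + ((ind (s e = z) + ind (t e = z)) +
          bd s t ((C.erase g).erase e) z) = 0 := by
        intro z
        rw [← bd_erase s t heg, ← bd_erase s t hgC]
        exact hbd z
      -- the general step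
      have step : ∀ (w : V) (c : ℝ), (c = 1 ∨ c = -1) →
          (∀ z, (ind (s g = z) + ind (t g = z)) = ind (t e = z) + ind (w = z)) →
          (∀ f : V → ℝ, c * (f (s g) - f (t g)) = f (t e) - f w) →
          ∃ o : E → ℝ, (∀ e, o e = 1 ∨ o e = -1) ∧
            ∀ f : V → ℝ, ∑ e ∈ C, o e * (f (s e) - f (t e)) = 0 := by
        intro w c hc hw hf
        obtain ⟨o, ho, hsum⟩ := ih (C.erase g) hcard s (Function.update t e w) (fun z => by
          rw [bd_erase _ _ heg, hrest, Function.update_self]
          have h1 := hz z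
          rw [hw z] at h1
          have h2 := two_eq (ind (t e = z))
          linear_combination h1 - h2)
        refine ⟨Function.update o g (c * o e), ?_, fun f => ?_⟩
        · intro a
          by_cases ha : a = g
          · rw [ha, Function.update_self]
            rcases hc with h | h <;> rcases ho e with h' | h' <;> rw [h, h'] <;> norm_num
          · rw [Function.update_of_ne ha]
            exact ho a
        · have h3 := hsum f
          rw [← Finset.add_sum_erase _ _ heg, Function.update_self] at h3
          rw [← Finset.add_sum_erase _ _ hgC, ← Finset.add_sum_erase _ _ heg, Function.update_self,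
            Function.update_of_ne hge.symm]
          have h4 : ∑ a ∈ (C.erase g).erase e, Function.update o g (c * o e) a * (f (s a) - f (t a)) =
              ∑ a ∈ (C.erase g).erase e, o a * (f (s a) - f (Function.update t e w a)) := by
            refine Finset.sum_congr rfl fun a ha => ?_
            rw [Function.update_of_ne (Finset.ne_of_mem_erase ha),
              Function.update_of_ne (Finset.ne_of_mem_erase (Finset.mem_of_mem_erase ha))]
          rw [h4]
          have h5 := hf f
          linear_combination h3 + o e * h5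
      by_cases h1 : s g = t e
      · refine step (t g) 1 (Or.inl rfl) (fun z => by rw [h1]) (fun f => by rw [h1, one_mul])
      · by_cases h2 : t g = t e
        · refine step (s g) (-1) (Or.inr rfl) (fun z => by rw [h2, add_comm])
            (fun f => by rw [h2]; ring)
        · exfalso
          apply hgne
          simp [ind, h1, h2]

section Fin

variable {X I : Type*} [PseudoMetricSpace X] [DecidableEq X] [DecidableEq I]

/-- the edges: all pairs of points of `A`, and the pairs of the family with index in `F` -/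
abbrev Ed (A : Finset X) (F : Finset I) : Type _ := (↥A × ↥A) ⊕ ↥F

/-- initial points -/
def src (A : Finset X) (F : Finset I) (x : I → X) (hx : ∀ i ∈ F, x i ∈ A) : Ed A F → ↥A :=
  Sum.elim (fun p => p.1) (fun i => ⟨x i, hx i i.2⟩)

/-- terminal points -/
def tgt (A : Finset X) (F : Finset I) (y : I → X) (hy : ∀ i ∈ F, y i ∈ A) : Ed A F → ↥A :=
  Sum.elim (fun p => p.2) (fun i => ⟨y i, hy i i.2⟩)

/-- weights -/
noncomputable def wt (A : Finset X) (F : Finset I) (x y : I → X) (K : ℝ) : Ed A F → ℝ :=
  Sum.elim (fun p => K * dist (p.1 : X) (p.2 : X)) (fun i => - dist (x i) (y i))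

/-- Interpolation with constant `K` makes the weight conservative. -/
lemma cons_of_interp {A : Finset X} {F : Finset I} {x y : I → X} (hx : ∀ i ∈ F, x i ∈ A)
    (hy : ∀ i ∈ F, y i ∈ A) {K : ℝ}
    (h : ∀ α : I → ℝ, (∀ i, |α i| ≤ 1) → ∃ g : X → ℝ, (∀ u v, |g u - g v| ≤ K * dist u v) ∧
      ∀ i, g (x i) - g (y i) = α i * dist (x i) (y i)) :
    Cons (src A F x hx) (tgt A F y hy) (wt A F x y K) := by
  intro C hC
  obtain ⟨o, ho, hsum⟩ := orient C.card C rfl _ _ hC
  obtain ⟨g, hg, hgi⟩ := h (fun i => if hi : i ∈ F then o (Sum.inr ⟨i, hi⟩) else 0) (by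
    intro i
    by_cases hi : i ∈ F
    · rw [dif_pos hi]
      rcases ho (Sum.inr ⟨i, hi⟩) with h' | h' <;> rw [h'] <;> norm_num
    · rw [dif_neg hi]
      norm_num)
  have h1 := hsum (fun v => g v)
  have h2 : ∀ e ∈ C, - wt A F x y K e ≤
      o e * (g (src A F x hx e) - g (tgt A F y hy e)) := by
    intro e _
    rcases e with ⟨u, v⟩ | i
    · change - (K * dist (u : X) (v : X)) ≤ o (Sum.inl (u, v)) * (g u - g v)
      have h3 := abs_le.1 (hg u v)
      rcases ho (Sum.inl (u, v)) with h' | h' <;> rw [h'] <;> linarith [h3.1, h3.2]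
    · change - (- dist (x i) (y i)) ≤ o (Sum.inr i) * (g (x i) - g (y i))
      rw [hgi i, dif_pos i.2]
      rcases ho (Sum.inr i) with h' | h' <;> rw [h'] <;> linarith
  have h3 := Finset.sum_le_sum h2
  rw [h1, Finset.sum_neg_distrib] at h3
  linarith

/-- The finite case. -/
lemma finite_case {A : Finset X} {F : Finset I} {x y : I → X} (hx : ∀ i ∈ F, x i ∈ A)
    (hy : ∀ i ∈ F, y i ∈ A) (hd : ∀ i ∈ F, 0 < dist (x i) (y i)) {M : ℝ} (hM : 0 ≤ M)
    (hC : Cons (src A F x hx) (tgt A F y hy) (wt A F x y M)) :
    ∃ g : I → X → ℝ, (∀ i ∈ F, ∀ j ∈ F, g i (x j) - g i (y j) =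
        if i = j then dist (x j) (y j) else 0) ∧
      ∀ u ∈ A, ∀ v ∈ A, ∑ i ∈ F, |g i u - g i v| ≤ M * dist u v := by
  classical
  obtain ⟨w, hw0, hwg, hw1, hw2⟩ := pack hC
  set s := src A F x hx with hs
  set t := tgt A F y hy with ht
  have hneg : ∀ i : ↥F, wt A F x y M (Sum.inr i) < 0 := by
    intro i
    change - dist (x i) (y i) < 0
    linarith [hd i i.2]
  have hpos : ∀ p : ↥A × ↥A, 0 ≤ wt A F x y M (Sum.inl p) := by
    intro p
    change 0 ≤ M * dist (p.1 : X) (p.2 : X)
    positivity
  -- membership indicator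
  set χ : Finset ↥A → X → ℝ := fun B v => if ∃ h : v ∈ A, (⟨v, h⟩ : ↥A) ∈ B then 1 else 0 with hχ
  have hχmem : ∀ (B : Finset ↥A) (v : X) (hv : v ∈ A), (⟨v, hv⟩ : ↥A) ∈ B → χ B v = 1 := by
    intro B v hv h
    rw [hχ]
    exact if_pos ⟨hv, h⟩
  have hχnot : ∀ (B : Finset ↥A) (v : X) (hv : v ∈ A), (⟨v, hv⟩ : ↥A) ∉ B → χ B v = 0 := by
    intro B v hv h
    rw [hχ]
    exact if_neg (fun ⟨_, h'⟩ => h h')
  -- coefficients
  set c : I → Finset ↥A → ℝ := fun i B =>
    if h : i ∈ F then (if Cut s t B (Sum.inr ⟨i, h⟩) then w B else 0) else 0 with hc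
  refine ⟨fun i v => ∑ B, c i B * (χ B (x i) - χ B (y i)) * χ B v, ?_, ?_⟩
  · intro i hi j hj
    simp only
    rw [← Finset.sum_sub_distrib]
    by_cases hij : i = j
    · subst hij
      rw [if_pos rfl]
      have h1 := hw2 (Sum.inr ⟨i, hi⟩) (hneg ⟨i, hi⟩)
      have h2 : - wt A F x y M (Sum.inr ⟨i, hi⟩) = dist (x i) (y i) := by
        change - (- dist (x i) (y i)) = _
        ring
      rw [h2] at h1
      rw [← h1, tot, Finset.sum_filter]
      refine Finset.sum_congr rfl fun B _ => ?_
      rw [hc]
      simp only [dif_pos hi]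
      by_cases hcut : Cut s t B (Sum.inr ⟨i, hi⟩)
      · rw [if_pos hcut]
        rcases hcut with ⟨h3, h4⟩ | ⟨h3, h4⟩
        · have h5 : χ B (x i) = 1 := hχmem B (x i) (hx i hi) h3
          have h6 : χ B (y i) = 0 := hχnot B (y i) (hy i hi) h4
          rw [h5, h6]
          ring
        · have h5 : χ B (x i) = 0 := hχnot B (x i) (hx i hi) h3
          have h6 : χ B (y i) = 1 := hχmem B (y i) (hy i hi) h4
          rw [h5, h6]
          ring
      · rw [if_neg hcut]
        ring
    · rw [if_neg hij]
      refine Finset.sum_eq_zero fun B _ => ?_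
      rw [hc]
      simp only [dif_pos hi]
      by_cases hcut : Cut s t B (Sum.inr ⟨i, hi⟩)
      · rw [if_pos hcut]
        by_cases hg : Good s t (wt A F x y M) B
        · obtain ⟨e, he, hce, hu⟩ := hg
          have h7 := hu _ (hneg ⟨i, hi⟩) hcut
          have h8 : ¬ Cut s t B (Sum.inr ⟨j, hj⟩) := by
            intro h9
            have h10 := hu _ (hneg ⟨j, hj⟩) h9
            have h11 := h7.trans h10.symm
            exact hij (congrArg Subtype.val (Sum.inr_injective h11))
          have h9 : χ B (x j) = χ B (y j) := by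
            by_cases h10 : (⟨x j, hx j hj⟩ : ↥A) ∈ B
            · by_cases h11 : (⟨y j, hy j hj⟩ : ↥A) ∈ B
              · rw [hχmem B _ _ h10, hχmem B _ _ h11]
              · exact absurd (Or.inl ⟨h10, h11⟩) h8
            · by_cases h11 : (⟨y j, hy j hj⟩ : ↥A) ∈ B
              · exact absurd (Or.inr ⟨h10, h11⟩) h8
              · rw [hχnot B _ _ h10, hχnot B _ _ h11]
          rw [h9, sub_self]
        · rw [hwg B hg]
          ring
      · rw [if_neg hcut]
        ring
  · intro u hu v hv
    have h1 := hw1 (Sum.inl (⟨u, hu⟩, ⟨v, hv⟩)) (hpos _)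
    change tot s t w _ ≤ M * dist u v at h1
    refine le_trans ?_ h1
    rw [tot, Finset.sum_filter]
    -- bound each term
    have hD : ∀ B : Finset ↥A, |χ B u - χ B v| =
        if Cut s t B (Sum.inl (⟨u, hu⟩, ⟨v, hv⟩)) then 1 else 0 := by
      intro B
      by_cases h10 : (⟨u, hu⟩ : ↥A) ∈ B
      · by_cases h11 : (⟨v, hv⟩ : ↥A) ∈ B
        · rw [hχmem B _ _ h10, hχmem B _ _ h11, if_neg]
          · simp
          · rintro (⟨-, h⟩ | ⟨h, -⟩)
            · exact h h11
            · exact h h10
        · rw [hχmem B _ _ h10, hχnot B _ _ h11,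
            if_pos (show Cut s t B (Sum.inl (⟨u, hu⟩, ⟨v, hv⟩)) from Or.inl ⟨h10, h11⟩)]
          simp
      · by_cases h11 : (⟨v, hv⟩ : ↥A) ∈ B
        · rw [hχnot B _ _ h10, hχmem B _ _ h11,
            if_pos (show Cut s t B (Sum.inl (⟨u, hu⟩, ⟨v, hv⟩)) from Or.inr ⟨h10, h11⟩)]
          simp
        · rw [hχnot B _ _ h10, hχnot B _ _ h11, if_neg]
          · simp
          · rintro (⟨h, -⟩ | ⟨-, h⟩)
            · exact h10 h
            · exact h11 h
    have hσ : ∀ (i : I) (B : Finset ↥A), |c i B * (χ B (x i) - χ B (y i))| ≤ c i B := by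
      intro i B
      have hc0 : 0 ≤ c i B := by
        rw [hc]
        simp only
        split_ifs
        · exact hw0 B
        · exact le_rfl
        · exact le_rfl
      rw [abs_mul, abs_of_nonneg hc0]
      have h2 : |χ B (x i) - χ B (y i)| ≤ 1 := by
        rw [hχ]
        simp only
        split_ifs <;> norm_num
      nlinarith
    have hcs : ∀ B : Finset ↥A, ∑ i ∈ F, c i B ≤ w B := by
      intro B
      by_cases hg : Good s t (wt A F x y M) B
      · obtain ⟨e, he, hce, hu⟩ := hg
        have h7 : ∃ i0 : I, ∀ i ∈ F, c i B ≤ if i0 = i then w B else 0 := by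
          rcases e with p | i0
          · exact absurd he (not_lt.2 (hpos p))
          · refine ⟨i0, fun i hi => ?_⟩
            rw [hc]
            simp only [dif_pos hi]
            by_cases hcut : Cut s t B (Sum.inr ⟨i, hi⟩)
            · have h8 := hu _ (hneg ⟨i, hi⟩) hcut
              have h9 : i = i0 := congrArg Subtype.val (Sum.inr_injective h8)
              rw [if_pos hcut, if_pos h9.symm]
            · rw [if_neg hcut]
              split_ifs
              · exact hw0 B
              · exact le_rfl
        obtain ⟨i0, hi0⟩ := h7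
        refine (Finset.sum_le_sum hi0).trans ?_
        rw [Finset.sum_ite_eq]
        split_ifs
        · exact le_rfl
        · exact hw0 B
      · rw [hwg B hg]
        refine le_of_eq (Finset.sum_eq_zero fun i hi => ?_)
        rw [hc]
        simp only [dif_pos hi, hwg B hg]
        split_ifs <;> rfl
    calc ∑ i ∈ F, |∑ B, c i B * (χ B (x i) - χ B (y i)) * χ B u -
          ∑ B, c i B * (χ B (x i) - χ B (y i)) * χ B v|
        ≤ ∑ i ∈ F, ∑ B, c i B * |χ B u - χ B v| := by
          refine Finset.sum_le_sum fun i _ => ?_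
          rw [← Finset.sum_sub_distrib]
          refine (Finset.abs_sum_le_sum_abs _ _).trans (Finset.sum_le_sum fun B _ => ?_)
          rw [← mul_sub, abs_mul]
          exact mul_le_mul_of_nonneg_right (hσ i B) (abs_nonneg _)
      _ = ∑ B, (∑ i ∈ F, c i B) * |χ B u - χ B v| := by
          rw [Finset.sum_comm]
          refine Finset.sum_congr rfl fun B _ => ?_
          rw [Finset.sum_mul]
      _ ≤ ∑ B, if Cut s t B (Sum.inl (⟨u, hu⟩, ⟨v, hv⟩)) then w B else 0 := by
          refine Finset.sum_le_sum fun B _ => ?_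
          refine (mul_le_mul_of_nonneg_right (hcs B) (abs_nonneg _)).trans ?_
          rw [hD B]
          split_ifs
          · rw [mul_one]
          · rw [mul_zero]

end Fin

end Pool.Agent.Q197.BeurFin
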