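import Mathlib

/-!
# Fractional packing of cuts in conservative weighted graphs

`V` is the finite vertex set, `E` the finite edge set, the edge `e` joins `s e` and `t e`, and
`l : E → ℝ` is a weight function.  The weight is conservative if no edge set with all degrees even
has negative weight.  The main theorem is the weighted form of a theorem of Seymour on T-joins: if
`l` is conservative then there are non-negative weights on the cuts which contain exactly one
negative edge, such that every edge `e` is in cuts of total weight at most `|l e|`, with equality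
for the negative edges.  The proof is a fractional version of the argument of Sebo.
-/

set_option autoImplicit false
set_option linter.unusedSectionVars false

namespace Pool.Agent.Q197.CutPack

open Finset

variable {V E : Type*} [DecidableEq V] [DecidableEq E]

/-- indicator with values in the field with two elements -/
def ind (p : Prop) [Decidable p] : ZMod 2 := if p then 1 else 0

lemma two_eq (a : ZMod 2) : a + a = 0 := by
  revert a; decide

/-- the boundary of an edge set, modulo 2 -/
def bd (s t : E → V) (C : Finset E) (v : V) : ZMod 2 :=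
  ∑ e ∈ C, (ind (s e = v) + ind (t e = v))

/-- no edge set with all degrees even has negative weight -/
def Cons (s t : E → V) (l : E → ℝ) : Prop :=
  ∀ C : Finset E, (∀ v, bd s t C v = 0) → 0 ≤ ∑ e ∈ C, l e

/-- `F` is a `{x, y}`-join -/
def Join (s t : E → V) (x y : V) (F : Finset E) : Prop :=
  ∀ v, bd s t F v = ind (x = v) + ind (y = v)

/-- the edge `e` is in the cut of the vertex `y` -/
def Inc (s t : E → V) (y : V) (e : E) : Prop :=
  (s e = y ∧ t e ≠ y) ∨ (s e ≠ y ∧ t e = y)

instance (s t : E → V) (y : V) (e : E) : Decidable (Inc s t y e) := by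
  unfold Inc; infer_instance

lemma sum_sd {R : Type*} [CommRing R] (f : E → R) (C D : Finset E) :
    ∑ e ∈ symmDiff C D, f e = ∑ e ∈ C, f e + ∑ e ∈ D, f e - 2 * ∑ e ∈ C ∩ D, f e := by
  have h0 : symmDiff C D = (C \ D) ∪ (D \ C) := by
    rw [symmDiff_def, Finset.sup_eq_union]
  rw [h0, Finset.sum_union (by
    rw [Finset.disjoint_left]
    intro a ha hb
    exact (Finset.mem_sdiff.1 ha).2 (Finset.mem_sdiff.1 hb).1)]
  have h1 := Finset.sum_inter_add_sum_sdiff C D f
  have h2 := Finset.sum_inter_add_sum_sdiff D C f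
  rw [Finset.inter_comm D C] at h2
  rw [← h1, ← h2]
  ring

lemma bd_sd (s t : E → V) (C D : Finset E) (v : V) :
    bd s t (symmDiff C D) v = bd s t C v + bd s t D v := by
  unfold bd
  rw [sum_sd]
  have : (2 : ZMod 2) = 0 := by decide
  rw [this, zero_mul, sub_zero]

lemma bd_empty (s t : E → V) (v : V) : bd s t (∅ : Finset E) v = 0 := by
  simp [bd]

lemma bd_single (s t : E → V) (e : E) (v : V) :
    bd s t {e} v = ind (s e = v) + ind (t e = v) := by
  simp [bd]

lemma join_refl (s t : E → V) (x : V) : Join s t x x ∅ := by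
  intro v
  rw [bd_empty, two_eq]

lemma join_single (s t : E → V) (e : E) : Join s t (s e) (t e) {e} := by
  intro v
  rw [bd_single]

lemma join_symm {s t : E → V} {x y : V} {F : Finset E} (h : Join s t x y F) : Join s t y x F := by
  intro v
  rw [h v, add_comm]

lemma join_trans {s t : E → V} {x y z : V} {F G : Finset E} (h : Join s t x y F)
    (h' : Join s t y z G) : Join s t x z (symmDiff F G) := by
  intro v
  rw [bd_sd, h v, h' v]
  have := two_eq (ind (y = v))
  linear_combination this

lemma bd_inc_zero {s t : E → V} {y : V} {Q : Finset E} (h : ∀ e ∈ Q, ¬ Inc s t y e) :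
    bd s t Q y = 0 := by
  unfold bd
  refine Finset.sum_eq_zero fun e he => ?_
  have := h e he
  unfold Inc at this
  unfold ind
  by_cases h1 : s e = y <;> by_cases h2 : t e = y <;> simp [h1, h2] at this ⊢
  decide

/-- an edge in `δ(y)` extends a join ending at `y` -/
lemma inc_join {s t : E → V} {y : V} {e : E} (h : Inc s t y e) :
    ∃ z, z ≠ y ∧ Join s t y z {e} := by
  rcases h with ⟨h1, h2⟩ | ⟨h1, h2⟩
  · refine ⟨t e, h2, ?_⟩
    have := join_single s t e
    rwa [h1] at this
  · refine ⟨s e, h1, ?_⟩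
    have := join_symm (join_single s t e)
    rwa [h2] at this

/-- Every `{x, y}`-join with `x ≠ y` contains an `{x, y}`-join with exactly one edge in `δ(y)`. -/
lemma exists_thin [Fintype V] {s t : E → V} {x y : V} (hxy : x ≠ y) {F : Finset E}
    (hF : Join s t x y F) : ∃ P ⊆ F, Join s t x y P ∧ ∃ e ∈ P, Inc s t y e ∧
      ∀ e' ∈ P, Inc s t y e' → e' = e := by
  classical
  set Q := F.filter (fun e => ¬ Inc s t y e) with hQ
  set U : Finset V := Finset.univ.filter (fun v => ∃ Q' ⊆ Q, Join s t x v Q') with hU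
  have hxU : x ∈ U := by
    rw [hU, Finset.mem_filter]
    exact ⟨Finset.mem_univ _, ∅, Finset.empty_subset _, join_refl s t x⟩
  have hyU : y ∉ U := by
    rw [hU, Finset.mem_filter]
    rintro ⟨-, Q', hQ', hj⟩
    have h1 := hj y
    rw [bd_inc_zero (fun e he => by
      have := hQ' he
      rw [hQ, Finset.mem_filter] at this
      exact this.2)] at h1
    unfold ind at h1
    simp [hxy] at h1
  have hcl : ∀ e ∈ Q, (s e ∈ U ↔ t e ∈ U) := by
    intro e he
    rw [hU, Finset.mem_filter, Finset.mem_filter]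
    constructor
    · rintro ⟨-, Q', hQ', hj⟩
      refine ⟨Finset.mem_univ _, symmDiff Q' {e}, ?_, join_trans hj (join_single s t e)⟩
      intro a ha
      rw [Finset.mem_symmDiff, Finset.mem_singleton] at ha
      rcases ha with ⟨h1, -⟩ | ⟨h1, -⟩
      · exact hQ' h1
      · rwa [h1]
    · rintro ⟨-, Q', hQ', hj⟩
      refine ⟨Finset.mem_univ _, symmDiff Q' {e}, ?_, join_trans hj (join_symm (join_single s t e))⟩
      intro a ha
      rw [Finset.mem_symmDiff, Finset.mem_singleton] at ha
      rcases ha with ⟨h1, -⟩ | ⟨h1, -⟩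
      · exact hQ' h1
      · rwa [h1]
  have hsum1 : ∑ v ∈ U, bd s t F v = 1 := by
    have h1 : ∀ v ∈ U, bd s t F v = if x = v then 1 else 0 := by
      intro v hv
      rw [hF v]
      have : y ≠ v := fun h => hyU (h ▸ hv)
      simp [ind, this]
    rw [Finset.sum_congr rfl h1, Finset.sum_ite_eq, if_pos hxU]
  have hsum2 : ∑ v ∈ U, bd s t F v = ∑ e ∈ F, (ind (s e ∈ U) + ind (t e ∈ U)) := by
    unfold bd
    rw [Finset.sum_comm]
    refine Finset.sum_congr rfl fun e _ => ?_
    rw [Finset.sum_add_distrib]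
    congr 1
    · unfold ind
      rw [Finset.sum_ite_eq]
    · unfold ind
      rw [Finset.sum_ite_eq]
  have hex : ∃ e ∈ F, Inc s t y e ∧ (s e ∈ U ∨ t e ∈ U) := by
    by_contra hcon
    push Not at hcon
    have : ∑ e ∈ F, (ind (s e ∈ U) + ind (t e ∈ U)) = 0 := by
      refine Finset.sum_eq_zero fun e he => ?_
      by_cases hi : Inc s t y e
      · obtain ⟨h1, h2⟩ := hcon e he hi
        simp [ind, h1, h2]
      · have heQ : e ∈ Q := by
          rw [hQ, Finset.mem_filter]
          exact ⟨he, hi⟩
        have h3 := hcl e heQ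
        by_cases h4 : s e ∈ U
        · have h5 := h3.1 h4
          simp only [ind, h4, h5, if_true]
          decide
        · have h5 : t e ∉ U := fun h => h4 (h3.2 h)
          simp [ind, h4, h5]
    rw [← hsum2, hsum1] at this
    exact one_ne_zero this
  obtain ⟨e, heF, hei, hUe⟩ := hex
  have hz : ∃ z ∈ U, Join s t z y {e} := by
    rcases hei with ⟨h1, h2⟩ | ⟨h1, h2⟩
    · have h3 : t e ∈ U := by
        rcases hUe with h | h
        · exact absurd (h1 ▸ h) hyU
        · exact h
      refine ⟨t e, h3, ?_⟩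
      have := join_symm (join_single s t e)
      rwa [h1] at this
    · have h3 : s e ∈ U := by
        rcases hUe with h | h
        · exact h
        · exact absurd (h2 ▸ h) hyU
      refine ⟨s e, h3, ?_⟩
      have := join_single s t e
      rwa [h2] at this
  obtain ⟨z, hzU, hze⟩ := hz
  rw [hU, Finset.mem_filter] at hzU
  obtain ⟨-, Q', hQ', hj⟩ := hzU
  have heQ' : e ∉ Q' := by
    intro h
    have := hQ' h
    rw [hQ, Finset.mem_filter] at this
    exact this.2 hei
  refine ⟨symmDiff Q' {e}, ?_, join_trans hj hze, e, ?_, hei, ?_⟩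
  · intro a ha
    rw [Finset.mem_symmDiff, Finset.mem_singleton] at ha
    rcases ha with ⟨h1, -⟩ | ⟨h1, -⟩
    · exact (Finset.mem_filter.1 (hQ' h1)).1
    · rwa [h1]
  · rw [Finset.mem_symmDiff, Finset.mem_singleton]
    exact Or.inr ⟨rfl, heQ'⟩
  · intro e' he' hi'
    rw [Finset.mem_symmDiff, Finset.mem_singleton] at he'
    rcases he' with ⟨h1, -⟩ | ⟨h1, -⟩
    · exact absurd hi' (Finset.mem_filter.1 (hQ' h1)).2
    · exact h1

/-- `F` is a lightest one among all two-point joins. -/
def IsMin (s t : E → V) (l : E → ℝ) (x y : V) (F : Finset E) : Prop :=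
  Join s t x y F ∧ ∀ x' y' F', Join s t x' y' F' → ∑ e ∈ F, l e ≤ ∑ e ∈ F', l e

lemma sum_insert_sd (l : E → ℝ) {P : Finset E} {e : E} (he : e ∉ P) :
    ∑ a ∈ symmDiff P {e}, l a = ∑ a ∈ P, l a + l e := by
  rw [sum_sd, Finset.sum_singleton, Finset.inter_singleton_of_notMem he, Finset.sum_empty]
  ring

lemma sum_erase_sd (l : E → ℝ) {P : Finset E} {e : E} (he : e ∈ P) :
    ∑ a ∈ symmDiff P {e}, l a = ∑ a ∈ P, l a - l e := by
  rw [sum_sd, Finset.sum_singleton, Finset.inter_singleton_of_mem he, Finset.sum_singleton]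
  ring

lemma min_vertex [Fintype V] {s t : E → V} {l : E → ℝ} (hl : Cons s t l) {x y : V} {F : Finset E}
    (hF : IsMin s t l x y F) (hneg : ∑ e ∈ F, l e < 0) :
    ∃ e0, Inc s t y e0 ∧ l e0 ≤ 0 ∧ ∀ e, Inc s t y e → l e < 0 → e = e0 := by
  have hxy : x ≠ y := by
    rintro rfl
    have := hl F (fun v => by rw [hF.1 v, two_eq])
    linarith
  obtain ⟨P, hPF, hP, e0, he0P, he0, huniq⟩ := exists_thin hxy hF.1
  have h1 : ∑ e ∈ P, l e ≤ ∑ e ∈ F, l e := by
    have h2 : 0 ≤ ∑ e ∈ symmDiff F P, l e := by
      refine hl _ fun v => ?_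
      rw [bd_sd, hF.1 v, hP v, two_eq]
    rw [sum_sd, Finset.inter_eq_right.2 hPF] at h2
    linarith
  have h2 : ∀ x' y' F', Join s t x' y' F' → ∑ e ∈ P, l e ≤ ∑ e ∈ F', l e :=
    fun x' y' F' h => h1.trans (hF.2 x' y' F' h)
  refine ⟨e0, he0, ?_, ?_⟩
  · obtain ⟨z, -, hz⟩ := inc_join he0
    have h3 := h2 _ _ _ (join_trans hP hz)
    rw [sum_erase_sd l he0P] at h3
    linarith
  · intro e he hle
    by_contra hne
    have heP : e ∉ P := fun h => hne (huniq e h he)
    obtain ⟨z, -, hz⟩ := inc_join he
    have h3 := h2 _ _ _ (join_trans hP hz)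
    rw [sum_insert_sd l heP] at h3
    linarith

/-- flipping the signs on an even set -/
def flip (l : E → ℝ) (C : Finset E) : E → ℝ := fun e => if e ∈ C then - l e else l e

lemma sum_flip (l : E → ℝ) (C F : Finset E) :
    ∑ e ∈ F, flip l C e = ∑ e ∈ symmDiff F C, l e - ∑ e ∈ C, l e := by
  rw [sum_sd]
  have h1 : ∑ e ∈ F, flip l C e = ∑ e ∈ F, l e - 2 * ∑ e ∈ F ∩ C, l e := by
    have h2 : ∀ e ∈ F, flip l C e = l e - 2 * (if e ∈ C then l e else 0) := by
      intro e _
      unfold flip
      split_ifs <;> ring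
    rw [Finset.sum_congr rfl h2, Finset.sum_sub_distrib, ← Finset.mul_sum, Finset.sum_ite_mem]
  rw [h1]
  ring

lemma flip_cons {s t : E → V} {l : E → ℝ} (hl : Cons s t l) {C : Finset E}
    (hC : ∀ v, bd s t C v = 0) (h0 : ∑ e ∈ C, l e = 0) : Cons s t (flip l C) := by
  intro D hD
  rw [sum_flip, h0, sub_zero]
  refine hl _ fun v => ?_
  rw [bd_sd, hD v, hC v, add_zero]

lemma flip_min {s t : E → V} {l : E → ℝ} {C : Finset E}
    (hC : ∀ v, bd s t C v = 0) (h0 : ∑ e ∈ C, l e = 0) {x y : V} {F : Finset E}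
    (hF : IsMin s t l x y F) : IsMin s t (flip l C) x y (symmDiff F C) ∧
      ∑ e ∈ symmDiff F C, flip l C e = ∑ e ∈ F, l e := by
  have h1 : ∑ e ∈ symmDiff F C, flip l C e = ∑ e ∈ F, l e := by
    rw [sum_flip, h0, sub_zero, symmDiff_symmDiff_cancel_right]
  refine ⟨⟨fun v => ?_, fun x' y' F' h => ?_⟩, h1⟩
  · rw [bd_sd, hC v, add_zero]
    exact hF.1 v
  · rw [h1, sum_flip, h0, sub_zero]
    refine hF.2 x' y' _ fun v => ?_
    rw [bd_sd, hC v, add_zero]
    exact h v

/-- The direction of improvement: `-1` at `e0`, `+1` at the other edges in `δ(y)`. -/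
def dir (s t : E → V) (y : V) (e0 : E) (e : E) : ℝ :=
  if Inc s t y e then (if e = e0 then -1 else 1) else 0

lemma dir_le {s t : E → V} [Fintype V] {l : E → ℝ} (hl : Cons s t l) {x y : V} {F : Finset E}
    (hF : IsMin s t l x y F) (hneg : ∑ e ∈ F, l e < 0)
    (hnz : ∀ e, Inc s t y e → l e ≠ 0) {e0 : E} (he0 : Inc s t y e0) (hle0 : l e0 < 0)
    (huniq : ∀ e, Inc s t y e → l e < 0 → e = e0) {C : Finset E}
    (hC : ∀ v, bd s t C v = 0) (h0 : ∑ e ∈ C, l e = 0) :
    ∑ e ∈ C, dir s t y e0 e ≤ 0 := by
  obtain ⟨hm, hs⟩ := flip_min hC h0 hF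
  rw [← hs] at hneg
  obtain ⟨e1, -, -, hu⟩ := min_vertex (flip_cons hl hC h0) hm hneg
  have hpos : ∀ e, Inc s t y e → e ≠ e0 → 0 < l e := by
    intro e he hne
    rcases lt_trichotomy (l e) 0 with h | h | h
    · exact absurd (huniq e he h) hne
    · exact absurd h (hnz e he)
    · exact h
  by_cases hmem : e0 ∈ C
  · -- at most one other edge
    have h1 : ∀ e ∈ C, e ≠ e0 → Inc s t y e → e = e1 := by
      intro e he hne hi
      refine hu e hi ?_
      unfold flip
      rw [if_pos he]
      have := hpos e hi hne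
      linarith
    rw [← Finset.add_sum_erase C _ hmem]
    have h2 : dir s t y e0 e0 = -1 := by simp [dir, he0]
    rw [h2]
    have h3 : ∑ e ∈ C.erase e0, dir s t y e0 e ≤ 1 := by
      have h4 : ∀ e ∈ C.erase e0, dir s t y e0 e ≤ if e1 = e then 1 else 0 := by
        intro e he
        rw [Finset.mem_erase] at he
        unfold dir
        by_cases hi : Inc s t y e
        · rw [if_pos hi, if_neg he.1, if_pos (h1 e he.2 he.1 hi).symm]
        · rw [if_neg hi]
          split_ifs <;> norm_num
      refine (Finset.sum_le_sum h4).trans ?_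
      rw [Finset.sum_ite_eq]
      split_ifs <;> norm_num
    linarith
  · -- no edge of `C` is in the cut
    have he01 : e0 = e1 := by
      refine hu e0 he0 ?_
      unfold flip
      rwa [if_neg hmem]
    refine le_of_eq (Finset.sum_eq_zero fun e he => ?_)
    unfold dir
    by_cases hi : Inc s t y e
    · exfalso
      have hne : e ≠ e0 := fun h => hmem (h ▸ he)
      have := hu e hi (by
        unfold flip
        rw [if_pos he]
        have := hpos e hi hne
        linarith)
      exact hne (this.trans he01.symm)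
    · rw [if_neg hi]

/-- The improvement step. -/
lemma improve {s t : E → V} [Fintype V] [Fintype E] {l : E → ℝ} (hl : Cons s t l) {x y : V}
    {F : Finset E} (hF : IsMin s t l x y F) (hneg : ∑ e ∈ F, l e < 0)
    (hnz : ∀ e, Inc s t y e → l e ≠ 0) :
    ∃ e0, Inc s t y e0 ∧ l e0 < 0 ∧ (∀ e, Inc s t y e → l e < 0 → e = e0) ∧
      ∃ ε > 0, Cons s t (fun e => l e - ε * dir s t y e0 e) ∧
        (l e0 + ε ≤ 0) ∧ ∀ e, Inc s t y e → e ≠ e0 → 0 ≤ l e - ε := by
  classical
  obtain ⟨e0, he0, hle, huniq⟩ := min_vertex hl hF hneg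
  have hle0 : l e0 < 0 := lt_of_le_of_ne hle (hnz e0 he0)
  have hpos : ∀ e, Inc s t y e → e ≠ e0 → 0 < l e := by
    intro e he hne
    rcases lt_trichotomy (l e) 0 with h | h | h
    · exact absurd (huniq e he h) hne
    · exact absurd h (hnz e he)
    · exact h
  refine ⟨e0, he0, hle0, huniq, ?_⟩
  -- a positive lower bound for a finite family of positive numbers
  have hfin : ∀ {ι : Type _} (S : Finset ι) (g : ι → ℝ), (∀ i ∈ S, 0 < g i) →
      ∃ ε > 0, ∀ i ∈ S, ε ≤ g i := by
    intro ι S g hg
    rcases S.eq_empty_or_nonempty with rfl | hS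
    · exact ⟨1, one_pos, by simp⟩
    · obtain ⟨i, hi, hmin⟩ := S.exists_min_image g hS
      exact ⟨g i, hg i hi, hmin⟩
  obtain ⟨δ1, hδ1, h1⟩ := hfin ((Finset.univ : Finset (Finset E)).filter
    (fun C => 0 < ∑ e ∈ C, l e)) (fun C => ∑ e ∈ C, l e) (by simp)
  obtain ⟨δ2, hδ2, h2⟩ := hfin (Finset.univ : Finset E) (fun e => |l e| + if l e = 0 then 1 else 0)
    (by
      intro e _
      by_cases h : l e = 0
      · simp [h]
      · simp [h])
  have hcard : (0 : ℝ) < Fintype.card E + 1 := by positivity
  set ε := min (δ1 / (Fintype.card E + 1)) δ2 with hε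
  have hε0 : 0 < ε := lt_min (by positivity) hδ2
  refine ⟨ε, hε0, ?_, ?_, ?_⟩
  · intro C hC
    have hsum : ∑ e ∈ C, (l e - ε * dir s t y e0 e) = ∑ e ∈ C, l e - ε * ∑ e ∈ C, dir s t y e0 e := by
      rw [Finset.sum_sub_distrib, Finset.mul_sum]
    rw [hsum]
    rcases (hl C hC).lt_or_eq with hlt | heq
    · have h3 : δ1 ≤ ∑ e ∈ C, l e := h1 C (by
        rw [Finset.mem_filter]
        exact ⟨Finset.mem_univ _, hlt⟩)
      have h4 : ∑ e ∈ C, dir s t y e0 e ≤ Fintype.card E + 1 := by
        have h5 : ∀ e ∈ C, dir s t y e0 e ≤ 1 := by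
          intro e _
          unfold dir
          split_ifs <;> norm_num
        have h6 := Finset.sum_le_card_nsmul C _ 1 h5
        have h7 : (C.card : ℝ) ≤ Fintype.card E := by
          exact_mod_cast Finset.card_le_univ C
        rw [nsmul_eq_mul, mul_one] at h6
        linarith
      have h8 : ε * ∑ e ∈ C, dir s t y e0 e ≤ ε * (Fintype.card E + 1) :=
        mul_le_mul_of_nonneg_left h4 hε0.le
      have h9 : ε * (Fintype.card E + 1) ≤ δ1 := by
        have : ε ≤ δ1 / (Fintype.card E + 1) := min_le_left _ _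
        rwa [le_div_iff₀ hcard] at this
      linarith
    · have h3 := dir_le hl hF hneg hnz he0 hle0 huniq hC heq.symm
      rw [← heq]
      nlinarith
  · have h3 := h2 e0 (Finset.mem_univ _)
    simp only [if_neg hle0.ne, add_zero] at h3
    rw [abs_of_neg hle0] at h3
    have : ε ≤ δ2 := min_le_right _ _
    linarith
  · intro e he hne
    have h3 := h2 e (Finset.mem_univ _)
    have h4 := hpos e he hne
    simp only [if_neg h4.ne', add_zero] at h3
    rw [abs_of_pos h4] at h3
    have : ε ≤ δ2 := min_le_right _ _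
    linarith

/-! ### Contraction of edges of weight zero -/

lemma contract_one {s t : E → V} {l : E → ℝ} {p : V → V} (hp : Cons (p ∘ s) (p ∘ t) l) {e0 : E}
    (h0 : l e0 = 0) (hne : p (s e0) ≠ p (t e0)) :
    Cons ((fun v => if p v = p (t e0) then p (s e0) else p v) ∘ s)
      ((fun v => if p v = p (t e0) then p (s e0) else p v) ∘ t) l := by
  intro C hC
  set a := p (s e0) with ha
  set b := p (t e0) with hb
  have hv : ∀ v, v ≠ a → v ≠ b → bd (p ∘ s) (p ∘ t) C v = 0 := by
    intro v hva hvb
    rw [← hC v]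
    unfold bd
    refine Finset.sum_congr rfl fun e _ => ?_
    have key : ∀ u : V, ind (p u = v) = ind ((if p u = b then a else p u) = v) := by
      intro u
      by_cases hu : p u = b
      · rw [if_pos hu, hu]
        simp [ind, Ne.symm hva, Ne.symm hvb]
      · rw [if_neg hu]
    simp only [Function.comp_apply]
    rw [key (s e), key (t e)]
  have hab : bd (p ∘ s) (p ∘ t) C a = bd (p ∘ s) (p ∘ t) C b := by
    have h1 := hC a
    have h2 : bd (p ∘ s) (p ∘ t) C a + bd (p ∘ s) (p ∘ t) C b = 0 := by
      rw [← h1]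
      unfold bd
      rw [← Finset.sum_add_distrib]
      refine Finset.sum_congr rfl fun e _ => ?_
      have key : ∀ u : V, ind ((if p u = b then a else p u) = a) =
          ind (p u = a) + ind (p u = b) := by
        intro u
        by_cases hu : p u = b
        · rw [if_pos hu]
          simp [ind, hu, Ne.symm hne]
        · rw [if_neg hu]
          simp [ind, hu]
      simp only [Function.comp_apply]
      rw [key (s e), key (t e)]
      ring
    have h3 := two_eq (bd (p ∘ s) (p ∘ t) C b)
    linear_combination h2 - h3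
  have hcase : ∀ z : ZMod 2, z = 0 ∨ z = 1 := by decide
  rcases hcase (bd (p ∘ s) (p ∘ t) C a) with hz | hz
  · refine hp C fun v => ?_
    by_cases hva : v = a
    · rw [hva, hz]
    · by_cases hvb : v = b
      · rw [hvb, ← hab, hz]
      · exact hv v hva hvb
  · have h4 : 0 ≤ ∑ e ∈ symmDiff C {e0}, l e := by
      refine hp _ fun v => ?_
      rw [bd_sd, bd_single]
      simp only [Function.comp_apply, ← ha, ← hb]
      by_cases hva : v = a
      · rw [hva, hz]
        simp only [ind, if_true, if_neg (Ne.symm hne)]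
        decide
      · by_cases hvb : v = b
        · rw [hvb, ← hab, hz]
          simp only [ind, if_true, if_neg hne]
          decide
        · rw [hv v hva hvb]
          simp [ind, Ne.symm hva, Ne.symm hvb]
    rw [sum_sd, Finset.sum_singleton, h0, add_zero] at h4
    have h5 : ∑ e ∈ C ∩ {e0}, l e = 0 := by
      refine Finset.sum_eq_zero fun e he => ?_
      rw [Finset.mem_inter, Finset.mem_singleton] at he
      rw [he.2, h0]
    rw [h5] at h4
    linarith

lemma exists_contract [Fintype V] {s t : E → V} {l : E → ℝ} (hl : Cons s t l) :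
    ∃ p : V → V, Cons (p ∘ s) (p ∘ t) l ∧ ∀ e, l e = 0 → p (s e) = p (t e) := by
  classical
  obtain ⟨p, hp, hmin⟩ := ((Finset.univ : Finset (V → V)).filter
    (fun p => Cons (p ∘ s) (p ∘ t) l)).exists_min_image
      (fun p => (Finset.univ.image p).card) ⟨id, by
        rw [Finset.mem_filter]
        exact ⟨Finset.mem_univ _, hl⟩⟩
  rw [Finset.mem_filter] at hp
  refine ⟨p, hp.2, fun e he => ?_⟩
  by_contra hne
  have h1 := contract_one hp.2 he hne
  have h2 := hmin _ (by
    rw [Finset.mem_filter]
    exact ⟨Finset.mem_univ _, h1⟩)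
  refine absurd h2 (not_le.2 (Finset.card_lt_card ?_))
  rw [Finset.ssubset_iff_of_subset]
  · refine ⟨p (t e), Finset.mem_image_of_mem _ (Finset.mem_univ _), ?_⟩
    rw [Finset.mem_image]
    rintro ⟨v, -, hv⟩
    by_cases h : p v = p (t e)
    · rw [if_pos h] at hv
      exact hne hv
    · rw [if_neg h] at hv
      exact h hv
  · intro z hz
    rw [Finset.mem_image] at hz ⊢
    obtain ⟨v, -, hv⟩ := hz
    by_cases h : p v = p (t e)
    · rw [if_pos h] at hv
      exact ⟨s e, Finset.mem_univ _, hv⟩
    · rw [if_neg h] at hv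
      exact ⟨v, Finset.mem_univ _, hv⟩

/-! ### The packing theorem -/

/-- the edge `e` is in the cut of the vertex set `B` -/
def Cut (s t : E → V) (B : Finset V) (e : E) : Prop :=
  (s e ∈ B ∧ t e ∉ B) ∨ (s e ∉ B ∧ t e ∈ B)

instance (s t : E → V) (B : Finset V) (e : E) : Decidable (Cut s t B e) := by
  unfold Cut; infer_instance

/-- the cut of `B` contains exactly one negative edge -/
def Good (s t : E → V) (l : E → ℝ) (B : Finset V) : Prop :=
  ∃ e, l e < 0 ∧ Cut s t B e ∧ ∀ e', l e' < 0 → Cut s t B e' → e' = e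

/-- the total weight of the cuts through `e` -/
def tot [Fintype V] (s t : E → V) (y : Finset V → ℝ) (e : E) : ℝ :=
  ∑ B ∈ Finset.univ.filter (fun B => Cut s t B e), y B

/-- the residual weight -/
noncomputable def res [Fintype V] (s t : E → V) (l : E → ℝ) (y : Finset V → ℝ) (e : E) : ℝ :=
  l e - (if l e < 0 then -1 else 1) * tot s t y e

lemma tot_cont [Fintype V] (s t : E → V) (e : E) : Continuous (fun y => tot s t y e) := by
  unfold tot
  fun_prop

lemma res_cont [Fintype V] (s t : E → V) (l : E → ℝ) (e : E) :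
    Continuous (fun y => res s t l y e) := by
  unfold res
  exact continuous_const.sub (continuous_const.mul (tot_cont s t e))

/-- the feasible packings -/
def Feas [Fintype V] (s t : E → V) (l : E → ℝ) : Set (Finset V → ℝ) :=
  {y | (∀ B, 0 ≤ y B) ∧ (∀ B, ¬ Good s t l B → y B = 0) ∧ Cons s t (res s t l y) ∧
    (∀ e, ¬ l e < 0 → 0 ≤ res s t l y e) ∧ (∀ e, l e < 0 → res s t l y e ≤ 0)}

lemma feas_closed [Fintype V] (s t : E → V) (l : E → ℝ) : IsClosed (Feas s t l) := by
  unfold Feas
  refine IsClosed.inter ?_ (IsClosed.inter ?_ (IsClosed.inter ?_ (IsClosed.inter ?_ ?_)))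
  · have : {y : Finset V → ℝ | ∀ B, 0 ≤ y B} = ⋂ B, {y | 0 ≤ y B} := by
      ext y; simp
    change IsClosed {y : Finset V → ℝ | ∀ B, 0 ≤ y B}
    rw [this]
    exact isClosed_iInter fun B => isClosed_le continuous_const (continuous_apply B)
  · change IsClosed {y : Finset V → ℝ | ∀ B, ¬ Good s t l B → y B = 0}
    have : {y : Finset V → ℝ | ∀ B, ¬ Good s t l B → y B = 0} =
        ⋂ B, ⋂ (_ : ¬ Good s t l B), {y | y B = 0} := by
      ext y; simp
    rw [this]
    exact isClosed_iInter fun B => isClosed_iInter fun _ =>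
      isClosed_eq (continuous_apply B) continuous_const
  · change IsClosed {y : Finset V → ℝ | Cons s t (res s t l y)}
    have : {y : Finset V → ℝ | Cons s t (res s t l y)} =
        ⋂ C : Finset E, ⋂ (_ : ∀ v, bd s t C v = 0), {y | 0 ≤ ∑ e ∈ C, res s t l y e} := by
      ext y; simp [Cons]
    rw [this]
    exact isClosed_iInter fun C => isClosed_iInter fun _ =>
      isClosed_le continuous_const (continuous_finsetSum _ fun e _ => res_cont s t l e)
  · change IsClosed {y : Finset V → ℝ | ∀ e, ¬ l e < 0 → 0 ≤ res s t l y e}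
    have : {y : Finset V → ℝ | ∀ e, ¬ l e < 0 → 0 ≤ res s t l y e} =
        ⋂ e, ⋂ (_ : ¬ l e < 0), {y | 0 ≤ res s t l y e} := by
      ext y; simp
    rw [this]
    exact isClosed_iInter fun e => isClosed_iInter fun _ =>
      isClosed_le continuous_const (res_cont s t l e)
  · change IsClosed {y : Finset V → ℝ | ∀ e, l e < 0 → res s t l y e ≤ 0}
    have : {y : Finset V → ℝ | ∀ e, l e < 0 → res s t l y e ≤ 0} =
        ⋂ e, ⋂ (_ : l e < 0), {y | res s t l y e ≤ 0} := by
      ext y; simp
    rw [this]
    exact isClosed_iInter fun e => isClosed_iInter fun _ =>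
      isClosed_le (res_cont s t l e) continuous_const

lemma feas_compact [Fintype V] [Fintype E] (s t : E → V) (l : E → ℝ) :
    IsCompact (Feas s t l) := by
  classical
  refine IsCompact.of_isClosed_subset
    (isCompact_univ_pi fun _ : Finset V => isCompact_Icc (a := (0 : ℝ)) (b := ∑ e, |l e|))
    (feas_closed s t l) ?_
  rintro y ⟨h1, h2, -, -, h5⟩
  rw [Set.mem_univ_pi]
  intro B
  refine ⟨h1 B, ?_⟩
  by_cases hB : Good s t l B
  · obtain ⟨e, he, hc, -⟩ := hB
    have h6 := h5 e he
    unfold res at h6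
    rw [if_pos he] at h6
    have h7 : y B ≤ tot s t y e := by
      unfold tot
      exact Finset.single_le_sum (f := y) (fun B _ => h1 B) (by
        rw [Finset.mem_filter]
        exact ⟨Finset.mem_univ _, hc⟩)
    have h8 : |l e| ≤ ∑ e, |l e| :=
      Finset.single_le_sum (f := fun e => |l e|) (fun e _ => abs_nonneg _) (Finset.mem_univ e)
    rw [abs_of_neg he] at h8
    linarith
  · rw [h2 B hB]
    exact Finset.sum_nonneg fun e _ => abs_nonneg _

lemma feas_zero [Fintype V] {s t : E → V} {l : E → ℝ} (hl : Cons s t l) :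
    (fun _ => 0) ∈ Feas s t l := by
  have h0 : ∀ e, res s t l (fun _ => 0) e = l e := by
    intro e
    unfold res tot
    simp
  refine ⟨fun _ => le_rfl, fun _ _ => rfl, ?_, fun e he => ?_, fun e he => ?_⟩
  · intro C hC
    rw [Finset.sum_congr rfl fun e _ => h0 e]
    exact hl C hC
  · rw [h0]
    exact not_lt.1 he
  · rw [h0]
    exact he.le

/-- **Packing theorem.** -/
theorem pack [Fintype V] [Fintype E] {s t : E → V} {l : E → ℝ} (hl : Cons s t l) :
    ∃ y : Finset V → ℝ, (∀ B, 0 ≤ y B) ∧ (∀ B, ¬ Good s t l B → y B = 0) ∧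
      (∀ e, 0 ≤ l e → tot s t y e ≤ l e) ∧ (∀ e, l e < 0 → tot s t y e = - l e) := by
  classical
  obtain ⟨y, hy, hmax⟩ := (feas_compact s t l).exists_isMaxOn ⟨_, feas_zero hl⟩
    (f := fun y => ∑ B, y B) (by fun_prop)
  obtain ⟨h1, h2, h3, h4, h5⟩ := hy
  refine ⟨y, h1, h2, ?_, ?_⟩
  · intro e he
    have := h4 e (not_lt.2 he)
    unfold res at this
    rw [if_neg (not_lt.2 he)] at this
    linarith
  intro e1 he1
  by_contra hcon
  have hr1 : res s t l y e1 < 0 := by
    refine lt_of_le_of_ne (h5 e1 he1) fun h => hcon ?_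
    unfold res at h
    rw [if_pos he1] at h
    linarith
  set r := res s t l y with hr
  obtain ⟨p, hp, hz⟩ := exists_contract h3
  obtain ⟨⟨x, q, F⟩, hF, hmin⟩ := ((Finset.univ : Finset (V × V × Finset E)).filter
    (fun w => Join (p ∘ s) (p ∘ t) w.1 w.2.1 w.2.2)).exists_min_image
      (fun w => ∑ e ∈ w.2.2, r e) ⟨(p (s e1), p (t e1), {e1}), by
        rw [Finset.mem_filter]
        exact ⟨Finset.mem_univ _, join_single (p ∘ s) (p ∘ t) e1⟩⟩
  rw [Finset.mem_filter] at hF
  have hM : IsMin (p ∘ s) (p ∘ t) r x q F := by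
    refine ⟨hF.2, fun x' y' F' h => ?_⟩
    exact hmin (x', y', F') (by
      rw [Finset.mem_filter]
      exact ⟨Finset.mem_univ _, h⟩)
  have hneg : ∑ e ∈ F, r e < 0 := by
    have := hM.2 _ _ _ (join_single (p ∘ s) (p ∘ t) e1)
    rw [Finset.sum_singleton] at this
    linarith
  have hnz : ∀ e, Inc (p ∘ s) (p ∘ t) q e → r e ≠ 0 := by
    intro e he h0
    have := hz e h0
    rcases he with ⟨h6, h7⟩ | ⟨h6, h7⟩
    · exact h7 (by simpa using this.symm.trans h6)
    · exact h6 (by simpa using this.trans h7)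
  obtain ⟨e0, he0, hle0, huniq, ε, hε, hcons, hε1, hε2⟩ := improve hp hM hneg hnz
  set B0 : Finset V := Finset.univ.filter (fun v => p v = q) with hB0
  have hcut : ∀ e, Cut s t B0 e ↔ Inc (p ∘ s) (p ∘ t) q e := by
    intro e
    unfold Cut Inc
    simp [hB0]
  have hl0 : l e0 < 0 := by
    by_contra h
    have := h4 e0 h
    linarith
  have hl' : ∀ e, Inc (p ∘ s) (p ∘ t) q e → l e < 0 → e = e0 := by
    intro e he hle
    exact huniq e he (lt_of_le_of_ne (h5 e hle) (hnz e he))
  set y' : Finset V → ℝ := fun B => y B + if B0 = B then ε else 0 with hy'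
  have htot : ∀ e, tot s t y' e = tot s t y e + if Cut s t B0 e then ε else 0 := by
    intro e
    unfold tot
    rw [hy', Finset.sum_add_distrib, Finset.sum_ite_eq]
    simp only [Finset.mem_filter, Finset.mem_univ, true_and]
  have hres : ∀ e, res s t l y' e = r e - ε * dir (p ∘ s) (p ∘ t) q e0 e := by
    intro e
    rw [hr]
    unfold res dir
    rw [htot]
    by_cases hi : Inc (p ∘ s) (p ∘ t) q e
    · rw [if_pos ((hcut e).2 hi), if_pos hi]
      by_cases hee : e = e0
      · rw [if_pos hee, hee, if_pos hl0]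
        ring
      · rw [if_neg hee, if_neg (fun h => hee (hl' e hi h))]
        ring
    · rw [if_neg (fun h => hi ((hcut e).1 h)), if_neg hi]
      ring
  have hfeas : y' ∈ Feas s t l := by
    refine ⟨fun B => ?_, fun B hB => ?_, ?_, fun e he => ?_, fun e he => ?_⟩
    · rw [hy']
      have := h1 B
      simp only
      split_ifs
      · linarith
      · linarith
    · have hne : B0 ≠ B := by
        rintro rfl
        exact hB ⟨e0, hl0, (hcut e0).2 he0, fun e' h6 h7 => hl' e' ((hcut e').1 h7) h6⟩
      rw [hy']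
      simp only
      rw [if_neg hne, h2 B hB, add_zero]
    · intro C hC
      rw [Finset.sum_congr rfl fun e _ => hres e]
      refine hcons C fun v => ?_
      -- even in `V` implies even after the contraction
      have h6 : bd (p ∘ s) (p ∘ t) C v = ∑ u ∈ Finset.univ.filter (fun u => p u = v), bd s t C u := by
        unfold bd
        rw [Finset.sum_comm]
        refine Finset.sum_congr rfl fun e _ => ?_
        rw [Finset.sum_add_distrib]
        congr 1
        · unfold ind
          rw [Finset.sum_ite_eq]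
          simp
        · unfold ind
          rw [Finset.sum_ite_eq]
          simp
      rw [h6]
      exact Finset.sum_eq_zero fun u _ => hC u
    · rw [hres]
      by_cases hi : Inc (p ∘ s) (p ∘ t) q e
      · have hne : e ≠ e0 := fun h => he (h ▸ hl0)
        have := hε2 e hi hne
        unfold dir
        rw [if_pos hi, if_neg hne]
        linarith
      · unfold dir
        rw [if_neg hi]
        have := h4 e he
        linarith
    · rw [hres]
      by_cases hi : Inc (p ∘ s) (p ∘ t) q e
      · have hee := hl' e hi he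
        unfold dir
        rw [if_pos hi, if_pos hee, hee]
        linarith
      · unfold dir
        rw [if_neg hi]
        have := h5 e he
        linarith
  have h9 : ∑ B, y' B ≤ ∑ B, y B := hmax hfeas
  rw [hy', Finset.sum_add_distrib, Finset.sum_ite_eq, if_pos (Finset.mem_univ _)] at h9
  linarith

end Pool.Agent.Q197.CutPack
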