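import Mathlib

/-!
Elimination lemmas for bivariate complex polynomials, used for the family of lines
through the origin: a plane algebraic curve is tangent to only finitely many of them away
from the origin.
-/

open Polynomial

namespace Q197.Elim

/-- Elimination over an abstract fraction field. -/
lemma elimK (K : Type) [Field K] [Algebra ℂ[X] K] [IsFractionRing ℂ[X] K]
    {g h : ℂ[X][X]} (hg : Irreducible g) (hdeg : 0 < g.natDegree) (hgh : ¬ g ∣ h) :
    ∃ (U V : ℂ[X][X]) (r : ℂ[X]), r ≠ 0 ∧ U * g + V * h = C r := by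
  classical
  have hinj : Function.Injective (algebraMap ℂ[X] K) := IsFractionRing.injective _ _
  have hmapinj : Function.Injective (Polynomial.map (algebraMap ℂ[X] K)) :=
    Polynomial.map_injective _ hinj
  have hprim : g.IsPrimitive := by
    refine hg.isPrimitive ?_
    omega
  have hirr : Irreducible (g.map (algebraMap ℂ[X] K)) :=
    (hprim.irreducible_iff_irreducible_map_fraction_map).1 hg
  have hprime : Prime g := hg.prime
  have hnorm : ∀ q : K[X], ∃ (b : ℂ[X]) (q' : ℂ[X][X]), b ≠ 0 ∧
      q'.map (algebraMap ℂ[X] K) = C (algebraMap ℂ[X] K b) * q := by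
    intro q
    obtain ⟨b, hbm, hb⟩ := IsLocalization.integerNormalization_spec (nonZeroDivisors ℂ[X]) q
    refine ⟨b, _, nonZeroDivisors.ne_zero hbm, hb.trans ?_⟩
    rw [Algebra.smul_def, Polynomial.algebraMap_apply]
  -- g does not divide h over K
  have hnd : ¬ g.map (algebraMap ℂ[X] K) ∣ h.map (algebraMap ℂ[X] K) := by
    rintro ⟨q, hq⟩
    obtain ⟨b, q', hb0, hb⟩ := hnorm q
    have e1 : C (b : ℂ[X]) * h = g * q' := by
      apply hmapinj
      rw [Polynomial.map_mul, Polynomial.map_mul, hb, hq, Polynomial.map_C]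
      ring
    have e2 : g ∣ C (b : ℂ[X]) * h := ⟨_, e1⟩
    rcases hprime.dvd_or_dvd e2 with h1 | h1
    · have := Polynomial.natDegree_le_of_dvd h1 (by simp [hb0])
      simp at this
      omega
    · exact hgh h1
  have hcop : IsCoprime (g.map (algebraMap ℂ[X] K)) (h.map (algebraMap ℂ[X] K)) :=
    (hirr.coprime_iff_not_dvd).2 hnd
  obtain ⟨u, v, huv⟩ := hcop
  obtain ⟨b, u', hb0, hb⟩ := hnorm u
  obtain ⟨c, v', hc0, hc⟩ := hnorm v
  refine ⟨C c * u', C b * v', b * c, mul_ne_zero hb0 hc0, ?_⟩
  apply hmapinj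
  rw [Polynomial.map_add, Polynomial.map_mul, Polynomial.map_mul, Polynomial.map_mul,
    Polynomial.map_mul, hb, hc, Polynomial.map_C, Polynomial.map_C, Polynomial.map_C,
    map_mul, C_mul]
  have : C ((algebraMap ℂ[X] K) c) * (C ((algebraMap ℂ[X] K) b) * u) * map (algebraMap ℂ[X] K) g +
      C ((algebraMap ℂ[X] K) b) * (C ((algebraMap ℂ[X] K) c) * v) * map (algebraMap ℂ[X] K) h
      = C ((algebraMap ℂ[X] K) b) * C ((algebraMap ℂ[X] K) c) *
        (u * map (algebraMap ℂ[X] K) g + v * map (algebraMap ℂ[X] K) h) := by ring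
  rw [this, huv, mul_one]

/-- Elimination: an irreducible `g` of positive degree and `h` not divisible by `g` generate
a nonzero element of the coefficient ring. -/
lemma elim {g h : ℂ[X][X]} (hg : Irreducible g) (hdeg : 0 < g.natDegree) (hgh : ¬ g ∣ h) :
    ∃ (U V : ℂ[X][X]) (r : ℂ[X]), r ≠ 0 ∧ U * g + V * h = C r :=
  elimK (FractionRing ℂ[X]) hg hdeg hgh

/-- For all but finitely many parameters `m`, every root of `A(m, ·)` is a simple root of an
irreducible factor. -/
lemma good (A : ℂ[X][X]) (hA : A ≠ 0) : ∃ E : Set ℂ, E.Finite ∧ ∀ m, m ∉ E → ∀ x,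
    A.evalEval m x = 0 → ∃ g, g ∣ A ∧ Irreducible g ∧ 0 < g.natDegree ∧ g.evalEval m x = 0 ∧
      (derivative g).evalEval m x ≠ 0 := by
  induction A using WfDvdMonoid.induction_on_irreducible with
  | zero => exact absurd rfl hA
  | unit u hu =>
    refine ⟨∅, Set.finite_empty, fun m _ x h0 => ?_⟩
    obtain ⟨w, hw⟩ := hu
    have h1 : (u * (↑w⁻¹ : ℂ[X][X])) = 1 := by rw [← hw]; simp
    have h2 := congrArg (Polynomial.evalEval m x) h1
    rw [Polynomial.evalEval_mul, h0, zero_mul, Polynomial.evalEval_one] at h2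
    exact absurd h2 zero_ne_one
  | mul a i ha hi ih =>
    obtain ⟨S, hS, hgood⟩ := ih ha
    by_cases hdeg : 0 < i.natDegree
    · have hnd : ¬ i ∣ derivative i := by
        intro hd
        have hne : derivative i ≠ 0 := by
          intro h0
          have := Polynomial.natDegree_eq_zero_of_derivative_eq_zero h0
          omega
        have := Polynomial.natDegree_le_of_dvd hd hne
        have h2 := Polynomial.natDegree_derivative_lt (p := i) (by omega)
        omega
      obtain ⟨U, V, r, hr, hUV⟩ := elim hi hdeg hnd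
      refine ⟨S ∪ {m | r.eval m = 0}, hS.union ?_, ?_⟩
      · refine (r.roots.toFinset.finite_toSet).subset ?_
        intro m hm
        simp only [Finset.mem_coe, Multiset.mem_toFinset]
        exact (Polynomial.mem_roots hr).2 hm
      · intro m hm x h0
        simp only [Set.mem_union, Set.mem_setOf_eq, not_or] at hm
        rw [Polynomial.evalEval_mul] at h0
        rcases mul_eq_zero.1 h0 with h1 | h1
        · refine ⟨i, dvd_mul_right _ _, hi, hdeg, h1, fun h2 => hm.2 ?_⟩
          have h3 := congrArg (Polynomial.evalEval m x) hUV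
          rw [Polynomial.evalEval_add, Polynomial.evalEval_mul, Polynomial.evalEval_mul, h1, h2,
            mul_zero, mul_zero, add_zero, Polynomial.evalEval_C] at h3
          exact h3.symm
        · obtain ⟨g, hg, hrest⟩ := hgood m hm.1 x h1
          exact ⟨g, hg.mul_left _, hrest⟩
    · have h0 : i.natDegree = 0 := by omega
      obtain ⟨r, hr⟩ : ∃ r, i = C r := ⟨_, Polynomial.eq_C_of_natDegree_eq_zero h0⟩
      have hr0 : r ≠ 0 := by
        rintro rfl
        exact hi.ne_zero (by simpa using hr)
      refine ⟨S ∪ {m | r.eval m = 0}, hS.union ?_, ?_⟩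
      · refine (r.roots.toFinset.finite_toSet).subset ?_
        intro m hm
        simp only [Finset.mem_coe, Multiset.mem_toFinset]
        exact (Polynomial.mem_roots hr0).2 hm
      · intro m hm x h0
        simp only [Set.mem_union, Set.mem_setOf_eq, not_or] at hm
        rw [Polynomial.evalEval_mul, hr, Polynomial.evalEval_C] at h0
        rcases mul_eq_zero.1 h0 with h1 | h1
        · exact absurd h1 hm.2
        · obtain ⟨g, hg, hrest⟩ := hgood m hm.1 x h1
          exact ⟨g, hg.mul_left _, hrest⟩

/-- A polynomial vanishing wherever `g` vanishes is divisible by the irreducible `g`. -/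
lemma dvd_of_zeros {g h : ℂ[X][X]} (hg : Irreducible g) (hdeg : 0 < g.natDegree)
    (hz : ∀ m x, g.evalEval m x = 0 → h.evalEval m x = 0) : g ∣ h := by
  by_contra hnd
  obtain ⟨U, V, r, hr, hUV⟩ := elim hg hdeg hnd
  have hlc : g.leadingCoeff ≠ 0 := Polynomial.leadingCoeff_ne_zero.2 hg.ne_zero
  have hprod : r * g.leadingCoeff ≠ 0 := mul_ne_zero hr hlc
  obtain ⟨m, hm⟩ : ∃ m, (r * g.leadingCoeff).eval m ≠ 0 := by
    by_contra hcon
    push Not at hcon
    exact hprod (Polynomial.funext (by simpa using hcon))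
  rw [Polynomial.eval_mul] at hm
  have hm1 : r.eval m ≠ 0 := left_ne_zero_of_mul hm
  have hm2 : g.leadingCoeff.eval m ≠ 0 := right_ne_zero_of_mul hm
  have hdm : (g.map (evalRingHom m)).natDegree = g.natDegree :=
    Polynomial.natDegree_map_of_leadingCoeff_ne_zero _ hm2
  have hdeg' : (g.map (evalRingHom m)).degree ≠ 0 := by
    intro h0
    have := Polynomial.natDegree_eq_of_degree_eq_some (n := 0) (by simpa using h0)
    omega
  obtain ⟨x, hx⟩ := IsAlgClosed.exists_root _ hdeg'
  have hev : ∀ q : ℂ[X][X], q.evalEval m x = (q.map (evalRingHom m)).eval x := by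
    intro q
    rw [Polynomial.eval_map]
    rw [Polynomial.evalEval, ← Polynomial.coe_evalRingHom, Polynomial.eval, Polynomial.hom_eval₂]
    simp
  have hg0 : g.evalEval m x = 0 := by rw [hev]; exact hx
  have hh0 := hz m x hg0
  have h3 := congrArg (Polynomial.evalEval m x) hUV
  rw [Polynomial.evalEval_add, Polynomial.evalEval_mul, Polynomial.evalEval_mul, hg0, hh0,
    mul_zero, mul_zero, add_zero, Polynomial.evalEval_C] at h3
  exact hm1 h3.symm

end Q197.Elim
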