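import Mathlib

/-!
# Embedded surfaces in the three-sphere: definitions

Classical definitions (as in do Carmo's book) for subsets `F` of the unit sphere of `ℝ⁴`.
-/

open Set
open scoped ContDiff

namespace Q197.Flat

/-- The ambient space `ℝ⁴`. -/
abbrev E4 := EuclideanSpace ℝ (Fin 4)

/-- `φ : U → F` is a regular parametrisation of class `C^k` of a relatively open subset of `F`:
`U` is an open subset of the plane, `φ` is of class `C^k` on `U`, its derivative is injective at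
each point of `U`, and `φ` is a homeomorphism of `U` onto a relatively open subset of `F`
(it is injective on `U` and maps open subsets of `U` to relatively open subsets of `F`). -/
structure IsParam (k : WithTop ℕ∞) (F : Set E4) (U : Set (ℝ × ℝ)) (φ : ℝ × ℝ → E4) : Prop where
  isOpen : IsOpen U
  contDiffOn : ContDiffOn ℝ k φ U
  immersion : ∀ q ∈ U, Function.Injective (fderiv ℝ φ q)
  injOn : InjOn φ U
  openMap : ∀ W, W ⊆ U → IsOpen W → ∃ V : Set E4, IsOpen V ∧ φ '' W = F ∩ V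

/-- `F` is a connected embedded surface of class `C^k` in the unit sphere `S³` of `ℝ⁴`. -/
def IsSurface (k : WithTop ℕ∞) (F : Set E4) : Prop :=
  IsConnected F ∧ (∀ x ∈ F, ‖x‖ = 1) ∧ ∀ x ∈ F, ∃ U φ, IsParam k F U φ ∧ x ∈ φ '' U

/-- The induced metric of `F` is locally Euclidean: near each point there are a parametrisation
`φ : U → F` and a map `Θ` of class `C^k` from `U` to the Euclidean plane such that
`Θ ∘ φ⁻¹` is a local isometry (the metric induced by `φ` is the pullback by `Θ` of the Euclidean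
metric). -/
def IsFlat (k : WithTop ℕ∞) (F : Set E4) : Prop :=
  ∀ x ∈ F, ∃ (U : Set (ℝ × ℝ)) (φ : ℝ × ℝ → E4) (Θ : ℝ × ℝ → EuclideanSpace ℝ (Fin 2)),
    IsParam k F U φ ∧ x ∈ φ '' U ∧ ContDiffOn ℝ k Θ U ∧
      ∀ q ∈ U, ∀ v w : ℝ × ℝ, inner ℝ (fderiv ℝ φ q v) (fderiv ℝ φ q w) =
        inner ℝ (fderiv ℝ Θ q v) (fderiv ℝ Θ q w)

/-- `F` is orientable: there is a family of `C^1` parametrisations whose images cover `F` and such
that all changes of parameters have positive Jacobian determinant. -/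
def IsOrientable (F : Set E4) : Prop :=
  ∃ (ι : Type) (U : ι → Set (ℝ × ℝ)) (φ : ι → ℝ × ℝ → E4),
    (∀ i, IsParam 1 F (U i) (φ i)) ∧ (∀ x ∈ F, ∃ i, x ∈ φ i '' U i) ∧
    ∀ i j, ∀ p ∈ U i, ∀ q ∈ U j, φ i p = φ j q →
      ∃ A : (ℝ × ℝ) →L[ℝ] (ℝ × ℝ), 0 < A.det ∧ fderiv ℝ (φ i) p = (fderiv ℝ (φ j) q).comp A

/-- The vector `v` is normal in `S³` to the surface `F` at `x`: it is orthogonal to `x` and to the
tangent plane of `F` at `x`. -/
def IsNormal (F : Set E4) (x v : E4) : Prop :=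
  inner ℝ v x = 0 ∧ ∀ U φ q, IsParam 1 F U φ → q ∈ U → φ q = x →
    ∀ w : ℝ × ℝ, inner ℝ v (fderiv ℝ φ q w) = 0

/-- `γ` is a closed asymptotic line of `F` with period `T`: a regular `C^k` curve on `F`, closed
up and simple on each period, such that the normal curvature of `F` in `S³` in the direction
of its tangent vanishes at each point, that is, `⟪γ'', v⟫ = 0` for all normal vectors `v`. -/
def IsClosedAsymptoticLine (k : WithTop ℕ∞) (F : Set E4) (γ : ℝ → E4) (T : ℝ) : Prop :=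
  0 < T ∧ ContDiff ℝ k γ ∧ (∀ t, γ t ∈ F) ∧ (∀ t, deriv γ t ≠ 0) ∧
    (∀ t, γ (t + T) = γ t) ∧ InjOn γ (Ico 0 T) ∧
    ∀ t, ∀ v, IsNormal F (γ t) v → inner ℝ (deriv (deriv γ) t) v = 0

/-! ### Basic facts -/

section

variable {F : Set E4} {U W : Set (ℝ × ℝ)} {φ ψ : ℝ × ℝ → E4} {p q : ℝ × ℝ}

lemma IsParam.mem (h : IsParam 1 F U φ) (hp : p ∈ U) : φ p ∈ F := by
  obtain ⟨V, _, hV⟩ := h.openMap U subset_rfl h.isOpen
  have : φ p ∈ φ '' U := mem_image_of_mem _ hp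
  rw [hV] at this
  exact this.1

lemma IsParam.hasStrict (h : IsParam 1 F U φ) (hp : p ∈ U) :
    HasStrictFDerivAt φ (fderiv ℝ φ p) p := by
  have h1 : ContDiffAt ℝ 1 φ p := h.contDiffOn.contDiffAt (h.isOpen.mem_nhds hp)
  exact h1.hasStrictFDerivAt (by simp)

/-- A continuous left inverse of an injective linear map. -/
lemma exists_left (L : (ℝ × ℝ) →L[ℝ] E4) (hL : Function.Injective L) :
    ∃ M : E4 →L[ℝ] (ℝ × ℝ), M.comp L = ContinuousLinearMap.id ℝ _ := by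
  obtain ⟨M, hM⟩ := LinearMap.exists_leftInverse_of_injective (L : (ℝ × ℝ) →ₗ[ℝ] E4)
    (LinearMap.ker_eq_bot.2 hL)
  refine ⟨LinearMap.toContinuousLinearMap M, ?_⟩
  ext
  · have := congrArg (fun f : (ℝ × ℝ) →ₗ[ℝ] (ℝ × ℝ) => (f (1, 0)).1) hM
    simpa using this
  · have := congrArg (fun f : (ℝ × ℝ) →ₗ[ℝ] (ℝ × ℝ) => (f (1, 0)).2) hM
    simpa using this
  · have := congrArg (fun f : (ℝ × ℝ) →ₗ[ℝ] (ℝ × ℝ) => (f (0, 1)).1) hM
    simpa using this
  · have := congrArg (fun f : (ℝ × ℝ) →ₗ[ℝ] (ℝ × ℝ) => (f (0, 1)).2) hM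
    simpa using this

/-- Two parametrisations have the same tangent plane at a common point. -/
lemma IsParam.trans (h : IsParam 1 F U φ) (h' : IsParam 1 F W ψ) (hp : p ∈ U) (hq : q ∈ W)
    (hpq : φ p = ψ q) :
    ∃ A : (ℝ × ℝ) →L[ℝ] (ℝ × ℝ), A.det ≠ 0 ∧ fderiv ℝ φ p = (fderiv ℝ ψ q).comp A := by
  obtain ⟨M, hM⟩ := exists_left (fderiv ℝ ψ q) (h'.immersion q hq)
  have hs : HasStrictFDerivAt (fun y => M (ψ y)) (M.comp (fderiv ℝ ψ q)) q :=
    M.hasStrictFDerivAt.comp q (h'.hasStrict hq)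
  rw [hM] at hs
  have hs' : HasStrictFDerivAt (fun y => M (ψ y))
    ((ContinuousLinearEquiv.refl ℝ (ℝ × ℝ) : (ℝ × ℝ) →L[ℝ] (ℝ × ℝ))) q := hs
  set g := hs'.localInverse (fun y => M (ψ y)) (ContinuousLinearEquiv.refl ℝ (ℝ × ℝ)) q with hg
  have hgl : ∀ᶠ y in nhds q, g (M (ψ y)) = y := hs'.eventually_left_inverse
  have hgd : HasStrictFDerivAt g
      (((ContinuousLinearEquiv.refl ℝ (ℝ × ℝ)).symm : (ℝ × ℝ) →L[ℝ] (ℝ × ℝ))) (M (ψ q)) :=
    hs'.to_localInverse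
  obtain ⟨W₁, hW₁, hW₁o, hqW₁⟩ := eventually_nhds_iff.1 hgl
  obtain ⟨V, hV, hVeq⟩ := h'.openMap (W₁ ∩ W) inter_subset_right (hW₁o.inter h'.isOpen)
  have hqV : ψ q ∈ V := by
    have : ψ q ∈ ψ '' (W₁ ∩ W) := mem_image_of_mem _ ⟨hqW₁, hq⟩
    rw [hVeq] at this
    exact this.2
  have hcont : ContinuousAt φ p := (h.hasStrict hp).continuousAt
  have hev : ∀ᶠ x in nhds p, φ x = ψ (g (M (φ x))) := by
    have h1 : ∀ᶠ x in nhds p, φ x ∈ V := hcont (by rw [hpq]; exact hV.mem_nhds hqV)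
    filter_upwards [h1, h.isOpen.mem_nhds hp] with x hx hxU
    have h2 : φ x ∈ ψ '' (W₁ ∩ W) := by
      rw [hVeq]
      exact ⟨h.mem hxU, hx⟩
    obtain ⟨y, ⟨hy1, _⟩, hy⟩ := h2
    rw [← hy, hW₁ y hy1]
  have hgq : g (M (φ p)) = q := by rw [hpq]; exact hW₁ q hqW₁
  have hψ : HasFDerivAt ψ (fderiv ℝ ψ q) (g (M (φ p))) := by
    rw [hgq]; exact (h'.hasStrict hq).hasFDerivAt
  have hg2 : HasFDerivAt g
      (((ContinuousLinearEquiv.refl ℝ (ℝ × ℝ)).symm : (ℝ × ℝ) →L[ℝ] (ℝ × ℝ))) (M (φ p)) := by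
    rw [hpq]; exact hgd.hasFDerivAt
  have hcomp : HasFDerivAt (fun x => ψ (g (M (φ x)))) ((fderiv ℝ ψ q).comp
      ((((ContinuousLinearEquiv.refl ℝ (ℝ × ℝ)).symm : (ℝ × ℝ) →L[ℝ] (ℝ × ℝ))).comp
        (M.comp (fderiv ℝ φ p)))) p := by
    have h3 : HasFDerivAt (fun x => M (φ x)) (M.comp (fderiv ℝ φ p)) p :=
      M.hasFDerivAt.comp p (h.hasStrict hp).hasFDerivAt
    exact HasFDerivAt.comp p hψ (HasFDerivAt.comp p hg2 h3)
  have huniq := (h.hasStrict hp).hasFDerivAt.unique (hcomp.congr_of_eventuallyEq hev)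
  refine ⟨_, ?_, huniq⟩
  intro hdet
  have hinj := h.immersion p hp
  rw [huniq] at hinj
  set A := (((ContinuousLinearEquiv.refl ℝ (ℝ × ℝ)).symm : (ℝ × ℝ) →L[ℝ] (ℝ × ℝ))).comp
        (M.comp (fderiv ℝ φ p)) with hA
  have hAinj : Function.Injective A := by
    have : Function.Injective ((fderiv ℝ ψ q) ∘ A) := hinj
    exact this.of_comp
  have h4 : LinearMap.ker (A : (ℝ × ℝ) →ₗ[ℝ] (ℝ × ℝ)) ≠ ⊥ := by
    have : LinearMap.det (A : (ℝ × ℝ) →ₗ[ℝ] (ℝ × ℝ)) = 0 := hdet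
    have h5 := (LinearMap.bot_lt_ker_of_det_eq_zero this)
    exact h5.ne'
  exact h4 (LinearMap.ker_eq_bot.2 hAinj)

end

end Q197.Flat
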