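import Mathlib

/-!
# A Helly type lemma for families with bounded sign sums

Let `Y` be a real normed space, `z k` finitely many linear functionals on the dual `Y*` with
`∑ k, |z k f| ≤ b ‖f‖`, and `f k` elements of `Y*`.  If `∑ k, f k (y k) ≤ u` for all families
`y k` in `Y` with `∑ k, |f (y k)| ≤ b ‖f‖` for all `f`, then `∑ k, z k (f k) ≤ u`.
-/

set_option autoImplicit false

namespace Pool.Agent.Q197.HellyFam

open Finset

variable {Y : Type*} [NormedAddCommGroup Y] [NormedSpace ℝ Y] {κ : Type*} [Fintype κ]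
  [DecidableEq κ]

/-- signs -/
def sg (b : Bool) : ℝ := if b then 1 else -1

lemma sg_sq (b : Bool) : sg b * sg b = 1 := by cases b <;> simp [sg]

lemma sg_abs (b : Bool) : |sg b| = 1 := by cases b <;> simp [sg]

/-- families with `∑ k, |f (y k)| ≤ b ‖f‖` -/
def Fam (b : ℝ) (y : κ → Y) : Prop := ∀ f : StrongDual ℝ Y, ∑ k, |f (y k)| ≤ b * ‖f‖

/-- the sign sums -/
def signSum : (κ → Y) →ₗ[ℝ] ((κ → Bool) → Y) where
  toFun y := fun s => ∑ k, sg (s k) • y k
  map_add' y z := by
    funext s
    simp only [Pi.add_apply, smul_add, Finset.sum_add_distrib]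
  map_smul' c y := by
    funext s
    simp only [Pi.smul_apply, RingHom.id_apply, Finset.smul_sum]
    exact Finset.sum_congr rfl fun k _ => smul_comm _ _ _

lemma fam_of_signSum {b : ℝ} {y : κ → Y} (h : ‖signSum y‖ ≤ b) : Fam b y := by
  intro f
  let s : κ → Bool := fun k => decide (0 ≤ f (y k))
  have h1 : ∑ k, |f (y k)| = f (signSum y s) := by
    change _ = f (∑ k, sg (s k) • y k)
    rw [map_sum]
    refine Finset.sum_congr rfl fun k _ => ?_
    rw [map_smul, smul_eq_mul]
    by_cases hk : 0 ≤ f (y k)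
    · simp [s, sg, hk, abs_of_nonneg hk]
    · simp [s, sg, hk, abs_of_neg (not_le.1 hk)]
  rw [h1]
  calc f (signSum y s) ≤ ‖f (signSum y s)‖ := Real.le_norm_self _
    _ ≤ ‖f‖ * ‖signSum y s‖ := f.le_opNorm _
    _ ≤ ‖f‖ * b := by
        refine mul_le_mul_of_nonneg_left ?_ (norm_nonneg f)
        exact (norm_le_pi_norm _ s).trans h
    _ = b * ‖f‖ := mul_comm _ _

/-- sums over all sign vectors -/
lemma sum_sg_mul (k l : κ) : ∑ s : κ → Bool, sg (s k) * sg (s l) =
    if k = l then (2 : ℝ) ^ Fintype.card κ else 0 := by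
  split_ifs with h
  · subst h
    simp only [sg_sq, Finset.sum_const, Finset.card_univ, Fintype.card_fun, Fintype.card_bool,
      nsmul_eq_mul, mul_one]
    push_cast
    rfl
  · -- flip the sign at `k`
    refine Finset.sum_involution (fun s _ => Function.update s k (!(s k))) ?_ ?_ ?_ ?_
    · intro s _
      rw [Function.update_self, Function.update_of_ne (Ne.symm h)]
      cases s k <;> cases s l <;> simp [sg]
    · intro s _ _ hcon
      have := congrFun hcon k
      rw [Function.update_self] at this
      cases hs : s k <;> rw [hs] at this <;> simp at this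
    · intro s _
      exact Finset.mem_univ _
    · intro s _
      funext j
      by_cases hj : j = k
      · subst hj
        simp
      · simp [Function.update_of_ne hj]

/-- the family is recovered from its sign sums -/
lemma recover (y : κ → Y) (k : κ) :
    ∑ s : κ → Bool, sg (s k) • signSum y s = (2 : ℝ) ^ Fintype.card κ • y k := by
  have h1 : ∀ s : κ → Bool, sg (s k) • signSum y s = ∑ l, (sg (s k) * sg (s l)) • y l := by
    intro s
    change sg (s k) • (∑ l, sg (s l) • y l) = _
    rw [Finset.smul_sum]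
    exact Finset.sum_congr rfl fun l _ => smul_smul _ _ _
  rw [Finset.sum_congr rfl fun s _ => h1 s, Finset.sum_comm]
  have h2 : ∀ l, ∑ s : κ → Bool, (sg (s k) * sg (s l)) • y l =
      (if k = l then (2 : ℝ) ^ Fintype.card κ else 0) • y l := by
    intro l
    rw [← Finset.sum_smul, sum_sg_mul]
  rw [Finset.sum_congr rfl fun l _ => h2 l]
  simp only [ite_smul, zero_smul, Finset.sum_ite_eq, Finset.mem_univ, if_true]

theorem helly {b : ℝ} (hb : 0 < b) (z : κ → (StrongDual ℝ Y →ₗ[ℝ] ℝ))
    (hz : ∀ f : StrongDual ℝ Y, ∑ k, |z k f| ≤ b * ‖f‖) (f : κ → StrongDual ℝ Y) {u : ℝ}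
    (hu : ∀ y : κ → Y, Fam b y → ∑ k, f k (y k) ≤ u) : ∑ k, z k (f k) ≤ u := by
  classical
  have hu0 : 0 ≤ u := by
    have := hu (fun _ => 0) (fun g => by simp; positivity)
    simpa using this
  set P : ℝ := (2 : ℝ) ^ Fintype.card κ with hP
  have hP0 : 0 < P := by positivity
  -- a linear extension of the functional without norm control
  let Ψ : ((κ → Bool) → Y) →ₗ[ℝ] ℝ :=
    { toFun := fun g => ∑ k, f k (P⁻¹ • ∑ s : κ → Bool, sg (s k) • g s)
      map_add' := by
        intro g h
        rw [← Finset.sum_add_distrib]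
        refine Finset.sum_congr rfl fun k _ => ?_
        simp only [Pi.add_apply, smul_add, Finset.sum_add_distrib, map_add]
      map_smul' := by
        intro c g
        simp only [RingHom.id_apply, smul_eq_mul]
        rw [Finset.mul_sum]
        refine Finset.sum_congr rfl fun k _ => ?_
        rw [← smul_eq_mul (a := c), ← map_smul]
        congr 1
        rw [smul_comm c]
        congr 1
        rw [Finset.smul_sum]
        refine Finset.sum_congr rfl fun s _ => ?_
        rw [Pi.smul_apply, smul_comm] }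
  have hΨ : ∀ y : κ → Y, Ψ (signSum y) = ∑ k, f k (y k) := by
    intro y
    change ∑ k, f k (P⁻¹ • ∑ s : κ → Bool, sg (s k) • signSum y s) = _
    refine Finset.sum_congr rfl fun k _ => ?_
    rw [recover, smul_smul, inv_mul_cancel₀ hP0.ne', one_smul]
  let Ψp : ((κ → Bool) → Y) →ₗ.[ℝ] ℝ :=
    ⟨LinearMap.range (signSum : (κ → Y) →ₗ[ℝ] _), Ψ.domRestrict _⟩
  obtain ⟨Φ, hΦ1, hΦ2⟩ := exists_extension_of_le_sublinear Ψp (fun g => u / b * ‖g‖)
    (by
      intro c hc g
      rw [norm_smul, Real.norm_of_nonneg hc.le]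
      ring)
    (by
      intro g h
      rw [← mul_add]
      exact mul_le_mul_of_nonneg_left (norm_add_le g h) (by positivity))
    (by
      rintro ⟨x, y, rfl⟩
      change Ψ (signSum y) ≤ u / b * ‖signSum y‖
      rw [hΨ]
      by_cases h0 : ‖signSum y‖ = 0
      · have h1 : ∀ k, y k = 0 := by
          intro k
          have h2 := recover y k
          rw [norm_eq_zero] at h0
          rw [h0] at h2
          simp only [Pi.zero_apply, smul_zero, Finset.sum_const_zero] at h2
          exact (smul_eq_zero.1 h2.symm).resolve_left hP0.ne'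
        simp [h0, h1]
      · have hr : 0 < ‖signSum y‖ := lt_of_le_of_ne (norm_nonneg _) (Ne.symm h0)
        have h1 : Fam b ((b / ‖signSum y‖) • y) := by
          refine fam_of_signSum ?_
          rw [map_smul, norm_smul, Real.norm_of_nonneg (by positivity), div_mul_cancel₀ _ h0]
        have h2 := hu _ h1
        have h3 : ∑ k, f k (((b / ‖signSum y‖) • y) k) = b / ‖signSum y‖ * ∑ k, f k (y k) := by
          rw [Finset.mul_sum]
          refine Finset.sum_congr rfl fun k _ => ?_
          rw [Pi.smul_apply, map_smul, smul_eq_mul]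
        rw [h3] at h2
        have h4 : ∑ k, f k (y k) = (b / ‖signSum y‖ * ∑ k, f k (y k)) * (‖signSum y‖ / b) := by
          field_simp
        rw [h4]
        calc (b / ‖signSum y‖ * ∑ k, f k (y k)) * (‖signSum y‖ / b) ≤ u * (‖signSum y‖ / b) :=
              mul_le_mul_of_nonneg_right h2 (by positivity)
          _ = u / b * ‖signSum y‖ := by ring)
  have hΦ3 : ∀ y : κ → Y, Φ (signSum y) = ∑ k, f k (y k) := by
    intro y
    have := hΦ1 ⟨signSum y, y, rfl⟩
    change Φ (signSum y) = Ψ (signSum y) at this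
    rw [this, hΨ]
  -- the components of `Φ`
  let F : (κ → Bool) → StrongDual ℝ Y := fun s =>
    (Φ.comp (LinearMap.single ℝ (fun _ : κ → Bool => Y) s)).mkContinuous (u / b) (by
      intro v
      rw [Real.norm_eq_abs, abs_le]
      have h1 : ∀ w : Y, ‖(LinearMap.single ℝ (fun _ : κ → Bool => Y) s) w‖ = ‖w‖ := by
        intro w
        rw [LinearMap.coe_single, Pi.norm_single]
      have h2 := hΦ2 ((LinearMap.single ℝ (fun _ : κ → Bool => Y) s) v)
      have h3 := hΦ2 ((LinearMap.single ℝ (fun _ : κ → Bool => Y) s) (-v))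
      simp only [h1, norm_neg] at h2 h3
      rw [map_neg, map_neg] at h3
      simp only [LinearMap.comp_apply]
      exact ⟨by linarith, h2⟩)
  have hF : ∀ g : (κ → Bool) → Y, Φ g = ∑ s, F s (g s) := by
    intro g
    have h1 : g = ∑ s, (LinearMap.single ℝ (fun _ : κ → Bool => Y) s) (g s) := by
      simp only [LinearMap.coe_single]
      exact (Finset.univ_sum_single g).symm
    conv_lhs => rw [h1]
    rw [map_sum]
    rfl
  have hFn : ∑ s, ‖F s‖ ≤ u / b := by
    refine le_of_forall_pos_le_add fun η hη => ?_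
    set δ : ℝ := η / (Fintype.card (κ → Bool) + 1) with hδ
    have hδ0 : 0 < δ := by positivity
    have h1 : ∀ s, ∃ v : Y, ‖v‖ ≤ 1 ∧ ‖F s‖ - δ ≤ F s v := by
      intro s
      obtain ⟨v, hv1, hv2⟩ := (F s).exists_lt_apply_of_lt_opNorm
        (show ‖F s‖ - δ < ‖F s‖ by linarith)
      rcases le_total 0 (F s v) with h | h
      · rw [Real.norm_of_nonneg h] at hv2
        exact ⟨v, hv1.le, hv2.le⟩
      · rw [Real.norm_of_nonpos h] at hv2
        refine ⟨-v, by rw [norm_neg]; exact hv1.le, ?_⟩
        rw [map_neg]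
        exact hv2.le
    choose v hv1 hv2 using h1
    have h2 : ∑ s, F s (v s) ≤ u / b := by
      rw [← hF]
      refine (hΦ2 v).trans ?_
      have h3 : ‖v‖ ≤ 1 := (pi_norm_le_iff_of_nonneg zero_le_one).2 hv1
      calc u / b * ‖v‖ ≤ u / b * 1 := mul_le_mul_of_nonneg_left h3 (by positivity)
        _ = u / b := mul_one _
    have h3 : ∑ s, (‖F s‖ - δ) ≤ ∑ s, F s (v s) := Finset.sum_le_sum fun s _ => hv2 s
    rw [Finset.sum_sub_distrib, Finset.sum_const, Finset.card_univ, nsmul_eq_mul] at h3
    have h4 : (Fintype.card (κ → Bool) : ℝ) * δ ≤ η := by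
      rw [hδ]
      have h5 : (0 : ℝ) < Fintype.card (κ → Bool) + 1 := by positivity
      rw [mul_div_assoc', div_le_iff₀ h5]
      nlinarith
    linarith
  have hfk : ∀ k, f k = ∑ s : κ → Bool, sg (s k) • F s := by
    intro k
    ext v
    have h1 := hΦ3 (Pi.single k v)
    rw [hF] at h1
    have h2 : ∑ l, f l ((Pi.single k v : κ → Y) l) = f k v := by
      rw [Finset.sum_eq_single k]
      · rw [Pi.single_eq_same]
      · intro l _ hl
        rw [Pi.single_eq_of_ne hl, map_zero]
      · intro h
        exact absurd (Finset.mem_univ k) h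
    rw [h2] at h1
    rw [← h1, _root_.sum_apply]
    refine Finset.sum_congr rfl fun s _ => ?_
    have h3 : signSum (Pi.single k v : κ → Y) s = sg (s k) • v := by
      change ∑ l, sg (s l) • (Pi.single k v : κ → Y) l = _
      rw [Finset.sum_eq_single k]
      · rw [Pi.single_eq_same]
      · intro l _ hl
        rw [Pi.single_eq_of_ne hl, smul_zero]
      · intro h
        exact absurd (Finset.mem_univ k) h
    rw [h3, map_smul]
    rfl
  calc ∑ k, z k (f k) = ∑ k, ∑ s : κ → Bool, sg (s k) * z k (F s) := by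
        refine Finset.sum_congr rfl fun k _ => ?_
        rw [hfk k, map_sum]
        refine Finset.sum_congr rfl fun s _ => ?_
        rw [map_smul, smul_eq_mul]
    _ = ∑ s : κ → Bool, ∑ k, sg (s k) * z k (F s) := Finset.sum_comm
    _ ≤ ∑ s : κ → Bool, b * ‖F s‖ := by
        refine Finset.sum_le_sum fun s _ => ?_
        refine le_trans (Finset.sum_le_sum fun k _ => ?_) (hz (F s))
        refine (le_abs_self _).trans ?_
        rw [abs_mul, sg_abs, one_mul]
    _ = b * ∑ s : κ → Bool, ‖F s‖ := by rw [Finset.mul_sum]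
    _ ≤ b * (u / b) := mul_le_mul_of_nonneg_left hFn hb.le
    _ = u := by field_simp

end Pool.Agent.Q197.HellyFam
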