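import Mathlib

/-!
The Hopf-type immersion `R (τ, s) = ρ (e^{iτ}, e^{iτ} ζ(s))`, `ζ(s) = -s^2 + i k(s)`, into the unit
sphere of `ℝ⁴ = ℂ²`, where `k` is odd, smooth and vanishes for `|s| ≥ 1`.
-/

open Set
open scoped Topology ContDiff

namespace Q197.Hopf

/-- Ambient space. -/
abbrev E4 := EuclideanSpace ℝ (Fin 4)

/-- Smooth odd function supported in `[-1, 1]`. -/
noncomputable def kk (s : ℝ) : ℝ := s * expNegInvGlue (1 - s ^ 2)

lemma kk_neg (s : ℝ) : kk (-s) = - kk s := by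
  unfold kk; rw [neg_sq]; ring

lemma kk_eq_zero {s : ℝ} (hs : 1 ≤ s ^ 2) : kk s = 0 := by
  unfold kk; rw [expNegInvGlue.zero_of_nonpos (by linarith), mul_zero]

lemma kk_pos {s : ℝ} (h0 : 0 < s) (h1 : s ^ 2 < 1) : 0 < kk s :=
  mul_pos h0 (expNegInvGlue.pos_of_pos (by linarith))

lemma kk_neg_of {s : ℝ} (h0 : s < 0) (h1 : s ^ 2 < 1) : kk s < 0 :=
  mul_neg_of_neg_of_pos h0 (expNegInvGlue.pos_of_pos (by linarith))

lemma contDiff_kk : ContDiff ℝ ∞ kk := by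
  unfold kk
  exact contDiff_id.mul (expNegInvGlue.contDiff.comp (contDiff_const.sub (contDiff_id.pow 2)))

lemma deriv_kk_zero : deriv kk 0 ≠ 0 := by
  have h1 : HasDerivAt kk (1 * expNegInvGlue (1 - 0 ^ 2) +
      0 * deriv (fun s : ℝ => expNegInvGlue (1 - s ^ 2)) 0) 0 := by
    unfold kk
    have hd : DifferentiableAt ℝ (fun s : ℝ => expNegInvGlue (1 - s ^ 2)) 0 := by
      have : ContDiff ℝ ∞ (fun s : ℝ => expNegInvGlue (1 - s ^ 2)) :=
        expNegInvGlue.contDiff.comp (contDiff_const.sub (contDiff_id.pow 2))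
      exact this.differentiable (by simp) 0
    exact (hasDerivAt_id (0 : ℝ)).mul hd.hasDerivAt
  rw [h1.deriv]
  simp only [one_mul, zero_mul, add_zero]
  exact (expNegInvGlue.pos_of_pos (by norm_num)).ne'

/-- `1 + |ζ|²`. -/
noncomputable def qq (s : ℝ) : ℝ := 1 + s ^ 4 + kk s ^ 2

lemma qq_pos (s : ℝ) : 0 < qq s := by unfold qq; positivity

lemma contDiff_qq : ContDiff ℝ ∞ qq := by
  unfold qq
  exact (contDiff_const.add (contDiff_id.pow 4)).add (contDiff_kk.pow 2)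

/-- `ρ = (1 + |ζ|²)^(-1/2)`. -/
noncomputable def rr (s : ℝ) : ℝ := (Real.sqrt (qq s))⁻¹

lemma rr_pos (s : ℝ) : 0 < rr s := inv_pos.2 (Real.sqrt_pos.2 (qq_pos s))

lemma rr_sq (s : ℝ) : rr s ^ 2 * qq s = 1 := by
  unfold rr
  rw [inv_pow, Real.sq_sqrt (qq_pos s).le, inv_mul_cancel₀ (qq_pos s).ne']

lemma contDiff_rr : ContDiff ℝ ∞ rr := by
  unfold rr
  exact (contDiff_qq.sqrt (fun s => (qq_pos s).ne')).inv
    (fun s => (Real.sqrt_pos.2 (qq_pos s)).ne')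

lemma rr_neg_of {s : ℝ} (hs : 1 ≤ s ^ 2) : rr (-s) = rr s := by
  have h : qq (-s) = qq s := by
    unfold qq
    rw [kk_neg, kk_eq_zero hs]
    ring
  unfold rr
  rw [h]

/-- The immersion. -/
noncomputable def RR (x : ℝ × ℝ) : E4 :=
  !₂[rr x.2 * Real.cos x.1, rr x.2 * Real.sin x.1,
    rr x.2 * (-(x.2 ^ 2) * Real.cos x.1 - kk x.2 * Real.sin x.1),
    rr x.2 * (-(x.2 ^ 2) * Real.sin x.1 + kk x.2 * Real.cos x.1)]

lemma RR_neg {τ s : ℝ} (hs : 1 ≤ s ^ 2) : RR (τ, -s) = RR (τ, s) := by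
  unfold RR
  simp only [rr_neg_of hs, kk_neg, kk_eq_zero hs, neg_sq, neg_zero]

lemma RR_add (τ s : ℝ) (m : ℤ) : RR (τ + m * (2 * Real.pi), s) = RR (τ, s) := by
  unfold RR
  simp only [Real.cos_add_int_mul_two_pi, Real.sin_add_int_mul_two_pi]

lemma contDiff_RR : ContDiff ℝ ∞ RR := by
  have h1 : ContDiff ℝ ∞ (fun x : ℝ × ℝ => x.1) := contDiff_fst
  have h2 : ContDiff ℝ ∞ (fun x : ℝ × ℝ => x.2) := contDiff_snd
  have hr : ContDiff ℝ ∞ (fun x : ℝ × ℝ => rr x.2) := contDiff_rr.comp h2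
  have hk : ContDiff ℝ ∞ (fun x : ℝ × ℝ => kk x.2) := contDiff_kk.comp h2
  have hc : ContDiff ℝ ∞ (fun x : ℝ × ℝ => Real.cos x.1) := Real.contDiff_cos.comp h1
  have hs : ContDiff ℝ ∞ (fun x : ℝ × ℝ => Real.sin x.1) := Real.contDiff_sin.comp h1
  have h22 : ContDiff ℝ ∞ (fun x : ℝ × ℝ => -(x.2 ^ 2)) := (h2.pow 2).neg
  rw [contDiff_euclidean]
  intro i
  fin_cases i
  · exact hr.mul hc
  · exact hr.mul hs
  · exact hr.mul ((h22.mul hc).sub (hk.mul hs))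
  · exact hr.mul ((h22.mul hs).add (hk.mul hc))

/-- Partial derivative in `τ`. -/
noncomputable def R1 (x : ℝ × ℝ) : E4 :=
  !₂[-(rr x.2 * Real.sin x.1), rr x.2 * Real.cos x.1,
    rr x.2 * ((x.2 ^ 2) * Real.sin x.1 - kk x.2 * Real.cos x.1),
    rr x.2 * (-(x.2 ^ 2) * Real.cos x.1 - kk x.2 * Real.sin x.1)]

/-- Partial derivative in `s`. -/
noncomputable def R2 (x : ℝ × ℝ) : E4 :=
  !₂[deriv rr x.2 * Real.cos x.1, deriv rr x.2 * Real.sin x.1,
    deriv rr x.2 * (-(x.2 ^ 2) * Real.cos x.1 - kk x.2 * Real.sin x.1) +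
      rr x.2 * (-(2 * x.2) * Real.cos x.1 - deriv kk x.2 * Real.sin x.1),
    deriv rr x.2 * (-(x.2 ^ 2) * Real.sin x.1 + kk x.2 * Real.cos x.1) +
      rr x.2 * (-(2 * x.2) * Real.sin x.1 + deriv kk x.2 * Real.cos x.1)]

lemma hasDeriv_rr (s : ℝ) : HasDerivAt rr (deriv rr s) s :=
  (contDiff_rr.differentiable (by simp) s).hasDerivAt

lemma hasDeriv_kk (s : ℝ) : HasDerivAt kk (deriv kk s) s :=
  (contDiff_kk.differentiable (by simp) s).hasDerivAt

/-- Derivative of a function into Euclidean space, coordinatewise along a curve. -/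
lemma hasDerivAt_E4 {f : ℝ → E4} {f' : E4} {t : ℝ}
    (h : ∀ i, HasDerivAt (fun s => f s i) (f' i) t) : HasDerivAt f f' t := by
  have h1 : HasDerivAt (fun s => (WithLp.equiv 2 (Fin 4 → ℝ)) (f s))
      ((WithLp.equiv 2 (Fin 4 → ℝ)) f') t := hasDerivAt_pi.2 h
  have h2 := (PiLp.continuousLinearEquiv 2 ℝ (fun _ : Fin 4 => ℝ)).symm.toContinuousLinearMap.hasFDerivAt
    (x := (WithLp.equiv 2 (Fin 4 → ℝ)) (f t))
  exact h2.comp_hasDerivAt t h1

lemma deriv_line (τ s v w : ℝ) :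
    HasDerivAt (fun t : ℝ => RR (τ + t * v, s + t * w)) (v • R1 (τ, s) + w • R2 (τ, s)) 0 := by
  have h1 : HasDerivAt (fun t : ℝ => τ + t * v) v 0 := by
    simpa using ((hasDerivAt_id (0 : ℝ)).mul_const v).const_add τ
  have h2 : HasDerivAt (fun t : ℝ => s + t * w) w 0 := by
    simpa using ((hasDerivAt_id (0 : ℝ)).mul_const w).const_add s
  have hr : HasDerivAt (fun t : ℝ => rr (s + t * w)) (deriv rr s * w) 0 := by
    have h3 := hasDeriv_rr (s + 0 * w)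
    have h4 : HasDerivAt (rr ∘ fun t : ℝ => s + t * w) (deriv rr (s + 0 * w) * w) 0 :=
      HasDerivAt.comp (h₂ := rr) (0 : ℝ) h3 h2
    rw [zero_mul, add_zero] at h4
    exact h4
  have hk : HasDerivAt (fun t : ℝ => kk (s + t * w)) (deriv kk s * w) 0 := by
    have h3 := hasDeriv_kk (s + 0 * w)
    have h4 : HasDerivAt (kk ∘ fun t : ℝ => s + t * w) (deriv kk (s + 0 * w) * w) 0 :=
      HasDerivAt.comp (h₂ := kk) (0 : ℝ) h3 h2
    rw [zero_mul, add_zero] at h4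
    exact h4
  have hc := h1.cos
  have hs := h1.sin
  have hq := (h2.pow 2).neg
  apply hasDerivAt_E4
  intro i
  fin_cases i
  · refine (hr.mul hc).congr_deriv ?_
    simp [R1, R2]
    ring
  · refine (hr.mul hs).congr_deriv ?_
    simp [R1, R2]
    ring
  · refine (hr.mul ((hq.mul hc).sub (hk.mul hs))).congr_deriv ?_
    simp [R1, R2]
    ring
  · refine (hr.mul ((hq.mul hs).add (hk.mul hc))).congr_deriv ?_
    simp [R1, R2]
    ring

lemma fderiv_RR (τ s v w : ℝ) : fderiv ℝ RR (τ, s) (v, w) = v • R1 (τ, s) + w • R2 (τ, s) := by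
  have hd : HasFDerivAt RR (fderiv ℝ RR (τ, s)) (τ + 0 * v, s + 0 * w) := by
    have := (contDiff_RR.differentiable (by simp) (τ, s)).hasFDerivAt
    simpa using this
  have hl : HasDerivAt (fun t : ℝ => (τ + t * v, s + t * w)) (v, w) 0 := by
    have h1 : HasDerivAt (fun t : ℝ => τ + t * v) v 0 := by
      simpa using ((hasDerivAt_id (0 : ℝ)).mul_const v).const_add τ
    have h2 : HasDerivAt (fun t : ℝ => s + t * w) w 0 := by
      simpa using ((hasDerivAt_id (0 : ℝ)).mul_const w).const_add s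
    exact h1.prodMk h2
  have h3 : HasDerivAt (RR ∘ fun t : ℝ => (τ + t * v, s + t * w)) (fderiv ℝ RR (τ, s) (v, w)) 0 :=
    HasFDerivAt.comp_hasDerivAt (l := RR) (0 : ℝ) hd hl
  exact h3.unique (deriv_line τ s v w)

lemma inner_E4 (x y : E4) : inner ℝ x y = x 0 * y 0 + x 1 * y 1 + x 2 * y 2 + x 3 * y 3 := by
  rw [PiLp.inner_apply, Fin.sum_univ_four]
  simp
  ring

lemma deriv_rr_eq (s : ℝ) : deriv rr s = -(rr s ^ 3 * (2 * s ^ 3 + kk s * deriv kk s)) := by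
  have h1 : HasDerivAt (fun s => rr s ^ 2 * qq s)
      ((2 * rr s * deriv rr s) * qq s + rr s ^ 2 * (4 * s ^ 3 + 2 * kk s * deriv kk s)) s := by
    have hq : HasDerivAt qq (4 * s ^ 3 + 2 * kk s * deriv kk s) s := by
      unfold qq
      have h2 := (((hasDerivAt_id s).pow 4).const_add 1).add ((hasDeriv_kk s).pow 2)
      refine h2.congr_deriv ?_
      simp
    have h3 := ((hasDeriv_rr s).pow 2).mul hq
    refine h3.congr_deriv ?_
    simp
  have h2 : (fun s => rr s ^ 2 * qq s) = fun _ => 1 := funext rr_sq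
  rw [h2] at h1
  have h3 := h1.unique (hasDerivAt_const s (1 : ℝ))
  have h4 : 2 * rr s * (qq s * (deriv rr s + rr s ^ 3 * (2 * s ^ 3 + kk s * deriv kk s))) = 0 := by
    have h5 := rr_sq s
    linear_combination h3 + (2 * rr s ^ 2 * (2 * s ^ 3 + kk s * deriv kk s)) * h5
  rcases mul_eq_zero.1 h4 with h | h
  · exact absurd h (mul_pos two_pos (rr_pos s)).ne'
  · rcases mul_eq_zero.1 h with h | h
    · exact absurd h (qq_pos s).ne'
    · linarith

lemma inner11 (τ s : ℝ) : inner ℝ (R1 (τ, s)) (R1 (τ, s)) = 1 := by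
  rw [inner_E4]
  simp only [R1, PiLp.toLp_apply, Matrix.cons_val_zero, Matrix.cons_val_one, Matrix.cons_val]
  have h1 := rr_sq s
  have h2 := Real.sin_sq_add_cos_sq τ
  unfold qq at h1
  linear_combination (rr s ^ 2 * (1 + s ^ 4 + kk s ^ 2)) * h2 + h1

/-- The mixed coefficient of the metric. -/
noncomputable def ff (s : ℝ) : ℝ := rr s ^ 2 * (2 * s * kk s - s ^ 2 * deriv kk s)

/-- Speed of the base curve. -/
noncomputable def bb (s : ℝ) : ℝ := rr s ^ 2 * Real.sqrt (4 * s ^ 2 + deriv kk s ^ 2)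

lemma inner12 (τ s : ℝ) : inner ℝ (R1 (τ, s)) (R2 (τ, s)) = ff s := by
  rw [inner_E4]
  simp only [R1, R2, PiLp.toLp_apply, Matrix.cons_val_zero, Matrix.cons_val_one, Matrix.cons_val]
  have h2 := Real.sin_sq_add_cos_sq τ
  unfold ff
  linear_combination (rr s ^ 2 * (2 * s * kk s - s ^ 2 * deriv kk s)) * h2

lemma base_pos (s : ℝ) : 0 < 4 * s ^ 2 + deriv kk s ^ 2 := by
  rcases eq_or_ne s 0 with rfl | h
  · have := deriv_kk_zero
    positivity
  · positivity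

lemma bb_pos (s : ℝ) : 0 < bb s :=
  mul_pos (pow_pos (rr_pos s) 2) (Real.sqrt_pos.2 (base_pos s))

lemma inner22 (τ s : ℝ) : inner ℝ (R2 (τ, s)) (R2 (τ, s)) = ff s ^ 2 + bb s ^ 2 := by
  rw [inner_E4]
  simp only [R2, PiLp.toLp_apply, Matrix.cons_val_zero, Matrix.cons_val_one, Matrix.cons_val]
  have h2 := Real.sin_sq_add_cos_sq τ
  have h1 := rr_sq s
  unfold qq at h1
  have hb : bb s ^ 2 = rr s ^ 4 * (4 * s ^ 2 + deriv kk s ^ 2) := by
    unfold bb
    rw [mul_pow, Real.sq_sqrt (base_pos s).le]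
    ring
  rw [hb, deriv_rr_eq]
  unfold ff
  linear_combination (rr s ^ 6 * (2 * s ^ 3 + kk s * deriv kk s) ^ 2 * (1 + s ^ 4 + kk s ^ 2) -
    2 * rr s ^ 4 * (2 * s ^ 3 + kk s * deriv kk s) ^ 2 +
    rr s ^ 2 * (4 * s ^ 2 + deriv kk s ^ 2)) * h2 +
    (rr s ^ 4 * (2 * s ^ 3 + kk s * deriv kk s) ^ 2 -
      rr s ^ 2 * (4 * s ^ 2 + deriv kk s ^ 2)) * h1

lemma RR_inner (τ s : ℝ) : inner ℝ (RR (τ, s)) (RR (τ, s)) = 1 := by
  rw [inner_E4]
  simp only [RR, PiLp.toLp_apply, Matrix.cons_val_zero, Matrix.cons_val_one, Matrix.cons_val]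
  have h1 := rr_sq s
  have h2 := Real.sin_sq_add_cos_sq τ
  unfold qq at h1
  linear_combination (rr s ^ 2 * (1 + s ^ 4 + kk s ^ 2)) * h2 + h1

lemma norm_RR (x : ℝ × ℝ) : ‖RR x‖ = 1 := by
  have h := RR_inner x.1 x.2
  rw [real_inner_self_eq_norm_sq] at h
  have h0 := norm_nonneg (RR x)
  nlinarith

lemma fderiv_inner (x v w : ℝ × ℝ) : inner ℝ (fderiv ℝ RR x v) (fderiv ℝ RR x w) =
    (v.1 + ff x.2 * v.2) * (w.1 + ff x.2 * w.2) + (bb x.2 * v.2) * (bb x.2 * w.2) := by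
  obtain ⟨τ, s⟩ := x
  obtain ⟨v1, v2⟩ := v
  obtain ⟨w1, w2⟩ := w
  rw [fderiv_RR, fderiv_RR]
  rw [inner_add_left, inner_add_right, inner_add_right, real_inner_smul_left, real_inner_smul_left,
    real_inner_smul_left, real_inner_smul_left, real_inner_smul_right, real_inner_smul_right,
    real_inner_smul_right, real_inner_smul_right, inner11, inner12, inner22,
    real_inner_comm (R1 (τ, s)) (R2 (τ, s)), inner12]
  ring

lemma fderiv_injective (x : ℝ × ℝ) : Function.Injective (fderiv ℝ RR x) := by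
  rw [injective_iff_map_eq_zero]
  rintro ⟨v1, v2⟩ h
  have h1 := fderiv_inner x (v1, v2) (v1, v2)
  rw [h, inner_zero_left] at h1
  simp only at h1
  have hb := bb_pos x.2
  have h2 : bb x.2 * v2 = 0 := by
    nlinarith [sq_nonneg (v1 + ff x.2 * v2), sq_nonneg (bb x.2 * v2)]
  have h3 : v2 = 0 := by
    rcases mul_eq_zero.1 h2 with h | h
    · exact absurd h hb.ne'
    · exact h
  subst h3
  have h4 : v1 = 0 := by nlinarith
  rw [h4]; rfl

/-! ### Developing map -/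

lemma contDiff_ff : ContDiff ℝ ∞ ff := by
  unfold ff
  have hd : ContDiff ℝ ∞ (deriv kk) := (contDiff_infty_iff_deriv.1 contDiff_kk).2
  exact (contDiff_rr.pow 2).mul (((contDiff_const.mul contDiff_id).mul contDiff_kk).sub
    ((contDiff_id.pow 2).mul hd))

lemma contDiff_bb : ContDiff ℝ ∞ bb := by
  unfold bb
  have hd : ContDiff ℝ ∞ (deriv kk) := (contDiff_infty_iff_deriv.1 contDiff_kk).2
  refine (contDiff_rr.pow 2).mul (ContDiff.sqrt ?_ (fun s => (base_pos s).ne'))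
  exact (contDiff_const.mul (contDiff_id.pow 2)).add (hd.pow 2)

lemma prim (g : ℝ → ℝ) (hg : ContDiff ℝ ∞ g) : ∃ G : ℝ → ℝ, ContDiff ℝ ∞ G ∧
    ∀ s, HasDerivAt G (g s) s := by
  have h1 : ∀ s, HasDerivAt (fun u => ∫ x in (0 : ℝ)..u, g x) (g s) s := fun s =>
    (hg.continuous.integral_hasStrictDerivAt 0 s).hasDerivAt
  refine ⟨fun u => ∫ x in (0 : ℝ)..u, g x, ?_, h1⟩
  rw [contDiff_infty_iff_deriv]
  refine ⟨fun s => (h1 s).differentiableAt, ?_⟩
  have : deriv (fun u => ∫ x in (0 : ℝ)..u, g x) = g := funext fun s => (h1 s).deriv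
  rw [this]
  exact hg

/-- There is a smooth map to the Euclidean plane with the same metric as `RR`. -/
lemma develop : ∃ Θ : ℝ × ℝ → EuclideanSpace ℝ (Fin 2), ContDiff ℝ ∞ Θ ∧
    ∀ x v w, inner ℝ (fderiv ℝ RR x v) (fderiv ℝ RR x w) =
      inner ℝ (fderiv ℝ Θ x v) (fderiv ℝ Θ x w) := by
  obtain ⟨F, hF, hF'⟩ := prim ff contDiff_ff
  obtain ⟨B, hB, hB'⟩ := prim bb contDiff_bb
  have hC : ContDiff ℝ ∞ (fun x : ℝ × ℝ => (!₂[x.1 + F x.2, B x.2] : EuclideanSpace ℝ (Fin 2))) := by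
    rw [contDiff_euclidean]
    intro i
    fin_cases i
    · exact contDiff_fst.add (hF.comp contDiff_snd)
    · exact hB.comp contDiff_snd
  refine ⟨_, hC, fun x v w => ?_⟩
  have key : ∀ v : ℝ × ℝ, fderiv ℝ (fun x : ℝ × ℝ =>
      (!₂[x.1 + F x.2, B x.2] : EuclideanSpace ℝ (Fin 2))) x v =
      !₂[v.1 + ff x.2 * v.2, bb x.2 * v.2] := by
    intro v
    have hd := (hC.differentiable (by simp) x).hasFDerivAt
    ext i
    have hp : HasFDerivAt (fun y : ℝ × ℝ => (!₂[y.1 + F y.2, B y.2] : EuclideanSpace ℝ (Fin 2)) i)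
        ((PiLp.proj 2 (fun _ : Fin 2 => ℝ) i : EuclideanSpace ℝ (Fin 2) →L[ℝ] ℝ).comp
          (fderiv ℝ (fun x : ℝ × ℝ =>
            (!₂[x.1 + F x.2, B x.2] : EuclideanSpace ℝ (Fin 2))) x)) x :=
      (PiLp.proj 2 (fun _ : Fin 2 => ℝ) i : EuclideanSpace ℝ (Fin 2) →L[ℝ] ℝ).hasFDerivAt.comp x hd
    have h2 := hasFDerivAt_snd (𝕜 := ℝ) (E := ℝ) (F := ℝ) (p := x)
    have h1 := hasFDerivAt_fst (𝕜 := ℝ) (E := ℝ) (F := ℝ) (p := x)
    fin_cases i
    · have h3 := h1.add ((hF' x.2).comp_hasFDerivAt x h2)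
      have h4 := hp.unique h3
      have h5 := congrArg (fun L : (ℝ × ℝ) →L[ℝ] ℝ => L v) h4
      simpa using h5
    · have h3 := (hB' x.2).comp_hasFDerivAt x h2
      have h4 := hp.unique h3
      have h5 := congrArg (fun L : (ℝ × ℝ) →L[ℝ] ℝ => L v) h4
      simpa using h5
  rw [key, key, fderiv_inner, PiLp.inner_apply, Fin.sum_univ_two]
  simp
  ring

end Q197.Hopf
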