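import Mathlib

/-!
# A James type space of functions of bounded quadratic variation

`E g n u` is the energy of `g` along the chain `u 0 ≤ ... ≤ u n`, with a closing term;
`Bd g B` says that all energies are at most `B ^ 2`.
-/

set_option autoImplicit false

namespace Q197.JamesV

open Finset Filter Topology

/-- The energy of `g` along the chain `u 0, ..., u n`. -/
def E (g : ℕ → ℝ) (n : ℕ) (u : ℕ → ℕ) : ℝ :=
  ∑ i ∈ range n, (g (u (i + 1)) - g (u i)) ^ 2 + (g (u n)) ^ 2

/-- All energies are at most `B ^ 2`. -/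
def Bd (g : ℕ → ℝ) (B : ℝ) : Prop := 0 ≤ B ∧ ∀ n u, Monotone u → E g n u ≤ B ^ 2

lemma E_nonneg (g : ℕ → ℝ) (n : ℕ) (u : ℕ → ℕ) : 0 ≤ E g n u := by
  unfold E; positivity

lemma Bd.mono {g : ℕ → ℝ} {A B : ℝ} (h : Bd g A) (hAB : A ≤ B) : Bd g B :=
  ⟨h.1.trans hAB, fun n u hu => (h.2 n u hu).trans (pow_le_pow_left₀ h.1 hAB 2)⟩

lemma Bd.apply {g : ℕ → ℝ} {B : ℝ} (h : Bd g B) (t : ℕ) : |g t| ≤ B := by
  have := h.2 0 (fun _ => t) monotone_const
  simp only [E, range_zero, sum_empty, zero_add] at this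
  exact abs_le_of_sq_le_sq this h.1

lemma mink {ι : Type*} (s : Finset ι) (x y : ι → ℝ) {A B : ℝ} (hA : 0 ≤ A) (hB : 0 ≤ B)
    (hx : ∑ i ∈ s, x i ^ 2 ≤ A ^ 2) (hy : ∑ i ∈ s, y i ^ 2 ≤ B ^ 2) :
    ∑ i ∈ s, (x i + y i) ^ 2 ≤ (A + B) ^ 2 := by
  have h1 : (∑ i ∈ s, x i * y i) ^ 2 ≤ (A * B) ^ 2 := by
    refine (Finset.sum_mul_sq_le_sq_mul_sq s x y).trans ?_
    rw [mul_pow]
    exact mul_le_mul hx hy (sum_nonneg fun i _ => sq_nonneg _) (sq_nonneg _)
  have h2 : ∑ i ∈ s, x i * y i ≤ A * B := (abs_le_of_sq_le_sq' h1 (mul_nonneg hA hB)).2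
  have h3 : ∑ i ∈ s, (x i + y i) ^ 2 =
      ∑ i ∈ s, x i ^ 2 + 2 * ∑ i ∈ s, x i * y i + ∑ i ∈ s, y i ^ 2 := by
    rw [mul_sum, ← sum_add_distrib, ← sum_add_distrib]
    exact sum_congr rfl fun i _ => by ring
  rw [h3]; nlinarith

/-- The increments, closing term included. -/
def d (g : ℕ → ℝ) (n : ℕ) (u : ℕ → ℕ) (i : ℕ) : ℝ :=
  if i < n then g (u (i + 1)) - g (u i) else g (u i)

lemma E_eq (g : ℕ → ℝ) (n : ℕ) (u : ℕ → ℕ) : E g n u = ∑ i ∈ range (n + 1), (d g n u i) ^ 2 := by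
  rw [sum_range_succ, E]
  congr 1
  · exact sum_congr rfl fun i hi => by simp [d, mem_range.1 hi]
  · simp [d]

lemma Bd.add {g h : ℕ → ℝ} {A B : ℝ} (hg : Bd g A) (hh : Bd h B) :
    Bd (fun t => g t + h t) (A + B) := by
  refine ⟨add_nonneg hg.1 hh.1, fun n u hu => ?_⟩
  have := mink (range (n + 1)) (d g n u) (d h n u) hg.1 hh.1
    (by rw [← E_eq]; exact hg.2 n u hu) (by rw [← E_eq]; exact hh.2 n u hu)
  rw [E_eq]
  refine le_trans (le_of_eq ?_) this
  refine sum_congr rfl fun i _ => ?_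
  congr 1
  unfold d
  split_ifs <;> ring

lemma Bd.smul {g : ℕ → ℝ} {A : ℝ} (hg : Bd g A) (c : ℝ) : Bd (fun t => c * g t) (|c| * A) := by
  refine ⟨mul_nonneg (abs_nonneg _) hg.1, fun n u hu => ?_⟩
  have h1 : E (fun t => c * g t) n u = c ^ 2 * E g n u := by
    unfold E
    rw [mul_add, mul_sum]
    congr 1
    · exact sum_congr rfl fun i _ => by ring
    · ring
  rw [h1, mul_pow, sq_abs]
  exact mul_le_mul_of_nonneg_left (hg.2 n u hu) (sq_nonneg _)

lemma Bd.neg {g : ℕ → ℝ} {A : ℝ} (hg : Bd g A) : Bd (fun t => - g t) A := by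
  have := hg.smul (-1)
  simpa using this

lemma Bd.sub {g h : ℕ → ℝ} {A B : ℝ} (hg : Bd g A) (hh : Bd h B) :
    Bd (fun t => g t - h t) (A + B) := by
  have := hg.add hh.neg
  simpa [sub_eq_add_neg] using this

lemma Bd.zero : Bd (fun _ => (0 : ℝ)) 0 := ⟨le_refl _, fun n u _ => by simp [E]⟩

lemma Bd.const (a : ℝ) : Bd (fun _ => a) |a| :=
  ⟨abs_nonneg _, fun n u _ => by simp [E]⟩

lemma Bd.sum {ι : Type*} (s : Finset ι) (g : ι → ℕ → ℝ) (B : ι → ℝ)
    (h : ∀ i ∈ s, Bd (g i) (B i)) : Bd (fun t => ∑ i ∈ s, g i t) (∑ i ∈ s, B i) := by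
  classical
  induction s using Finset.induction_on with
  | empty => simpa using Bd.zero
  | insert a s ha ih =>
    have h1 := (h a (mem_insert_self _ _)).add (ih fun i hi => h i (mem_insert_of_mem hi))
    simpa only [sum_insert ha] using h1

lemma Bd.of_tendsto {ι : Type*} {l : Filter ι} [NeBot l] {g : ι → ℕ → ℝ} {h : ℕ → ℝ} {B : ℝ}
    (hlim : ∀ t, Tendsto (fun i => g i t) l (𝓝 (h t))) (hg : ∀ᶠ i in l, Bd (g i) B) : Bd h B := by
  have h0 : 0 ≤ B := by
    obtain ⟨i, hi⟩ := hg.exists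
    exact hi.1
  refine ⟨h0, fun n u hu => ?_⟩
  have h1 : Tendsto (fun i => E (g i) n u) l (𝓝 (E h n u)) := by
    unfold E
    refine Tendsto.add (tendsto_finsetSum _ fun i _ => ?_) ((hlim _).pow 2)
    exact ((hlim _).sub (hlim _)).pow 2
  exact le_of_tendsto h1 (hg.mono fun i hi => hi.2 n u hu)

lemma Bd.trunc {g : ℕ → ℝ} {B : ℝ} (hg : Bd g B) (b : ℕ) :
    Bd (fun t => if t < b then g t else 0) B := by
  refine ⟨hg.1, fun n u hu => ?_⟩
  induction n with
  | zero =>
    have := hg.2 0 u hu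
    simp only [E, range_zero, sum_empty, zero_add] at this ⊢
    split_ifs
    · exact this
    · simpa using sq_nonneg B
  | succ n ih =>
    by_cases hb : u (n + 1) < b
    · have h1 : ∀ i, i ≤ n + 1 → u i < b := fun i hi => (hu hi).trans_lt hb
      have h2 : E (fun t => if t < b then g t else 0) (n + 1) u = E g (n + 1) u := by
        unfold E
        congr 1
        · refine sum_congr rfl fun i hi => ?_
          have hi' := mem_range.1 hi
          simp only [h1 i (by omega), h1 (i + 1) (by omega), if_true]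
        · simp only [hb, if_true]
      rw [h2]
      exact hg.2 _ _ hu
    · have h2 : E (fun t => if t < b then g t else 0) (n + 1) u =
          E (fun t => if t < b then g t else 0) n u := by
        unfold E
        rw [sum_range_succ]
        simp only [hb, if_false]
        ring
      rw [h2]
      exact ih

lemma Bd.tail {g : ℕ → ℝ} {B : ℝ} (hg : Bd g B) (b : ℕ) :
    Bd (fun t => if b ≤ t then g t else 0) (2 * B) := by
  have := hg.sub (hg.trunc b)
  convert this using 1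
  · funext t
    by_cases h : t < b
    · simp [h, not_le.2 h]
    · simp [h, not_lt.1 h]
  · ring

lemma Bd.window {g : ℕ → ℝ} {B : ℝ} (hg : Bd g B) (a b : ℕ) :
    Bd (fun t => if a ≤ t ∧ t < b then g t else 0) (2 * B) := by
  have := (hg.tail a).trunc b
  convert this using 1
  funext t
  by_cases h : t < b <;> by_cases h' : a ≤ t <;> simp [h, h']

lemma Bd.single (t : ℕ) (a : ℝ) : Bd (fun s => if s = t then a else 0) (2 * |a|) := by
  have := (Bd.const a).window t (t + 1)
  convert this using 1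
  funext s
  by_cases h : s = t
  · subst h; simp
  · have : ¬ (t ≤ s ∧ s < t + 1) := by omega
    simp only [if_neg h, if_neg this]

lemma Bd.of_support {h : ℕ → ℝ} (b : ℕ) (hb : ∀ t, b ≤ t → h t = 0) :
    Bd h (2 * ∑ t ∈ range b, |h t|) := by
  have := Bd.sum (range b) (fun t s => if s = t then h t else 0) (fun t => 2 * |h t|)
    fun t _ => Bd.single t (h t)
  rw [← mul_sum] at this
  convert this using 1
  funext s
  by_cases hs : s < b
  · rw [Finset.sum_eq_single s]
    · simp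
    · intro t _ hts; simp [Ne.symm hts]
    · intro hs'; exact absurd (mem_range.2 hs) hs'
  · rw [hb s (not_lt.1 hs)]
    symm
    apply Finset.sum_eq_zero
    intro t ht
    have : s ≠ t := by have := mem_range.1 ht; omega
    simp [this]

/-- Functions supported on `[0, b)` with small values. -/
lemma Bd.of_small {h : ℕ → ℝ} (b : ℕ) {η : ℝ} (hb : ∀ t, b ≤ t → h t = 0)
    (hs : ∀ t, t < b → |h t| ≤ η) : Bd h (2 * (b * η)) := by
  refine (Bd.of_support b hb).mono ?_
  have : ∑ t ∈ range b, |h t| ≤ ∑ _t ∈ range b, η :=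
    sum_le_sum fun t ht => hs t (mem_range.1 ht)
  rw [sum_const, card_range, nsmul_eq_mul] at this
  linarith

/-- Variation without the closing term. -/
def V (g : ℕ → ℝ) (n : ℕ) (u : ℕ → ℕ) : ℝ := ∑ i ∈ range n, (g (u (i + 1)) - g (u i)) ^ 2

lemma exists_tail_var {g : ℕ → ℝ} {B : ℝ} (hg : Bd g B) {ε : ℝ} (hε : 0 < ε) :
    ∃ T₀ : ℕ, ∀ n u, Monotone u → T₀ ≤ u 0 → V g n u ≤ ε := by
  set A : Set ℝ := {x | ∃ n u, Monotone u ∧ x = V g n u} with hA
  have hne : A.Nonempty := ⟨_, 0, id, monotone_id, rfl⟩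
  have hbdd : BddAbove A := by
    refine ⟨B ^ 2, ?_⟩
    rintro x ⟨n, u, hu, rfl⟩
    refine le_trans ?_ (hg.2 n u hu)
    unfold V E
    have := sq_nonneg (g (u n))
    linarith
  obtain ⟨x, ⟨n, u, hu, rfl⟩, hx⟩ := exists_lt_of_lt_csSup hne (sub_lt_self (sSup A) hε)
  refine ⟨u n, fun m v hv h0 => ?_⟩
  let w : ℕ → ℕ := fun i => if i ≤ n then u i else v (i - (n + 1))
  have hw : Monotone w := by
    intro i j hij
    by_cases hj : j ≤ n
    · simp only [w, hj, hij.trans hj, if_true]; exact hu hij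
    · by_cases hi : i ≤ n
      · simp only [w, hj, hi, if_true, if_false]
        exact (hu hi).trans (h0.trans (hv (Nat.zero_le _)))
      · simp only [w, hj, hi, if_false]
        exact hv (by omega)
  have h1 : V g (n + 1 + m) w ≤ sSup A := le_csSup hbdd ⟨_, w, hw, rfl⟩
  have h2 : V g (n + 1 + m) w = V g n u + (g (v 0) - g (u n)) ^ 2 + V g m v := by
    unfold V
    rw [sum_range_add, sum_range_succ]
    congr 1
    · congr 1
      · refine sum_congr rfl fun i hi => ?_
        have hi' := mem_range.1 hi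
        simp only [w, show i + 1 ≤ n by omega, show i ≤ n by omega, if_true]
      · simp [w]
    · refine sum_congr rfl fun i _ => ?_
      have e1 : ¬ (n + 1 + i + 1 ≤ n) := by omega
      have e2 : ¬ (n + 1 + i ≤ n) := by omega
      simp only [w, e1, e2, if_false]
      rw [show n + 1 + i + 1 - (n + 1) = i + 1 by omega, show n + 1 + i - (n + 1) = i by omega]
  have := sq_nonneg (g (v 0) - g (u n))
  linarith

/-- Beyond a large time, `g` is almost constant in the variation norm. -/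
lemma eventually_tail {g : ℕ → ℝ} {B : ℝ} (hg : Bd g B) {ε : ℝ} (hε : 0 < ε) :
    ∀ᶠ T in (atTop : Filter ℕ), Bd (fun t => if T ≤ t then g t - g T else 0) ε := by
  obtain ⟨T₀, hT₀⟩ := exists_tail_var hg (ε := ε ^ 2 / 2) (by positivity)
  filter_upwards [eventually_ge_atTop T₀] with T hT
  refine ⟨hε.le, fun n u hu => ?_⟩
  have h1 := hT₀ n (fun i => max (u i) T) (hu.max monotone_const)
    (hT.trans (le_max_right _ _))
  have h2 := hT₀ 1 (fun i => if i = 0 then T else max (u n) T) (by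
    intro i j hij
    by_cases hj : j = 0
    · have : i = 0 := by omega
      simp [hj, this]
    · by_cases hi : i = 0 <;> simp [hi, hj]) (by simpa using hT)
  simp only [V, sum_range_one] at h2
  simp only [zero_add, one_ne_zero, if_false, if_true] at h2
  have key : ∀ t : ℕ, (if T ≤ t then g t - g T else 0) = g (max t T) - g T := by
    intro t
    by_cases h : T ≤ t
    · simp [h]
    · simp [h, max_eq_right (not_le.1 h).le]
  unfold E
  simp only [key]
  have h3 : ∑ i ∈ range n, (g (max (u (i + 1)) T) - g T - (g (max (u i) T) - g T)) ^ 2 =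
      V g n (fun i => max (u i) T) := by
    unfold V
    exact sum_congr rfl fun i _ => by ring
  rw [h3]
  linarith

lemma eventually_tail_zero {g : ℕ → ℝ} {B : ℝ} (hg : Bd g B) (h0 : Tendsto g atTop (𝓝 0))
    {ε : ℝ} (hε : 0 < ε) :
    ∀ᶠ T in (atTop : Filter ℕ), Bd (fun t => if T ≤ t then g t else 0) ε := by
  have h1 : ∀ᶠ T in (atTop : Filter ℕ), |g T| < ε / 4 := by
    have := (tendsto_order.1 h0.abs).2 (ε / 4) (by simpa using by positivity)
    exact this
  filter_upwards [eventually_tail hg (half_pos hε), h1] with T hT hT'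
  have h2 := hT.add ((Bd.const (g T)).tail T)
  refine Bd.mono (A := ε / 2 + 2 * |g T|) ?_ (by linarith)
  convert h2 using 1
  funext t
  by_cases h : T ≤ t <;> simp [h]

/-! ### Splitting into windows -/

lemma split_ineq {ι : Type*} (s : Finset ι) (χ : ι → ℕ → ℝ) (h01 : ∀ i ∈ s, ∀ t, χ i t = 0 ∨ χ i t = 1)
    (hsum : ∀ t, ∑ i ∈ s, χ i t = 1) (g : ℕ → ℝ) (b : ι → ℝ)
    (hb : ∀ i ∈ s, Bd (fun t => χ i t * g t) (b i)) (n : ℕ) (u : ℕ → ℕ) (hu : Monotone u) :
    E g n u ≤ 2 * ∑ i ∈ s, b i ^ 2 := by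
  have hid : ∀ i ∈ s, ∀ t, χ i t * χ i t = χ i t := by
    intro i hi t
    rcases h01 i hi t with h | h <;> simp [h]
  have hsq : ∀ t, (g t) ^ 2 = ∑ i ∈ s, (χ i t * g t) ^ 2 := by
    intro t
    have : ∑ i ∈ s, (χ i t * g t) ^ 2 = ∑ i ∈ s, χ i t * (g t) ^ 2 := by
      refine sum_congr rfl fun i hi => ?_
      calc (χ i t * g t) ^ 2 = (χ i t * χ i t) * (g t) ^ 2 := by ring
        _ = χ i t * (g t) ^ 2 := by rw [hid i hi t]
    rw [this, ← sum_mul, hsum, one_mul]
  have hinc : ∀ t t', (g t' - g t) ^ 2 ≤ 2 * ∑ i ∈ s, (χ i t' * g t' - χ i t * g t) ^ 2 := by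
    intro t t'
    set κ : ℝ := ∑ i ∈ s, χ i t' * χ i t with hκ
    have hκ0 : 0 ≤ κ := sum_nonneg fun i hi => by
      rcases h01 i hi t with h | h <;> rcases h01 i hi t' with h' | h' <;> simp [h, h']
    have hκ1 : κ ≤ 1 := by
      rw [← hsum t]
      refine sum_le_sum fun i hi => ?_
      rcases h01 i hi t with h | h <;> rcases h01 i hi t' with h' | h' <;> simp [h, h']
    have h1 : ∑ i ∈ s, (χ i t' * g t' - χ i t * g t) ^ 2 =
        (g t') ^ 2 + (g t) ^ 2 - 2 * κ * (g t' * g t) := by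
      rw [hsq t', hsq t, hκ, mul_sum, sum_mul, ← sum_add_distrib, ← sum_sub_distrib]
      exact sum_congr rfl fun i _ => by ring
    rw [h1]
    nlinarith [sq_nonneg (g t' - g t), sq_nonneg (g t' + g t), mul_nonneg hκ0 (sq_nonneg (g t' - g t)),
      mul_nonneg (sub_nonneg.2 hκ1) (sq_nonneg (g t' + g t)),
      mul_nonneg hκ0 (sq_nonneg (g t' + g t)),
      mul_nonneg (sub_nonneg.2 hκ1) (sq_nonneg (g t' - g t))]
  have h2 : E g n u ≤ 2 * ∑ i ∈ s, E (fun t => χ i t * g t) n u := by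
    unfold E
    rw [sum_add_distrib, mul_add]
    refine add_le_add ?_ ?_
    · rw [sum_comm, mul_sum]
      exact sum_le_sum fun j _ => hinc _ _
    · rw [hsq (u n)]
      have : 0 ≤ ∑ i ∈ s, (χ i (u n) * g (u n)) ^ 2 := sum_nonneg fun i _ => sq_nonneg _
      linarith
  refine h2.trans ?_
  refine mul_le_mul_of_nonneg_left ?_ (by norm_num)
  exact sum_le_sum fun i hi => (hb i hi).2 n u hu

end Q197.JamesV
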