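import Mathlib
import Pool.Agent.Q197.JamesV

/-!
# The James type Banach space and its `ℓ²`-sum
-/

set_option autoImplicit false

namespace Q197.JamesSpace

open Finset Filter Topology Q197.JamesV

/-- Functions with bounded quadratic variation tending to zero. -/
def Jsub : Submodule ℝ (ℕ → ℝ) where
  carrier := {g | (∃ B, Bd g B) ∧ Tendsto g atTop (𝓝 0)}
  zero_mem' := ⟨⟨0, Bd.zero⟩, tendsto_const_nhds⟩
  add_mem' := by
    rintro g h ⟨⟨A, hA⟩, hg⟩ ⟨⟨B, hB⟩, hh⟩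
    refine ⟨⟨A + B, hA.add hB⟩, ?_⟩
    have := hg.add hh
    rw [add_zero] at this
    exact this
  smul_mem' := by
    rintro c g ⟨⟨A, hA⟩, hg⟩
    refine ⟨⟨_, hA.smul c⟩, ?_⟩
    have := hg.const_mul c
    rw [mul_zero] at this
    exact this

/-- The James type space. -/
def J : Type := Jsub

noncomputable instance : AddCommGroup J := inferInstanceAs (AddCommGroup Jsub)
noncomputable instance : Module ℝ J := inferInstanceAs (Module ℝ Jsub)

/-- The underlying function. -/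
def J.fn (x : J) : ℕ → ℝ := x.1

lemma J.ext {x y : J} (h : ∀ t, x.fn t = y.fn t) : x = y := Subtype.ext (funext h)

lemma J.fn_add (x y : J) (t : ℕ) : (x + y).fn t = x.fn t + y.fn t := rfl
lemma J.fn_smul (c : ℝ) (x : J) (t : ℕ) : (c • x).fn t = c * x.fn t := rfl
lemma J.fn_zero (t : ℕ) : (0 : J).fn t = 0 := rfl
lemma J.fn_neg (x : J) (t : ℕ) : (-x).fn t = - x.fn t := rfl
lemma J.fn_sub (x y : J) (t : ℕ) : (x - y).fn t = x.fn t - y.fn t := rfl
lemma J.exists_bd (x : J) : ∃ B, Bd x.fn B := x.2.1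
lemma J.tendsto (x : J) : Tendsto x.fn atTop (𝓝 0) := x.2.2

/-- Constructor. -/
def J.mk (g : ℕ → ℝ) (hb : ∃ B, Bd g B) (h0 : Tendsto g atTop (𝓝 0)) : J := ⟨g, hb, h0⟩

lemma J.fn_mk (g : ℕ → ℝ) (hb : ∃ B, Bd g B) (h0 : Tendsto g atTop (𝓝 0)) :
    (J.mk g hb h0).fn = g := rfl

noncomputable instance : Norm J := ⟨fun x => sInf {B | Bd x.fn B}⟩

lemma J.norm_def (x : J) : ‖x‖ = sInf {B | Bd x.fn B} := rfl

lemma J.bddBelow (x : J) : BddBelow {B | Bd x.fn B} := ⟨0, fun _ h => h.1⟩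

lemma J.bd (x : J) : Bd x.fn ‖x‖ := by
  have hne : {B | Bd x.fn B}.Nonempty := x.exists_bd
  have h0 : 0 ≤ sInf {B | Bd x.fn B} := le_csInf hne fun _ h => h.1
  refine ⟨h0, fun n u hu => ?_⟩
  have h1 : Real.sqrt (E x.fn n u) ≤ sInf {B | Bd x.fn B} :=
    le_csInf hne fun B hB => Real.sqrt_le_iff.2 ⟨hB.1, hB.2 n u hu⟩
  exact (Real.sqrt_le_iff.1 h1).2

lemma J.norm_le {x : J} {B : ℝ} (h : Bd x.fn B) : ‖x‖ ≤ B := csInf_le x.bddBelow h

lemma J.norm_nonneg' (x : J) : 0 ≤ ‖x‖ := x.bd.1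

lemma J.abs_fn_le (x : J) (t : ℕ) : |x.fn t| ≤ ‖x‖ := x.bd.apply t

lemma J.core : NormedSpace.Core ℝ J where
  norm_nonneg x := x.norm_nonneg'
  norm_smul c x := by
    refine le_antisymm (J.norm_le (x.bd.smul c)) ?_
    rcases eq_or_ne c 0 with rfl | hc
    · simpa using (J.norm_nonneg' ((0 : ℝ) • x))
    · have h1 : ‖x‖ ≤ |c⁻¹| * ‖c • x‖ := by
        refine J.norm_le ?_
        have := (c • x).bd.smul c⁻¹
        convert this using 1
        funext t
        rw [J.fn_smul, inv_mul_cancel_left₀ hc]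
      rw [Real.norm_eq_abs]
      have h2 : |c| * |c⁻¹| = 1 := by rw [← abs_mul, mul_inv_cancel₀ hc, abs_one]
      calc |c| * ‖x‖ ≤ |c| * (|c⁻¹| * ‖c • x‖) := mul_le_mul_of_nonneg_left h1 (abs_nonneg _)
        _ = ‖c • x‖ := by rw [← mul_assoc, h2, one_mul]
  norm_triangle x y := J.norm_le (x.bd.add y.bd)
  norm_eq_zero_iff x := by
    constructor
    · intro h
      refine J.ext fun t => ?_
      have := x.abs_fn_le t
      rw [h] at this
      rw [J.fn_zero]
      exact abs_nonpos_iff.1 this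
    · rintro rfl
      refine le_antisymm (J.norm_le ?_) (J.norm_nonneg' _)
      exact Bd.zero

noncomputable instance : NormedAddCommGroup J := NormedAddCommGroup.ofCore J.core
noncomputable instance : NormedSpace ℝ J := NormedSpace.ofCore J.core

instance : CompleteSpace J := by
  refine Metric.complete_of_cauchySeq_tendsto fun x hx => ?_
  have hpt : ∀ t, ∃ a, Tendsto (fun n => (x n).fn t) atTop (𝓝 a) := by
    intro t
    refine cauchySeq_tendsto_of_complete ?_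
    rw [Metric.cauchySeq_iff] at hx ⊢
    intro ε hε
    obtain ⟨N, hN⟩ := hx ε hε
    refine ⟨N, fun m hm n hn => ?_⟩
    rw [Real.dist_eq, ← J.fn_sub]
    refine lt_of_le_of_lt ((x m - x n).abs_fn_le t) ?_
    rw [← dist_eq_norm]
    exact hN m hm n hn
  choose g hg using hpt
  have hlim : ∀ ε > 0, ∃ N, ∀ n ≥ N, Bd (fun t => (x n).fn t - g t) ε := by
    intro ε hε
    obtain ⟨N, hN⟩ := Metric.cauchySeq_iff.1 hx ε hε
    refine ⟨N, fun n hn => ?_⟩
    refine Bd.of_tendsto (l := atTop) (g := fun m t => (x n).fn t - (x m).fn t)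
      (fun t => tendsto_const_nhds.sub (hg t)) ?_
    filter_upwards [eventually_ge_atTop N] with m hm
    have h1 := (x n - x m).bd
    refine Bd.mono (A := ‖x n - x m‖) h1 ?_
    rw [← dist_eq_norm]
    exact (hN n hn m hm).le
  have hbd : ∃ B, Bd g B := by
    obtain ⟨N, hN⟩ := hlim 1 one_pos
    refine ⟨‖x N‖ + 1, ?_⟩
    have h := (x N).bd.sub (hN N le_rfl)
    convert h using 1
    funext t; ring
  have h0 : Tendsto g atTop (𝓝 0) := by
    rw [Metric.tendsto_atTop]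
    intro ε hε
    obtain ⟨N, hN⟩ := hlim (ε / 2) (half_pos hε)
    obtain ⟨M, hM⟩ := (Metric.tendsto_atTop.1 (x N).tendsto) (ε / 2) (half_pos hε)
    refine ⟨M, fun t ht => ?_⟩
    have h1 := (hN N le_rfl).apply t
    have h2 := hM t ht
    rw [Real.dist_eq, sub_zero] at h2 ⊢
    have h3 : g t = (x N).fn t - ((x N).fn t - g t) := by ring
    rw [h3]
    refine lt_of_le_of_lt (abs_sub _ _) ?_
    linarith
  refine ⟨J.mk g hbd h0, ?_⟩
  rw [Metric.tendsto_atTop]
  intro ε hε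
  obtain ⟨N, hN⟩ := hlim (ε / 2) (half_pos hε)
  refine ⟨N, fun n hn => ?_⟩
  rw [dist_eq_norm]
  have : ‖x n - J.mk g hbd h0‖ ≤ ε / 2 := J.norm_le (hN n hn)
  linarith

/-- The `ℓ²`-sum of countably many copies of the James type space. -/
abbrev X : Type := lp (fun _ : ℕ => J) 2

lemma sum_le (x : X) (s : Finset ℕ) : ∑ c ∈ s, ‖x c‖ ^ 2 ≤ ‖x‖ ^ 2 := by
  have := lp.sum_rpow_le_norm_rpow (p := 2) (by simp) x s
  simpa using this

lemma norm_le_of {x : X} {B : ℝ} (hB : 0 ≤ B) (h : ∀ N : ℕ, ∑ c ∈ range N, ‖x c‖ ^ 2 ≤ B ^ 2) :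
    ‖x‖ ≤ B := by
  refine lp.norm_le_of_forall_sum_le (p := 2) (by simp) hB fun s => ?_
  obtain ⟨N, hN⟩ : ∃ N : ℕ, s ⊆ range N := by
    refine ⟨s.sup id + 1, fun c hc => mem_range.2 (Nat.lt_succ_of_le ?_)⟩
    exact Finset.le_sup (f := id) hc
  have h1 : ∑ c ∈ s, ‖x c‖ ^ 2 ≤ B ^ 2 :=
    (sum_le_sum_of_subset_of_nonneg hN fun _ _ _ => sq_nonneg _).trans (h N)
  simpa using h1

lemma coord_le (x : X) (c : ℕ) : ‖x c‖ ≤ ‖x‖ := by
  have := sum_le x {c}
  rw [sum_singleton] at this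
  exact abs_le_of_sq_le_sq' this (norm_nonneg _) |>.2

/-- The coordinate functional. -/
noncomputable def ev (c t : ℕ) : X →L[ℝ] ℝ :=
  LinearMap.mkContinuous
    { toFun := fun x => (x c).fn t
      map_add' := fun x y => rfl
      map_smul' := fun r x => rfl } 1 fun x => by
    rw [one_mul]
    exact ((x c).abs_fn_le t).trans (coord_le x c)

lemma ev_apply (c t : ℕ) (x : X) : ev c t x = (x c).fn t := rfl

/-- The indicator of `[0, T)`. -/
noncomputable def step (T : ℕ) : J :=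
  J.mk (fun t => if t < T then 1 else 0) ⟨|1|, (Bd.const 1).trunc T⟩ (by
    refine tendsto_const_nhds.congr' ?_
    filter_upwards [eventually_ge_atTop T] with t ht
    simp [not_lt.2 ht])

lemma step_norm (T : ℕ) : ‖step T‖ ≤ 1 := by
  have := J.norm_le (x := step T) ((Bd.const 1).trunc T)
  simpa using this

lemma step_fn (T t : ℕ) : (step T).fn t = if t < T then 1 else 0 := rfl

/-- `step T` in the `c`-th copy. -/
noncomputable def es (c T : ℕ) : X := lp.single 2 c (step T)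

lemma es_norm (c T : ℕ) : ‖es c T‖ ≤ 1 := by
  unfold es
  rw [lp.norm_single (by norm_num)]
  exact step_norm T

lemma ev_es (c T c' t : ℕ) : ev c' t (es c T) = if c' = c ∧ t < T then 1 else 0 := by
  rw [ev_apply, es, lp.single_apply]
  by_cases h : c' = c
  · subst h
    simp [step_fn]
  · simp [h, Pi.single, Function.update, J.fn_zero]

/-! ### The space is not quasi-reflexive -/

/-- Ultrafilter limits of bounded real sequences exist. -/
lemma exists_ulim (U : Ultrafilter ℕ) {b : ℕ → ℝ} {R : ℝ} (hb : ∀ n, |b n| ≤ R) :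
    ∃ a, |a| ≤ R ∧ Tendsto b U (𝓝 a) := by
  have h1 : (↑(U.map b) : Filter ℝ) ≤ 𝓟 (Set.Icc (-R) R) := by
    rw [le_principal_iff, Ultrafilter.coe_map, Filter.mem_map]
    exact Filter.univ_mem' fun n => abs_le.1 (hb n)
  obtain ⟨a, ha, ha'⟩ := isCompact_Icc.ultrafilter_le_nhds (U.map b) h1
  exact ⟨a, abs_le.2 ha, ha'⟩

/-- The limit functional in the `c`-th copy. -/
lemma exists_Lam (c : ℕ) : ∃ Λ : (X →L[ℝ] ℝ) →L[ℝ] ℝ,
    ∀ c' t, Λ (ev c' t) = if c' = c then 1 else 0 := by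
  have hb : ∀ (φ : X →L[ℝ] ℝ) (T : ℕ), |φ (es c T)| ≤ ‖φ‖ := by
    intro φ T
    rw [← Real.norm_eq_abs]
    refine (φ.le_opNorm _).trans ?_
    exact mul_le_of_le_one_right (norm_nonneg _) (es_norm c T)
  choose L hL hL' using fun φ : X →L[ℝ] ℝ => exists_ulim (hyperfilter ℕ) (hb φ)
  refine ⟨LinearMap.mkContinuous
    { toFun := L
      map_add' := fun φ ψ => tendsto_nhds_unique (hL' (φ + ψ)) ((hL' φ).add (hL' ψ))
      map_smul' := fun r φ => tendsto_nhds_unique (hL' (r • φ)) ((hL' φ).const_mul r) } 1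
      fun φ => by rw [one_mul]; exact hL φ, fun c' t => ?_⟩
  refine tendsto_nhds_unique (hL' (ev c' t)) ?_
  refine tendsto_const_nhds.congr' ?_
  have h1 : ∀ᶠ T in (hyperfilter ℕ : Filter ℕ), t < T :=
    Nat.hyperfilter_le_atTop (eventually_gt_atTop t)
  filter_upwards [h1] with T hT
  rw [ev_es]
  by_cases h : c' = c <;> simp [h, hT]

lemma exists_not_mem_span {M : Type*} [AddCommGroup M] [Module ℝ M] (W : Submodule ℝ M)
    (s : Finset M) (Λ : ℕ → M)
    (h : ∀ (t : Finset ℕ) (α : ℕ → ℝ), ∑ i ∈ t, α i • Λ i ∈ W → ∀ c ∈ t, α c = 0) :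
    ∃ c, Λ c ∉ Submodule.span ℝ ((↑s : Set M) ∪ (W : Set M)) := by
  classical
  by_contra hcon
  push Not at hcon
  have hli : LinearIndependent ℝ (fun c => W.mkQ (Λ c)) := by
    rw [linearIndependent_iff']
    intro t α hα c hc
    refine h t α ?_ c hc
    have h1 : W.mkQ (∑ i ∈ t, α i • Λ i) = 0 := by
      rw [map_sum, ← hα]
      exact sum_congr rfl fun i _ => map_smul _ _ _
    rwa [Submodule.mkQ_apply, Submodule.Quotient.mk_eq_zero] at h1
  have hfin : Finite ℕ := by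
    have hf : Finite (((s.image W.mkQ : Finset (M ⧸ W)) : Set (M ⧸ W)) : Type _) :=
      Finset.finite_toSet _
    refine LinearIndependent.finite_of_le_span_finite _ hli
      ((s.image W.mkQ : Finset (M ⧸ W)) : Set (M ⧸ W)) ?_
    rintro _ ⟨c, rfl⟩
    have h2 : Submodule.span ℝ ((↑s : Set M) ∪ (W : Set M)) ≤
        (Submodule.span ℝ ((s.image W.mkQ : Finset (M ⧸ W)) : Set (M ⧸ W))).comap W.mkQ := by
      rw [Submodule.span_le]
      rintro ψ (hψ | hψ)
      · exact Submodule.subset_span (by simpa using ⟨ψ, hψ, rfl⟩)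
      · have : W.mkQ ψ = 0 := by
          rw [Submodule.mkQ_apply, Submodule.Quotient.mk_eq_zero]
          exact hψ
        change W.mkQ ψ ∈ Submodule.span ℝ ((s.image W.mkQ : Finset (M ⧸ W)) : Set (M ⧸ W))
        rw [this]
        exact Submodule.zero_mem _
    exact h2 (hcon c)
  exact not_finite ℕ

theorem not_quasiReflexive (s : Finset ((X →L[ℝ] ℝ) →L[ℝ] ℝ)) :
    ∃ φ : (X →L[ℝ] ℝ) →L[ℝ] ℝ, φ ∉ Submodule.span ℝ
      ((↑s : Set ((X →L[ℝ] ℝ) →L[ℝ] ℝ)) ∪
        {ψ : (X →L[ℝ] ℝ) →L[ℝ] ℝ | ∃ x : X, ∀ g : X →L[ℝ] ℝ, ψ g = g x}) := by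
  choose Λ hΛ using exists_Lam
  let W : Submodule ℝ ((X →L[ℝ] ℝ) →L[ℝ] ℝ) :=
    { carrier := {ψ | ∃ x : X, ∀ g : X →L[ℝ] ℝ, ψ g = g x}
      zero_mem' := ⟨0, fun g => by simp⟩
      add_mem' := by
        rintro a b ⟨x, hx⟩ ⟨y, hy⟩
        exact ⟨x + y, fun g => by rw [map_add, ← hx, ← hy]; rfl⟩
      smul_mem' := by
        rintro r a ⟨x, hx⟩
        exact ⟨r • x, fun g => by rw [map_smul, ← hx]; rfl⟩ }
  obtain ⟨c, hc⟩ := exists_not_mem_span W s Λ (by
    intro t α h1 c hc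
    obtain ⟨x, hx⟩ := h1
    have h2 : ∀ T, (x c).fn T = α c := by
      intro T
      rw [← ev_apply, ← hx (ev c T)]
      have : (∑ i ∈ t, α i • Λ i) (ev c T) = ∑ i ∈ t, α i * (Λ i (ev c T)) := by
        rw [_root_.sum_apply]
        exact sum_congr rfl fun i _ => rfl
      rw [this, Finset.sum_eq_single c]
      · rw [hΛ, if_pos rfl, mul_one]
      · intro i _ hic
        rw [hΛ, if_neg (Ne.symm hic), mul_zero]
      · intro h; exact absurd hc h
    have h3 : Tendsto (x c).fn atTop (𝓝 (α c)) :=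
      tendsto_const_nhds.congr fun T => (h2 T).symm
    exact tendsto_nhds_unique h3 (x c).tendsto)
  exact ⟨Λ c, hc⟩

end Q197.JamesSpace
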