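import Mathlib
import Pool.Agent.Q197.JamesSpace

/-!
# Iterated ultrafilter limits of functions of tuples, and the selection of good sequences
-/

set_option autoImplicit false

namespace Q197.IterLim

open Finset Filter Topology Q197.JamesV Q197.JamesSpace

/-- A free ultrafilter. -/
noncomputable def U : Ultrafilter ℕ := hyperfilter ℕ

lemma U_le : (U : Filter ℕ) ≤ atTop := Nat.hyperfilter_le_atTop

/-- `d`-fold iterated limits over the last entries. -/
noncomputable def G : ℕ → (List ℕ → ℝ) → List ℕ → ℝ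
  | 0, Ψ => Ψ
  | d + 1, Ψ => fun l => limUnder (U : Filter ℕ) (fun m => G d Ψ (l ++ [m]))

lemma G_zero (Ψ : List ℕ → ℝ) (l : List ℕ) : G 0 Ψ l = Ψ l := rfl

lemma G_spec {Ψ : List ℕ → ℝ} {R : ℝ} (h : ∀ l, |Ψ l| ≤ R) (d : ℕ) (l : List ℕ) :
    |G d Ψ l| ≤ R ∧ Tendsto (fun m => G d Ψ (l ++ [m])) U (𝓝 (G (d + 1) Ψ l)) := by
  have key : ∀ d, (∀ l, |G d Ψ l| ≤ R) → ∀ l, |G (d + 1) Ψ l| ≤ R ∧
      Tendsto (fun m => G d Ψ (l ++ [m])) U (𝓝 (G (d + 1) Ψ l)) := by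
    intro d hd l
    obtain ⟨a, ha, hlim⟩ := exists_ulim U (b := fun m => G d Ψ (l ++ [m])) (fun m => hd _)
    have : G (d + 1) Ψ l = a := hlim.limUnder_eq
    rw [this]
    exact ⟨ha, hlim⟩
  have hall : ∀ d l, |G d Ψ l| ≤ R := by
    intro d
    induction d with
    | zero => exact h
    | succ d ih => exact fun l => (key d ih l).1
  exact ⟨hall d l, (key d (hall d) l).2⟩

lemma G_sum_le {Ψ : ℕ → List ℕ → ℝ} {R B : ℝ} (h : ∀ c l, |Ψ c l| ≤ R) (s : Finset ℕ)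
    (hs : ∀ l, ∑ c ∈ s, Ψ c l ≤ B) (d : ℕ) (l : List ℕ) : ∑ c ∈ s, G d (Ψ c) l ≤ B := by
  induction d generalizing l with
  | zero => exact hs l
  | succ d ih =>
    have h1 : Tendsto (fun m => ∑ c ∈ s, G d (Ψ c) (l ++ [m])) U
        (𝓝 (∑ c ∈ s, G (d + 1) (Ψ c) l)) :=
      tendsto_finsetSum _ fun c _ => (G_spec (h c) d l).2
    exact le_of_tendsto h1 (Eventually.of_forall fun m => ih _)

lemma G_nonneg {Ψ : List ℕ → ℝ} {R : ℝ} (h : ∀ l, |Ψ l| ≤ R) (h0 : ∀ l, 0 ≤ Ψ l) (d : ℕ)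
    (l : List ℕ) : 0 ≤ G d Ψ l := by
  induction d generalizing l with
  | zero => exact h0 l
  | succ d ih => exact ge_of_tendsto (G_spec h d l).2 (Eventually.of_forall fun m => ih _)

lemma G_bd {Ψ : ℕ → List ℕ → ℝ} {R : ℝ} (h : ∀ l, Bd (fun t => Ψ t l) R) (d : ℕ) (l : List ℕ) :
    Bd (fun t => G d (Ψ t) l) R := by
  have h' : ∀ t l, |Ψ t l| ≤ R := fun t l => (h l).apply t
  induction d generalizing l with
  | zero => exact h l
  | succ d ih =>
    exact Bd.of_tendsto (l := (U : Filter ℕ)) (fun t => (G_spec (h' t) d l).2)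
      (Eventually.of_forall fun m => ih _)

/-- The first `i` values of `n`, as a list. -/
def pre (n : ℕ → ℕ) (i : ℕ) : List ℕ := (List.range i).map n

lemma pre_succ (n : ℕ → ℕ) (i : ℕ) : pre n (i + 1) = pre n i ++ [n i] := by
  simp [pre, List.range_succ]

lemma pre_congr {n n' : ℕ → ℕ} {i : ℕ} (h : ∀ j, j < i → n j = n' j) : pre n i = pre n' i := by
  unfold pre
  exact List.map_congr_left fun j hj => h j (List.mem_range.1 hj)

lemma length_pre (n : ℕ → ℕ) (i : ℕ) : (pre n i).length = i := by simp [pre]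

lemma mem_pre {n : ℕ → ℕ} {i x : ℕ} (h : x ∈ pre n i) : ∃ j, j < i ∧ n j = x := by
  simpa [pre] using h

/-- Telescoping the iterated limits along a tuple. -/
lemma close {K i : ℕ} (hi : i ≤ K) (Ψ : List ℕ → ℝ) (n : ℕ → ℕ) {η : ℝ} (hη : 0 ≤ η)
    (h : ∀ j, i ≤ j → j < K →
      |G (K - 1 - j) Ψ (pre n (j + 1)) - G (K - 1 - j + 1) Ψ (pre n j)| ≤ η) :
    |Ψ (pre n K) - G (K - i) Ψ (pre n i)| ≤ K * η := by
  have key : ∀ m, i ≤ m → m ≤ K →
      |G (K - m) Ψ (pre n m) - G (K - i) Ψ (pre n i)| ≤ (m - i : ℕ) * η := by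
    intro m hm
    induction m, hm using Nat.le_induction with
    | base => intro _; simp
    | succ m hm ih =>
      intro hmK
      have h1 := ih (by omega)
      have h2 := h m hm (by omega)
      rw [show K - 1 - m + 1 = K - m by omega, show K - 1 - m = K - (m + 1) by omega] at h2
      have h3 : G (K - (m + 1)) Ψ (pre n (m + 1)) - G (K - i) Ψ (pre n i) =
        (G (K - (m + 1)) Ψ (pre n (m + 1)) - G (K - m) Ψ (pre n m)) +
          (G (K - m) Ψ (pre n m) - G (K - i) Ψ (pre n i)) := by ring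
      rw [h3, show m + 1 - i = (m - i) + 1 by omega]
      push_cast
      calc |_ + _| ≤ η + (m - i : ℕ) * η := (abs_add_le _ _).trans (add_le_add h2 h1)
        _ = ((m - i : ℕ) + 1) * η := by ring
  have := key K hi le_rfl
  rw [Nat.sub_self] at this
  refine this.trans (mul_le_mul_of_nonneg_right ?_ hη)
  exact_mod_cast Nat.sub_le _ _

/-! ### Selection -/

/-- Lists of length at most `K` with entries in `F`. -/
def Ls (F : Finset ℕ) (K : ℕ) : Set (List ℕ) := {l | l.length ≤ K ∧ ∀ x ∈ l, x ∈ F}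

lemma Ls_finite (F : Finset ℕ) (K : ℕ) : (Ls F K).Finite := by
  have h1 := (List.finite_length_le F K).image (List.map (fun x : F => (x : ℕ)))
  refine h1.subset ?_
  rintro l ⟨hl, hF⟩
  lift l to List F using hF
  exact ⟨l, by simpa using hl, rfl⟩

variable (K : ℕ) (Φ : List ℕ → X)

/-- Squared norms of the coordinates. -/
noncomputable def al (c : ℕ) (l : List ℕ) : ℝ := ‖Φ l c‖ ^ 2

/-- The values. -/
noncomputable def be (c t : ℕ) (l : List ℕ) : ℝ := (Φ l c).fn t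

/-- Values of iterated limits, the time being the last entry. -/
noncomputable def ga (i c : ℕ) (l : List ℕ) : ℝ :=
  G (K - i) (be Φ c (l.getLastD 0)) l.dropLast

lemma ga_concat (i c t : ℕ) (l : List ℕ) :
    ga K Φ i c (l ++ [t]) = G (K - i) (be Φ c t) l := by
  simp [ga, List.getLastD_concat]

/-- All requirements on the next element `p` when the set `F` of elements is already chosen. -/
structure Good (δ : ℝ) (F : Finset ℕ) (p : ℕ) : Prop where
  lt : ∀ x ∈ F, x < p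
  a1 : ∀ l ∈ Ls F K, ∀ d ≤ K, ∀ c ≤ F.sup id,
    |G d (al Φ c) (l ++ [p]) - G (d + 1) (al Φ c) l| ≤ δ / ((F.sup id : ℕ) + 1) ^ 2
  b1 : ∀ l ∈ Ls F K, ∀ d ≤ K, ∀ c ≤ F.sup id, ∀ t ≤ F.sup id,
    |G d (be Φ c t) (l ++ [p]) - G (d + 1) (be Φ c t) l| ≤ δ / ((F.sup id : ℕ) + 1) ^ 2
  g1 : ∀ l ∈ Ls F K, ∀ d ≤ K, ∀ i ≤ K, ∀ c ≤ F.sup id,
    |G d (ga K Φ i c) (l ++ [p]) - G (d + 1) (ga K Φ i c) l| ≤ δ / ((F.sup id : ℕ) + 1) ^ 2
  a2 : ∀ l ∈ Ls F K, ∀ d ≤ K, ∀ M : ℕ, ∑ c ∈ Ico p M, G d (al Φ c) l ≤ δ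
  b2 : ∀ l ∈ Ls F K, ∀ d ≤ K, ∀ c ≤ F.sup id,
    Bd (fun t => if p ≤ t then G d (be Φ c t) l - G d (be Φ c p) l else 0)
      (δ / ((F.sup id : ℕ) + 1))
  j2 : ∀ l ∈ Ls F K, ∀ c ≤ F.sup id,
    Bd (fun t => if p ≤ t then (Φ l c).fn t else 0) (δ / ((F.sup id : ℕ) + 1))

lemma ev_le {P : ℕ → ℕ → Prop} (N : ℕ) (h : ∀ c, ∀ᶠ p in (U : Filter ℕ), P c p) :
    ∀ᶠ p in (U : Filter ℕ), ∀ c ≤ N, P c p := by
  have := (Filter.eventually_all_finset (range (N + 1)) (l := (U : Filter ℕ)) (p := P)).2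
    fun c _ => h c
  filter_upwards [this] with p hp c hc
  exact hp c (mem_range.2 (by omega))

lemma ev_Ls {P : List ℕ → ℕ → Prop} (F : Finset ℕ) (h : ∀ l, ∀ᶠ p in (U : Filter ℕ), P l p) :
    ∀ᶠ p in (U : Filter ℕ), ∀ l ∈ Ls F K, P l p :=
  (Filter.eventually_all_finite (Ls_finite F K)).2 fun l _ => h l

lemma ev_close {Ψ : List ℕ → ℝ} {R : ℝ} (h : ∀ l, |Ψ l| ≤ R) (d : ℕ) (l : List ℕ) {η : ℝ}
    (hη : 0 < η) : ∀ᶠ p in (U : Filter ℕ), |G d Ψ (l ++ [p]) - G (d + 1) Ψ l| ≤ η := by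
  have h1 := (G_spec h d l).2
  have h2 := (tendsto_order.1 ((h1.sub_const (G (d + 1) Ψ l)).abs)).2 η (by simpa using hη)
  filter_upwards [h2] with p hp using hp.le

variable {R : ℝ} (hR : ∀ l, ‖Φ l‖ ≤ R)

include hR

lemma R_nonneg : 0 ≤ R := (norm_nonneg _).trans (hR [])

lemma al_le (c : ℕ) (l : List ℕ) : |al Φ c l| ≤ R ^ 2 := by
  unfold al
  rw [abs_of_nonneg (sq_nonneg _)]
  exact pow_le_pow_left₀ (norm_nonneg _) ((coord_le _ _).trans (hR l)) 2

lemma be_bd (c : ℕ) (l : List ℕ) : Bd (fun t => be Φ c t l) R :=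
  (Φ l c).bd.mono ((coord_le _ _).trans (hR l))

lemma be_le (c t : ℕ) (l : List ℕ) : |be Φ c t l| ≤ R := (be_bd Φ hR c l).apply t

lemma ga_le (i c : ℕ) (l : List ℕ) : |ga K Φ i c l| ≤ R :=
  (G_spec (be_le Φ hR c _) _ _).1

theorem exists_good {δ : ℝ} (hδ : 0 < δ) (F : Finset ℕ) : ∃ p, Good K Φ δ F p := by
  have hN : (0 : ℝ) < (F.sup id : ℕ) + 1 := by positivity
  have e0 : ∀ᶠ p in (U : Filter ℕ), ∀ x ∈ F, x < p :=
    (Filter.eventually_all_finset F).2 fun x _ => U_le (eventually_gt_atTop x)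
  have e1 := ev_Ls K F fun l => ev_le K fun d => ev_le (F.sup id) fun c =>
    ev_close (al_le Φ hR c) d l (η := δ / ((F.sup id : ℕ) + 1) ^ 2) (by positivity)
  have e2 := ev_Ls K F fun l => ev_le K fun d => ev_le (F.sup id) fun c => ev_le (F.sup id) fun t =>
    ev_close (be_le Φ hR c t) d l (η := δ / ((F.sup id : ℕ) + 1) ^ 2) (by positivity)
  have e3 := ev_Ls K F fun l => ev_le K fun d => ev_le K fun i => ev_le (F.sup id) fun c =>
    ev_close (ga_le K Φ hR i c) d l (η := δ / ((F.sup id : ℕ) + 1) ^ 2) (by positivity)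
  have e4 : ∀ᶠ p in (U : Filter ℕ), ∀ l ∈ Ls F K, ∀ d ≤ K, ∀ M : ℕ,
      ∑ c ∈ Ico p M, G d (al Φ c) l ≤ δ := by
    refine ev_Ls K F fun l => ev_le K fun d => ?_
    have hnn : ∀ c, 0 ≤ G d (al Φ c) l := fun c => G_nonneg (al_le Φ hR c)
      (fun l => sq_nonneg _) d l
    have hsum : Summable fun c => G d (al Φ c) l := by
      refine summable_of_sum_le hnn (c := R ^ 2) fun s => ?_
      refine G_sum_le (al_le Φ hR) s (fun l' => ?_) d l
      exact (sum_le _ s).trans (pow_le_pow_left₀ (norm_nonneg _) (hR l') 2)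
    have h1 := hsum.hasSum.tendsto_sum_nat
    have h2 := (tendsto_order.1 h1).1 (∑' c, G d (al Φ c) l - δ) (by linarith)
    filter_upwards [U_le h2] with p hp M
    rcases le_or_gt p M with hpM | hpM
    · have h3 := sum_Ico_consecutive (fun c => G d (al Φ c) l) (Nat.zero_le p) hpM
      rw [← range_eq_Ico, ← range_eq_Ico] at h3
      have h4 : ∑ c ∈ range M, G d (al Φ c) l ≤ ∑' c, G d (al Φ c) l :=
        hsum.sum_le_tsum _ fun c _ => hnn c
      linarith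
    · rw [Ico_eq_empty_of_le hpM.le, sum_empty]; exact hδ.le
  have e5 := ev_Ls K F fun l => ev_le K fun d => ev_le (F.sup id) fun c =>
    U_le (eventually_tail (G_bd (be_bd Φ hR c) d l)
      (ε := δ / ((F.sup id : ℕ) + 1)) (by positivity))
  have e6 := ev_Ls K F fun l => ev_le (F.sup id) fun c =>
    U_le (eventually_tail_zero (Φ l c).bd (Φ l c).tendsto
      (ε := δ / ((F.sup id : ℕ) + 1)) (by positivity))
  obtain ⟨p, h0, h1, h2, h3, h4, h5, h6⟩ :=
    (e0.and (e1.and (e2.and (e3.and (e4.and (e5.and e6)))))).exists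
  exact ⟨p, ⟨h0, h1, h2, h3, h4, h5, h6⟩⟩

/-- The good sequence. -/
theorem exists_seq {δ : ℝ} (hδ : 0 < δ) : ∃ (p : ℕ → ℕ) (S : ℕ → Finset ℕ),
    (∀ r, Good K Φ δ (S r) (p r)) ∧ (∀ m r, m < r → p m ∈ S r) ∧ Monotone S := by
  choose c hc using exists_good K Φ hR hδ
  let S : ℕ → Finset ℕ := fun r => Nat.rec ∅ (fun _ F => insert (c F) F) r
  have hS : ∀ r, S (r + 1) = insert (c (S r)) (S r) := fun r => rfl
  have hmono : Monotone S := monotone_nat_of_le_succ fun r => by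
    rw [hS]; exact subset_insert _ _
  refine ⟨fun r => c (S r), S, fun r => hc _, fun m r hmr => ?_, hmono⟩
  exact hmono (Nat.succ_le_of_lt hmr) (by rw [Nat.succ_eq_add_one, hS]; exact mem_insert_self _ _)

end Q197.IterLim
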