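import Mathlib
import Pool.Agent.Q197.IterLim

/-!
# Interlaced pairs with small difference
-/

set_option autoImplicit false

namespace Q197.Interlace

open Finset Filter Topology Q197.JamesV Q197.JamesSpace Q197.IterLim

/-- A good sequence `p` together with the sets of its earlier elements. -/
structure Ctx (K : ℕ) (Φ : List ℕ → X) (δ : ℝ) (p : ℕ → ℕ) (S : ℕ → Finset ℕ) : Prop where
  good : ∀ r, Good K Φ δ (S r) (p r)
  mem : ∀ m r, m < r → p m ∈ S r
  mono : Monotone S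
  pos : 0 < δ

variable {K : ℕ} {Φ : List ℕ → X} {δ : ℝ} {p : ℕ → ℕ} {S : ℕ → Finset ℕ}

/-- The size bound of the earlier elements. -/
def sz (S : ℕ → Finset ℕ) (r : ℕ) : ℕ := (S r).sup id

namespace Ctx

variable (h : Ctx K Φ δ p S)

include h

lemma strictMono : StrictMono p := fun m r hmr => (h.good r).lt _ (h.mem m r hmr)

lemma le_sz {m r : ℕ} (hmr : m < r) : p m ≤ sz S r := Finset.le_sup (f := id) (h.mem m r hmr)

lemma sz_mono {r r' : ℕ} (hr : r ≤ r') : sz S r ≤ sz S r' := Finset.sup_mono (h.mono hr)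

lemma q_pos : 0 < δ / ((p 0 : ℝ) + 1) := div_pos h.pos (by positivity)

lemma q_le {r : ℕ} (hr : 0 < r) : δ / ((sz S r : ℝ) + 1) ≤ δ / ((p 0 : ℝ) + 1) := by
  have h1 : (p 0 : ℝ) ≤ sz S r := by exact_mod_cast h.le_sz hr
  exact div_le_div_of_nonneg_left h.pos.le (by positivity) (by linarith)

lemma q_le' {r : ℕ} (hr : 0 < r) : δ / ((sz S r : ℝ) + 1) ^ 2 ≤ δ / ((p 0 : ℝ) + 1) := by
  have h1 : (p 0 : ℝ) ≤ sz S r := by exact_mod_cast h.le_sz hr
  have h0 : (0 : ℝ) ≤ p 0 := Nat.cast_nonneg _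
  refine div_le_div_of_nonneg_left h.pos.le (by positivity) ?_
  nlinarith

lemma q_mul_le {m r : ℕ} (hr : m < r) :
    (p m : ℝ) * (δ / ((sz S r : ℝ) + 1) ^ 2) ≤ δ / ((p 0 : ℝ) + 1) := by
  have h0 : (0 : ℝ) ≤ p m := Nat.cast_nonneg _
  have h1 : (p m : ℝ) ≤ sz S r := by exact_mod_cast h.le_sz hr
  have h2 : (p m : ℝ) * (δ / ((sz S r : ℝ) + 1) ^ 2) ≤ δ / ((sz S r : ℝ) + 1) := by
    rw [← mul_div_assoc, div_le_div_iff₀ (by positivity) (by positivity)]
    nlinarith [h.pos, mul_nonneg h.pos.le (by linarith : (0 : ℝ) ≤ sz S r - p m),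
      mul_nonneg h.pos.le (by linarith : (0 : ℝ) ≤ sz S r),
      mul_nonneg (mul_nonneg h.pos.le (by linarith : (0 : ℝ) ≤ sz S r - p m))
        (by linarith : (0 : ℝ) ≤ sz S r)]
  exact h2.trans (h.q_le (by omega))

lemma eta_mono {r r' : ℕ} (hr : r ≤ r') :
    δ / ((sz S r' : ℝ) + 1) ^ 2 ≤ δ / ((sz S r : ℝ) + 1) ^ 2 := by
  have h1 : (sz S r : ℝ) ≤ sz S r' := by exact_mod_cast h.sz_mono hr
  have h0 : (0 : ℝ) ≤ sz S r := Nat.cast_nonneg _
  refine div_le_div_of_nonneg_left h.pos.le (by positivity) ?_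
  exact pow_le_pow_left₀ (by positivity) (by linarith) 2

lemma eta_nonneg (r : ℕ) : 0 ≤ δ / ((sz S r : ℝ) + 1) ^ 2 := div_nonneg h.pos.le (by positivity)

lemma pre_mem (τ : ℕ → ℕ) {i r : ℕ} (hi : i ≤ K) (hlt : ∀ j, j < i → τ j < r) :
    pre (fun j => p (τ j)) i ∈ Ls (S r) K := by
  refine ⟨by rw [length_pre]; exact hi, fun x hx => ?_⟩
  obtain ⟨j, hj, rfl⟩ := mem_pre hx
  exact h.mem _ _ (hlt j hj)

lemma close_al {τ : ℕ → ℕ} (hτ : StrictMono τ) {i w : ℕ} (hi : i ≤ K) (hgt : ∀ j, i ≤ j → w < τ j)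
    {c : ℕ} (hc : c < p w) :
    |al Φ c (pre (fun j => p (τ j)) K) - G (K - i) (al Φ c) (pre (fun j => p (τ j)) i)| ≤
      K * (δ / ((sz S (w + 1) : ℝ) + 1) ^ 2) := by
  refine close hi _ _ (h.eta_nonneg _) fun j hj hjK => ?_
  rw [pre_succ]
  have h1 := (h.good (τ j)).a1 (pre (fun j => p (τ j)) j)
    (h.pre_mem τ hjK.le fun j' hj' => hτ hj') (K - 1 - j) (by omega) c
    (hc.le.trans ((h.le_sz (Nat.lt_succ_self w)).trans (h.sz_mono (hgt j hj))))
  exact h1.trans (h.eta_mono (hgt j hj))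

lemma close_be {τ : ℕ → ℕ} (hτ : StrictMono τ) {i w : ℕ} (hi : i ≤ K) (hgt : ∀ j, i ≤ j → w < τ j)
    {c t : ℕ} (hc : c < p w) (ht : t < p w) :
    |be Φ c t (pre (fun j => p (τ j)) K) - G (K - i) (be Φ c t) (pre (fun j => p (τ j)) i)| ≤
      K * (δ / ((sz S (w + 1) : ℝ) + 1) ^ 2) := by
  refine close hi _ _ (h.eta_nonneg _) fun j hj hjK => ?_
  rw [pre_succ]
  have h1 := (h.good (τ j)).b1 (pre (fun j => p (τ j)) j)
    (h.pre_mem τ hjK.le fun j' hj' => hτ hj') (K - 1 - j) (by omega) c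
    (hc.le.trans ((h.le_sz (Nat.lt_succ_self w)).trans (h.sz_mono (hgt j hj)))) t
    (ht.le.trans ((h.le_sz (Nat.lt_succ_self w)).trans (h.sz_mono (hgt j hj))))
  exact h1.trans (h.eta_mono (hgt j hj))

lemma close_ga {τ : ℕ → ℕ} (hτ : StrictMono τ) (hτ0 : ∀ j, 0 < τ j) {i u : ℕ} (hi : i ≤ K)
    (hu : 0 < u) (hlt : ∀ j, j < i → τ j < u) {c : ℕ} (hc : c < p 0) :
    |G (K - i) (be Φ c (p u)) (pre (fun j => p (τ j)) i) - G (i + 1) (ga K Φ i c) []| ≤
      (K + 1) * (δ / ((p 0 : ℝ) + 1)) := by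
  set τ' : ℕ → ℕ := fun j => if j < i then τ j else u with hτ'
  have hpre : ∀ j, j ≤ i → pre (fun j => p (τ' j)) j = pre (fun j => p (τ j)) j := by
    intro j hj
    refine pre_congr fun j' hj' => ?_
    simp [hτ', hj'.trans_le hj]
  have h1 := close (K := i + 1) (i := 0) (Nat.zero_le _) (ga K Φ i c) (fun j => p (τ' j))
    (h.eta_nonneg 1) (fun j _ hj => by
      rw [pre_succ]
      have hpos : 0 < τ' j := by
        by_cases hji : j < i
        · simpa [hτ', hji] using hτ0 j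
        · simpa [hτ', hji] using hu
      have h2 := (h.good (τ' j)).g1 (pre (fun j => p (τ' j)) j) (by
        refine h.pre_mem τ' (by omega) fun j' hj' => ?_
        by_cases hji : j < i
        · simp only [hτ', hji, hj'.trans hji, if_true]; exact hτ hj'
        · have : j' < i := by omega
          simp only [hτ', hji, this, if_true, if_false]; exact hlt j' this)
        (i + 1 - 1 - j) (by omega) i hi c (hc.le.trans (h.le_sz hpos))
      exact h2.trans (h.eta_mono hpos))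
  rw [pre_succ, ga_concat, hpre i le_rfl] at h1
  have h3 : τ' i = u := by simp [hτ']
  rw [h3] at h1
  have h4 : pre (fun j => p (τ' j)) 0 = [] := by simp [pre]
  rw [h4, Nat.sub_zero] at h1
  refine h1.trans ?_
  have h5 : ((i + 1 : ℕ) : ℝ) ≤ K + 1 := by exact_mod_cast Nat.succ_le_succ hi
  exact mul_le_mul h5 (h.q_le' one_pos) (h.eta_nonneg 1) (by positivity)

/-- A tuple avoiding a window is almost constant there, in the first copies. -/
lemma time_window {τ : ℕ → ℕ} (hτ : StrictMono τ) (hτ0 : ∀ j, 0 < τ j) {i u w : ℕ} (hi : i ≤ K)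
    (hu : 0 < u) (hlt : ∀ j, j < i → τ j < u) (hgt : ∀ j, i ≤ j → w < τ j) {c : ℕ} (hc : c < p 0) :
    Bd (fun t => if p u ≤ t ∧ t < p w then
        (Φ (pre (fun j => p (τ j)) K) c).fn t - G (i + 1) (ga K Φ i c) [] else 0)
      ((4 * K + 3) * (δ / ((p 0 : ℝ) + 1))) := by
  set ρ := G (i + 1) (ga K Φ i c) []
  set l := pre (fun j => p (τ j)) K
  set l' := pre (fun j => p (τ j)) i
  set g : ℕ → ℝ := fun t => G (K - i) (be Φ c t) l'
  set η := δ / ((sz S (w + 1) : ℝ) + 1) ^ 2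
  have hcw : c < p w := hc.trans_le (h.strictMono.monotone (Nat.zero_le _))
  have hA : Bd (fun t => if p u ≤ t ∧ t < p w then (Φ l c).fn t - g t else 0)
      (2 * (p w * (K * η))) := by
    refine Bd.of_small (p w) (fun t ht => ?_) fun t ht => ?_
    · rw [if_neg]; intro h'; exact absurd h'.2 (not_lt.2 ht)
    · split_ifs
      · exact h.close_be hτ hi hgt hcw ht
      · rw [abs_zero]; exact mul_nonneg (Nat.cast_nonneg _) (h.eta_nonneg _)
  have hB : Bd (fun t => if t < p w then (if p u ≤ t then g t - g (p u) else 0) else 0)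
      (δ / ((sz S u : ℝ) + 1)) := by
    refine Bd.trunc ?_ _
    exact (h.good u).b2 l' (h.pre_mem τ hi hlt) (K - i) (by omega) c (hc.le.trans (h.le_sz hu))
  have hC := (Bd.const (g (p u) - ρ)).window (p u) (p w)
  have hsum := (hA.add hB).add hC
  have hgr : |g (p u) - ρ| ≤ (K + 1) * (δ / ((p 0 : ℝ) + 1)) := h.close_ga hτ hτ0 hi hu hlt hc
  refine Bd.mono (A := 2 * (p w * (K * η)) + δ / ((sz S u : ℝ) + 1) + 2 * |g (p u) - ρ|) ?_ ?_
  · convert hsum using 1
    funext t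
    by_cases h1 : p u ≤ t <;> by_cases h2 : t < p w <;> simp [h1, h2]
  · have h1 := h.q_le hu
    have h2 : (p w : ℝ) * (K * η) = K * (p w * η) := by ring
    have h3 : (p w : ℝ) * η ≤ δ / ((p 0 : ℝ) + 1) := h.q_mul_le (Nat.lt_succ_self w)
    have h4 : (K : ℝ) * (p w * η) ≤ K * (δ / ((p 0 : ℝ) + 1)) :=
      mul_le_mul_of_nonneg_left h3 (Nat.cast_nonneg _)
    rw [h2]
    linarith

/-- A tuple avoiding a window is small in the copies of the window. -/
lemma copies_window {τ : ℕ → ℕ} (hτ : StrictMono τ) {i u w : ℕ} (hi : i ≤ K)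
    (hlt : ∀ j, j < i → τ j < u) (hgt : ∀ j, i ≤ j → w < τ j) :
    ∑ c ∈ Ico (p u) (p w), ‖Φ (pre (fun j => p (τ j)) K) c‖ ^ 2 ≤ (K + 1) * δ := by
  set η := δ / ((sz S (w + 1) : ℝ) + 1) ^ 2
  have h1 := (h.good u).a2 _ (h.pre_mem τ hi hlt) (K - i) (by omega) (p w)
  have h2 : ∑ c ∈ Ico (p u) (p w), ‖Φ (pre (fun j => p (τ j)) K) c‖ ^ 2 ≤
      ∑ c ∈ Ico (p u) (p w), (G (K - i) (al Φ c) (pre (fun j => p (τ j)) i) + K * η) := by
    refine sum_le_sum fun c hc => ?_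
    have h3 := (abs_le.1 (h.close_al hτ hi hgt (mem_Ico.1 hc).2)).2
    unfold al at h3
    unfold al
    linarith
  rw [sum_add_distrib, sum_const, Nat.card_Ico, nsmul_eq_mul] at h2
  have h3 : ((p w - p u : ℕ) : ℝ) ≤ p w := by exact_mod_cast Nat.sub_le _ _
  have hη := h.eta_nonneg (w + 1)
  have h4 : ((p w - p u : ℕ) : ℝ) * (K * η) ≤ K * δ := by
    calc ((p w - p u : ℕ) : ℝ) * (K * η) ≤ p w * (K * η) :=
          mul_le_mul_of_nonneg_right h3 (mul_nonneg (Nat.cast_nonneg _) hη)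
      _ = K * (p w * η) := by ring
      _ ≤ K * (δ / ((p 0 : ℝ) + 1)) :=
          mul_le_mul_of_nonneg_left (h.q_mul_le (Nat.lt_succ_self w)) (Nat.cast_nonneg _)
      _ ≤ K * δ := mul_le_mul_of_nonneg_left
          (div_le_self h.pos.le (by have : (0 : ℝ) ≤ p 0 := Nat.cast_nonneg _
                                    linarith)) (Nat.cast_nonneg _)
  linarith

end Ctx

end Q197.Interlace
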