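import Mathlib
import Pool.Agent.Q197.Interlace

/-!
# The main estimate for interlaced pairs
-/

set_option autoImplicit false

namespace Q197.InterMain

open Finset Filter Topology Q197.JamesV Q197.JamesSpace Q197.IterLim Q197.Interlace

variable {K : ℕ} {Φ : List ℕ → X} {δ : ℝ} {p : ℕ → ℕ} {S : ℕ → Finset ℕ}

/-- The index function `τ` avoids the window `(u, w)`, with `i` elements below it. -/
structure Avoid (K : ℕ) (τ : ℕ → ℕ) (i u w : ℕ) : Prop where
  sm : StrictMono τ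
  pos : ∀ j, 0 < τ j
  le : i ≤ K
  lt : ∀ j, j < i → τ j < u
  gt : ∀ j, i ≤ j → w < τ j

lemma pair_window (h : Ctx K Φ δ p S) {x y : ℕ → ℕ} {i u w : ℕ} (hx : Avoid K x i u w)
    (hy : Avoid K y i u w) (hu : 0 < u) (Δ D : X)
    (hD : D = Δ + (Φ (pre (fun j => p (x j)) K) - Φ (pre (fun j => p (y j)) K))) :
    (∀ c < p 0, Bd (fun t => if p u ≤ t ∧ t < p w then (D c).fn t else 0)
      (2 * ‖Δ c‖ + 2 * ((4 * K + 3) * (δ / ((p 0 : ℝ) + 1))))) ∧
    ∑ c ∈ Ico (p u) (p w), ‖D c‖ ^ 2 ≤ 3 * (‖Δ‖ ^ 2 + 2 * ((K + 1) * δ)) := by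
  constructor
  · intro c hc
    have h1 := (Δ c).bd.window (p u) (p w)
    have h2 := h.time_window hx.sm hx.pos hx.le hu hx.lt hx.gt hc
    have h3 := h.time_window hy.sm hy.pos hy.le hu hy.lt hy.gt hc
    have h4 := h1.add (h2.sub h3)
    rw [two_mul ((4 * (K : ℝ) + 3) * (δ / ((p 0 : ℝ) + 1)))]
    convert h4 using 1
    funext t
    by_cases ht : p u ≤ t ∧ t < p w
    · simp only [if_pos ht, hD]
      have : ((Δ + (Φ (pre (fun j => p (x j)) K) - Φ (pre (fun j => p (y j)) K)) : X) c).fn t =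
        (Δ c).fn t + ((Φ (pre (fun j => p (x j)) K) c).fn t -
          (Φ (pre (fun j => p (y j)) K) c).fn t) := rfl
      rw [this]; ring
    · simp only [if_neg ht]; ring
  · have h2 := h.copies_window hx.sm hx.le hx.lt hx.gt
    have h3 := h.copies_window hy.sm hy.le hy.lt hy.gt
    have h1 := sum_le Δ (Ico (p u) (p w))
    have h4 : ∀ c ∈ Ico (p u) (p w), ‖D c‖ ^ 2 ≤ 3 * (‖Δ c‖ ^ 2 +
        (‖Φ (pre (fun j => p (x j)) K) c‖ ^ 2 + ‖Φ (pre (fun j => p (y j)) K) c‖ ^ 2)) := by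
      intro c _
      have h5 : D c = Δ c + (Φ (pre (fun j => p (x j)) K) c - Φ (pre (fun j => p (y j)) K) c) := by
        rw [hD]; rfl
      have h6 : ‖D c‖ ≤ ‖Δ c‖ + (‖Φ (pre (fun j => p (x j)) K) c‖ +
          ‖Φ (pre (fun j => p (y j)) K) c‖) := by
        rw [h5]
        exact (norm_add_le _ _).trans (add_le_add le_rfl (norm_sub_le _ _))
      have h7 := pow_le_pow_left₀ (norm_nonneg _) h6 2
      refine h7.trans ?_
      nlinarith [sq_nonneg (‖Δ c‖ - ‖Φ (pre (fun j => p (x j)) K) c‖),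
        sq_nonneg (‖Δ c‖ - ‖Φ (pre (fun j => p (y j)) K) c‖),
        sq_nonneg (‖Φ (pre (fun j => p (x j)) K) c‖ - ‖Φ (pre (fun j => p (y j)) K) c‖)]
    refine (sum_le_sum h4).trans ?_
    rw [← mul_sum, sum_add_distrib, sum_add_distrib]
    linarith

/-- The first tuple of the interlaced pair. -/
def tn (j : ℕ) : ℕ := 4 * j + 2

/-- The second tuple of the interlaced pair. -/
def tm (j : ℕ) : ℕ := 4 * j + 4

/-- The difference. -/
noncomputable def Df (K : ℕ) (Φ : List ℕ → X) (p : ℕ → ℕ) : X :=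
  Φ (pre (fun j => p (tn j)) K) - Φ (pre (fun j => p (tm j)) K)

lemma exists_Delta (h : Ctx K Φ δ p S) {L : ℝ}
    (hL : ∀ n n' : ℕ → ℕ, StrictMono n → StrictMono n' → ∀ i, (∀ j, j ≠ i → n j = n' j) →
      ‖Φ (pre n K) - Φ (pre n' K)‖ ≤ L) (s : ℕ) (hs : s < 2 * K) :
    ∃ Δ : X, ‖Δ‖ ≤ L ∧
      (∀ c < p 0, Bd (fun t => if p (2 * s + 1) ≤ t ∧ t < p (2 * s + 3) then
          (Df K Φ p c).fn t else 0)
        (2 * ‖Δ c‖ + 2 * ((4 * K + 3) * (δ / ((p 0 : ℝ) + 1))))) ∧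
      ∑ c ∈ Ico (p (2 * s + 1)) (p (2 * s + 3)), ‖Df K Φ p c‖ ^ 2 ≤
        3 * (L ^ 2 + 2 * ((K + 1) * δ)) := by
  have hp := h.strictMono
  have hn : StrictMono tn := fun a b hab => by unfold tn; omega
  have hm : StrictMono tm := fun a b hab => by unfold tm; omega
  obtain ⟨i, hi | hi⟩ : ∃ i, s = 2 * i ∨ s = 2 * i + 1 := ⟨s / 2, by omega⟩
  · subst hi
    let x : ℕ → ℕ := fun j => if j = i then 4 * i + 4 else tn j
    have hx : StrictMono x := by
      intro a b hab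
      by_cases ha : a = i <;> by_cases hb : b = i <;> simp only [x, ha, hb, if_true, if_false, tn] <;>
        omega
    have hax : Avoid K x i (2 * (2 * i) + 1) (2 * (2 * i) + 3) := by
      refine ⟨hx, fun j => ?_, by omega, fun j hj => ?_, fun j hj => ?_⟩
      · by_cases hji : j = i <;> simp [x, hji, tn]
      · have : j ≠ i := by omega
        simp only [x, this, if_false, tn]; omega
      · by_cases hji : j = i <;> simp only [x, hji, if_true, if_false, tn] <;> omega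
    have hay : Avoid K tm i (2 * (2 * i) + 1) (2 * (2 * i) + 3) := by
      refine ⟨hm, fun j => ?_, by omega, fun j hj => ?_, fun j hj => ?_⟩ <;> unfold tm <;> omega
    have hΔ : ‖Φ (pre (fun j => p (tn j)) K) - Φ (pre (fun j => p (x j)) K)‖ ≤ L := by
      refine hL _ _ (hp.comp hn) (hp.comp hx) i fun j hj => ?_
      simp only [x, hj, if_false]
    obtain ⟨h1, h2⟩ := pair_window h hax hay (by omega)
      (Φ (pre (fun j => p (tn j)) K) - Φ (pre (fun j => p (x j)) K)) (Df K Φ p) (by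
        unfold Df; abel)
    refine ⟨_, hΔ, h1, h2.trans ?_⟩
    have := pow_le_pow_left₀ (norm_nonneg _) hΔ 2
    linarith
  · subst hi
    let x : ℕ → ℕ := fun j => if j = i then 4 * i + 2 else tm j
    have hx : StrictMono x := by
      intro a b hab
      by_cases ha : a = i <;> by_cases hb : b = i <;> simp only [x, ha, hb, if_true, if_false, tm] <;>
        omega
    have hax : Avoid K x (i + 1) (2 * (2 * i + 1) + 1) (2 * (2 * i + 1) + 3) := by
      refine ⟨hx, fun j => ?_, by omega, fun j hj => ?_, fun j hj => ?_⟩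
      · by_cases hji : j = i <;> simp [x, hji, tm]
      · by_cases hji : j = i <;> simp only [x, hji, if_true, if_false, tm] <;> omega
      · have : j ≠ i := by omega
        simp only [x, this, if_false, tm]; omega
    have hay : Avoid K tn (i + 1) (2 * (2 * i + 1) + 1) (2 * (2 * i + 1) + 3) := by
      refine ⟨hn, fun j => ?_, by omega, fun j hj => ?_, fun j hj => ?_⟩ <;> unfold tn <;> omega
    have hΔ : ‖Φ (pre (fun j => p (x j)) K) - Φ (pre (fun j => p (tm j)) K)‖ ≤ L := by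
      refine hL _ _ (hp.comp hx) (hp.comp hm) i fun j hj => ?_
      simp only [x, hj, if_false]
    obtain ⟨h1, h2⟩ := pair_window h hay hax (by omega)
      (Φ (pre (fun j => p (x j)) K) - Φ (pre (fun j => p (tm j)) K)) (Df K Φ p) (by
        unfold Df; abel)
    refine ⟨_, hΔ, h1, h2.trans ?_⟩
    have := pow_le_pow_left₀ (norm_nonneg _) hΔ 2
    linarith

/-- Time thresholds. -/
def th (p : ℕ → ℕ) : ℕ → ℕ
  | 0 => 0
  | s + 1 => p (2 * s + 1)

lemma th_mono {p : ℕ → ℕ} (hp : StrictMono p) : Monotone (th p) := by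
  refine monotone_nat_of_le_succ fun s => ?_
  cases s with
  | zero => exact Nat.zero_le _
  | succ s => exact hp.monotone (by omega)

/-- Indicators of the time windows. -/
noncomputable def chi (p : ℕ → ℕ) (N s t : ℕ) : ℝ :=
  if s < N then (if th p s ≤ t ∧ t < th p (s + 1) then 1 else 0) else (if th p N ≤ t then 1 else 0)

lemma chi_sum {p : ℕ → ℕ} (hp : StrictMono p) (N t : ℕ) :
    ∑ s ∈ range (N + 1), chi p N s t = 1 := by
  have hmono := th_mono hp
  have key : ∀ N, ∑ s ∈ range N, (if th p s ≤ t ∧ t < th p (s + 1) then (1 : ℝ) else 0) +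
      (if th p N ≤ t then 1 else 0) = 1 := by
    intro N
    induction N with
    | zero => simp [th]
    | succ N ih =>
      rw [sum_range_succ]
      have h1 : (if th p N ≤ t ∧ t < th p (N + 1) then (1 : ℝ) else 0) +
          (if th p (N + 1) ≤ t then 1 else 0) = if th p N ≤ t then 1 else 0 := by
        have h2 := hmono (Nat.le_succ N)
        by_cases ha : th p N ≤ t
        · by_cases hb : t < th p (N + 1)
          · simp [ha, hb]
          · simp [ha, not_lt.1 hb]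
        · have : ¬ th p (N + 1) ≤ t := fun h' => ha (h2.trans h')
          simp [ha, this]
      linarith
  rw [sum_range_succ]
  have h3 := key N
  have h4 : ∑ s ∈ range N, chi p N s t =
      ∑ s ∈ range N, (if th p s ≤ t ∧ t < th p (s + 1) then (1 : ℝ) else 0) :=
    sum_congr rfl fun s hs => by simp [chi, mem_range.1 hs]
  rw [h4]
  simpa [chi] using h3

/-- Bound in the first copies. -/
lemma first_copies (h : Ctx K Φ δ p S) (Δ : ℕ → X)
    (hΔ : ∀ s < 2 * K, ∀ c < p 0, Bd (fun t => if p (2 * s + 1) ≤ t ∧ t < p (2 * s + 3) then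
          (Df K Φ p c).fn t else 0)
        (2 * ‖Δ s c‖ + 2 * ((4 * K + 3) * (δ / ((p 0 : ℝ) + 1))))) (c : ℕ) (hc : c < p 0) :
    ‖Df K Φ p c‖ ^ 2 ≤ 2 * ((4 * K * (δ / ((p 0 : ℝ) + 1))) ^ 2 +
      ∑ s ∈ range (2 * K), (2 * ‖Δ s c‖ + 2 * ((4 * K + 3) * (δ / ((p 0 : ℝ) + 1)))) ^ 2 +
      (2 * (δ / ((p 0 : ℝ) + 1))) ^ 2) := by
  set q := δ / ((p 0 : ℝ) + 1)
  have hq : 0 < q := h.q_pos
  have hp := h.strictMono
  have hn : StrictMono tn := fun a b hab => by unfold tn; omega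
  have hm : StrictMono tm := fun a b hab => by unfold tm; omega
  have hfn : ∀ t, (Df K Φ p c).fn t = be Φ c t (pre (fun j => p (tn j)) K) -
    be Φ c t (pre (fun j => p (tm j)) K) := fun t => rfl
  let b : ℕ → ℝ := fun s => if s = 0 then 4 * K * q else
    if s < 2 * K + 1 then 2 * ‖Δ (s - 1) c‖ + 2 * ((4 * K + 3) * q) else 2 * q
  have hb : ∀ s ∈ range (2 * K + 1 + 1), Bd (fun t => chi p (2 * K + 1) s t * (Df K Φ p c).fn t)
      (b s) := by
    intro s hs
    rcases Nat.eq_zero_or_pos s with rfl | hs0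
    · have h1 : Bd (fun t => if t < p 1 then (Df K Φ p c).fn t else 0)
          (2 * (p 1 * (2 * (K * (δ / ((sz S 2 : ℝ) + 1) ^ 2))))) := by
        refine Bd.of_small (p 1) (fun t ht => if_neg (not_lt.2 ht)) fun t ht => ?_
        rw [if_pos ht, hfn]
        have hc1 : c < p 1 := hc.trans (hp one_pos)
        have e1 := h.close_be hn (Nat.zero_le K) (w := 1) (fun j _ => by unfold tn; omega) hc1 ht
        have e2 := h.close_be hm (Nat.zero_le K) (w := 1) (fun j _ => by unfold tm; omega) hc1 ht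
        have e3 : pre (fun j => p (tn j)) 0 = pre (fun j => p (tm j)) 0 := by simp [pre]
        rw [e3] at e1
        have e4 := abs_le.1 e1
        have e5 := abs_le.1 e2
        have e6 : (1 : ℕ) + 1 = 2 := rfl
        rw [e6] at e4 e5
        rw [abs_le]
        constructor <;> linarith [e4.1, e4.2, e5.1, e5.2]
      have h2 : b 0 = 4 * K * q := by simp [b]
      rw [h2]
      refine Bd.mono (A := 2 * (p 1 * (2 * (K * (δ / ((sz S 2 : ℝ) + 1) ^ 2))))) ?_ ?_
      · convert h1 using 1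
        funext t
        simp only [chi, th]
        by_cases ht : t < p 1
        · simp [ht]
        · simp [ht]
      · have h3 : (p 1 : ℝ) * (δ / ((sz S 2 : ℝ) + 1) ^ 2) ≤ q := h.q_mul_le (by norm_num)
        have h4 : (K : ℝ) * (p 1 * (δ / ((sz S 2 : ℝ) + 1) ^ 2)) ≤ K * q :=
          mul_le_mul_of_nonneg_left h3 (Nat.cast_nonneg _)
        calc 2 * (p 1 * (2 * (K * (δ / ((sz S 2 : ℝ) + 1) ^ 2))))
            = 4 * (K * (p 1 * (δ / ((sz S 2 : ℝ) + 1) ^ 2))) := by ring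
          _ ≤ 4 * (K * q) := by linarith
          _ = 4 * K * q := by ring
    · by_cases hsN : s < 2 * K + 1
      · obtain ⟨s', rfl⟩ : ∃ s', s = s' + 1 := ⟨s - 1, by omega⟩
        have h1 := hΔ s' (by omega) c hc
        have h2 : b (s' + 1) = 2 * ‖Δ s' c‖ + 2 * ((4 * K + 3) * q) := by
          simp only [b, Nat.succ_ne_zero, if_false, hsN, if_true, Nat.add_sub_cancel]
        rw [h2]
        convert h1 using 1
        funext t
        have e1 : th p (s' + 1) = p (2 * s' + 1) := rfl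
        have e2 : th p (s' + 1 + 1) = p (2 * s' + 3) := rfl
        simp only [chi, hsN, if_true]
        by_cases ht : p (2 * s' + 1) ≤ t ∧ t < p (2 * s' + 3)
        · rw [if_pos ht, if_pos (by rw [e1, e2]; exact ht), one_mul]
        · rw [if_neg ht, if_neg (by rw [e1, e2]; exact ht), zero_mul]
      · have hs' : s = 2 * K + 1 := by have := mem_range.1 hs; omega
        subst hs'
        have h2 : b (2 * K + 1) = 2 * q := by
          simp [b]
        rw [h2]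
        have hc4 : c ≤ sz S (4 * K + 1) := hc.le.trans (h.le_sz (by omega))
        have g1 := (h.good (4 * K + 1)).j2 _ (h.pre_mem tn le_rfl (r := 4 * K + 1)
          (fun j hj => by unfold tn; omega)) c hc4
        have g2 := (h.good (4 * K + 1)).j2 _ (h.pre_mem tm le_rfl (r := 4 * K + 1)
          (fun j hj => by unfold tm; omega)) c hc4
        have g3 := g1.sub g2
        have g4 : δ / ((sz S (4 * K + 1) : ℝ) + 1) ≤ q := h.q_le (by omega)
        refine Bd.mono (A := δ / ((sz S (4 * K + 1) : ℝ) + 1) +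
          δ / ((sz S (4 * K + 1) : ℝ) + 1)) ?_ (by linarith)
        have e1 : th p (2 * K + 1) = p (4 * K + 1) := by
          change p (2 * (2 * K) + 1) = _
          congr 1; ring
        have e2 : (fun t => chi p (2 * K + 1) (2 * K + 1) t * (Df K Φ p c).fn t) = (fun t =>
            (if p (4 * K + 1) ≤ t then (Φ (pre (fun j => p (tn j)) K) c).fn t else 0) -
              if p (4 * K + 1) ≤ t then (Φ (pre (fun j => p (tm j)) K) c).fn t else 0) := by
          funext t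
          simp only [chi, lt_irrefl, if_false]
          by_cases ht : p (4 * K + 1) ≤ t
          · rw [if_pos ht, if_pos ht, if_pos (by rw [e1]; exact ht), one_mul]; rfl
          · rw [if_neg ht, if_neg ht, if_neg (by rw [e1]; exact ht)]; simp
        rw [e2]
        exact g3
  have hE := fun n u hu => split_ineq (range (2 * K + 1 + 1)) (chi p (2 * K + 1))
    (fun s _ t => by unfold chi; split_ifs <;> simp) (fun t => chi_sum hp _ t)
    (Df K Φ p c).fn b hb n u hu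
  have hsum : ∑ s ∈ range (2 * K + 1 + 1), b s ^ 2 = (4 * K * q) ^ 2 +
      ∑ s ∈ range (2 * K), (2 * ‖Δ s c‖ + 2 * ((4 * K + 3) * q)) ^ 2 + (2 * q) ^ 2 := by
    rw [sum_range_succ, sum_range_succ']
    have e1 : b 0 = 4 * K * q := by simp [b]
    have e2 : b (2 * K + 1) = 2 * q := by simp [b]
    have e3 : ∑ s ∈ range (2 * K), b (s + 1) ^ 2 =
        ∑ s ∈ range (2 * K), (2 * ‖Δ s c‖ + 2 * ((4 * K + 3) * q)) ^ 2 := by
      refine sum_congr rfl fun s hs => ?_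
      have : s + 1 < 2 * K + 1 := by have := mem_range.1 hs; omega
      simp only [b, Nat.succ_ne_zero, if_false, this, if_true, Nat.add_sub_cancel]
    rw [e1, e2, e3]
    ring
  rw [hsum] at hE
  set T : ℝ := 2 * ((4 * K * q) ^ 2 +
      ∑ s ∈ range (2 * K), (2 * ‖Δ s c‖ + 2 * ((4 * K + 3) * q)) ^ 2 + (2 * q) ^ 2)
  have hT : 0 ≤ T := (E_nonneg (Df K Φ p c).fn 0 id).trans (hE 0 id monotone_id)
  have h1 : ‖Df K Φ p c‖ ≤ Real.sqrt T := by
    refine J.norm_le ⟨Real.sqrt_nonneg _, fun n u hu => ?_⟩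
    rw [Real.sq_sqrt hT]
    exact hE n u hu
  calc ‖Df K Φ p c‖ ^ 2 ≤ (Real.sqrt T) ^ 2 := pow_le_pow_left₀ (norm_nonneg _) h1 2
    _ = T := Real.sq_sqrt hT

/-- Consecutive windows of copies. -/
lemma sum_windows {p : ℕ → ℕ} (hp : StrictMono p) (f : ℕ → ℝ) (N : ℕ) :
    ∑ c ∈ Ico (p 1) (p (2 * N + 1)), f c =
      ∑ s ∈ range N, ∑ c ∈ Ico (p (2 * s + 1)) (p (2 * s + 3)), f c := by
  induction N with
  | zero => simp
  | succ N ih =>
    rw [sum_range_succ, ← ih, show 2 * (N + 1) + 1 = 2 * N + 3 by ring]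
    exact (sum_Ico_consecutive f (hp.monotone (by omega)) (hp.monotone (by omega))).symm

theorem main_bound (h : Ctx K Φ δ p S) {L : ℝ} (hL0 : 0 < L)
    (hL : ∀ n n' : ℕ → ℕ, StrictMono n → StrictMono n' → ∀ i, (∀ j, j ≠ i → n j = n' j) →
      ‖Φ (pre n K) - Φ (pre n' K)‖ ≤ L) :
    ‖Df K Φ p‖ ^ 2 ≤ 38 * K * L ^ 2 + ((32 * K ^ 2 + 8 + 32 * K * (4 * K + 3) ^ 2) * δ ^ 2 +
      (4 * (K + 1) + 12 * K * (K + 1) + 4) * δ) := by
  have hp := h.strictMono
  have hδ := h.pos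
  have hn : StrictMono tn := fun a b hab => by unfold tn; omega
  have hm : StrictMono tm := fun a b hab => by unfold tm; omega
  have hex := exists_Delta h hL
  choose! Δ hΔL hΔt hΔc using hex
  set q := δ / ((p 0 : ℝ) + 1) with hqdef
  have hq : 0 < q := h.q_pos
  have hq2 : (p 0 : ℝ) * q ^ 2 ≤ δ ^ 2 := by
    have h0 : (0 : ℝ) ≤ p 0 := Nat.cast_nonneg _
    rw [hqdef, div_pow, ← mul_div_assoc, div_le_iff₀ (by positivity)]
    nlinarith [sq_nonneg δ, mul_nonneg (sq_nonneg δ) h0, mul_nonneg (sq_nonneg δ) (sq_nonneg (p 0 : ℝ))]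
  set Kr : ℝ := (K : ℝ)
  have hK0 : 0 ≤ Kr := Nat.cast_nonneg _
  -- first copies
  have h1 : ∑ c ∈ range (p 0), ‖Df K Φ p c‖ ^ 2 ≤
      2 * (16 * Kr ^ 2 * δ ^ 2 + 2 * Kr * (8 * L ^ 2 + 8 * ((4 * Kr + 3) ^ 2 * δ ^ 2)) +
        4 * δ ^ 2) := by
    have e1 : ∑ c ∈ range (p 0), ‖Df K Φ p c‖ ^ 2 ≤ ∑ c ∈ range (p 0), 2 * ((4 * Kr * q) ^ 2 +
      ∑ s ∈ range (2 * K), (2 * ‖Δ s c‖ + 2 * ((4 * Kr + 3) * q)) ^ 2 + (2 * q) ^ 2) :=
      sum_le_sum fun c hc => first_copies h Δ hΔt c (mem_range.1 hc)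
    refine e1.trans ?_
    rw [← mul_sum, sum_add_distrib, sum_add_distrib, sum_const, sum_const, card_range,
      nsmul_eq_mul, nsmul_eq_mul, sum_comm]
    have e2 : ∑ s ∈ range (2 * K), ∑ c ∈ range (p 0), (2 * ‖Δ s c‖ + 2 * ((4 * Kr + 3) * q)) ^ 2 ≤
        ∑ _s ∈ range (2 * K), (8 * L ^ 2 + 8 * ((4 * Kr + 3) ^ 2 * δ ^ 2)) := by
      refine sum_le_sum fun s hs => ?_
      have e3 : ∑ c ∈ range (p 0), (2 * ‖Δ s c‖ + 2 * ((4 * Kr + 3) * q)) ^ 2 ≤
          ∑ c ∈ range (p 0), (8 * ‖Δ s c‖ ^ 2 + 8 * ((4 * Kr + 3) ^ 2 * q ^ 2)) := by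
        refine sum_le_sum fun c _ => ?_
        nlinarith [sq_nonneg (‖Δ s c‖ - (4 * Kr + 3) * q)]
      refine e3.trans ?_
      rw [sum_add_distrib, ← mul_sum, sum_const, card_range, nsmul_eq_mul]
      have e4 := sum_le (Δ s) (range (p 0))
      have e5 := pow_le_pow_left₀ (norm_nonneg _) (hΔL s (mem_range.1 hs)) 2
      have e6 : (p 0 : ℝ) * (8 * ((4 * Kr + 3) ^ 2 * q ^ 2)) =
        8 * ((4 * Kr + 3) ^ 2 * (p 0 * q ^ 2)) := by ring
      rw [e6]
      have e7 : (4 * Kr + 3) ^ 2 * (p 0 * q ^ 2) ≤ (4 * Kr + 3) ^ 2 * δ ^ 2 :=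
        mul_le_mul_of_nonneg_left hq2 (sq_nonneg _)
      linarith
    rw [sum_const, card_range, nsmul_eq_mul] at e2
    push_cast at e2
    have e8 : (p 0 : ℝ) * (4 * Kr * q) ^ 2 = 16 * Kr ^ 2 * (p 0 * q ^ 2) := by ring
    have e9 : (p 0 : ℝ) * (2 * q) ^ 2 = 4 * (p 0 * q ^ 2) := by ring
    have e10 : 16 * Kr ^ 2 * (p 0 * q ^ 2) ≤ 16 * Kr ^ 2 * δ ^ 2 :=
      mul_le_mul_of_nonneg_left hq2 (by positivity)
    rw [e8, e9]
    have e11 : ((K : ℝ)) = Kr := rfl
    rw [e11] at e2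
    linarith
  -- intermediate copies
  have h2 : ∑ c ∈ Ico (p 0) (p 1), ‖Df K Φ p c‖ ^ 2 ≤ 4 * ((Kr + 1) * δ) := by
    have e1 := h.copies_window hn (i := 0) (u := 0) (w := 1) (Nat.zero_le K) (fun j hj => by omega)
      (fun j _ => by unfold tn; omega)
    have e2 := h.copies_window hm (i := 0) (u := 0) (w := 1) (Nat.zero_le K) (fun j hj => by omega)
      (fun j _ => by unfold tm; omega)
    have e3 : ∑ c ∈ Ico (p 0) (p 1), ‖Df K Φ p c‖ ^ 2 ≤ ∑ c ∈ Ico (p 0) (p 1),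
        2 * (‖Φ (pre (fun j => p (tn j)) K) c‖ ^ 2 + ‖Φ (pre (fun j => p (tm j)) K) c‖ ^ 2) := by
      refine sum_le_sum fun c _ => ?_
      have e4 : ‖Df K Φ p c‖ ≤ ‖Φ (pre (fun j => p (tn j)) K) c‖ +
        ‖Φ (pre (fun j => p (tm j)) K) c‖ := norm_sub_le _ _
      refine (pow_le_pow_left₀ (norm_nonneg _) e4 2).trans ?_
      nlinarith [sq_nonneg (‖Φ (pre (fun j => p (tn j)) K) c‖ - ‖Φ (pre (fun j => p (tm j)) K) c‖)]
    rw [← mul_sum, sum_add_distrib] at e3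
    linarith
  -- windows
  have h3 : ∑ c ∈ Ico (p 1) (p (2 * (2 * K) + 1)), ‖Df K Φ p c‖ ^ 2 ≤
      2 * Kr * (3 * (L ^ 2 + 2 * ((Kr + 1) * δ))) := by
    rw [sum_windows hp]
    have e1 := sum_le_sum fun s hs => hΔc s (mem_range.1 hs)
    refine e1.trans ?_
    rw [sum_const, card_range, nsmul_eq_mul]
    push_cast
    exact le_rfl
  -- last copies
  have h4 : ∀ M, ∑ c ∈ Ico (p (2 * (2 * K) + 1)) M, ‖Df K Φ p c‖ ^ 2 ≤ 4 * δ := by
    intro M
    have e1 := (h.good (2 * (2 * K) + 1)).a2 _ (h.pre_mem tn le_rfl (r := 2 * (2 * K) + 1)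
          (fun j hj => by unfold tn; omega)) 0 (Nat.zero_le _) M
    have e2 := (h.good (2 * (2 * K) + 1)).a2 _ (h.pre_mem tm le_rfl (r := 2 * (2 * K) + 1)
          (fun j hj => by unfold tm; omega)) 0 (Nat.zero_le _) M
    simp only [G_zero, al] at e1 e2
    have e3 : ∑ c ∈ Ico (p (2 * (2 * K) + 1)) M, ‖Df K Φ p c‖ ^ 2 ≤
        ∑ c ∈ Ico (p (2 * (2 * K) + 1)) M,
        2 * (‖Φ (pre (fun j => p (tn j)) K) c‖ ^ 2 + ‖Φ (pre (fun j => p (tm j)) K) c‖ ^ 2) := by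
      refine sum_le_sum fun c _ => ?_
      have e4 : ‖Df K Φ p c‖ ≤ ‖Φ (pre (fun j => p (tn j)) K) c‖ +
        ‖Φ (pre (fun j => p (tm j)) K) c‖ := norm_sub_le _ _
      refine (pow_le_pow_left₀ (norm_nonneg _) e4 2).trans ?_
      nlinarith [sq_nonneg (‖Φ (pre (fun j => p (tn j)) K) c‖ - ‖Φ (pre (fun j => p (tm j)) K) c‖)]
    rw [← mul_sum, sum_add_distrib] at e3
    linarith
  set T : ℝ := 38 * Kr * L ^ 2 + ((32 * Kr ^ 2 + 8 + 32 * Kr * (4 * Kr + 3) ^ 2) * δ ^ 2 +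
      (4 * (Kr + 1) + 12 * Kr * (Kr + 1) + 4) * δ) with hT
  have hT0 : 0 ≤ T := by positivity
  have h5 : ∀ N : ℕ, ∑ c ∈ range N, ‖Df K Φ p c‖ ^ 2 ≤ T := by
    intro N
    set M := max N (p (2 * (2 * K) + 1))
    have e1 : ∑ c ∈ range N, ‖Df K Φ p c‖ ^ 2 ≤ ∑ c ∈ range M, ‖Df K Φ p c‖ ^ 2 :=
      sum_le_sum_of_subset_of_nonneg (range_subset_range.2 (le_max_left _ _))
        fun _ _ _ => sq_nonneg _
    have e2 : ∑ c ∈ range M, ‖Df K Φ p c‖ ^ 2 = ∑ c ∈ range (p 0), ‖Df K Φ p c‖ ^ 2 +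
        ∑ c ∈ Ico (p 0) (p 1), ‖Df K Φ p c‖ ^ 2 +
        ∑ c ∈ Ico (p 1) (p (2 * (2 * K) + 1)), ‖Df K Φ p c‖ ^ 2 +
        ∑ c ∈ Ico (p (2 * (2 * K) + 1)) M, ‖Df K Φ p c‖ ^ 2 := by
      rw [range_eq_Ico, range_eq_Ico,
        sum_Ico_consecutive _ (Nat.zero_le _) (hp.monotone (Nat.zero_le 1)),
        sum_Ico_consecutive _ (Nat.zero_le _) (hp.monotone (by omega)),
        sum_Ico_consecutive _ (Nat.zero_le _) (le_max_right _ _)]
    have e3 := h4 M
    rw [e2] at e1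
    refine e1.trans ?_
    rw [hT]
    nlinarith [h1, h2, h3, e3]
  have h6 : ‖Df K Φ p‖ ≤ Real.sqrt T :=
    norm_le_of (Real.sqrt_nonneg _) fun N => by rw [Real.sq_sqrt hT0]; exact h5 N
  calc ‖Df K Φ p‖ ^ 2 ≤ (Real.sqrt T) ^ 2 := pow_le_pow_left₀ (norm_nonneg _) h6 2
    _ = T := Real.sq_sqrt hT0

/-- Every map of tuples which is `L`-Lipschitz in each entry has an interlaced pair with
difference of norm at most `√(39 K) L`. -/
theorem exists_pair (K : ℕ) (hK : 0 < K) (Φ : List ℕ → X) {R : ℝ} (hR : ∀ l, ‖Φ l‖ ≤ R)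
    {L : ℝ} (hL0 : 0 < L)
    (hL : ∀ n n' : ℕ → ℕ, StrictMono n → StrictMono n' → ∀ i, (∀ j, j ≠ i → n j = n' j) →
      ‖Φ (pre n K) - Φ (pre n' K)‖ ≤ L) :
    ∃ n m : ℕ → ℕ, StrictMono n ∧ StrictMono m ∧ (∀ i j, n i ≠ m j) ∧
      ‖Φ (pre n K) - Φ (pre m K)‖ ^ 2 ≤ 39 * K * L ^ 2 := by
  set P : ℝ := (32 * (K : ℝ) ^ 2 + 8 + 32 * K * (4 * K + 3) ^ 2) +
    (4 * (K + 1) + 12 * K * (K + 1) + 4) with hP
  have hP0 : 0 < P := by positivity
  set δ : ℝ := min 1 (L ^ 2 / P) with hδ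
  have hδ0 : 0 < δ := lt_min one_pos (by positivity)
  have hδ1 : δ ≤ 1 := min_le_left _ _
  have hδ2 : P * δ ≤ L ^ 2 := by
    have : δ ≤ L ^ 2 / P := min_le_right _ _
    rw [le_div_iff₀ hP0] at this
    linarith
  obtain ⟨p, S, hg, hmem, hmono⟩ := exists_seq K Φ hR hδ0
  have h : Ctx K Φ δ p S := ⟨hg, hmem, hmono, hδ0⟩
  have hp := h.strictMono
  have hn : StrictMono tn := fun a b hab => by unfold tn; omega
  have hm : StrictMono tm := fun a b hab => by unfold tm; omega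
  refine ⟨fun j => p (tn j), fun j => p (tm j), hp.comp hn, hp.comp hm, fun i j hij => ?_, ?_⟩
  · have := hp.injective hij
    unfold tn tm at this
    omega
  · have h1 := main_bound h hL0 hL
    have h2 : δ ^ 2 ≤ δ := by nlinarith
    have h3 : (32 * (K : ℝ) ^ 2 + 8 + 32 * K * (4 * K + 3) ^ 2) * δ ^ 2 ≤
        (32 * (K : ℝ) ^ 2 + 8 + 32 * K * (4 * K + 3) ^ 2) * δ :=
      mul_le_mul_of_nonneg_left h2 (by positivity)
    have h4 : (1 : ℝ) ≤ K := by exact_mod_cast hK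
    have h5 : L ^ 2 ≤ K * L ^ 2 := by nlinarith [sq_nonneg L]
    unfold Df at h1
    rw [hP] at hδ2
    nlinarith [h1, h3, h5, hδ2]

end Q197.InterMain
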