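import Pool.Agent.Q197.LTree

/-!
# Isomorphisms of a dual space onto `L₁ + L_∞`: the branches
-/

set_option autoImplicit false

namespace Pool.Agent.Q197.LTree

open MeasureTheory Set Function Pool.Agent.Q197.LSum Pool.Agent.Q197.HellyFam
open scoped ENNReal

/-- the dyadic cells -/
def cell (n : ℕ) (k : Fin (2 ^ n)) : Set ℝ := {t | t ∈ Ioo (0 : ℝ) 1 ∧ ⌊(2 : ℝ) ^ n * t⌋₊ = k}

lemma cell_meas (n : ℕ) (k : Fin (2 ^ n)) : MeasurableSet (cell n k) := by
  have h1 : MeasurableSet {t : ℝ | ⌊(2 : ℝ) ^ n * t⌋₊ = k} := by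
    have h2 : Measurable (fun t : ℝ => ⌊(2 : ℝ) ^ n * t⌋₊) :=
      Nat.measurable_floor.comp (measurable_const_mul _)
    exact h2 (measurableSet_singleton _)
  exact measurableSet_Ioo.inter h1

lemma cell_sub (n : ℕ) (k : Fin (2 ^ n)) : cell n k ⊆ Ioo 0 1 := fun _ h => h.1

lemma cell_disj (n : ℕ) : Pairwise (Disjoint on (cell n)) := by
  intro k l hkl
  rw [Function.onFun, Set.disjoint_left]
  rintro t ⟨-, h1⟩ ⟨-, h2⟩
  exact hkl (Fin.ext (h1.symm.trans h2))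

/-- the index of the cell of `t` -/
noncomputable def idx (n : ℕ) (t : ℝ) (ht : t ∈ Ioo (0 : ℝ) 1) : Fin (2 ^ n) :=
  ⟨⌊(2 : ℝ) ^ n * t⌋₊, by
    have h1 : (0 : ℝ) < 2 ^ n := by positivity
    rw [Nat.floor_lt (by have := ht.1; positivity)]
    push_cast
    have := ht.2
    nlinarith⟩

lemma mem_cell (n : ℕ) (t : ℝ) (ht : t ∈ Ioo (0 : ℝ) 1) : t ∈ cell n (idx n t ht) := ⟨ht, rfl⟩

lemma exists_sep (S : Finset ℝ) : ∃ n : ℕ, ∀ x ∈ S, ∀ y ∈ S, ∀ (hx : x ∈ Ioo (0 : ℝ) 1)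
    (hy : y ∈ Ioo (0 : ℝ) 1), idx n x hx = idx n y hy → x = y := by
  have h1 : ∀ x y : ℝ, x ≠ y → ∀ᶠ n : ℕ in Filter.atTop, 1 < (2 : ℝ) ^ n * |x - y| := by
    intro x y hxy
    have h2 : 0 < |x - y| := abs_pos.2 (sub_ne_zero.2 hxy)
    have h3 : Filter.Tendsto (fun n : ℕ => (2 : ℝ) ^ n * |x - y|) Filter.atTop Filter.atTop :=
      (tendsto_pow_atTop_atTop_of_one_lt (by norm_num)).atTop_mul_const h2
    exact h3.eventually_gt_atTop 1
  have h2 : ∀ᶠ n : ℕ in Filter.atTop, ∀ x ∈ S, ∀ y ∈ S, x ≠ y → 1 < (2 : ℝ) ^ n * |x - y| := by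
    rw [Filter.eventually_all_finset]
    intro x _
    rw [Filter.eventually_all_finset]
    intro y _
    by_cases hxy : x = y
    · exact Filter.Eventually.of_forall fun n h => absurd hxy h
    · filter_upwards [h1 x y hxy] with n hn _
      exact hn
  obtain ⟨n, hn⟩ := h2.exists
  refine ⟨n, fun x hx y hy hx1 hy1 h => ?_⟩
  by_contra hne
  have h3 := hn x hx y hy hne
  have h4 : ⌊(2 : ℝ) ^ n * x⌋₊ = ⌊(2 : ℝ) ^ n * y⌋₊ := congrArg Fin.val h
  have hp : (0 : ℝ) < 2 ^ n := by positivity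
  have h5 := Nat.floor_le (show 0 ≤ (2 : ℝ) ^ n * x by have := hx1.1; positivity)
  have h6 := Nat.floor_le (show 0 ≤ (2 : ℝ) ^ n * y by have := hy1.1; positivity)
  have h7 := Nat.lt_floor_add_one ((2 : ℝ) ^ n * x)
  have h8 := Nat.lt_floor_add_one ((2 : ℝ) ^ n * y)
  rw [h4] at h5 h7
  have h9 : |(2 : ℝ) ^ n * x - 2 ^ n * y| < 1 := by
    rw [abs_lt]
    constructor <;> linarith
  rw [← mul_sub, abs_mul, abs_of_pos hp] at h9
  linarith

variable {Y : Type*} [NormedAddCommGroup Y] [NormedSpace ℝ Y] (T : StrongDual ℝ Y ≃L[ℝ] L1Linf)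

/-- the mass one functions -/
lemma cut_chi_norm {E : Set ℝ} (hm : MeasurableSet E) (hE : E ⊆ Ioo 0 1) :
    ‖cut (chi E hm hE)‖ = (leb E).toReal := by
  have h1 : ⇑(cut (chi E hm hE)) =ᵐ[leb] indicator E (fun _ => (1 : ℝ)) := by
    filter_upwards [coeFn_cut (chi E hm hE),
      (indicatorConstLp_coeFn (p := 2) (hs := hm) (hμs := leb_ne_top hE) (c := (1 : ℝ)))]
      with t h2 h3
    rw [h2]
    by_cases ht : t ∈ Ioo (0 : ℝ) 1
    · rw [indicator_of_mem ht]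
      exact h3
    · rw [indicator_of_notMem ht, indicator_of_notMem (fun h => ht (hE h))]
  rw [Lp.norm_def, eLpNorm_congr_ae h1, eLpNorm_indicator_const hm (by norm_num) (by norm_num)]
  simp

/-- The elements of the dual space attached to the sets of positive measure. -/
lemma mass {E : Set ℝ} (hm : MeasurableSet E) (hE : E ⊆ Ioo 0 1) (hpos : leb E ≠ 0) :
    ∃ f : StrongDual ℝ Y, ‖f‖ ≤ ‖(T.symm : L1Linf →L[ℝ] StrongDual ℝ Y)‖ ∧
      ∀ y : Y, (∀ t ∈ E, 1 / 2 ≤ phi T y t) → 1 / 2 ≤ f y := by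
  have hr : 0 < (leb E).toReal := ENNReal.toReal_pos hpos (leb_ne_top hE)
  set m : ℝ := (leb E).toReal with hmdef
  refine ⟨A T (m⁻¹ • chi E hm hE), ?_, fun y hy => ?_⟩
  · rw [A_apply]
    have h1 : ‖(T.symm : L1Linf →L[ℝ] StrongDual ℝ Y) (in1 (cut (m⁻¹ • chi E hm hE)))‖ ≤
        ‖(T.symm : L1Linf →L[ℝ] StrongDual ℝ Y)‖ * ‖in1 (cut (m⁻¹ • chi E hm hE))‖ :=
      (T.symm : L1Linf →L[ℝ] StrongDual ℝ Y).le_opNorm _
    refine h1.trans ?_
    have h2 : ‖in1 (cut (m⁻¹ • chi E hm hE))‖ ≤ 1 := by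
      refine (norm_in1 _).trans ?_
      rw [map_smul, norm_smul, cut_chi_norm, Real.norm_of_nonneg (by positivity),
        inv_mul_cancel₀ hr.ne']
    calc _ ≤ ‖(T.symm : L1Linf →L[ℝ] StrongDual ℝ Y)‖ * 1 :=
          mul_le_mul_of_nonneg_left h2 (norm_nonneg (T.symm : L1Linf →L[ℝ] StrongDual ℝ Y))
      _ = _ := mul_one _
  · rw [← inner_phi, real_inner_smul_right, real_inner_comm, inner_chi]
    have h1 : (1 / 2 : ℝ) * m ≤ ∫ t in E, phi T y t ∂leb := by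
      have h2 : ∫ _t in E, (1 / 2 : ℝ) ∂leb = 1 / 2 * m := by
        rw [setIntegral_const, smul_eq_mul, hmdef, Measure.real, mul_comm]
      rw [← h2]
      refine setIntegral_mono_on ?_ ?_ hm hy
      · exact integrableOn_const (leb_ne_top hE)
      · have : IsFiniteMeasure (leb.restrict E) := by
          refine ⟨?_⟩
          rw [Measure.restrict_apply_univ]
          exact (leb_ne_top hE).lt_top
        exact ((Lp.memLp (phi T y)).restrict E).integrable (by norm_num)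
    calc (1 / 2 : ℝ) = m⁻¹ * (1 / 2 * m) := by field_simp
      _ ≤ m⁻¹ * ∫ t in E, phi T y t ∂leb := mul_le_mul_of_nonneg_left h1 (by positivity)

/-- The tree of families and its branches. -/
theorem branches {b : ℝ} (hb : 0 < b) (hT : ∀ f, ‖T f‖ ≤ b * ‖f‖) :
    ∃ (y : ∀ n : ℕ, Fin (2 ^ n) → Y) (G : Set ℝ) (hG : G ⊆ Ioo 0 1), ¬ G.Countable ∧
      (∀ n, Fam b (y n)) ∧ ∀ x (hx : x ∈ G), ∃ f : StrongDual ℝ Y,
        ‖f‖ ≤ ‖(T.symm : L1Linf →L[ℝ] StrongDual ℝ Y)‖ ∧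
        ∀ n, 1 / 2 ≤ f (y n (idx n x (hG hx))) := by
  classical
  have hch : ∀ n : ℕ, ∃ y : Fin (2 ^ n) → Y, Fam b y ∧
      ∀ k, ‖phi T (y k) - chi (cell n k) (cell_meas n k) (cell_sub n k)‖ ≤ (1 / 4) * (1 / 2) ^ n :=
    fun n => approx T hb hT (cell n) (cell_meas n) (cell_sub n) (cell_disj n) (by positivity)
  choose y hy1 hy2 using hch
  -- the bad sets
  let B : ∀ n, Fin (2 ^ n) → Set ℝ := fun n k => {t | t ∈ cell n k ∧ phi T (y n k) t < 1 / 2}
  have hB : ∀ n, leb (⋃ k, B n k) ≤ ENNReal.ofReal ((1 / 4) * (1 / 2) ^ n) := by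
    intro n
    refine (measure_iUnion_fintype_le _ _).trans ?_
    have h1 : ∀ k, leb (B n k) ≤ ENNReal.ofReal (4 * ((1 / 4) * (1 / 2) ^ n) ^ 2) := fun k =>
      cheb _ (cell_meas n k) (cell_sub n k) (hy2 n k)
    refine (Finset.sum_le_sum fun k _ => h1 k).trans ?_
    rw [Finset.sum_const, Finset.card_univ, Fintype.card_fin, nsmul_eq_mul]
    have h2 : ((2 ^ n : ℕ) : ℝ≥0∞) = ENNReal.ofReal (2 ^ n) := by
      rw [← ENNReal.ofReal_natCast]
      push_cast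
      rfl
    rw [h2, ← ENNReal.ofReal_mul (by positivity)]
    refine ENNReal.ofReal_le_ofReal (le_of_eq ?_)
    have h3 : (2 : ℝ) ^ n * (1 / 2) ^ n = 1 := by
      rw [← mul_pow]
      norm_num
    calc (2 : ℝ) ^ n * (4 * (1 / 4 * (1 / 2) ^ n) ^ 2)
        = (1 / 4) * (1 / 2) ^ n * ((2 : ℝ) ^ n * (1 / 2) ^ n) := by ring
      _ = 1 / 4 * (1 / 2) ^ n := by rw [h3, mul_one]
  have hBtot : leb (⋃ n, ⋃ k, B n k) ≤ ENNReal.ofReal (1 / 2) := by
    refine (measure_iUnion_le _).trans ((ENNReal.tsum_le_tsum hB).trans ?_)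
    have h1 : Summable (fun n : ℕ => (1 / 4 : ℝ) * (1 / 2) ^ n) :=
      summable_geometric_two.mul_left _
    rw [← ENNReal.ofReal_tsum_of_nonneg (fun n => by positivity) h1, tsum_mul_left,
      tsum_geometric_two]
    exact ENNReal.ofReal_le_ofReal (by norm_num)
  -- the null set
  let TF : Finset (Σ n : ℕ, Fin (2 ^ n)) → Set ℝ := fun F =>
    {t | t ∈ Ioo (0 : ℝ) 1 ∧ ∀ i ∈ F, t ∈ cell i.1 i.2 ∧ 1 / 2 ≤ phi T (y i.1 i.2) t}
  have hTFm : ∀ F, MeasurableSet (TF F) := by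
    intro F
    have h1 : TF F = Ioo (0 : ℝ) 1 ∩ ⋂ i ∈ F, (cell i.1 i.2 ∩ {t | 1 / 2 ≤ phi T (y i.1 i.2) t}) := by
      ext t
      simp only [TF, Set.mem_ofPred_eq, Set.mem_inter_iff, Set.mem_iInter]
    rw [h1]
    refine measurableSet_Ioo.inter ?_
    refine Finset.measurableSet_biInter F fun i _ => ?_
    refine (cell_meas _ _).inter ?_
    exact measurableSet_le measurable_const (Lp.stronglyMeasurable _).measurable
  let N : Set ℝ := ⋃ F : Finset (Σ n : ℕ, Fin (2 ^ n)), ⋃ (_ : leb (TF F) = 0), TF F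
  have hN : leb N = 0 := by
    refine measure_iUnion_null fun F => ?_
    exact measure_iUnion_null fun h => h
  let G : Set ℝ := (Ioo (0 : ℝ) 1 \ ⋃ n, ⋃ k, B n k) \ N
  have hG : G ⊆ Ioo 0 1 := fun t ht => ht.1.1
  refine ⟨y, G, hG, ?_, hy1, ?_⟩
  · intro hcount
    have h1 : leb G = 0 := hcount.measure_zero leb
    have h2 : Ioo (0 : ℝ) 1 ⊆ (G ∪ ⋃ n, ⋃ k, B n k) ∪ N := by
      intro t ht
      by_cases h3 : t ∈ N
      · exact Or.inr h3
      · by_cases h4 : t ∈ ⋃ n, ⋃ k, B n k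
        · exact Or.inl (Or.inr h4)
        · exact Or.inl (Or.inl ⟨⟨ht, h4⟩, h3⟩)
    have h3 : leb (Ioo (0 : ℝ) 1) ≤ ENNReal.ofReal (1 / 2) := by
      refine (measure_mono h2).trans ((measure_union_le _ _).trans ?_)
      rw [hN, add_zero]
      refine (measure_union_le _ _).trans ?_
      rw [h1, zero_add]
      exact hBtot
    rw [leb_Ioo] at h3
    have h4 : ENNReal.ofReal (1 / 2) < ENNReal.ofReal 1 := by
      rw [ENNReal.ofReal_lt_ofReal_iff (by norm_num)]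
      norm_num
    rw [ENNReal.ofReal_one] at h4
    exact absurd h3 (not_le.2 h4)
  · intro x hx
    -- compactness
    set a' := ‖(T.symm : L1Linf →L[ℝ] StrongDual ℝ Y)‖ with ha'
    have hcomp : IsCompact (WeakDual.toStrongDual ⁻¹'
        Metric.closedBall (0 : StrongDual ℝ Y) a') := WeakDual.isCompact_closedBall 0 a'
    have hcl : ∀ n, IsClosed {f : WeakDual ℝ Y | 1 / 2 ≤ f (y n (idx n x (hG hx)))} := by
      intro n
      exact isClosed_le continuous_const (WeakDual.eval_continuous _)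
    have hfin : ∀ u : Finset ℕ, (WeakDual.toStrongDual ⁻¹' Metric.closedBall
        (0 : StrongDual ℝ Y) a' ∩ ⋂ n ∈ u,
          {f : WeakDual ℝ Y | 1 / 2 ≤ f (y n (idx n x (hG hx)))}).Nonempty := by
      intro u
      let F : Finset (Σ n : ℕ, Fin (2 ^ n)) := u.image (fun n => ⟨n, idx n x (hG hx)⟩)
      have hxF : x ∈ TF F := by
        refine ⟨hG hx, fun i hi => ?_⟩
        rw [Finset.mem_image] at hi
        obtain ⟨n, -, rfl⟩ := hi
        refine ⟨mem_cell n x (hG hx), ?_⟩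
        by_contra hcon
        push Not at hcon
        exact hx.1.2 (Set.mem_iUnion.2 ⟨n, Set.mem_iUnion.2 ⟨_, mem_cell n x (hG hx), hcon⟩⟩)
      have hpos : leb (TF F) ≠ 0 := by
        intro h0
        exact hx.2 (Set.mem_iUnion.2 ⟨F, Set.mem_iUnion.2 ⟨h0, hxF⟩⟩)
      obtain ⟨f, hf1, hf2⟩ := mass T (hTFm F) (fun t ht => ht.1) hpos
      refine ⟨StrongDual.toWeakDual f, ?_, ?_⟩
      · change f ∈ Metric.closedBall (0 : StrongDual ℝ Y) a'
        rw [mem_closedBall_zero_iff]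
        exact hf1
      · rw [Set.mem_iInter₂]
        intro n hn
        change 1 / 2 ≤ f (y n (idx n x (hG hx)))
        refine hf2 _ fun t ht => ?_
        exact (ht.2 ⟨n, idx n x (hG hx)⟩ (Finset.mem_image.2 ⟨n, hn, rfl⟩)).2
    obtain ⟨f, hf1, hf2⟩ := hcomp.inter_iInter_nonempty _ hcl hfin
    refine ⟨WeakDual.toStrongDual f, ?_, fun n => ?_⟩
    · have : WeakDual.toStrongDual f ∈ Metric.closedBall (0 : StrongDual ℝ Y) a' := hf1
      rwa [mem_closedBall_zero_iff] at this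
    · rw [Set.mem_iInter] at hf2
      exact hf2 n

end Pool.Agent.Q197.LTree
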