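import Pool.Agent.Q197.LBranch

/-!
# MP_ec556a_an: `L₁ + L_∞` is not isomorphic to a dual space

Suppose that `T : Y* → L₁ + L_∞` is an isomorphism.

* (approximation) For disjoint sets `E k` in `(0, 1)` the functionals `f ↦ ∫_{E k} T f` on `Y*` have
  bounded sign sums; a Helly type argument gives `y k ∈ Y` with bounded sign sums
  (`∑ k, |f (y k)| ≤ b ‖f‖`) whose transposed images in `L₂(0, 1)` are close to the indicators of
  the `E k`.
* (branches) Do this for all dyadic partitions.  Then for all `x` in an uncountable set `G` there is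
  `f_x ∈ Y*`, a weak* cluster point of functions of mass one concentrating near `x`, with
  `f_x (y_{n,k}) ≥ 1/2` whenever `x` lies in the `k`-th cell of the `n`-th partition.
* (contradiction) Write `T f_x = u_x + v_x` with `u_x ∈ L₁` and `v_x ∈ L_∞`.  As `L₁` is separable,
  there are arbitrarily many `x` whose `u_x` are close to a fixed `u`.  For `N` such points and a
  fine partition the functionals `y_{n,k(x)}` have bounded sign sums, but are large at `v_x`; Riesz
  products show that this is impossible in `L_∞`.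
-/

set_option autoImplicit false

namespace Pool.Agent.Q197.LFinal

open MeasureTheory Set Function Pool.Agent.Q197.LSum Pool.Agent.Q197.HellyFam
  Pool.Agent.Q197.LTree Pool.Agent.Q197.RieszProd
open scoped ENNReal

/-- A sum over distinct cells is bounded by the sum over all cells. -/
lemma sum_idx_le {Y : Type*} [NormedAddCommGroup Y] [NormedSpace ℝ Y] {b : ℝ} {n : ℕ}
    {y : Fin (2 ^ n) → Y} (hy : Fam b y) {κ : Type*} [Fintype κ] (e : κ → Fin (2 ^ n))
    (he : Injective e) (f : StrongDual ℝ Y) : ∑ x, |f (y (e x))| ≤ b * ‖f‖ := by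
  classical
  refine le_trans ?_ (hy f)
  rw [← Finset.sum_image (f := fun k => |f (y k)|) (s := Finset.univ) (g := e)
    (fun a _ b _ h => he h)]
  exact Finset.sum_le_univ_sum_of_nonneg fun k => abs_nonneg _

/-- **`L₁ + L_∞` is not isomorphic to a dual Banach space.**  For no real normed space `Y` is the
dual space `Y*` linearly homeomorphic to `L₁ + L_∞` on `(0, ∞)`. -/
theorem not_dual (Y : Type*) [NormedAddCommGroup Y] [NormedSpace ℝ Y] :
    IsEmpty (StrongDual ℝ Y ≃L[ℝ] L1Linf) := by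
  classical
  refine ⟨fun T => ?_⟩
  set b : ℝ := ‖(T : StrongDual ℝ Y →L[ℝ] L1Linf)‖ + 1 with hbdef
  have hTn : 0 ≤ ‖(T : StrongDual ℝ Y →L[ℝ] L1Linf)‖ :=
    norm_nonneg (T : StrongDual ℝ Y →L[ℝ] L1Linf)
  have hb : 0 < b := by linarith
  have hT : ∀ f, ‖T f‖ ≤ b * ‖f‖ := by
    intro f
    have h1 : ‖(T : StrongDual ℝ Y →L[ℝ] L1Linf) f‖ ≤
        ‖(T : StrongDual ℝ Y →L[ℝ] L1Linf)‖ * ‖f‖ :=
      (T : StrongDual ℝ Y →L[ℝ] L1Linf).le_opNorm f
    have h2 : 0 ≤ ‖f‖ := norm_nonneg f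
    change ‖(T : StrongDual ℝ Y →L[ℝ] L1Linf) f‖ ≤ b * ‖f‖
    nlinarith
  set a : ℝ := ‖(T.symm : L1Linf →L[ℝ] StrongDual ℝ Y)‖ with hadef
  have ha : 0 ≤ a := norm_nonneg (T.symm : L1Linf →L[ℝ] StrongDual ℝ Y)
  have hS : ∀ z, ‖T.symm z‖ ≤ a * ‖z‖ := fun z =>
    (T.symm : L1Linf →L[ℝ] StrongDual ℝ Y).le_opNorm z
  obtain ⟨y, G, hG, hGc, hy, hf⟩ := branches T hb hT
  choose f hf1 hf2 using hf
  -- decompositions
  have hdec : ∀ x (hx : x ∈ G), ∃ (u : Lp ℝ 1 leb) (v : Lp ℝ ∞ leb),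
      T (f x hx) = in1 u + in2 v ∧ ‖u‖ + ‖v‖ ≤ b * a + 1 := by
    intro x hx
    obtain ⟨u, v, h1, h2⟩ := decomp (T (f x hx))
    refine ⟨u, v, h1, h2.trans ?_⟩
    have h3 := hT (f x hx)
    have h4 : b * ‖f x hx‖ ≤ b * a := mul_le_mul_of_nonneg_left (hf1 x hx) hb.le
    linarith
  choose u v huv hR using hdec
  set R : ℝ := b * a + 1 with hRdef
  have hR0 : 0 < R := by positivity
  set C : ℝ := b * a + 1 with hCdef
  have hC0 : 0 < C := by positivity
  set δ : ℝ := 1 / (8 * C) with hδdef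
  have hδ0 : 0 < δ := by positivity
  -- pigeonhole
  have : Fact ((1 : ℝ≥0∞) ≠ ∞) := ⟨ENNReal.one_ne_top⟩
  have : SecondCountableTopology (Lp ℝ 1 leb) :=
    Lp.SecondCountableTopology (X := ℝ) (E := ℝ) (p := 1) (μ := leb)
  have hpig : ∃ c : Lp ℝ 1 leb, {x : ℝ | ∃ hx : x ∈ G, ‖u x hx - c‖ < δ}.Infinite := by
    by_contra hcon
    push Not at hcon
    refine hGc ?_
    have h1 : G ⊆ ⋃ n : ℕ, {x : ℝ | ∃ hx : x ∈ G,
        ‖u x hx - TopologicalSpace.denseSeq (Lp ℝ 1 leb) n‖ < δ} := by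
      intro x hx
      obtain ⟨c, ⟨n, rfl⟩, hc⟩ := Metric.mem_closure_iff.1
        ((TopologicalSpace.denseRange_denseSeq (Lp ℝ 1 leb)) (u x hx)) δ hδ0
      rw [dist_eq_norm] at hc
      exact Set.mem_iUnion.2 ⟨n, hx, hc⟩
    refine Set.Countable.mono h1 (Set.countable_iUnion fun n => ?_)
    have h2 := hcon (TopologicalSpace.denseSeq (Lp ℝ 1 leb) n)
    exact h2.countable
  obtain ⟨c, hc⟩ := hpig
  -- the number of points
  obtain ⟨s, hs⟩ := exists_nat_gt (16 * C * R + 4 * C * (R + δ) + 1)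
  obtain ⟨S, hSsub, hScard⟩ := hc.exists_subset_card_eq (s ^ 2)
  have hSG : ∀ x ∈ S, ∃ hx : x ∈ G, ‖u x hx - c‖ < δ := fun x hx => hSsub hx
  obtain ⟨n, hn⟩ := exists_sep S
  let g : ∀ x : ↥S, (x : ℝ) ∈ G := fun x => (hSG x x.2).choose
  have hg : ∀ x : ↥S, ‖u x (g x) - c‖ < δ := fun x => (hSG x x.2).choose_spec
  let e : ↥S → Fin (2 ^ n) := fun x => idx n x (hG (g x))
  have he : Injective e := by
    intro x x' h
    exact Subtype.ext (hn x x.2 x' x'.2 _ _ h)
  -- the functionals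
  have hsumz : ∀ z : L1Linf, ∑ x, |T.symm z (y n (e x))| ≤ C * ‖z‖ := by
    intro z
    refine (sum_idx_le (hy n) e he (T.symm z)).trans ?_
    have h1 := hS z
    have h2 : 0 ≤ ‖z‖ := norm_nonneg z
    calc b * ‖T.symm z‖ ≤ b * (a * ‖z‖) := mul_le_mul_of_nonneg_left h1 hb.le
      _ ≤ C * ‖z‖ := by
          rw [hCdef]
          nlinarith
  let ψ : ↥S → (Lp ℝ ∞ leb →ₗ[ℝ] ℝ) := fun x =>
    { toFun := fun w => T.symm (in2 w) (y n (e x))
      map_add' := by
        intro w w'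
        rw [map_add, map_add]
        rfl
      map_smul' := by
        intro r w
        rw [map_smul, map_smul]
        rfl }
  have hψ : ∀ w, ∑ x, |ψ x w| ≤ C * ‖w‖ := by
    intro w
    refine (hsumz (in2 w)).trans ?_
    exact mul_le_mul_of_nonneg_left (norm_in2 w) hC0.le
  have hvR : ∀ x : ↥S, ‖v x (g x)‖ ≤ R := by
    intro x
    have h1 := hR x (g x)
    have h2 : 0 ≤ ‖u x (g x)‖ := norm_nonneg _
    linarith
  have hriesz := riesz (fun x : ↥S => v x (g x)) hR0 hvR ψ hψ hC0.le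
  -- the lower bound
  have hlow : ∀ x : ↥S, 1 / 2 - |T.symm (in1 c) (y n (e x))| - 1 / 8 ≤ ψ x (v x (g x)) := by
    intro x
    have h1 : 1 / 2 ≤ f x (g x) (y n (e x)) := hf2 x (g x) n
    have h2 : f x (g x) = T.symm (in1 (u x (g x))) + T.symm (in2 (v x (g x))) := by
      rw [← map_add, ← huv x (g x), T.symm_apply_apply]
    have h3 : f x (g x) (y n (e x)) = T.symm (in1 (u x (g x))) (y n (e x)) +
        ψ x (v x (g x)) := by
      rw [h2]
      rfl
    have h4 : T.symm (in1 (u x (g x))) (y n (e x)) = T.symm (in1 c) (y n (e x)) +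
        T.symm (in1 (u x (g x) - c)) (y n (e x)) := by
      rw [map_sub, map_sub]
      change _ = _ + (T.symm (in1 (u x (g x))) (y n (e x)) - T.symm (in1 c) (y n (e x)))
      ring
    have h5 : |T.symm (in1 (u x (g x) - c)) (y n (e x))| ≤ 1 / 8 := by
      have h6 := hsumz (in1 (u x (g x) - c))
      have h7 : |T.symm (in1 (u x (g x) - c)) (y n (e x))| ≤
          ∑ x', |T.symm (in1 (u x (g x) - c)) (y n (e x'))| :=
        Finset.single_le_sum (f := fun x' => |T.symm (in1 (u x (g x) - c)) (y n (e x'))|)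
          (fun x' _ => abs_nonneg _) (Finset.mem_univ x)
      refine h7.trans (h6.trans ?_)
      calc C * ‖in1 (u x (g x) - c)‖ ≤ C * δ := by
            refine mul_le_mul_of_nonneg_left ?_ hC0.le
            exact (norm_in1 _).trans (hg x).le
        _ = 1 / 8 := by
            rw [hδdef]
            field_simp
    have h8 := abs_le.1 h5
    have h9 := le_abs_self (T.symm (in1 c) (y n (e x)))
    linarith [h8.2]
  have hcn : 0 < s → ‖c‖ ≤ R + δ := by
    intro hs0
    have hne : S.Nonempty := by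
      rw [← Finset.card_pos, hScard]
      positivity
    obtain ⟨x, hx⟩ := hne
    have h1 := hg ⟨x, hx⟩
    have h2 := hR x (g ⟨x, hx⟩)
    have h3 : 0 ≤ ‖v x (g ⟨x, hx⟩)‖ := norm_nonneg _
    have h4 : ‖c‖ ≤ ‖u x (g ⟨x, hx⟩)‖ + ‖u x (g ⟨x, hx⟩) - c‖ := by
      have h5 : c = u x (g ⟨x, hx⟩) - (u x (g ⟨x, hx⟩) - c) := by abel
      conv_lhs => rw [h5]
      exact norm_sub_le _ _
    linarith
  have hsR : (1 : ℝ) < s := by
    have : 0 ≤ 16 * C * R + 4 * C * (R + δ) := by positivity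
    linarith
  have hs0 : 0 < s := by
    have : (0 : ℝ) < s := by linarith
    exact_mod_cast this
  have hcard : Fintype.card ↥S = s ^ 2 := by rw [Fintype.card_coe, hScard]
  have hcardR : (Fintype.card ↥S : ℝ) = (s : ℝ) ^ 2 := by
    rw [hcard]
    push_cast
    rfl
  have hlow2 : (s : ℝ) ^ 2 * (3 / 8) - C * (R + δ) ≤ ∑ x, ψ x (v x (g x)) := by
    have h1 := Finset.sum_le_sum (s := Finset.univ) fun (x : ↥S) _ => hlow x
    refine le_trans ?_ h1
    have h2 : ∑ x : ↥S, (1 / 2 - |T.symm (in1 c) (y n (e x))| - 1 / 8 : ℝ) =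
        (s : ℝ) ^ 2 * (3 / 8) - ∑ x : ↥S, |T.symm (in1 c) (y n (e x))| := by
      rw [Finset.sum_sub_distrib, Finset.sum_sub_distrib, Finset.sum_const, Finset.sum_const,
        Finset.card_univ, nsmul_eq_mul, nsmul_eq_mul, hcardR]
      ring
    rw [h2]
    have h3 := hsumz (in1 c)
    have h4 : C * ‖in1 c‖ ≤ C * (R + δ) :=
      mul_le_mul_of_nonneg_left ((norm_in1 c).trans (hcn hs0)) hC0.le
    linarith
  rw [hcardR, Real.sqrt_sq (by positivity)] at hriesz
  have h1 := hlow2.trans hriesz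
  have h2 : (16 * C * R) * s ≤ (s : ℝ) * s := by
    refine mul_le_mul_of_nonneg_right ?_ (by positivity)
    have : 0 ≤ 4 * C * (R + δ) := by positivity
    linarith
  have h3 : 4 * C * (R + δ) < (s : ℝ) * s := by
    have h4 : 0 ≤ 16 * C * R := by positivity
    nlinarith
  nlinarith

end Pool.Agent.Q197.LFinal
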