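import Pool.Agent.Q197.RieszProd

/-!
# The Banach space `L₁ + L_∞` on `(0, ∞)`
-/

set_option autoImplicit false

namespace Pool.Agent.Q197.LSum

open MeasureTheory Set
open scoped ENNReal

/-- Lebesgue measure on `(0, ∞)`. -/
noncomputable abbrev leb : Measure ℝ := volume.restrict (Ioi 0)

/-- The vector space of all classes `x`, modulo equality almost everywhere, of measurable real
functions on `(0, ∞)` of the form `x = u + v` with `u ∈ L₁(0, ∞)` and `v ∈ L_∞(0, ∞)`. -/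
def sumSpace : Submodule ℝ (ℝ →ₘ[leb] ℝ) where
  carrier := {x | ∃ (u : Lp ℝ 1 leb) (v : Lp ℝ ∞ leb), x = u.1 + v.1}
  zero_mem' := ⟨0, 0, by simp⟩
  add_mem' := by
    rintro _ _ ⟨u, v, rfl⟩ ⟨u', v', rfl⟩
    refine ⟨u + u', v + v', ?_⟩
    change u.1 + v.1 + (u'.1 + v'.1) = (u.1 + u'.1) + (v.1 + v'.1)
    abel
  smul_mem' := by
    rintro c _ ⟨u, v, rfl⟩
    refine ⟨c • u, c • v, ?_⟩
    change c • (u.1 + v.1) = c • u.1 + c • v.1
    rw [smul_add]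

/-- The space `L₁ + L_∞` on `(0, ∞)`. -/
def L1Linf : Type := sumSpace

noncomputable instance : AddCommGroup L1Linf := inferInstanceAs (AddCommGroup sumSpace)

noncomputable instance : Module ℝ L1Linf := inferInstanceAs (Module ℝ sumSpace)

/-- The norm `‖x‖ = inf {‖u‖₁ + ‖v‖_∞ : x = u + v}` of `L₁ + L_∞`. -/
noncomputable instance : Norm L1Linf :=
  ⟨fun x => sInf {r | ∃ (u : Lp ℝ 1 leb) (v : Lp ℝ ∞ leb), x.1 = u.1 + v.1 ∧ r = ‖u‖ + ‖v‖}⟩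

lemma norm_def (x : L1Linf) : ‖x‖ =
    sInf {r | ∃ (u : Lp ℝ 1 leb) (v : Lp ℝ ∞ leb), x.1 = u.1 + v.1 ∧ r = ‖u‖ + ‖v‖} := rfl

lemma norm_le_of {x : L1Linf} {u : Lp ℝ 1 leb} {v : Lp ℝ ∞ leb} (h : x.1 = u.1 + v.1) :
    ‖x‖ ≤ ‖u‖ + ‖v‖ := by
  rw [norm_def]
  refine csInf_le ⟨0, ?_⟩ ⟨u, v, h, rfl⟩
  rintro r ⟨u', v', -, rfl⟩
  positivity

lemma exists_of_lt {x : L1Linf} {r : ℝ} (h : ‖x‖ < r) :
    ∃ (u : Lp ℝ 1 leb) (v : Lp ℝ ∞ leb), x.1 = u.1 + v.1 ∧ ‖u‖ + ‖v‖ < r := by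
  rw [norm_def] at h
  obtain ⟨_, ⟨u, v, h1, rfl⟩, h2⟩ := exists_lt_of_csInf_lt (by
    obtain ⟨u, v, hx⟩ := x.2
    exact ⟨_, u, v, hx, rfl⟩) h
  exact ⟨u, v, h1, h2⟩

lemma nonneg (x : L1Linf) : 0 ≤ ‖x‖ := by
  rw [norm_def]
  refine Real.sInf_nonneg ?_
  rintro r ⟨u, v, -, rfl⟩
  positivity

lemma triangle (x y : L1Linf) : ‖x + y‖ ≤ ‖x‖ + ‖y‖ := by
  refine le_of_forall_pos_le_add fun ε hε => ?_
  obtain ⟨u, v, h1, h2⟩ := exists_of_lt (show ‖x‖ < ‖x‖ + ε / 2 by linarith)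
  obtain ⟨u', v', h1', h2'⟩ := exists_of_lt (show ‖y‖ < ‖y‖ + ε / 2 by linarith)
  have h3 : (x + y).1 = (u + u').1 + (v + v').1 := by
    change x.1 + y.1 = (u.1 + u'.1) + (v.1 + v'.1)
    rw [h1, h1']
    abel
  have h4 := norm_le_of h3
  have h5 := norm_add_le u u'
  have h6 := norm_add_le v v'
  linarith

lemma smul_le (c : ℝ) (x : L1Linf) : ‖c • x‖ ≤ |c| * ‖x‖ := by
  refine le_of_forall_pos_le_add fun ε hε => ?_
  have hc : 0 < |c| + 1 := by positivity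
  obtain ⟨u, v, h1, h2⟩ := exists_of_lt (show ‖x‖ < ‖x‖ + ε / (|c| + 1) by
    have : 0 < ε / (|c| + 1) := by positivity
    linarith)
  have h3 : (c • x).1 = (c • u).1 + (c • v).1 := by
    change c • x.1 = c • u.1 + c • v.1
    rw [h1, smul_add]
  have h4 := norm_le_of h3
  rw [norm_smul c u, norm_smul c v, Real.norm_eq_abs, ← mul_add] at h4
  have h5 : |c| * (‖u‖ + ‖v‖) ≤ |c| * (‖x‖ + ε / (|c| + 1)) :=
    mul_le_mul_of_nonneg_left h2.le (abs_nonneg c)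
  have h6 : |c| * (ε / (|c| + 1)) ≤ ε := by
    rw [mul_div_assoc', div_le_iff₀ hc]
    nlinarith
  nlinarith

lemma lint_le {x : L1Linf} {u : Lp ℝ 1 leb} {v : Lp ℝ ∞ leb} (h : x.1 = u.1 + v.1) (E : Set ℝ) :
    ∫⁻ t in E, ‖x.1 t‖ₑ ∂leb ≤ ENNReal.ofReal ‖u‖ + ENNReal.ofReal ‖v‖ * leb E := by
  have h1 : ∀ᵐ t ∂leb, ‖x.1 t‖ₑ ≤ ‖u t‖ₑ + ENNReal.ofReal ‖v‖ := by
    have h2 := AEEqFun.coeFn_add u.1 v.1
    rw [← h] at h2
    filter_upwards [h2, RieszProd.ae_le_norm v] with t ht1 ht2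
    rw [ht1, Pi.add_apply]
    refine (enorm_add_le _ _).trans ?_
    refine add_le_add le_rfl ?_
    rw [← ofReal_norm, Real.norm_eq_abs]
    exact ENNReal.ofReal_le_ofReal ht2
  have hm : AEMeasurable (fun t => ‖u t‖ₑ) (leb.restrict E) :=
    (Lp.aestronglyMeasurable u).enorm.restrict
  calc ∫⁻ t in E, ‖x.1 t‖ₑ ∂leb ≤ ∫⁻ t in E, (‖u t‖ₑ + ENNReal.ofReal ‖v‖) ∂leb :=
        lintegral_mono_ae (ae_restrict_of_ae h1)
    _ = ∫⁻ t in E, ‖u t‖ₑ ∂leb + ENNReal.ofReal ‖v‖ * leb E := by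
        rw [lintegral_add_left' hm, lintegral_const, Measure.restrict_apply_univ]
    _ ≤ ENNReal.ofReal ‖u‖ + ENNReal.ofReal ‖v‖ * leb E := by
        gcongr
        have h3 : ENNReal.ofReal ‖u‖ = ∫⁻ t, ‖u t‖ₑ ∂leb := by
          rw [Lp.norm_def, ENNReal.ofReal_toReal (Lp.eLpNorm_lt_top u).ne,
            eLpNorm_one_eq_lintegral_enorm]
        rw [h3]
        exact setLIntegral_le_lintegral E _

lemma eq_zero_of_norm {x : L1Linf} (h : ‖x‖ = 0) : x = 0 := by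
  have h1 : ∀ n : ℕ, ∫⁻ t in Ioo (0 : ℝ) n, ‖x.1 t‖ₑ ∂leb = 0 := by
    intro n
    have hE : leb (Ioo (0 : ℝ) n) ≤ ENNReal.ofReal n := by
      refine (Measure.restrict_apply_le _ _).trans ?_
      rw [Real.volume_Ioo, sub_zero]
    refine le_antisymm (ENNReal.le_of_forall_pos_le_add fun ε hε _ => ?_) zero_le
    obtain ⟨u, v, h2, h3⟩ := exists_of_lt (x := x) (r := ε / (n + 1)) (by
      rw [h]
      positivity)
    refine (lint_le h2 _).trans ?_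
    rw [zero_add]
    calc ENNReal.ofReal ‖u‖ + ENNReal.ofReal ‖v‖ * leb (Ioo (0 : ℝ) n)
        ≤ ENNReal.ofReal ‖u‖ + ENNReal.ofReal ‖v‖ * ENNReal.ofReal n := by gcongr
      _ = ENNReal.ofReal (‖u‖ + ‖v‖ * n) := by
          rw [← ENNReal.ofReal_mul (norm_nonneg _), ← ENNReal.ofReal_add (norm_nonneg _)
            (by positivity)]
      _ ≤ ENNReal.ofReal ε := by
          refine ENNReal.ofReal_le_ofReal ?_
          have h4 : (0 : ℝ) < n + 1 := by positivity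
          have h5 : (‖u‖ + ‖v‖) * (n + 1) < ε := by rwa [lt_div_iff₀ h4] at h3
          have h6 : 0 ≤ ‖u‖ * n := by positivity
          have h7 : 0 ≤ ‖v‖ := norm_nonneg v
          linarith
      _ = ε := ENNReal.ofReal_coe_nnreal
  have h2 : ∀ n : ℕ, ∀ᵐ t ∂leb, t ∈ Ioo (0 : ℝ) n → x.1 t = 0 := by
    intro n
    have h3 := h1 n
    rw [lintegral_eq_zero_iff' (x.1.aestronglyMeasurable.enorm.restrict)] at h3
    rw [← ae_restrict_iff' measurableSet_Ioo]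
    filter_upwards [h3] with t ht
    simpa using ht
  have h3 : ∀ᵐ t ∂leb, x.1 t = 0 := by
    have h4 : ∀ᵐ t ∂leb, t ∈ Ioi (0 : ℝ) := ae_restrict_mem measurableSet_Ioi
    filter_upwards [ae_all_iff.2 h2, h4] with t ht1 ht2
    obtain ⟨n, hn⟩ := exists_nat_gt t
    exact ht1 n ⟨ht2, hn⟩
  apply Subtype.ext
  refine AEEqFun.ext ?_
  have h5 : (⇑(0 : ℝ →ₘ[leb] ℝ)) =ᵐ[leb] 0 := AEEqFun.coeFn_zero
  change ⇑x.1 =ᵐ[leb] ⇑(0 : ℝ →ₘ[leb] ℝ)
  filter_upwards [h3, h5] with t ht1 ht2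
  rw [ht1, ht2]
  rfl

lemma core : NormedSpace.Core ℝ L1Linf where
  norm_nonneg := nonneg
  norm_smul c x := by
    rw [Real.norm_eq_abs]
    refine le_antisymm (smul_le c x) ?_
    by_cases hc : c = 0
    · subst hc
      rw [abs_zero, zero_mul]
      exact nonneg _
    · have h1 := smul_le c⁻¹ (c • x)
      rw [smul_smul, inv_mul_cancel₀ hc, one_smul, abs_inv] at h1
      have h2 : 0 < |c| := abs_pos.2 hc
      calc |c| * ‖x‖ ≤ |c| * (|c|⁻¹ * ‖c • x‖) := mul_le_mul_of_nonneg_left h1 h2.le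
        _ = ‖c • x‖ := by rw [← mul_assoc, mul_inv_cancel₀ h2.ne', one_mul]
  norm_triangle := triangle
  norm_eq_zero_iff x := by
    refine ⟨eq_zero_of_norm, ?_⟩
    rintro rfl
    refine le_antisymm ?_ (nonneg _)
    have h1 : (0 : L1Linf).1 = (0 : Lp ℝ 1 leb).1 + (0 : Lp ℝ ∞ leb).1 := by
      change (0 : ℝ →ₘ[leb] ℝ) = 0 + 0
      rw [add_zero]
    have h2 := norm_le_of h1
    rwa [norm_zero, norm_zero, add_zero] at h2

noncomputable instance : NormedAddCommGroup L1Linf := NormedAddCommGroup.ofCore core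

noncomputable instance : NormedSpace ℝ L1Linf := NormedSpace.ofCore core

end Pool.Agent.Q197.LSum
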