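import Pool.Agent.Q197.LSum

/-!
# Operators on `L₁ + L_∞`
-/

set_option autoImplicit false

namespace Pool.Agent.Q197.LSum

open MeasureTheory Set Function
open scoped ENNReal

/-- the inclusion of `L₁` -/
noncomputable def in1 : Lp ℝ 1 leb →L[ℝ] L1Linf :=
  LinearMap.mkContinuous
    { toFun := fun u => (⟨u.1, u, 0, by
        change u.1 = u.1 + 0
        rw [add_zero]⟩ : sumSpace)
      map_add' := fun _ _ => rfl
      map_smul' := fun _ _ => rfl } 1 (by
    intro u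
    rw [one_mul]
    refine (norm_le_of (u := u) (v := 0) ?_).trans ?_
    · change u.1 = u.1 + 0
      rw [add_zero]
    · rw [norm_zero, add_zero])

/-- the inclusion of `L_∞` -/
noncomputable def in2 : Lp ℝ ∞ leb →L[ℝ] L1Linf :=
  LinearMap.mkContinuous
    { toFun := fun v => (⟨v.1, 0, v, by
        change v.1 = 0 + v.1
        rw [zero_add]⟩ : sumSpace)
      map_add' := fun _ _ => rfl
      map_smul' := fun _ _ => rfl } 1 (by
    intro v
    rw [one_mul]
    refine (norm_le_of (u := 0) (v := v) ?_).trans ?_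
    · change v.1 = 0 + v.1
      rw [zero_add]
    · rw [norm_zero, zero_add])

lemma in1_val (u : Lp ℝ 1 leb) : (in1 u).1 = u.1 := rfl

lemma in2_val (v : Lp ℝ ∞ leb) : (in2 v).1 = v.1 := rfl

lemma norm_in1 (u : Lp ℝ 1 leb) : ‖in1 u‖ ≤ ‖u‖ := by
  refine (norm_le_of (u := u) (v := 0) ?_).trans ?_
  · change u.1 = u.1 + 0
    rw [add_zero]
  · rw [norm_zero, add_zero]

lemma norm_in2 (v : Lp ℝ ∞ leb) : ‖in2 v‖ ≤ ‖v‖ := by
  refine (norm_le_of (u := 0) (v := v) ?_).trans ?_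
  · change v.1 = 0 + v.1
    rw [zero_add]
  · rw [norm_zero, zero_add]

lemma decomp (z : L1Linf) : ∃ (u : Lp ℝ 1 leb) (v : Lp ℝ ∞ leb), z = in1 u + in2 v ∧
    ‖u‖ + ‖v‖ ≤ ‖z‖ + 1 := by
  obtain ⟨u, v, h1, h2⟩ := exists_of_lt (show ‖z‖ < ‖z‖ + 1 by linarith)
  exact ⟨u, v, Subtype.ext h1, h2.le⟩

lemma leb_Ioo : leb (Ioo 0 1) = 1 := by
  rw [Measure.restrict_apply measurableSet_Ioo, inter_eq_left.2 (fun t ht => ht.1),
    Real.volume_Ioo, sub_zero, ENNReal.ofReal_one]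

lemma leb_ne_top {E : Set ℝ} (hE : E ⊆ Ioo 0 1) : leb E ≠ ∞ := by
  refine ne_top_of_le_ne_top ?_ (measure_mono hE)
  rw [leb_Ioo]
  exact ENNReal.one_ne_top

lemma lint_le_norm (z : L1Linf) : ∫⁻ t in Ioo (0 : ℝ) 1, ‖z.1 t‖ₑ ∂leb ≤ ENNReal.ofReal ‖z‖ := by
  refine ENNReal.le_of_forall_pos_le_add fun ε hε _ => ?_
  have hε' : (0 : ℝ) < ε := by exact_mod_cast hε
  obtain ⟨u, v, h1, h2⟩ := exists_of_lt (show ‖z‖ < ‖z‖ + ε by linarith)
  refine (lint_le h1 _).trans ?_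
  rw [leb_Ioo, mul_one, ← ENNReal.ofReal_add (norm_nonneg _) (norm_nonneg _)]
  calc ENNReal.ofReal (‖u‖ + ‖v‖) ≤ ENNReal.ofReal (‖z‖ + ε) := ENNReal.ofReal_le_ofReal h2.le
    _ = ENNReal.ofReal ‖z‖ + ε := by
        rw [ENNReal.ofReal_add (norm_nonneg _) hε'.le, ENNReal.ofReal_coe_nnreal]

lemma intOn (z : L1Linf) {E : Set ℝ} (hE : E ⊆ Ioo 0 1) : IntegrableOn (⇑z.1) E leb := by
  refine IntegrableOn.mono_set ?_ hE
  refine ⟨z.1.aestronglyMeasurable.restrict, ?_⟩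
  rw [hasFiniteIntegral_iff_enorm]
  exact (lint_le_norm z).trans_lt ENNReal.ofReal_lt_top

lemma int_le_norm (z : L1Linf) : ∫ t in Ioo (0 : ℝ) 1, |z.1 t| ∂leb ≤ ‖z‖ := by
  have h1 : ∫ t in Ioo (0 : ℝ) 1, |z.1 t| ∂leb =
      (∫⁻ t in Ioo (0 : ℝ) 1, ‖z.1 t‖ₑ ∂leb).toReal := by
    rw [← integral_norm_eq_lintegral_enorm z.1.aestronglyMeasurable.restrict]
    rfl
  rw [h1]
  exact ENNReal.toReal_le_of_le_ofReal (norm_nonneg _) (lint_le_norm z)

/-- the integral over a subset of `(0, 1)` -/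
noncomputable def J (E : Set ℝ) (hE : E ⊆ Ioo 0 1) : L1Linf →ₗ[ℝ] ℝ where
  toFun z := ∫ t in E, z.1 t ∂leb
  map_add' z w := by
    rw [← integral_add (intOn z hE) (intOn w hE)]
    refine integral_congr_ae (ae_restrict_of_ae ?_)
    exact AEEqFun.coeFn_add z.1 w.1
  map_smul' c z := by
    rw [RingHom.id_apply, smul_eq_mul, ← integral_const_mul]
    refine integral_congr_ae (ae_restrict_of_ae ?_)
    exact AEEqFun.coeFn_smul c z.1

lemma sum_J_le {κ : Type*} [Fintype κ] (E : κ → Set ℝ) (hm : ∀ k, MeasurableSet (E k))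
    (hE : ∀ k, E k ⊆ Ioo 0 1) (hd : Pairwise (Disjoint on E)) (z : L1Linf) :
    ∑ k, |J (E k) (hE k) z| ≤ ‖z‖ := by
  have h1 : ∀ k, |J (E k) (hE k) z| ≤ ∫ t in E k, |z.1 t| ∂leb := by
    intro k
    exact abs_integral_le_integral_abs
  refine (Finset.sum_le_sum fun k _ => h1 k).trans ?_
  have h2 : ∫ t in ⋃ k, E k, |z.1 t| ∂leb = ∑ k, ∫ t in E k, |z.1 t| ∂leb := by
    exact integral_iUnion_fintype hm hd (fun k => (intOn z (hE k)).abs)
  rw [← h2]
  refine le_trans ?_ (int_le_norm z)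
  refine setIntegral_mono_set (intOn z subset_rfl).abs (ae_of_all _ fun t => abs_nonneg _) ?_
  exact (iUnion_subset hE).eventuallyLE

/-- the Hilbert space `L₂(0, ∞)` -/
abbrev H : Type := Lp ℝ 2 leb

lemma cut_memLp (h : H) : MemLp (indicator (Ioo (0 : ℝ) 1) h) 1 leb := by
  rw [memLp_indicator_iff_restrict measurableSet_Ioo]
  have : IsFiniteMeasure (leb.restrict (Ioo (0 : ℝ) 1)) := by
    refine ⟨?_⟩
    rw [Measure.restrict_apply_univ, leb_Ioo]
    exact ENNReal.one_lt_top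
  exact ((Lp.memLp h).restrict _).mono_exponent (by norm_num)

lemma cut_norm (h : H) : eLpNorm (indicator (Ioo (0 : ℝ) 1) h) 1 leb ≤ ENNReal.ofReal ‖h‖ := by
  rw [eLpNorm_indicator_eq_eLpNorm_restrict measurableSet_Ioo]
  have h1 := eLpNorm_le_eLpNorm_mul_rpow_measure_univ (p := 1) (q := 2) (by norm_num)
    ((Lp.aestronglyMeasurable h).restrict (s := Ioo (0 : ℝ) 1))
  refine h1.trans ?_
  rw [Measure.restrict_apply_univ, leb_Ioo, ENNReal.one_rpow, mul_one, Lp.norm_def,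
    ENNReal.ofReal_toReal (Lp.eLpNorm_lt_top h).ne]
  exact eLpNorm_restrict_le _ _ _ _

/-- restriction to `(0, 1)`, as an operator from `L₂` to `L₁` -/
noncomputable def cut : H →L[ℝ] Lp ℝ 1 leb :=
  LinearMap.mkContinuous
    { toFun := fun h => (cut_memLp h).toLp _
      map_add' := by
        intro h g
        rw [← MemLp.toLp_add]
        refine (MemLp.toLp_eq_toLp_iff _ _).2 ?_
        filter_upwards [Lp.coeFn_add h g] with t ht
        by_cases hm : t ∈ Ioo (0 : ℝ) 1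
        · simp only [Pi.add_apply, indicator_of_mem hm]
          rw [ht, Pi.add_apply]
        · simp only [Pi.add_apply, indicator_of_notMem hm, add_zero]
      map_smul' := by
        intro c h
        rw [RingHom.id_apply, ← MemLp.toLp_const_smul]
        refine (MemLp.toLp_eq_toLp_iff _ _).2 ?_
        filter_upwards [Lp.coeFn_smul c h] with t ht
        by_cases hm : t ∈ Ioo (0 : ℝ) 1
        · simp only [Pi.smul_apply, indicator_of_mem hm]
          rw [ht, Pi.smul_apply]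
        · simp only [Pi.smul_apply, indicator_of_notMem hm, smul_zero] } 1 (by
    intro h
    rw [one_mul]
    change ‖(cut_memLp h).toLp _‖ ≤ ‖h‖
    rw [Lp.norm_toLp]
    exact ENNReal.toReal_le_of_le_ofReal (norm_nonneg _) (cut_norm h))

lemma coeFn_cut (h : H) : ⇑(cut h) =ᵐ[leb] indicator (Ioo (0 : ℝ) 1) h :=
  (cut_memLp h).coeFn_toLp

lemma J_cut {E : Set ℝ} (hE : E ⊆ Ioo 0 1) (hm : MeasurableSet E) (h : H) :
    J E hE (in1 (cut h)) = ∫ t in E, h t ∂leb := by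
  change ∫ t in E, (cut h) t ∂leb = _
  refine setIntegral_congr_ae hm ?_
  filter_upwards [coeFn_cut h] with t ht hE'
  rw [ht, indicator_of_mem (hE hE')]

/-- the indicator function of `E`, as an element of `H` -/
noncomputable def chi (E : Set ℝ) (hm : MeasurableSet E) (hE : E ⊆ Ioo 0 1) : H :=
  indicatorConstLp 2 hm (leb_ne_top hE) (1 : ℝ)

lemma inner_chi {E : Set ℝ} (hm : MeasurableSet E) (hE : E ⊆ Ioo 0 1) (h : H) :
    inner ℝ (chi E hm hE) h = ∫ t in E, h t ∂leb :=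
  L2.inner_indicatorConstLp_one hm (leb_ne_top hE) h

end Pool.Agent.Q197.LSum
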