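import Pool.Agent.Q197.LSumOps

/-!
# Isomorphisms of a dual space onto `L₁ + L_∞`: the approximation lemma
-/

set_option autoImplicit false

namespace Pool.Agent.Q197.LTree

open MeasureTheory Set Function Pool.Agent.Q197.LSum Pool.Agent.Q197.HellyFam
open scoped ENNReal

variable {Y : Type*} [NormedAddCommGroup Y] [NormedSpace ℝ Y] (T : StrongDual ℝ Y ≃L[ℝ] L1Linf)

/-- the operator `L₂ → Y*` -/
noncomputable def A : H →L[ℝ] StrongDual ℝ Y :=
  (T.symm : L1Linf →L[ℝ] StrongDual ℝ Y).comp (in1.comp cut)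

lemma A_apply (h : H) : A T h = T.symm (in1 (cut h)) := rfl

/-- the transposed operator -/
noncomputable def phi (y : Y) : H := (InnerProductSpace.toDual ℝ H).symm ((A T).flip y)

lemma inner_phi (y : Y) (h : H) : inner ℝ (phi T y) h = A T h y := by
  unfold phi
  rw [InnerProductSpace.toDual_symm_apply]
  rfl

/-- the transposed operator on families -/
noncomputable def Phi {κ : Type*} : (κ → Y) →ₗ[ℝ] (κ → H) where
  toFun y := fun k => phi T (y k)
  map_add' y z := by
    funext k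
    refine ext_inner_right ℝ fun h => ?_
    rw [Pi.add_apply, Pi.add_apply, inner_add_left, inner_phi, inner_phi, inner_phi, map_add]
  map_smul' c y := by
    funext k
    refine ext_inner_right ℝ fun h => ?_
    rw [Pi.smul_apply, Pi.smul_apply, inner_phi, RingHom.id_apply, real_inner_smul_left, inner_phi,
      map_smul, smul_eq_mul]

lemma fam_convex {κ : Type*} [Fintype κ] [DecidableEq κ] (b : ℝ) :
    Convex ℝ {y : κ → Y | Fam b y} := by
  intro y hy z hz s t hs ht hst f
  have h1 : ∀ k, |f ((s • y + t • z) k)| ≤ s * |f (y k)| + t * |f (z k)| := by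
    intro k
    rw [Pi.add_apply, Pi.smul_apply, Pi.smul_apply, map_add, map_smul, map_smul, smul_eq_mul,
      smul_eq_mul]
    refine (abs_add_le _ _).trans ?_
    rw [abs_mul, abs_mul, abs_of_nonneg hs, abs_of_nonneg ht]
  refine (Finset.sum_le_sum fun k _ => h1 k).trans ?_
  rw [Finset.sum_add_distrib, ← Finset.mul_sum, ← Finset.mul_sum]
  calc s * ∑ k, |f (y k)| + t * ∑ k, |f (z k)| ≤ s * (b * ‖f‖) + t * (b * ‖f‖) :=
        add_le_add (mul_le_mul_of_nonneg_left (hy f) hs) (mul_le_mul_of_nonneg_left (hz f) ht)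
    _ = b * ‖f‖ := by rw [← add_mul, hst, one_mul]

/-- The approximation lemma. -/
theorem approx {κ : Type*} [Fintype κ] [DecidableEq κ] {b : ℝ} (hb : 0 < b)
    (hT : ∀ f, ‖T f‖ ≤ b * ‖f‖) (E : κ → Set ℝ) (hm : ∀ k, MeasurableSet (E k))
    (hE : ∀ k, E k ⊆ Ioo 0 1) (hd : Pairwise (Disjoint on E)) {δ : ℝ} (hδ : 0 < δ) :
    ∃ y : κ → Y, Fam b y ∧ ∀ k, ‖phi T (y k) - chi (E k) (hm k) (hE k)‖ ≤ δ := by
  classical
  set K : Set (κ → Y) := {y | Fam b y} with hK
  set C : Set (κ → H) := (Phi T) '' K with hC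
  set χ : κ → H := fun k => chi (E k) (hm k) (hE k) with hχ
  have hconv : Convex ℝ C := (fam_convex b).linear_image (Phi T)
  have hmem : χ ∈ closure C := by
    by_contra hcon
    obtain ⟨F, u, hF1, hF2⟩ := geometric_hahn_banach_closed_point hconv.closure
      isClosed_closure hcon
    let h : κ → H := fun k => (InnerProductSpace.toDual ℝ H).symm
      (F.comp (ContinuousLinearMap.single ℝ (fun _ : κ => H) k))
    have hFh : ∀ a : κ → H, F a = ∑ k, inner ℝ (h k) (a k) := by
      intro a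
      have h1 : a = ∑ k, (ContinuousLinearMap.single ℝ (fun _ : κ => H) k) (a k) :=
        (Finset.univ_sum_single a).symm
      conv_lhs => rw [h1]
      rw [map_sum]
      refine Finset.sum_congr rfl fun k _ => ?_
      change _ = inner ℝ ((InnerProductSpace.toDual ℝ H).symm _) (a k)
      rw [InnerProductSpace.toDual_symm_apply]
      rfl
    have h2 := helly (Y := Y) hb (fun k => (J (E k) (hE k)).comp
      (T : StrongDual ℝ Y →L[ℝ] L1Linf).toLinearMap)
      (fun f => (sum_J_le E hm hE hd (T f)).trans (hT f)) (fun k => A T (h k)) (u := u) (by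
        intro y hy
        have h3 : F (Phi T y) = ∑ k, A T (h k) (y k) := by
          rw [hFh]
          refine Finset.sum_congr rfl fun k _ => ?_
          rw [real_inner_comm]
          exact inner_phi T (y k) (h k)
        rw [← h3]
        exact (hF1 _ (subset_closure ⟨y, hy, rfl⟩)).le)
    have h4 : ∀ k, ((J (E k) (hE k)).comp
        (T : StrongDual ℝ Y →L[ℝ] L1Linf).toLinearMap) (A T (h k)) = inner ℝ (h k) (χ k) := by
      intro k
      change J (E k) (hE k) (T (T.symm (in1 (cut (h k))))) = _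
      rw [T.apply_symm_apply, J_cut (hE k) (hm k), real_inner_comm, hχ, inner_chi]
    rw [Finset.sum_congr rfl fun k _ => h4 k, ← hFh] at h2
    exact absurd hF2 (not_lt.2 h2)
  obtain ⟨_, ⟨y, hy, rfl⟩, hdist⟩ := Metric.mem_closure_iff.1 hmem δ hδ
  refine ⟨y, hy, fun k => ?_⟩
  have h1 := (dist_le_pi_dist χ (Phi T y) k).trans hdist.le
  rw [dist_comm, dist_eq_norm] at h1
  exact h1

/-- Chebyshev's inequality -/
lemma cheb (g : H) {E : Set ℝ} (hm : MeasurableSet E) (hE : E ⊆ Ioo 0 1) {δ : ℝ}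
    (h : ‖g - chi E hm hE‖ ≤ δ) : leb {t | t ∈ E ∧ g t < 1 / 2} ≤ ENNReal.ofReal (4 * δ ^ 2) := by
  have hδ : 0 ≤ δ := (norm_nonneg _).trans h
  set f : H := g - chi E hm hE with hf
  have h1 : leb {t | t ∈ E ∧ g t < 1 / 2} ≤ leb {t | (1 / 2 : ℝ≥0∞) ≤ ‖f t‖ₑ} := by
    refine measure_mono_ae ?_
    filter_upwards [Lp.coeFn_sub g (chi E hm hE),
      (indicatorConstLp_coeFn (p := 2) (hs := hm) (hμs := leb_ne_top hE) (c := (1 : ℝ)))]
      with t h2 h3
    rintro ⟨h4, h5⟩
    change (1 / 2 : ℝ≥0∞) ≤ ‖f t‖ₑ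
    rw [hf, h2, Pi.sub_apply]
    have h6 : (chi E hm hE) t = 1 := by
      change (indicatorConstLp 2 hm (leb_ne_top hE) (1 : ℝ)) t = 1
      rw [h3, indicator_of_mem h4]
    rw [h6, ← ofReal_norm, Real.norm_eq_abs]
    have h7 : (1 / 2 : ℝ≥0∞) = ENNReal.ofReal (1 / 2) := by
      rw [ENNReal.ofReal_div_of_pos (by norm_num), ENNReal.ofReal_one, ENNReal.ofReal_ofNat]
    rw [h7]
    refine ENNReal.ofReal_le_ofReal ?_
    rw [abs_sub_comm, le_abs]
    left
    linarith
  refine h1.trans ?_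
  have h2 := meas_ge_le_mul_pow_eLpNorm_enorm leb (p := 2) (by norm_num) (by norm_num)
    (Lp.aestronglyMeasurable f) (ε := 1 / 2) (by norm_num) (by norm_num)
  refine h2.trans ?_
  have h3 : eLpNorm f 2 leb ≤ ENNReal.ofReal δ := by
    have h4 : eLpNorm f 2 leb = ENNReal.ofReal ‖f‖ := by
      rw [Lp.norm_def, ENNReal.ofReal_toReal (Lp.eLpNorm_lt_top f).ne]
    rw [h4]
    exact ENNReal.ofReal_le_ofReal h
  calc _ ≤ (1 / 2 : ℝ≥0∞)⁻¹ ^ (2 : ℝ≥0∞).toReal * (ENNReal.ofReal δ) ^ (2 : ℝ≥0∞).toReal := by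
        gcongr
    _ = ENNReal.ofReal (4 * δ ^ 2) := by
        rw [ENNReal.toReal_ofNat, ENNReal.rpow_ofNat, ENNReal.rpow_ofNat,
          ENNReal.ofReal_mul (by norm_num), ENNReal.ofReal_pow hδ]
        congr 1
        rw [one_div, inv_inv, ENNReal.ofReal_ofNat]
        norm_num

end Pool.Agent.Q197.LTree
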