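import Mathlib

/-!
# A Marcinkiewicz type inequality

Used for MP_6e3e44_an: if the distribution function of `‖g‖` is controlled at every height by the
part of `h` above and the part of `h` below a proportional height, then the `L^γ` norm of `g` is
controlled by that of `h`.
-/

set_option autoImplicit false

namespace Q197.Marc

open MeasureTheory Set Filter Topology
open scoped ENNReal NNReal

lemma inner1 {β γ b : ℝ} (hβγ : β < γ) (hb : 0 ≤ b) :
    ∫⁻ t in Ioi (0 : ℝ), (if t < b then ENNReal.ofReal (b ^ β * t ^ (γ - β - 1)) else 0) ≤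
      ENNReal.ofReal (b ^ γ / (γ - β)) := by
  have hγβ : 0 < γ - β := by linarith
  have h1 : ∀ t : ℝ, (if t < b then ENNReal.ofReal (b ^ β * t ^ (γ - β - 1)) else 0) =
      (Iio b).indicator (fun t => ENNReal.ofReal (b ^ β * t ^ (γ - β - 1))) t := by
    intro t
    by_cases h : t < b
    · rw [if_pos h, indicator_of_mem (mem_Iio.2 h)]
    · rw [if_neg h, indicator_of_notMem (by simpa using h)]
  simp_rw [h1]
  rw [lintegral_indicator measurableSet_Iio, Measure.restrict_restrict measurableSet_Iio,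
    Set.inter_comm, Ioi_inter_Iio]
  rcases hb.eq_or_lt with rfl | hb
  · simp
  have hint : IntegrableOn (fun t : ℝ => b ^ β * t ^ (γ - β - 1)) (Ioo 0 b) := by
    refine Integrable.const_mul ?_ _
    have := (intervalIntegral.intervalIntegrable_rpow' (a := 0) (b := b)
      (show -1 < γ - β - 1 by linarith)).1
    exact this.mono_set Ioo_subset_Ioc_self
  rw [← ofReal_integral_eq_lintegral_ofReal hint]
  · apply ENNReal.ofReal_le_ofReal
    rw [← integral_Ioc_eq_integral_Ioo, ← intervalIntegral.integral_of_le hb.le,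
      intervalIntegral.integral_const_mul, integral_rpow (Or.inl (by linarith)),
      Real.zero_rpow (by linarith), sub_zero, show γ - β - 1 + 1 = γ - β by ring,
      show γ = β + (γ - β) by ring, Real.rpow_add hb, mul_div_assoc]
    apply le_of_eq
    ring_nf
  · filter_upwards [self_mem_ae_restrict measurableSet_Ioo] with t ht
    have h0 : 0 < t := ht.1
    positivity

lemma inner2 {α γ b : ℝ} (hγα : γ < α) (hγ : 0 < γ) (hb : 0 ≤ b) :
    ∫⁻ t in Ioi (0 : ℝ), (if b ≤ t then ENNReal.ofReal (b ^ α * t ^ (γ - α - 1)) else 0) ≤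
      ENNReal.ofReal (b ^ γ / (α - γ)) := by
  rcases hb.eq_or_lt with rfl | hb
  · rw [Real.zero_rpow (by linarith)]
    simp
  have h1 : ∀ t : ℝ, (if b ≤ t then ENNReal.ofReal (b ^ α * t ^ (γ - α - 1)) else 0) =
      (Ici b).indicator (fun t => ENNReal.ofReal (b ^ α * t ^ (γ - α - 1))) t := by
    intro t
    by_cases h : b ≤ t
    · rw [if_pos h, indicator_of_mem (mem_Ici.2 h)]
    · rw [if_neg h, indicator_of_notMem (by simpa using h)]
  simp_rw [h1]
  rw [lintegral_indicator measurableSet_Ici, Measure.restrict_restrict measurableSet_Ici]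
  have hs : Ici b ∩ Ioi 0 = Ici b := by
    ext t; simp only [mem_inter_iff, mem_Ici, mem_Ioi]
    constructor
    · exact fun h => h.1
    · exact fun h => ⟨h, lt_of_lt_of_le hb h⟩
  rw [hs, setLIntegral_congr Ioi_ae_eq_Ici.symm]
  have hint : IntegrableOn (fun t : ℝ => b ^ α * t ^ (γ - α - 1)) (Ioi b) :=
    Integrable.const_mul (integrableOn_Ioi_rpow_of_lt (by linarith) hb) _
  rw [← ofReal_integral_eq_lintegral_ofReal hint]
  · apply ENNReal.ofReal_le_ofReal
    rw [integral_const_mul, integral_Ioi_rpow_of_lt (by linarith) hb,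
      show γ - α - 1 + 1 = γ - α by ring]
    have h2 : b ^ γ = b ^ α * b ^ (γ - α) := by rw [← Real.rpow_add hb]; ring_nf
    rw [h2]
    have h3 : α - γ ≠ 0 := by intro h; linarith
    have h4 : γ - α ≠ 0 := by intro h; linarith
    apply le_of_eq
    field_simp
    ring
  · filter_upwards [self_mem_ae_restrict measurableSet_Ioi] with t ht
    have h0 : 0 < t := lt_trans hb ht
    positivity

variable {Ω : Type*} [MeasurableSpace Ω] {μ : Measure Ω}

/-- Marcinkiewicz type inequality. -/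
theorem marc [SFinite μ] {β γ α : ℝ} (hβ : 0 < β) (h1 : β < γ) (h2 : γ < α) {g h : Ω → ℂ}
    (hg : AEStronglyMeasurable g μ) (hh : Measurable h) (K : ℝ) (hK : 0 < K)
    (hyp : ∀ t : ℝ, 0 < t → μ {ω | t < ‖g ω‖} ≤
      ENNReal.ofReal (t ^ (-β)) * ∫⁻ ω, (if t < K * ‖h ω‖ then
        ENNReal.ofReal ((K * ‖h ω‖) ^ β) else 0) ∂μ +
      ENNReal.ofReal (t ^ (-α)) * ∫⁻ ω, (if K * ‖h ω‖ ≤ t then
        ENNReal.ofReal ((K * ‖h ω‖) ^ α) else 0) ∂μ) :
    ∫⁻ ω, ENNReal.ofReal (‖g ω‖ ^ γ) ∂μ ≤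
      ENNReal.ofReal (γ * (1 / (γ - β) + 1 / (α - γ)) * K ^ γ) *
        ∫⁻ ω, ENNReal.ofReal (‖h ω‖ ^ γ) ∂μ := by
  have hγ : 0 < γ := by linarith
  have hγβ : 0 < γ - β := by linarith
  have hαγ : 0 < α - γ := by linarith
  have hn : Measurable fun ω => K * ‖h ω‖ := hh.norm.const_mul K
  rw [lintegral_rpow_eq_lintegral_meas_lt_mul μ (Eventually.of_forall fun ω => norm_nonneg _)
    hg.norm.aemeasurable hγ]
  -- bound the distribution function
  have hmeas1 : Measurable (Function.uncurry fun (t : ℝ) (ω : Ω) =>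
      (if t < K * ‖h ω‖ then ENNReal.ofReal ((K * ‖h ω‖) ^ β * t ^ (γ - β - 1)) else 0)) := by
    refine Measurable.ite ?_ ?_ measurable_const
    · exact measurableSet_lt measurable_fst (hn.comp measurable_snd)
    · exact (((hn.comp measurable_snd).pow_const β).mul
        (measurable_fst.pow_const _)).ennreal_ofReal
  have hmeas2 : Measurable (Function.uncurry fun (t : ℝ) (ω : Ω) =>
      (if K * ‖h ω‖ ≤ t then ENNReal.ofReal ((K * ‖h ω‖) ^ α * t ^ (γ - α - 1)) else 0)) := by
    refine Measurable.ite ?_ ?_ measurable_const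
    · exact measurableSet_le (hn.comp measurable_snd) measurable_fst
    · exact (((hn.comp measurable_snd).pow_const α).mul
        (measurable_fst.pow_const _)).ennreal_ofReal
  have step : ∀ t ∈ Ioi (0 : ℝ), μ {a : Ω | t < ‖g a‖} * ENNReal.ofReal (t ^ (γ - 1)) ≤
      (∫⁻ ω, (if t < K * ‖h ω‖ then ENNReal.ofReal ((K * ‖h ω‖) ^ β * t ^ (γ - β - 1)) else 0) ∂μ) +
      ∫⁻ ω, (if K * ‖h ω‖ ≤ t then ENNReal.ofReal ((K * ‖h ω‖) ^ α * t ^ (γ - α - 1)) else 0) ∂μ := by
    intro t ht
    have ht0 : (0 : ℝ) < t := ht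
    refine (mul_le_mul_left (hyp t ht0) _).trans ?_
    rw [add_mul]
    refine add_le_add ?_ ?_
    · rw [mul_right_comm, ← ENNReal.ofReal_mul (by positivity), ← Real.rpow_add ht0,
        ← lintegral_const_mul']
      · refine lintegral_mono fun ω => ?_
        dsimp only
        split_ifs
        · rw [← ENNReal.ofReal_mul (by positivity), mul_comm]
          apply le_of_eq; congr 3; ring
        · simp
      · exact ENNReal.ofReal_ne_top
    · rw [mul_right_comm, ← ENNReal.ofReal_mul (by positivity), ← Real.rpow_add ht0,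
        ← lintegral_const_mul']
      · refine lintegral_mono fun ω => ?_
        dsimp only
        split_ifs
        · rw [← ENNReal.ofReal_mul (by positivity), mul_comm]
          apply le_of_eq; congr 3; ring
        · simp
      · exact ENNReal.ofReal_ne_top
  have big : ∫⁻ t in Ioi (0 : ℝ), μ {a : Ω | t < ‖g a‖} * ENNReal.ofReal (t ^ (γ - 1)) ≤
      ∫⁻ ω, (ENNReal.ofReal ((K * ‖h ω‖) ^ γ / (γ - β)) +
        ENNReal.ofReal ((K * ‖h ω‖) ^ γ / (α - γ))) ∂μ := by
    calc ∫⁻ t in Ioi (0 : ℝ), μ {a : Ω | t < ‖g a‖} * ENNReal.ofReal (t ^ (γ - 1))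
        ≤ ∫⁻ t in Ioi (0 : ℝ), ((∫⁻ ω, (if t < K * ‖h ω‖ then
            ENNReal.ofReal ((K * ‖h ω‖) ^ β * t ^ (γ - β - 1)) else 0) ∂μ) +
          ∫⁻ ω, (if K * ‖h ω‖ ≤ t then
            ENNReal.ofReal ((K * ‖h ω‖) ^ α * t ^ (γ - α - 1)) else 0) ∂μ) :=
          setLIntegral_mono' measurableSet_Ioi step
      _ = (∫⁻ t in Ioi (0 : ℝ), ∫⁻ ω, (if t < K * ‖h ω‖ then
            ENNReal.ofReal ((K * ‖h ω‖) ^ β * t ^ (γ - β - 1)) else 0) ∂μ) +
          ∫⁻ t in Ioi (0 : ℝ), ∫⁻ ω, (if K * ‖h ω‖ ≤ t then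
            ENNReal.ofReal ((K * ‖h ω‖) ^ α * t ^ (γ - α - 1)) else 0) ∂μ := by
          rw [lintegral_add_left]
          exact hmeas1.lintegral_prod_right
      _ = (∫⁻ ω, (∫⁻ t in Ioi (0 : ℝ), (if t < K * ‖h ω‖ then
            ENNReal.ofReal ((K * ‖h ω‖) ^ β * t ^ (γ - β - 1)) else 0)) ∂μ) +
          ∫⁻ ω, (∫⁻ t in Ioi (0 : ℝ), (if K * ‖h ω‖ ≤ t then
            ENNReal.ofReal ((K * ‖h ω‖) ^ α * t ^ (γ - α - 1)) else 0)) ∂μ := by
          rw [lintegral_lintegral_swap hmeas1.aemeasurable,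
            lintegral_lintegral_swap hmeas2.aemeasurable]
      _ ≤ (∫⁻ ω, ENNReal.ofReal ((K * ‖h ω‖) ^ γ / (γ - β)) ∂μ) +
          ∫⁻ ω, ENNReal.ofReal ((K * ‖h ω‖) ^ γ / (α - γ)) ∂μ := by
          refine add_le_add (lintegral_mono fun ω => ?_) (lintegral_mono fun ω => ?_)
          · exact inner1 h1 (by positivity)
          · exact inner2 h2 hγ (by positivity)
      _ = _ := by
          rw [lintegral_add_left]
          exact ((hn.pow_const γ).div_const _).ennreal_ofReal
  refine (mul_le_mul_right big _).trans ?_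
  rw [← lintegral_const_mul', ← lintegral_const_mul']
  · refine lintegral_mono fun ω => ?_
    dsimp only
    have hKh : (K * ‖h ω‖) ^ γ = K ^ γ * ‖h ω‖ ^ γ := Real.mul_rpow hK.le (norm_nonneg _)
    rw [← ENNReal.ofReal_add (by positivity) (by positivity),
      ← ENNReal.ofReal_mul hγ.le, ← ENNReal.ofReal_mul (by positivity), hKh]
    apply ENNReal.ofReal_le_ofReal
    apply le_of_eq
    ring
  · exact ENNReal.ofReal_ne_top
  · exact ENNReal.ofReal_ne_top

end Q197.Marc
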