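import Mathlib

/-!
Algebra for the surface `(x^2 + y^2 + 3 w)^2 = 16 x^2 w`, `w = z - x`: the only isotropic circles
on it through a given point are the expected two.
-/

open Polynomial Set

namespace Q197.OnlyTwo

/-- A real polynomial map: the equation of the surface along a parametrised curve. -/
lemma parabola_case {x0 y0 d e a b c : ℝ} (hde : d ≠ 0 ∨ e ≠ 0) (ha : a ≠ 0)
    (hinf : {s : ℝ | ((x0 + s * d) ^ 2 + (y0 + s * e) ^ 2 +
      3 * (a * s ^ 2 + b * s + c - (x0 + s * d))) ^ 2 =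
      16 * (x0 + s * d) ^ 2 * (a * s ^ 2 + b * s + c - (x0 + s * d))}.Infinite) :
    ∃ t0 : ℝ, x0 = - t0 * d ∧ y0 = - t0 * e ∧
      ∀ s, a * s ^ 2 + b * s + c - (x0 + s * d) = a * (s - t0) ^ 2 := by
  -- the polynomials
  set Px : ℝ[X] := C x0 + X * C d with hPx
  set Py : ℝ[X] := C y0 + X * C e with hPy
  set Pw : ℝ[X] := C a * X ^ 2 + C b * X + C c - (C x0 + X * C d) with hPw
  have hF : (Px ^ 2 + Py ^ 2 + 3 * Pw) ^ 2 - 16 * Px ^ 2 * Pw = 0 := by
    refine Polynomial.eq_zero_of_infinite_isRoot _ (hinf.mono ?_)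
    intro s hs
    have hs' : ((x0 + s * d) ^ 2 + (y0 + s * e) ^ 2 +
      3 * (a * s ^ 2 + b * s + c - (x0 + s * d))) ^ 2 =
      16 * (x0 + s * d) ^ 2 * (a * s ^ 2 + b * s + c - (x0 + s * d)) := hs
    show IsRoot _ s
    rw [IsRoot.def, eval_sub]
    simp only [hPx, hPy, hPw, eval_pow, eval_add, eval_mul, eval_sub, eval_C, eval_X, eval_ofNat]
    rw [hs']; ring
  -- a complex root of Pw
  obtain ⟨z, hz⟩ : ∃ z : ℂ, (a : ℂ) * z ^ 2 + b * z + c - (x0 + z * d) = 0 := by
    have hd : (C (a : ℂ) * X ^ 2 + C ((b : ℂ) - d) * X + C ((c : ℂ) - x0)).degree ≠ 0 := by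
      rw [Polynomial.degree_quadratic (by exact_mod_cast ha)]
      decide
    obtain ⟨z, hz⟩ := IsAlgClosed.exists_root _ hd
    refine ⟨z, ?_⟩
    have : eval z (C (a : ℂ) * X ^ 2 + C ((b : ℂ) - d) * X + C ((c : ℂ) - x0)) = 0 := hz
    simp only [eval_add, eval_mul, eval_pow, eval_C, eval_X] at this
    linear_combination this
  have hx : aeval z Px = (x0 : ℂ) + z * d := by
    simp only [hPx, map_add, map_mul, aeval_X, aeval_C, Complex.coe_algebraMap]
  have hy : aeval z Py = (y0 : ℂ) + z * e := by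
    simp only [hPy, map_add, map_mul, aeval_X, aeval_C, Complex.coe_algebraMap]
  have hw : aeval z Pw = (0 : ℂ) := by
    rw [← hz]
    simp only [hPw, map_add, map_sub, map_mul, map_pow, aeval_X, aeval_C, Complex.coe_algebraMap]
  have h1 : aeval z ((Px ^ 2 + Py ^ 2 + 3 * Pw) ^ 2 - 16 * Px ^ 2 * Pw) = (0 : ℂ) := by
    rw [hF]; simp
  have h3 : aeval z (3 : ℝ[X]) = (3 : ℂ) := map_ofNat (aeval z) 3
  have h16 : aeval z (16 : ℝ[X]) = (16 : ℂ) := map_ofNat (aeval z) 16
  have h32 : aeval z (32 : ℝ[X]) = (32 : ℂ) := map_ofNat (aeval z) 32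
  simp only [map_sub, map_pow, map_add, map_mul, hw, h3, h16, mul_zero, add_zero, sub_zero] at h1
  have hg : aeval z Px ^ 2 + aeval z Py ^ 2 = (0 : ℂ) := pow_eq_zero_iff (two_ne_zero) |>.1 h1
  -- derivative
  have h2 : aeval z (derivative ((Px ^ 2 + Py ^ 2 + 3 * Pw) ^ 2 - 16 * Px ^ 2 * Pw)) = (0 : ℂ) := by
    rw [hF]; simp
  have hder : derivative ((Px ^ 2 + Py ^ 2 + 3 * Pw) ^ 2 - 16 * Px ^ 2 * Pw) =
      2 * (Px ^ 2 + Py ^ 2 + 3 * Pw) * derivative (Px ^ 2 + Py ^ 2 + 3 * Pw)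
        - (32 * Px * derivative Px * Pw + 16 * Px ^ 2 * derivative Pw) := by
    have e16 : derivative (16 : ℝ[X]) = 0 := derivative_ofNat 16
    rw [derivative_sub, derivative_sq, derivative_mul, derivative_mul, derivative_sq (p := Px), e16]
    simp only [map_ofNat]
    ring
  have h2' : aeval z (2 : ℝ[X]) = (2 : ℂ) := map_ofNat (aeval z) 2
  rw [hder] at h2
  simp only [map_sub, map_pow, map_add, map_mul, hw, h3, h16, h32, h2', mul_zero, add_zero, hg,
    zero_mul, zero_add, zero_sub, neg_eq_zero] at h2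
  have h4 : aeval z Px = (0 : ℂ) ∨ aeval z (derivative Pw) = (0 : ℂ) := by
    rcases mul_eq_zero.1 h2 with h | h
    · left
      rcases mul_eq_zero.1 h with h' | h'
      · norm_num at h'
      · exact pow_eq_zero_iff (two_ne_zero) |>.1 h'
    · right; exact h
  have hreal : ∃ t : ℝ, z = t := by
    rcases h4 with h | h
    · have hy0 : aeval z Py = (0 : ℂ) := by
        rw [h] at hg
        have : aeval z Py ^ 2 = (0 : ℂ) := by simpa using hg
        exact pow_eq_zero_iff (two_ne_zero) |>.1 this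
      rw [hx] at h
      rw [hy] at hy0
      rcases hde with hd | he
      · refine ⟨- x0 / d, ?_⟩
        have hdc : (d : ℂ) ≠ 0 := by exact_mod_cast hd
        push_cast
        field_simp
        linear_combination h
      · refine ⟨- y0 / e, ?_⟩
        have hdc : (e : ℂ) ≠ 0 := by exact_mod_cast he
        push_cast
        field_simp
        linear_combination hy0
    · have hd : derivative Pw = C (2 * a) * X + C b - C d := by
        simp only [hPw, derivative_sub, derivative_add, derivative_mul, derivative_C, derivative_X,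
          derivative_X_sq, zero_mul, zero_add, add_zero, mul_one, mul_zero, one_mul, C_mul]
        ring_nf
      rw [hd] at h
      simp only [map_sub, map_add, map_mul, aeval_X, aeval_C, Complex.coe_algebraMap] at h
      refine ⟨(d - b) / (2 * a), ?_⟩
      have hac : (a : ℂ) ≠ 0 := by exact_mod_cast ha
      push_cast at h ⊢
      field_simp
      linear_combination h
  obtain ⟨t, rfl⟩ := hreal
  rw [hx, hy] at hg
  have hgR : (x0 + t * d) ^ 2 + (y0 + t * e) ^ 2 = 0 := by exact_mod_cast hg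
  have hx0 : x0 + t * d = 0 := by nlinarith [sq_nonneg (x0 + t * d), sq_nonneg (y0 + t * e)]
  have hy0 : y0 + t * e = 0 := by nlinarith [sq_nonneg (x0 + t * d), sq_nonneg (y0 + t * e)]
  have hzR : a * t ^ 2 + b * t + c - (x0 + t * d) = 0 := by exact_mod_cast hz
  have hall : ∀ s : ℝ, ((x0 + s * d) ^ 2 + (y0 + s * e) ^ 2 +
      3 * (a * s ^ 2 + b * s + c - (x0 + s * d))) ^ 2 =
      16 * (x0 + s * d) ^ 2 * (a * s ^ 2 + b * s + c - (x0 + s * d)) := by
    intro s
    have := congrArg (eval s) hF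
    simp only [hPx, hPy, hPw, eval_pow, eval_add, eval_mul, eval_sub, eval_C, eval_X, eval_ofNat,
      eval_zero] at this
    linear_combination this
  -- slope at t
  set k : ℝ := 2 * a * t + b - d with hk
  have hwt : ∀ s, a * s ^ 2 + b * s + c - (x0 + s * d) = a * (s - t) ^ 2 + k * (s - t) := by
    intro s
    rw [hk]
    linear_combination hzR
  have hxt : ∀ s, x0 + s * d = (s - t) * d := by intro s; linear_combination hx0
  have hyt : ∀ s, y0 + s * e = (s - t) * e := by intro s; linear_combination hy0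
  have hh : ∀ v : ℝ, v ≠ 0 → (v * (d ^ 2 + e ^ 2) + 3 * (a * v + k)) ^ 2
      = 16 * d ^ 2 * (a * v ^ 2 + k * v) := by
    intro v hv
    have h5 := hall (t + v)
    rw [hwt, hxt, hyt] at h5
    have h6 : v ^ 2 * ((v * (d ^ 2 + e ^ 2) + 3 * (a * v + k)) ^ 2) =
        v ^ 2 * (16 * d ^ 2 * (a * v ^ 2 + k * v)) := by
      have e7 : t + v - t = v := by ring
      rw [e7] at h5
      linear_combination h5
    exact mul_left_cancel₀ (pow_ne_zero 2 hv) h6
  have e1 := hh 1 one_ne_zero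
  have e2 := hh (-1) (by norm_num)
  have e3 := hh 2 two_ne_zero
  have hk0 : k = 0 := by
    have : 9 * k ^ 2 = 0 := by
      linear_combination e1 + (1 / 3) * e2 - (1 / 3) * e3
    have : k ^ 2 = 0 := by linarith
    exact pow_eq_zero_iff (two_ne_zero) |>.1 this
  refine ⟨t, by linarith, by linarith, fun s => ?_⟩
  rw [hwt, hk0]; ring

/-- Ellipse case, first step: `z - x` is constant on the circle. -/
lemma ellipse_case1 {x0 y0 r α β γ P Q : ℝ} (hr : 0 < r) (hPQ : P ^ 2 + Q ^ 2 = r ^ 2)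
    (hinf : {t : ℝ | ((2 * x0 + 3 * (α - 1)) * (x0 * (1 + t ^ 2) + P * (1 - t ^ 2) - 2 * Q * t) +
        (2 * y0 + 3 * β) * (y0 * (1 + t ^ 2) + Q * (1 - t ^ 2) + 2 * P * t) +
        (r ^ 2 - x0 ^ 2 - y0 ^ 2 + 3 * γ) * (1 + t ^ 2)) ^ 2 * (1 + t ^ 2) =
      16 * (x0 * (1 + t ^ 2) + P * (1 - t ^ 2) - 2 * Q * t) ^ 2 *
        ((α - 1) * (x0 * (1 + t ^ 2) + P * (1 - t ^ 2) - 2 * Q * t) +
        β * (y0 * (1 + t ^ 2) + Q * (1 - t ^ 2) + 2 * P * t) + γ * (1 + t ^ 2))}.Infinite) :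
    α = 1 ∧ β = 0 := by
  set D : ℝ[X] := 1 + X ^ 2 with hD
  set Px : ℝ[X] := C x0 * D + C P * (1 - X ^ 2) - 2 * C Q * X with hPx
  set Py : ℝ[X] := C y0 * D + C Q * (1 - X ^ 2) + 2 * C P * X with hPy
  set Pl : ℝ[X] := C (2 * x0 + 3 * (α - 1)) * Px + C (2 * y0 + 3 * β) * Py +
    C (r ^ 2 - x0 ^ 2 - y0 ^ 2 + 3 * γ) * D with hPl
  set Pw : ℝ[X] := C (α - 1) * Px + C β * Py + C γ * D with hPw
  have hF : Pl ^ 2 * D - 16 * Px ^ 2 * Pw = 0 := by
    refine Polynomial.eq_zero_of_infinite_isRoot _ (hinf.mono ?_)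
    intro t ht
    have ht' : ((2 * x0 + 3 * (α - 1)) * (x0 * (1 + t ^ 2) + P * (1 - t ^ 2) - 2 * Q * t) +
        (2 * y0 + 3 * β) * (y0 * (1 + t ^ 2) + Q * (1 - t ^ 2) + 2 * P * t) +
        (r ^ 2 - x0 ^ 2 - y0 ^ 2 + 3 * γ) * (1 + t ^ 2)) ^ 2 * (1 + t ^ 2) =
      16 * (x0 * (1 + t ^ 2) + P * (1 - t ^ 2) - 2 * Q * t) ^ 2 *
        ((α - 1) * (x0 * (1 + t ^ 2) + P * (1 - t ^ 2) - 2 * Q * t) +
        β * (y0 * (1 + t ^ 2) + Q * (1 - t ^ 2) + 2 * P * t) + γ * (1 + t ^ 2)) := ht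
    show IsRoot _ t
    rw [IsRoot.def]
    simp only [hPx, hPy, hPw, hPl, hD, eval_pow, eval_add, eval_mul, eval_sub, eval_C, eval_X,
      eval_ofNat, eval_one]
    rw [ht']; ring
  have h2 : aeval Complex.I (2 : ℝ[X]) = (2 : ℂ) := map_ofNat (aeval Complex.I) 2
  have h16 : aeval Complex.I (16 : ℝ[X]) = (16 : ℂ) := map_ofNat (aeval Complex.I) 16
  have hI : Complex.I ^ 2 = -1 := Complex.I_sq
  have hD0 : aeval Complex.I D = (0 : ℂ) := by
    simp only [hD, map_add, map_pow, aeval_X, map_one, hI]; ring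
  have hx : aeval Complex.I Px = 2 * ((P : ℂ) - Q * Complex.I) := by
    simp only [hPx, map_add, map_sub, map_mul, map_pow, aeval_X, map_one, hI, hD0, aeval_C,
      Complex.coe_algebraMap, h2]
    ring
  have hy : aeval Complex.I Py = 2 * Complex.I * ((P : ℂ) - Q * Complex.I) := by
    simp only [hPy, map_add, map_sub, map_mul, map_pow, aeval_X, map_one, hI, hD0, aeval_C,
      Complex.coe_algebraMap, h2]
    linear_combination 2 * (Q : ℂ) * hI
  have h1 : aeval Complex.I (Pl ^ 2 * D - 16 * Px ^ 2 * Pw) = (0 : ℂ) := by rw [hF]; simp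
  simp only [map_sub, map_mul, map_pow, hD0, h16, mul_zero, zero_sub, neg_eq_zero] at h1
  have hne : (P : ℂ) - Q * Complex.I ≠ 0 := by
    intro h0
    have hre := congrArg Complex.re h0
    have him := congrArg Complex.im h0
    simp at hre him
    rw [hre, him] at hPQ
    nlinarith
  have hx0 : aeval Complex.I Px ≠ (0 : ℂ) := by rw [hx]; exact mul_ne_zero two_ne_zero hne
  have hw0 : aeval Complex.I Pw = (0 : ℂ) := by
    rcases mul_eq_zero.1 h1 with h | h
    · exfalso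
      rcases mul_eq_zero.1 h with h' | h'
      · norm_num at h'
      · exact hx0 (pow_eq_zero_iff (two_ne_zero) |>.1 h')
    · exact h
  have hw1 : aeval Complex.I Pw = 2 * ((P : ℂ) - Q * Complex.I) *
      (((α : ℂ) - 1) + β * Complex.I) := by
    simp only [hPw, map_add, map_mul, hx, hy, hD0, aeval_C, Complex.coe_algebraMap]
    push_cast
    ring
  rw [hw1] at hw0
  rcases mul_eq_zero.1 hw0 with h | h
  · exact absurd h (mul_ne_zero two_ne_zero hne)
  · have hre := congrArg Complex.re h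
    have him := congrArg Complex.im h
    simp at hre him
    exact ⟨by linarith, him⟩

/-- Ellipse case, second step. -/
lemma ellipse_case2 {x0 y0 r u P Q : ℝ} (hr : 0 < r) (hPQ : P ^ 2 + Q ^ 2 = r ^ 2)
    (hinf : {t : ℝ | (2 * x0 * (x0 * (1 + t ^ 2) + P * (1 - t ^ 2) - 2 * Q * t) +
        2 * y0 * (y0 * (1 + t ^ 2) + Q * (1 - t ^ 2) + 2 * P * t) +
        (r ^ 2 - x0 ^ 2 - y0 ^ 2 + 3 * u ^ 2) * (1 + t ^ 2)) ^ 2 =
      16 * (x0 * (1 + t ^ 2) + P * (1 - t ^ 2) - 2 * Q * t) ^ 2 * u ^ 2}.Infinite) :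
    (x0 = 2 * u ∨ x0 = - (2 * u)) ∧ y0 = 0 ∧ r ^ 2 = u ^ 2 := by
  set D : ℝ[X] := 1 + X ^ 2 with hD
  set Px : ℝ[X] := C x0 * D + C P * (1 - X ^ 2) - 2 * C Q * X with hPx
  set Py : ℝ[X] := C y0 * D + C Q * (1 - X ^ 2) + 2 * C P * X with hPy
  set Pl : ℝ[X] := C (2 * x0) * Px + C (2 * y0) * Py +
    C (r ^ 2 - x0 ^ 2 - y0 ^ 2 + 3 * u ^ 2) * D with hPl
  have hF : (Pl - C (4 * u) * Px) * (Pl + C (4 * u) * Px) = 0 := by
    refine Polynomial.eq_zero_of_infinite_isRoot _ (hinf.mono ?_)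
    intro t ht
    have ht' : (2 * x0 * (x0 * (1 + t ^ 2) + P * (1 - t ^ 2) - 2 * Q * t) +
        2 * y0 * (y0 * (1 + t ^ 2) + Q * (1 - t ^ 2) + 2 * P * t) +
        (r ^ 2 - x0 ^ 2 - y0 ^ 2 + 3 * u ^ 2) * (1 + t ^ 2)) ^ 2 =
      16 * (x0 * (1 + t ^ 2) + P * (1 - t ^ 2) - 2 * Q * t) ^ 2 * u ^ 2 := ht
    show IsRoot _ t
    rw [IsRoot.def]
    simp only [hPx, hPy, hPl, hD, eval_pow, eval_add, eval_mul, eval_sub, eval_C, eval_X,
      eval_ofNat, eval_one]
    linear_combination ht'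
  have h2 : aeval Complex.I (2 : ℝ[X]) = (2 : ℂ) := map_ofNat (aeval Complex.I) 2
  have hI : Complex.I ^ 2 = -1 := Complex.I_sq
  have hD0 : aeval Complex.I D = (0 : ℂ) := by
    simp only [hD, map_add, map_pow, aeval_X, map_one, hI]; ring
  have hx : aeval Complex.I Px = 2 * ((P : ℂ) - Q * Complex.I) := by
    simp only [hPx, map_add, map_sub, map_mul, map_pow, aeval_X, map_one, hI, hD0, aeval_C,
      Complex.coe_algebraMap, h2]
    ring
  have hy : aeval Complex.I Py = 2 * Complex.I * ((P : ℂ) - Q * Complex.I) := by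
    simp only [hPy, map_add, map_sub, map_mul, map_pow, aeval_X, map_one, hI, hD0, aeval_C,
      Complex.coe_algebraMap, h2]
    linear_combination 2 * (Q : ℂ) * hI
  have hne : (P : ℂ) - Q * Complex.I ≠ 0 := by
    intro h0
    have hre := congrArg Complex.re h0
    have him := congrArg Complex.im h0
    simp at hre him
    rw [hre, him] at hPQ
    nlinarith
  -- a common treatment of both signs
  have key : ∀ v : ℝ, Pl = C (4 * v) * Px → x0 = 2 * v ∧ y0 = 0 ∧
      r ^ 2 - x0 ^ 2 - y0 ^ 2 + 3 * u ^ 2 = 0 := by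
    intro v hv
    have h1 := congrArg (aeval Complex.I) hv
    simp only [hPl, map_add, map_mul, hx, hy, hD0, aeval_C, Complex.coe_algebraMap, mul_zero,
      add_zero] at h1
    have h3 : (2 * ((P : ℂ) - Q * Complex.I)) * ((2 * ((x0 : ℂ)) - 4 * v) + 2 * y0 * Complex.I)
        = 0 := by
      push_cast at h1
      linear_combination h1
    rcases mul_eq_zero.1 h3 with h | h
    · exact absurd h (mul_ne_zero two_ne_zero hne)
    · have hre := congrArg Complex.re h
      have him := congrArg Complex.im h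
      simp at hre him
      have hx0 : x0 = 2 * v := by linarith
      refine ⟨hx0, him, ?_⟩
      have h4 := congrArg (eval 0) hv
      simp only [hPx, hPy, hPl, hD, eval_pow, eval_add, eval_mul, eval_sub, eval_C, eval_X,
        eval_ofNat, eval_one] at h4
      rw [him] at h4 ⊢
      rw [hx0] at h4 ⊢
      linear_combination h4
  rcases mul_eq_zero.1 hF with h | h
  · obtain ⟨h5, h6, h7⟩ := key u (sub_eq_zero.1 h)
    refine ⟨Or.inl h5, h6, ?_⟩
    rw [h5, h6] at h7; linarith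
  · have h8 : Pl = C (4 * (-u)) * Px := by
      have h9 := eq_neg_of_add_eq_zero_left h
      rw [h9]
      simp only [mul_neg, C_neg, neg_mul]
    obtain ⟨h5, h6, h7⟩ := key (-u) h8
    refine ⟨Or.inr (by linarith), h6, ?_⟩
    rw [h5, h6] at h7; linarith

end Q197.OnlyTwo
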