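import Pool.Agent.Q197.FlatDefs

/-!
A criterion for non-orientability: a parametrised connected domain `Ω` such that the derivative
of the parametrisation at two points with the same image differ by an orientation-reversing map.
-/

open Set

namespace Q197.Orient

open Q197.Flat

variable {F : Set E4} {Ω : Set (ℝ × ℝ)} {R : ℝ × ℝ → E4}
  {ι : Type} {U : ι → Set (ℝ × ℝ)} {φ : ι → ℝ × ℝ → E4}

/-- Sign of a member of the atlas relative to `R` at `y`. -/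
def Sg (U : ι → Set (ℝ × ℝ)) (φ : ι → ℝ × ℝ → E4) (R : ℝ × ℝ → E4) (e : ℝ) (y : ℝ × ℝ) : Prop :=
  ∃ i, ∃ p ∈ U i, ∃ A : (ℝ × ℝ) →L[ℝ] (ℝ × ℝ), φ i p = R y ∧
    fderiv ℝ (φ i) p = (fderiv ℝ R y).comp A ∧ 0 < e * A.det

lemma det_comp (A B : (ℝ × ℝ) →L[ℝ] (ℝ × ℝ)) : (A.comp B).det = A.det * B.det := by
  unfold ContinuousLinearMap.det
  exact LinearMap.det_comp _ _

lemma det_id : (ContinuousLinearMap.id ℝ (ℝ × ℝ)).det = 1 := by
  unfold ContinuousLinearMap.det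
  exact LinearMap.det_id

lemma sg_open (hφ : ∀ i, IsParam 1 F (U i) (φ i))
    (hR : ∀ y ∈ Ω, ∃ W, IsParam 1 F W R ∧ y ∈ W ∧ W ⊆ Ω) (e : ℝ) :
    IsOpen {y | y ∈ Ω ∧ Sg U φ R e y} := by
  rw [isOpen_iff_mem_nhds]
  rintro y ⟨hy, i, p, hp, A, hpy, hA, hdet⟩
  obtain ⟨W, hW, hyW, hWΩ⟩ := hR y hy
  obtain ⟨M, hM⟩ := exists_left (fderiv ℝ R y) (hW.immersion y hyW)
  -- continuity of derivatives
  have hcR : ContinuousAt (fun y' => (M.comp (fderiv ℝ R y')).det) y := by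
    have h1 : ContinuousOn (fderiv ℝ R) W := hW.contDiffOn.continuousOn_fderiv_of_isOpen
      hW.isOpen le_rfl
    have h2 : ContinuousAt (fderiv ℝ R) y := h1.continuousAt (hW.isOpen.mem_nhds hyW)
    exact ContinuousLinearMap.continuous_det.continuousAt.comp
      ((ContinuousLinearMap.compL ℝ _ _ _ M).continuous.continuousAt.comp h2)
  have hcφ : ContinuousAt (fun p' => e * (M.comp (fderiv ℝ (φ i) p')).det) p := by
    have h1 : ContinuousOn (fderiv ℝ (φ i)) (U i) :=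
      (hφ i).contDiffOn.continuousOn_fderiv_of_isOpen (hφ i).isOpen le_rfl
    have h2 : ContinuousAt (fderiv ℝ (φ i)) p := h1.continuousAt ((hφ i).isOpen.mem_nhds hp)
    exact continuousAt_const.mul (ContinuousLinearMap.continuous_det.continuousAt.comp
      ((ContinuousLinearMap.compL ℝ _ _ _ M).continuous.continuousAt.comp h2))
  have hR1 : ∀ᶠ y' in nhds y, 0 < (M.comp (fderiv ℝ R y')).det := by
    refine hcR.eventually (lt_mem_nhds ?_)
    beta_reduce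
    rw [hM, det_id]; exact one_pos
  have hφ1 : ∀ᶠ p' in nhds p, 0 < e * (M.comp (fderiv ℝ (φ i) p')).det := by
    refine hcφ.eventually (lt_mem_nhds ?_)
    beta_reduce
    rw [hA, ← ContinuousLinearMap.comp_assoc, hM, ContinuousLinearMap.id_comp]
    exact hdet
  obtain ⟨P, hP, hPo, hpP⟩ := eventually_nhds_iff.1 hφ1
  obtain ⟨V, hV, hVeq⟩ := (hφ i).openMap (P ∩ U i) inter_subset_right (hPo.inter (hφ i).isOpen)
  have hyV : R y ∈ V := by
    have : φ i p ∈ φ i '' (P ∩ U i) := mem_image_of_mem _ ⟨hpP, hp⟩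
    rw [hVeq, hpy] at this
    exact this.2
  have hcont : ContinuousAt R y := (hW.hasStrict hyW).continuousAt
  filter_upwards [hR1, hcont (hV.mem_nhds hyV), hW.isOpen.mem_nhds hyW] with y' h1 h2 h3
  refine ⟨hWΩ h3, ?_⟩
  have h4 : R y' ∈ φ i '' (P ∩ U i) := by
    rw [hVeq]; exact ⟨hW.mem h3, h2⟩
  obtain ⟨p', ⟨hp'P, hp'U⟩, hp'⟩ := h4
  obtain ⟨A', _, hA'⟩ := (hφ i).trans hW hp'U h3 hp'
  refine ⟨i, p', hp'U, A', hp', hA', ?_⟩
  have h5 := hP p' hp'P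
  rw [hA', ← ContinuousLinearMap.comp_assoc, det_comp] at h5
  have h6 : e * ((M.comp (fderiv ℝ R y')).det * A'.det) =
      (M.comp (fderiv ℝ R y')).det * (e * A'.det) := by ring
  rw [h6] at h5
  exact (mul_pos_iff_of_pos_left h1).1 h5

/-- The criterion. -/
theorem not_orientable (hΩ : IsPreconnected Ω)
    (hR : ∀ y ∈ Ω, ∃ W, IsParam 1 F W R ∧ y ∈ W ∧ W ⊆ Ω)
    {y₁ y₂ : ℝ × ℝ} (h1 : y₁ ∈ Ω) (h2 : y₂ ∈ Ω) (h12 : R y₁ = R y₂)
    {S : (ℝ × ℝ) →L[ℝ] (ℝ × ℝ)} (hS : S.det < 0)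
    (hder : fderiv ℝ R y₁ = (fderiv ℝ R y₂).comp S) : ¬ IsOrientable F := by
  rintro ⟨ι, U, φ, hφ, hcov, hcompat⟩
  -- every point has a sign
  have hall : ∀ y ∈ Ω, Sg U φ R 1 y ∨ Sg U φ R (-1) y := by
    intro y hy
    obtain ⟨W, hW, hyW, _⟩ := hR y hy
    obtain ⟨i, p, hp, hpy⟩ := hcov (R y) (hW.mem hyW)
    obtain ⟨A, hA0, hA⟩ := (hφ i).trans hW hp hyW hpy
    rcases lt_or_gt_of_ne hA0 with h | h
    · right; exact ⟨i, p, hp, A, hpy, hA, by linarith⟩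
    · left; exact ⟨i, p, hp, A, hpy, hA, by linarith⟩
  -- exclusive
  have hexc : ∀ y ∈ Ω, Sg U φ R 1 y → Sg U φ R (-1) y → False := by
    rintro y hy ⟨i, p, hp, A, hpy, hA, hdet⟩ ⟨j, q, hq, B, hqy, hB, hdetB⟩
    obtain ⟨W, hW, hyW, _⟩ := hR y hy
    obtain ⟨C, hC, hCeq⟩ := hcompat i j p hp q hq (by rw [hpy, hqy])
    have hinj := hW.immersion y hyW
    have h3 : A = B.comp C := by
      refine ContinuousLinearMap.coe_injective (LinearMap.ext fun x => ?_)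
      apply hinj
      have h4 : (fderiv ℝ R y).comp A = (fderiv ℝ R y).comp (B.comp C) := by
        rw [← hA, hCeq, hB, ContinuousLinearMap.comp_assoc]
      exact congrArg (fun L : (ℝ × ℝ) →L[ℝ] E4 => L x) h4
    rw [h3, det_comp] at hdet
    nlinarith
  -- transfer between y₁ and y₂
  have htr : ∀ e : ℝ, Sg U φ R e y₁ → Sg U φ R (-e) y₂ := by
    rintro e ⟨i, p, hp, A, hpy, hA, hdet⟩
    refine ⟨i, p, hp, S.comp A, by rw [hpy, h12], ?_, ?_⟩
    · rw [hA, hder, ContinuousLinearMap.comp_assoc]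
    · rw [det_comp]; nlinarith
  have hcases : Ω ⊆ {y | y ∈ Ω ∧ Sg U φ R 1 y} ∨ Ω ⊆ {y | y ∈ Ω ∧ Sg U φ R (-1) y} := by
    have hpc := isPreconnected_iff_subset_of_disjoint.1 hΩ _ _
      (sg_open hφ hR 1) (sg_open hφ hR (-1)) (by
        intro y hy
        rcases hall y hy with h | h
        · left; exact ⟨hy, h⟩
        · right; exact ⟨hy, h⟩) (by
        ext y
        simp only [mem_inter_iff, mem_empty_iff_false, iff_false]
        rintro ⟨hy, ⟨_, ha⟩, ⟨_, hb⟩⟩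
        exact hexc y hy ha hb)
    exact hpc
  rcases hcases with h | h
  · exact hexc y₂ h2 (h h2).2 (htr 1 (h h1).2)
  · have h3 := htr (-1) (h h1).2
    rw [neg_neg] at h3
    exact hexc y₂ h2 h3 (h h2).2

end Q197.Orient
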