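import Mathlib

/-!
# A weighted shift for MP_550623_an

`E` is the weighted sup space of arrays `x_N(i)` (`N, i` natural numbers) with weight `4^{-i}` for
`i < N` and `4^{-(i-N)}` for `i >= N`; `S` shifts every row, and `T = S - I` is the forward
difference.  The generalized kernel of `T` consists of the arrays whose rows are polynomials of
uniformly bounded degree.  The main lemma says that every such array is a norm limit of elements
`T z` with `z` again of this form.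
-/

set_option autoImplicit false

namespace Q197.PolyShift

open Filter Topology Finset

variable {𝕜 : Type} [RCLike 𝕜]

/-- The exponent of the weight at the position `(N, i)`. -/
def ex (N i : ℕ) : ℕ := if i < N then i else i - N

lemma ex_le (N i : ℕ) : ex N i ≤ i := by
  unfold ex; split_ifs <;> omega

lemma ex_succ_le (N i : ℕ) : ex N (i + 1) ≤ ex N i + 1 := by
  unfold ex; split_ifs <;> omega

lemma ex_of_lt {N i : ℕ} (h : i < N) : ex N i = i := by
  unfold ex; rw [if_pos h]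

lemma ex_add (N l : ℕ) : ex N (N + l) = l := by
  unfold ex; rw [if_neg (by omega)]; omega

/-- The Banach space (in rescaled coordinates). -/
abbrev E (𝕜 : Type) [RCLike 𝕜] := BoundedContinuousFunction (ℕ × ℕ) 𝕜

/-- The array belonging to an element of `E`. -/
noncomputable def D (y : E 𝕜) (N i : ℕ) : 𝕜 := (4 : 𝕜) ^ (ex N i) * y (N, i)

lemma norm_four_pow (n : ℕ) : ‖(4 : 𝕜) ^ n‖ = 4 ^ n := by
  rw [norm_pow]
  congr 1
  exact RCLike.norm_ofNat 4

lemma norm_D_le (y : E 𝕜) (N i : ℕ) : ‖D y N i‖ ≤ ‖y‖ * 4 ^ (ex N i) := by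
  unfold D
  rw [norm_mul, norm_four_pow, mul_comm]
  exact mul_le_mul_of_nonneg_right (y.norm_coe_le_norm _) (by positivity)

/-- The element of `E` with a given array. -/
noncomputable def mk (f : ℕ → ℕ → 𝕜) (C : ℝ) (h : ∀ N i, ‖f N i‖ ≤ C * 4 ^ (ex N i)) : E 𝕜 :=
  BoundedContinuousFunction.ofNormedAddCommGroup
    (fun p : ℕ × ℕ => f p.1 p.2 / (4 : 𝕜) ^ (ex p.1 p.2)) continuous_of_discreteTopology C
    (by
      intro p
      rw [norm_div, norm_four_pow, div_le_iff₀ (by positivity)]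
      exact h _ _)

lemma four_pow_ne (n : ℕ) : (4 : 𝕜) ^ n ≠ 0 := by
  intro h
  have := norm_four_pow (𝕜 := 𝕜) n
  rw [h, norm_zero] at this
  have h4 : (0 : ℝ) < 4 ^ n := by positivity
  linarith

lemma D_mk (f : ℕ → ℕ → 𝕜) (C : ℝ) (h : ∀ N i, ‖f N i‖ ≤ C * 4 ^ (ex N i)) (N i : ℕ) :
    D (mk f C h) N i = f N i := by
  unfold D mk
  simp only [BoundedContinuousFunction.coe_ofNormedAddCommGroup]
  field_simp [four_pow_ne]

lemma norm_mk_le (f : ℕ → ℕ → 𝕜) (C : ℝ) (hC : 0 ≤ C)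
    (h : ∀ N i, ‖f N i‖ ≤ C * 4 ^ (ex N i)) : ‖mk f C h‖ ≤ C :=
  BoundedContinuousFunction.norm_ofNormedAddCommGroup_le _ hC _

lemma norm_le_of_D (y : E 𝕜) (C : ℝ) (hC : 0 ≤ C)
    (h : ∀ N i, ‖D y N i‖ ≤ C * 4 ^ (ex N i)) : ‖y‖ ≤ C := by
  rw [BoundedContinuousFunction.norm_le hC]
  rintro ⟨N, i⟩
  have h1 := h N i
  unfold D at h1
  rw [norm_mul, norm_four_pow, mul_comm] at h1
  exact le_of_mul_le_mul_right h1 (by positivity)

lemma ext_D {y z : E 𝕜} (h : ∀ N i, D y N i = D z N i) : y = z := by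
  ext ⟨N, i⟩
  have := h N i
  unfold D at this
  exact mul_left_cancel₀ (four_pow_ne _) this

lemma D_add (y z : E 𝕜) (N i : ℕ) : D (y + z) N i = D y N i + D z N i := by
  simp [D, mul_add]

lemma D_sub (y z : E 𝕜) (N i : ℕ) : D (y - z) N i = D y N i - D z N i := by
  simp [D, mul_sub]

lemma D_smul (c : 𝕜) (y : E 𝕜) (N i : ℕ) : D (c • y) N i = c * D y N i := by
  simp only [D, BoundedContinuousFunction.coe_smul, smul_eq_mul]
  ring

lemma D_zero (N i : ℕ) : D (0 : E 𝕜) N i = 0 := by simp [D]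

lemma shift_bound (y : E 𝕜) (N i : ℕ) : ‖D y N (i + 1)‖ ≤ (4 * ‖y‖) * 4 ^ (ex N i) := by
  refine (norm_D_le y N (i + 1)).trans ?_
  have h1 : (4 : ℝ) ^ (ex N (i + 1)) ≤ 4 ^ (ex N i + 1) :=
    pow_le_pow_right₀ (by norm_num) (ex_succ_le N i)
  calc ‖y‖ * 4 ^ (ex N (i + 1)) ≤ ‖y‖ * 4 ^ (ex N i + 1) :=
        mul_le_mul_of_nonneg_left h1 (norm_nonneg _)
    _ = (4 * ‖y‖) * 4 ^ (ex N i) := by rw [pow_succ]; ring

/-- The shift. -/
noncomputable def S (𝕜 : Type) [RCLike 𝕜] : E 𝕜 →L[𝕜] E 𝕜 :=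
  LinearMap.mkContinuous
    { toFun := fun y => mk (fun N i => D y N (i + 1)) (4 * ‖y‖) (shift_bound y)
      map_add' := by
        intro y z
        apply ext_D
        intro N i
        rw [D_mk, D_add, D_add, D_mk, D_mk]
      map_smul' := by
        intro c y
        apply ext_D
        intro N i
        rw [D_mk, D_smul, RingHom.id_apply, D_smul, D_mk] } 4
    (by
      intro y
      exact norm_mk_le _ _ (by positivity) _)

lemma D_S (y : E 𝕜) (N i : ℕ) : D (S 𝕜 y) N i = D y N (i + 1) := by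
  change D (mk (fun N i => D y N (i + 1)) (4 * ‖y‖) (shift_bound y)) N i = _
  rw [D_mk]

/-- The difference operator `T = S - I`. -/
noncomputable def T (𝕜 : Type) [RCLike 𝕜] : E 𝕜 →L[𝕜] E 𝕜 := S 𝕜 - 1

lemma D_T (y : E 𝕜) (N : ℕ) : D (T 𝕜 y) N = fwdDiff 1 (D y N) := by
  ext i
  change D (S 𝕜 y - y) N i = _
  rw [D_sub, D_S]
  rfl

lemma D_S_pow (y : E 𝕜) (N i n : ℕ) : D (((S 𝕜) ^ n) y) N i = D y N (i + n) := by
  induction n generalizing y i with
  | zero => simp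
  | succ n ih =>
    rw [pow_succ', mul_apply_eq_comp, D_S, ih]
    congr 1
    omega

lemma D_T_pow (y : E 𝕜) (N n : ℕ) : D (((T 𝕜) ^ n) y) N = (fwdDiff 1)^[n] (D y N) := by
  induction n generalizing y with
  | zero => simp
  | succ n ih =>
    rw [pow_succ, mul_apply_eq_comp, ih, Function.iterate_succ_apply, D_T]

lemma T_pow_eq_zero_iff (y : E 𝕜) (n : ℕ) :
    ((T 𝕜) ^ n) y = 0 ↔ ∀ N, (fwdDiff 1)^[n] (D y N) = 0 := by
  constructor
  · intro h N
    rw [← D_T_pow, h]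
    ext i
    exact D_zero N i
  · intro h
    apply ext_D
    intro N i
    rw [D_T_pow, h N, D_zero]
    rfl

/-- Growth of a sequence with vanishing `d`-th difference. -/
lemma growth (f : ℕ → 𝕜) (K : ℝ) (hK : 0 ≤ K) (hf : ∀ l, ‖f l‖ ≤ K * 4 ^ l) (d : ℕ)
    (hd : (fwdDiff 1)^[d] f = 0) (s : ℕ) : ‖f s‖ ≤ (s + 1 : ℝ) ^ (d + 1) * (5 ^ d * K) := by
  have hz : ∀ k, d ≤ k → (fwdDiff 1)^[k] f = 0 := by
    intro k hk
    obtain ⟨a, rfl⟩ := Nat.exists_eq_add_of_le hk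
    rw [add_comm, Function.iterate_add_apply, hd]
    funext x
    rw [fwdDiff_iter_eq_sum_shift]
    simp
  have hΔ : ∀ k, ‖(fwdDiff 1)^[k] f 0‖ ≤ 5 ^ k * K := by
    intro k
    rw [fwdDiff_iter_eq_sum_shift]
    have hb : (5 : ℝ) ^ k * K = ∑ l ∈ range (k + 1), (k.choose l : ℝ) * (K * 4 ^ l) := by
      have := add_pow (4 : ℝ) 1 k
      have h5 : (5 : ℝ) ^ k = ∑ l ∈ range (k + 1), (4 : ℝ) ^ l * (k.choose l) := by
        rw [show (5 : ℝ) = 4 + 1 by norm_num, this]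
        refine Finset.sum_congr rfl fun l _ => ?_
        rw [one_pow, mul_one]
      rw [h5, Finset.sum_mul]
      refine Finset.sum_congr rfl fun l _ => ?_
      ring
    rw [hb]
    refine (norm_sum_le _ _).trans (Finset.sum_le_sum fun l _ => ?_)
    rw [zsmul_eq_mul, norm_mul]
    refine mul_le_mul ?_ ?_ (norm_nonneg _) (by positivity)
    · have : (((((-1 : ℤ) ^ (k - l) * (k.choose l : ℤ) : ℤ)) : 𝕜)) =
          (-1) ^ (k - l) * ((k.choose l : ℕ) : 𝕜) := by push_cast; ring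
      rw [this, norm_mul, norm_pow, norm_neg, norm_one, one_pow, one_mul]
      rw [RCLike.norm_natCast]
    · simpa using hf l
  have h0 := shift_eq_sum_fwdDiff_iter 1 f s 0
  simp only [smul_eq_mul, mul_one, zero_add] at h0
  rw [h0]
  have hterm : ∀ k ∈ range (s + 1), ‖s.choose k • (fwdDiff 1)^[k] f 0‖ ≤
      (s + 1 : ℝ) ^ d * (5 ^ d * K) := by
    intro k _
    rcases le_or_gt d k with hk | hk
    · rw [hz k hk]
      simp
      positivity
    · rw [nsmul_eq_mul, norm_mul, RCLike.norm_natCast]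
      refine mul_le_mul ?_ ?_ (norm_nonneg _) (by positivity)
      · have h1 : (s.choose k : ℝ) ≤ (s : ℝ) ^ k := by
          exact_mod_cast Nat.choose_le_pow s k
        have h2 : (s : ℝ) ^ k ≤ (s + 1 : ℝ) ^ k :=
          pow_le_pow_left₀ (by positivity) (by linarith) k
        have h3 : (s + 1 : ℝ) ^ k ≤ (s + 1 : ℝ) ^ d :=
          pow_le_pow_right₀ (by have : (0:ℝ) ≤ s := by positivity
                                linarith) hk.le
        linarith
      · refine (hΔ k).trans ?_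
        have : (5 : ℝ) ^ k ≤ 5 ^ d := pow_le_pow_right₀ (by norm_num) hk.le
        exact mul_le_mul_of_nonneg_right this hK
  calc ‖∑ k ∈ range (s + 1), s.choose k • (fwdDiff 1)^[k] f 0‖
      ≤ ∑ k ∈ range (s + 1), (s + 1 : ℝ) ^ d * (5 ^ d * K) :=
        (norm_sum_le _ _).trans (Finset.sum_le_sum hterm)
    _ = (s + 1 : ℝ) ^ (d + 1) * (5 ^ d * K) := by
        rw [Finset.sum_const, card_range, nsmul_eq_mul]
        push_cast
        ring

lemma exists_const (k : ℕ) : ∃ c : ℝ, 0 < c ∧ ∀ l : ℕ, (1 + l : ℝ) ^ k ≤ c * 4 ^ l := by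
  have h := tendsto_pow_const_div_const_pow_of_one_lt k (show (1 : ℝ) < 4 by norm_num)
  obtain ⟨c, hc⟩ := h.bddAbove_range
  refine ⟨4 * max c 1, by positivity, fun l => ?_⟩
  have h1 : ((l + 1 : ℕ) : ℝ) ^ k / 4 ^ (l + 1) ≤ c := hc ⟨l + 1, rfl⟩
  rw [div_le_iff₀ (by positivity)] at h1
  push_cast at h1
  have h2 : c * 4 ^ (l + 1) ≤ max c 1 * 4 ^ (l + 1) :=
    mul_le_mul_of_nonneg_right (le_max_left _ _) (by positivity)
  calc (1 + l : ℝ) ^ k = (l + 1 : ℝ) ^ k := by rw [add_comm]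
    _ ≤ max c 1 * 4 ^ (l + 1) := h1.trans h2
    _ = 4 * max c 1 * 4 ^ l := by ring

/-- The bump polynomial. -/
noncomputable def W (𝕜 : Type) [RCLike 𝕜] (m N s : ℕ) : 𝕜 := ((s : 𝕜) * ((N : 𝕜) - s)) ^ (2 * m)

lemma W_eq (m N s : ℕ) : W 𝕜 m N s = (((((s : ℝ) * ((N : ℝ) - s)) ^ (2 * m) : ℝ)) : 𝕜) := by
  unfold W; push_cast; rfl

lemma W_diff (m N : ℕ) : (fwdDiff 1)^[4 * m + 1] (W 𝕜 m N) = 0 := by
  open Polynomial in
  set P : 𝕜[X] := (X * (C (N : 𝕜) - X)) ^ (2 * m) with hP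
  have hdeg : P.natDegree < 4 * m + 1 := by
    have h1 : (X * (C (N : 𝕜) - X)).natDegree ≤ 2 := by
      refine (natDegree_mul_le).trans ?_
      have h2 : (C (N : 𝕜) - X).natDegree ≤ 1 := by
        refine (natDegree_sub_le _ _).trans ?_
        simp
      have h3 : (X : 𝕜[X]).natDegree ≤ 1 := natDegree_X_le
      omega
    have h4 : P.natDegree ≤ 2 * m * 2 := (natDegree_pow_le_of_le _ h1)
    omega
  have hz := Polynomial.fwdDiff_iter_eq_zero_of_degree_lt hdeg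
  funext x
  have hx := congrFun hz (x : 𝕜)
  rw [fwdDiff_iter_eq_sum_shift] at hx ⊢
  rw [Pi.zero_apply] at hx ⊢
  rw [← hx]
  refine Finset.sum_congr rfl fun k _ => ?_
  congr 1
  simp [hP, W]

lemma W_bound (m N i : ℕ) (hN : 1 ≤ N) :
    ‖W 𝕜 m N i‖ ≤ (N : ℝ) ^ (2 * m) * (1 + (ex N i : ℝ)) ^ (4 * m) := by
  rw [W_eq, RCLike.norm_ofReal, abs_pow]
  have hN' : (1 : ℝ) ≤ N := by exact_mod_cast hN
  have key : |(i : ℝ) * ((N : ℝ) - i)| ≤ (N : ℝ) * (1 + (ex N i : ℝ)) ^ 2 := by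
    rcases lt_or_ge i N with h | h
    · rw [ex_of_lt h]
      have h1 : (i : ℝ) < N := by exact_mod_cast h
      have h0 : (0 : ℝ) ≤ i := by positivity
      rw [abs_of_nonneg (mul_nonneg h0 (by linarith))]
      nlinarith [mul_nonneg h0 h0, mul_nonneg (mul_nonneg h0 h0) (by linarith : (0:ℝ) ≤ N)]
    · obtain ⟨l, rfl⟩ := Nat.exists_eq_add_of_le h
      rw [ex_add]
      have h0 : (0 : ℝ) ≤ l := by positivity
      push_cast
      have : (N : ℝ) - (N + l) = -l := by ring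
      rw [this, mul_neg, abs_neg, abs_of_nonneg (by positivity)]
      nlinarith [mul_nonneg h0 h0, mul_nonneg (mul_nonneg h0 h0) (by linarith : (0:ℝ) ≤ N),
        mul_nonneg (by linarith : (0:ℝ) ≤ (N:ℝ) - 1) (mul_nonneg h0 h0), mul_nonneg (by linarith : (0:ℝ) ≤ (N:ℝ)) h0]
  calc |(i : ℝ) * ((N : ℝ) - i)| ^ (2 * m) ≤ ((N : ℝ) * (1 + (ex N i : ℝ)) ^ 2) ^ (2 * m) :=
        pow_le_pow_left₀ (abs_nonneg _) key _
    _ = (N : ℝ) ^ (2 * m) * (1 + (ex N i : ℝ)) ^ (4 * m) := by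
        rw [mul_pow, ← pow_mul]; ring_nf

/-- The sum of the bump polynomial over `0, ..., N-1`. -/
noncomputable def B (m N : ℕ) : ℝ := ∑ s ∈ range N, ((s : ℝ) * ((N : ℝ) - s)) ^ (2 * m)

lemma sum_W (m N : ℕ) : ∑ s ∈ range N, W 𝕜 m N s = ((B m N : ℝ) : 𝕜) := by
  unfold B
  rw [RCLike.ofReal_sum]
  exact Finset.sum_congr rfl fun s _ => W_eq m N s

lemma B_lower (m N : ℕ) (hN : 2 ≤ N) : (N : ℝ) ^ (4 * m) ≤ 64 ^ m * B m N := by
  have h1 : ((((N / 2 : ℕ) : ℝ)) * ((N : ℝ) - ((N / 2 : ℕ) : ℝ))) ^ (2 * m) ≤ B m N := by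
    unfold B
    refine Finset.single_le_sum (f := fun s : ℕ => ((s : ℝ) * ((N : ℝ) - s)) ^ (2 * m)) ?_ ?_
    · intro s _
      exact (even_two_mul m).pow_nonneg _
    · rw [mem_range]; omega
  have h2 : ((N : ℝ)) ^ 2 / 8 ≤ (((N / 2 : ℕ) : ℝ)) * ((N : ℝ) - ((N / 2 : ℕ) : ℝ)) := by
    have ha : (N : ℝ) ≤ 2 * ((N / 2 : ℕ) : ℝ) + 1 := by
      have : N ≤ 2 * (N / 2) + 1 := by omega
      exact_mod_cast this
    have hb : 2 * ((N / 2 : ℕ) : ℝ) ≤ N := by
      have : 2 * (N / 2) ≤ N := by omega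
      exact_mod_cast this
    have hc : (2 : ℝ) ≤ N := by exact_mod_cast hN
    nlinarith
  have h3 : (((N : ℝ)) ^ 2 / 8) ^ (2 * m) ≤
      ((((N / 2 : ℕ) : ℝ)) * ((N : ℝ) - ((N / 2 : ℕ) : ℝ))) ^ (2 * m) :=
    pow_le_pow_left₀ (by positivity) h2 _
  have h4 : (64 : ℝ) ^ m * (((N : ℝ)) ^ 2 / 8) ^ (2 * m) = (N : ℝ) ^ (4 * m) := by
    rw [div_pow, ← pow_mul, show (64 : ℝ) = 8 ^ 2 by norm_num, ← pow_mul]
    have : (8 : ℝ) ^ (2 * m) ≠ 0 := by positivity
    field_simp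
    ring_nf
  rw [← h4]
  exact mul_le_mul_of_nonneg_left (h3.trans h1) (by positivity)

/-- Geometric sums. -/
lemma geom_le (n : ℕ) : ∑ r ∈ range n, (4 : ℝ) ^ r ≤ 4 ^ n := by
  induction n with
  | zero => simp
  | succ n ih =>
    rw [Finset.sum_range_succ, pow_succ]
    have : (0 : ℝ) < 4 ^ n := by positivity
    linarith

/-- The main lemma: every element of the generalized kernel of `T` is a limit of elements `T z`
with `z` in the generalized kernel. -/
theorem approx (y : E 𝕜) (d : ℕ) (hd : ((T 𝕜) ^ d) y = 0) (ε : ℝ) (hε : 0 < ε) :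
    ∃ z : E 𝕜, (∃ n, ((T 𝕜) ^ n) z = 0) ∧ ‖T 𝕜 z - y‖ ≤ ε := by
  classical
  set m := d + 2 with hm
  set K := ‖y‖ with hKdef
  have hK : 0 ≤ K := norm_nonneg _
  obtain ⟨c, hc0, hc⟩ := exists_const (4 * m)
  have hfd : ∀ N, (fwdDiff 1)^[d] (D y N) = 0 := (T_pow_eq_zero_iff y d).1 hd
  have hgr : ∀ N s, ‖D y N s‖ ≤ (s + 1 : ℝ) ^ (d + 1) * (5 ^ d * K) := by
    intro N s
    refine growth (D y N) K hK ?_ d (hfd N) s
    intro l
    refine (norm_D_le y N l).trans ?_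
    exact mul_le_mul_of_nonneg_left (pow_le_pow_right₀ (by norm_num) (ex_le N l)) hK
  -- sums of the rows
  set A : ℕ → 𝕜 := fun N => ∑ s ∈ range N, D y N s with hA
  have hAb : ∀ N : ℕ, ‖A N‖ ≤ (N : ℝ) ^ m * (5 ^ d * K) := by
    intro N
    refine (norm_sum_le _ _).trans ?_
    have : ∀ s ∈ range N, ‖D y N s‖ ≤ (N : ℝ) ^ (d + 1) * (5 ^ d * K) := by
      intro s hs
      refine (hgr N s).trans ?_
      refine mul_le_mul_of_nonneg_right ?_ (by positivity)
      refine pow_le_pow_left₀ (by positivity) ?_ _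
      have : s + 1 ≤ N := mem_range.1 hs
      exact_mod_cast this
    refine (Finset.sum_le_sum this).trans ?_
    rw [Finset.sum_const, card_range, nsmul_eq_mul, hm, show d + 2 = (d + 1) + 1 by ring,
      pow_succ (N : ℝ) (d + 1)]
    apply le_of_eq
    ring
  set M : ℝ := 64 ^ m * (5 ^ d * K) * c with hM
  have hM0 : 0 ≤ M := by positivity
  -- the threshold
  obtain ⟨N1, hN1⟩ := exists_nat_gt (M / ε)
  set N0 := max N1 2 with hN0
  have hN0M : ∀ N : ℕ, N0 ≤ N → M ≤ ε * N := by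
    intro N hN
    have h1 : (N1 : ℝ) ≤ N := by exact_mod_cast (le_max_left _ _).trans hN
    have h2 : M / ε < N := lt_of_lt_of_le hN1 h1
    rw [div_lt_iff₀ hε] at h2
    linarith
  set C : ℕ → 𝕜 := fun N => if N0 ≤ N then - A N / ((B m N : ℝ) : 𝕜) else 0 with hC
  have hBpos : ∀ N : ℕ, N0 ≤ N → 0 < B m N := by
    intro N hN
    have h2 : 2 ≤ N := (le_max_right _ _).trans hN
    have h3 := B_lower m N h2
    have h4 : (0 : ℝ) < (N : ℝ) ^ (4 * m) := by
      have : (0 : ℝ) < N := by exact_mod_cast (by omega : 0 < N)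
      positivity
    by_contra hcon
    push Not at hcon
    have : (64 : ℝ) ^ m * B m N ≤ 0 := mul_nonpos_of_nonneg_of_nonpos (by positivity) hcon
    linarith
  -- size of the corrections
  have hR : ∀ N i, ‖C N * W 𝕜 m N i‖ ≤ ε * 4 ^ (ex N i) := by
    intro N i
    rcases lt_or_ge N N0 with h | h
    · have : C N = 0 := by simp only [hC]; rw [if_neg (by omega)]
      rw [this, zero_mul, norm_zero]; positivity
    · have h2 : 2 ≤ N := (le_max_right _ _).trans h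
      have hNpos : (0 : ℝ) < N := by exact_mod_cast (by omega : 0 < N)
      have hN1' : (1 : ℝ) ≤ N := by exact_mod_cast (by omega : 1 ≤ N)
      have hBp := hBpos N h
      have hCn : ‖C N‖ * B m N ≤ (N : ℝ) ^ m * (5 ^ d * K) := by
        have : C N = - A N / ((B m N : ℝ) : 𝕜) := by simp only [hC]; rw [if_pos h]
        rw [this, norm_div, norm_neg, RCLike.norm_ofReal, abs_of_pos hBp,
          div_mul_cancel₀ _ hBp.ne']
        exact hAb N
      have h3 := B_lower m N h2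
      -- ‖C N‖ * N^(4m) ≤ 64^m N^m 5^d K
      have h4 : ‖C N‖ * (N : ℝ) ^ (4 * m) ≤ (N : ℝ) ^ m * (64 ^ m * (5 ^ d * K)) := by
        calc ‖C N‖ * (N : ℝ) ^ (4 * m) ≤ ‖C N‖ * (64 ^ m * B m N) :=
              mul_le_mul_of_nonneg_left h3 (norm_nonneg _)
          _ = 64 ^ m * (‖C N‖ * B m N) := by ring
          _ ≤ 64 ^ m * ((N : ℝ) ^ m * (5 ^ d * K)) :=
              mul_le_mul_of_nonneg_left hCn (by positivity)
          _ = _ := by ring
      have h5 : ‖C N‖ * (N : ℝ) ^ (3 * m) ≤ 64 ^ m * (5 ^ d * K) := by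
        have h6 : (N : ℝ) ^ m * (‖C N‖ * (N : ℝ) ^ (3 * m)) ≤
            (N : ℝ) ^ m * (64 ^ m * (5 ^ d * K)) := by
          refine le_trans (le_of_eq ?_) h4
          rw [show 4 * m = m + 3 * m by ring, pow_add]; ring
        exact le_of_mul_le_mul_left h6 (by positivity)
      have h7 : ‖C N‖ * (N : ℝ) ^ (2 * m) * N ≤ 64 ^ m * (5 ^ d * K) := by
        refine le_trans ?_ h5
        rw [mul_assoc, ← pow_succ]
        refine mul_le_mul_of_nonneg_left ?_ (norm_nonneg _)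
        exact pow_le_pow_right₀ hN1' (by omega)
      have h8 : (‖C N‖ * (N : ℝ) ^ (2 * m) * c) * N ≤ ε * N := by
        calc (‖C N‖ * (N : ℝ) ^ (2 * m) * c) * N = (‖C N‖ * (N : ℝ) ^ (2 * m) * N) * c := by ring
          _ ≤ (64 ^ m * (5 ^ d * K)) * c := mul_le_mul_of_nonneg_right h7 hc0.le
          _ ≤ ε * N := hN0M N h
      have h9 : ‖C N‖ * (N : ℝ) ^ (2 * m) * c ≤ ε := le_of_mul_le_mul_right h8 hNpos
      rw [norm_mul]
      calc ‖C N‖ * ‖W 𝕜 m N i‖
          ≤ ‖C N‖ * ((N : ℝ) ^ (2 * m) * (1 + (ex N i : ℝ)) ^ (4 * m)) :=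
            mul_le_mul_of_nonneg_left (W_bound m N i (by omega)) (norm_nonneg _)
        _ ≤ ‖C N‖ * ((N : ℝ) ^ (2 * m) * (c * 4 ^ (ex N i))) := by
            refine mul_le_mul_of_nonneg_left ?_ (norm_nonneg _)
            exact mul_le_mul_of_nonneg_left (hc _) (by positivity)
        _ = (‖C N‖ * (N : ℝ) ^ (2 * m) * c) * 4 ^ (ex N i) := by ring
        _ ≤ ε * 4 ^ (ex N i) := mul_le_mul_of_nonneg_right h9 (by positivity)
  set g : ℕ → ℕ → 𝕜 := fun N s => D y N s + C N * W 𝕜 m N s with hg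
  have hgb : ∀ N i, ‖g N i‖ ≤ (K + ε) * 4 ^ (ex N i) := by
    intro N i
    refine (norm_add_le _ _).trans ?_
    rw [add_mul]
    exact add_le_add (norm_D_le y N i) (hR N i)
  have hg0 : ∀ N, N0 ≤ N → ∑ s ∈ range N, g N s = 0 := by
    intro N hN
    simp only [hg]
    rw [Finset.sum_add_distrib, ← Finset.mul_sum, sum_W]
    have : C N = - A N / ((B m N : ℝ) : 𝕜) := by simp only [hC]; rw [if_pos hN]
    have hB0 : ((B m N : ℝ) : 𝕜) ≠ 0 := by
      rw [Ne, RCLike.ofReal_eq_zero]; exact (hBpos N hN).ne'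
    rw [this, div_mul_cancel₀ _ hB0]
    simp [hA]
  set z : ℕ → ℕ → 𝕜 := fun N s => ∑ r ∈ range s, g N r with hz
  have hKε : 0 ≤ K + ε := by positivity
  have hleft : ∀ N s, s ≤ N → ‖z N s‖ ≤ (K + ε) * 4 ^ s := by
    intro N s hs
    refine (norm_sum_le _ _).trans ?_
    calc ∑ r ∈ range s, ‖g N r‖ ≤ ∑ r ∈ range s, (K + ε) * 4 ^ r := by
          refine Finset.sum_le_sum fun r hr => ?_
          have := hgb N r
          rwa [ex_of_lt (lt_of_lt_of_le (mem_range.1 hr) hs)] at this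
      _ = (K + ε) * ∑ r ∈ range s, (4 : ℝ) ^ r := by rw [Finset.mul_sum]
      _ ≤ (K + ε) * 4 ^ s := mul_le_mul_of_nonneg_left (geom_le s) hKε
  have hend : ∀ N, ‖z N N‖ ≤ (K + ε) * 4 ^ N0 := by
    intro N
    rcases lt_or_ge N N0 with h | h
    · refine (hleft N N le_rfl).trans ?_
      exact mul_le_mul_of_nonneg_left (pow_le_pow_right₀ (by norm_num) h.le) hKε
    · have : z N N = 0 := hg0 N h
      rw [this, norm_zero]; positivity
  have hzb : ∀ N s, ‖z N s‖ ≤ ((K + ε) * (4 ^ N0 + 1)) * 4 ^ (ex N s) := by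
    intro N s
    rcases lt_or_ge s N with h | h
    · rw [ex_of_lt h]
      refine (hleft N s h.le).trans ?_
      refine mul_le_mul_of_nonneg_right ?_ (by positivity)
      have : (0 : ℝ) < 4 ^ N0 := by positivity
      nlinarith
    · obtain ⟨l, rfl⟩ := Nat.exists_eq_add_of_le h
      rw [ex_add]
      have h1 : z N (N + l) = z N N + ∑ r ∈ range l, g N (N + r) := by
        simp only [hz]; rw [Finset.sum_range_add]
      have h2 : ‖∑ r ∈ range l, g N (N + r)‖ ≤ (K + ε) * 4 ^ l := by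
        refine (norm_sum_le _ _).trans ?_
        calc ∑ r ∈ range l, ‖g N (N + r)‖ ≤ ∑ r ∈ range l, (K + ε) * 4 ^ r := by
              refine Finset.sum_le_sum fun r _ => ?_
              have := hgb N (N + r)
              rwa [ex_add] at this
          _ = (K + ε) * ∑ r ∈ range l, (4 : ℝ) ^ r := by rw [Finset.mul_sum]
          _ ≤ (K + ε) * 4 ^ l := mul_le_mul_of_nonneg_left (geom_le l) hKε
      rw [h1]
      refine (norm_add_le _ _).trans ?_
      have h3 := hend N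
      have h4 : (1 : ℝ) ≤ 4 ^ l := one_le_pow₀ (by norm_num)
      have h5 : (K + ε) * 4 ^ N0 ≤ (K + ε) * 4 ^ N0 * 4 ^ l :=
        le_mul_of_one_le_right (by positivity) h4
      calc ‖z N N‖ + ‖∑ r ∈ range l, g N (N + r)‖
          ≤ (K + ε) * 4 ^ N0 * 4 ^ l + (K + ε) * 4 ^ l := by linarith
        _ = _ := by ring
  refine ⟨mk z _ hzb, ?_, ?_⟩
  · -- nilpotency
    refine ⟨(max d (4 * m + 1)) + 1, ?_⟩
    rw [T_pow_eq_zero_iff]
    intro N
    rw [Function.iterate_succ_apply]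
    have h1 : fwdDiff 1 (D (mk z _ hzb) N) = D y N + C N • W 𝕜 m N := by
      funext s
      simp only [fwdDiff, D_mk, Pi.add_apply, Pi.smul_apply, smul_eq_mul]
      simp only [hz, hg]
      rw [Finset.sum_range_succ]
      ring
    rw [h1, fwdDiff_iter_add, fwdDiff_iter_const_smul]
    have hit : ∀ (f : ℕ → 𝕜) (a b : ℕ), a ≤ b → (fwdDiff 1)^[a] f = 0 →
        (fwdDiff 1)^[b] f = 0 := by
      intro f a b hab hf
      obtain ⟨e, rfl⟩ := Nat.exists_eq_add_of_le hab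
      rw [add_comm, Function.iterate_add_apply, hf]
      funext x
      rw [fwdDiff_iter_eq_sum_shift]
      simp
    rw [hit _ d _ (le_max_left _ _) (hfd N), hit _ (4 * m + 1) _ (le_max_right _ _) (W_diff m N)]
    simp
  · apply norm_le_of_D _ _ hε.le
    intro N i
    rw [D_sub, D_T]
    have : fwdDiff 1 (D (mk z _ hzb) N) i - D y N i = C N * W 𝕜 m N i := by
      simp only [fwdDiff, D_mk]
      simp only [hz, hg]
      rw [Finset.sum_range_succ]
      ring
    rw [this]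
    exact hR N i

end Q197.PolyShift
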