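import Mathlib
import Pool.Agent.Q197.JamesV

/-!
# A norm with Property (A) which is conditional

`val x M R S` is the `ℓ²` norm of `x` on `S` plus a quarter of the modulus of the sum of
`x n / √(n + 1)` over `n ∈ [M, R) \ S`; the norm is the supremum over all `M, R, S` with
`|S| ≤ M`.
-/

set_option autoImplicit false

namespace Q197.PropA

open Finset Filter Topology

variable {𝕜 : Type} [RCLike 𝕜]

/-- The weights. -/
noncomputable def th (n : ℕ) : ℝ := 1 / Real.sqrt (n + 1)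

lemma th_pos (n : ℕ) : 0 < th n := by unfold th; positivity

lemma th_anti {m n : ℕ} (h : m ≤ n) : th n ≤ th m := by
  unfold th
  have : (m : ℝ) ≤ n := by exact_mod_cast h
  exact one_div_le_one_div_of_le (by positivity) (Real.sqrt_le_sqrt (by linarith))

/-- The seminorms. -/
noncomputable def val (x : ℕ → 𝕜) (M R : ℕ) (S : Finset ℕ) : ℝ :=
  Real.sqrt (∑ n ∈ S, ‖x n‖ ^ 2) + 1 / 4 * ‖∑ n ∈ Ico M R \ S, (th n : 𝕜) * x n‖

/-- All seminorms are at most `B`. -/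
def Bd (x : ℕ → 𝕜) (B : ℝ) : Prop := 0 ≤ B ∧ ∀ (M R : ℕ) (S : Finset ℕ), S.card ≤ M → val x M R S ≤ B

lemma Bd.coord {x : ℕ → 𝕜} {B : ℝ} (h : Bd x B) (n : ℕ) : ‖x n‖ ≤ B := by
  have := h.2 1 1 {n} (by simp)
  simpa [val, Real.sqrt_sq (norm_nonneg _)] using this

lemma val_add (x y : ℕ → 𝕜) (M R : ℕ) (S : Finset ℕ) :
    val (x + y) M R S ≤ val x M R S + val y M R S := by
  have h1 : Real.sqrt (∑ n ∈ S, ‖(x + y) n‖ ^ 2) ≤
      Real.sqrt (∑ n ∈ S, ‖x n‖ ^ 2) + Real.sqrt (∑ n ∈ S, ‖y n‖ ^ 2) := by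
    rw [Real.sqrt_le_left (by positivity)]
    refine le_trans (sum_le_sum fun n _ => ?_) (JamesV.mink S (fun n => ‖x n‖) (fun n => ‖y n‖)
      (Real.sqrt_nonneg _) (Real.sqrt_nonneg _) ?_ ?_)
    · exact pow_le_pow_left₀ (norm_nonneg _) (norm_add_le _ _) 2
    · rw [Real.sq_sqrt (sum_nonneg fun _ _ => sq_nonneg _)]
    · rw [Real.sq_sqrt (sum_nonneg fun _ _ => sq_nonneg _)]
  have h2 : ‖∑ n ∈ Ico M R \ S, (th n : 𝕜) * (x + y) n‖ ≤
      ‖∑ n ∈ Ico M R \ S, (th n : 𝕜) * x n‖ + ‖∑ n ∈ Ico M R \ S, (th n : 𝕜) * y n‖ := by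
    have : ∑ n ∈ Ico M R \ S, (th n : 𝕜) * (x + y) n =
        ∑ n ∈ Ico M R \ S, (th n : 𝕜) * x n + ∑ n ∈ Ico M R \ S, (th n : 𝕜) * y n := by
      rw [← sum_add_distrib]
      exact sum_congr rfl fun n _ => by rw [Pi.add_apply, mul_add]
    rw [this]
    exact norm_add_le _ _
  unfold val
  linarith

lemma val_smul (c : 𝕜) (x : ℕ → 𝕜) (M R : ℕ) (S : Finset ℕ) :
    val (c • x) M R S = ‖c‖ * val x M R S := by
  unfold val
  have h1 : ∑ n ∈ S, ‖(c • x) n‖ ^ 2 = ‖c‖ ^ 2 * ∑ n ∈ S, ‖x n‖ ^ 2 := by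
    rw [mul_sum]
    exact sum_congr rfl fun n _ => by rw [Pi.smul_apply, smul_eq_mul, norm_mul, mul_pow]
  have h2 : ∑ n ∈ Ico M R \ S, (th n : 𝕜) * (c • x) n =
      c * ∑ n ∈ Ico M R \ S, (th n : 𝕜) * x n := by
    rw [mul_sum]
    exact sum_congr rfl fun n _ => by rw [Pi.smul_apply, smul_eq_mul]; ring
  rw [h1, h2, norm_mul, Real.sqrt_mul (sq_nonneg _), Real.sqrt_sq (norm_nonneg _)]
  ring

lemma Bd.zero : Bd (0 : ℕ → 𝕜) 0 := ⟨le_refl _, fun M R S _ => by simp [val]⟩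

lemma Bd.add {x y : ℕ → 𝕜} {A B : ℝ} (hx : Bd x A) (hy : Bd y B) : Bd (x + y) (A + B) :=
  ⟨add_nonneg hx.1 hy.1, fun M R S hS =>
    (val_add x y M R S).trans (add_le_add (hx.2 M R S hS) (hy.2 M R S hS))⟩

lemma Bd.smul {x : ℕ → 𝕜} {A : ℝ} (hx : Bd x A) (c : 𝕜) : Bd (c • x) (‖c‖ * A) :=
  ⟨mul_nonneg (norm_nonneg _) hx.1, fun M R S hS => by
    rw [val_smul]; exact mul_le_mul_of_nonneg_left (hx.2 M R S hS) (norm_nonneg _)⟩

lemma Bd.mono {x : ℕ → 𝕜} {A B : ℝ} (hx : Bd x A) (h : A ≤ B) : Bd x B :=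
  ⟨hx.1.trans h, fun M R S hS => (hx.2 M R S hS).trans h⟩

lemma Bd.of_tendsto {x : ℕ → ℕ → 𝕜} {y : ℕ → 𝕜} {B : ℝ}
    (hlim : ∀ t, Tendsto (fun i => x i t) atTop (𝓝 (y t))) (hx : ∀ᶠ i in atTop, Bd (x i) B) :
    Bd y B := by
  obtain ⟨i, hi⟩ := hx.exists
  refine ⟨hi.1, fun M R S hS => ?_⟩
  have h1 : Tendsto (fun i => val (x i) M R S) atTop (𝓝 (val y M R S)) := by
    unfold val
    refine Tendsto.add ?_ ?_
    · exact (Real.continuous_sqrt.tendsto _).comp
        (tendsto_finsetSum _ fun n _ => ((hlim n).norm).pow 2)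
    · exact ((tendsto_finsetSum _ fun n _ => (hlim n).const_mul _).norm).const_mul _
  exact le_of_tendsto h1 (hx.mono fun i hi => hi.2 M R S hS)

/-! ### Property (A) -/

/-- Adding an element with coefficient of modulus one to `S`. -/
lemma val_insert {z : ℕ → 𝕜} (hz : ∀ n, ‖z n‖ ≤ 1) {i : ℕ} (hi : ‖z i‖ = 1) (M R : ℕ)
    (S : Finset ℕ) (hS : S.card ≤ M) (hiS : i ∉ S) :
    val z M R S ≤ val z (max M (S.card + 1)) R (insert i S) := by
  set k := S.card
  set T := Ico M R \ S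
  set T' := Ico (max M (k + 1)) R \ insert i S
  have hT' : T' ⊆ T := by
    intro n hn
    simp only [T, T', Finset.mem_sdiff, mem_Ico, mem_insert, not_or] at hn ⊢
    exact ⟨⟨(le_max_left _ _).trans hn.1.1, hn.1.2⟩, hn.2.2⟩
  have hdiff : T \ T' ⊆ {i, k} := by
    intro n hn
    simp only [T, T', Finset.mem_sdiff, mem_Ico, mem_insert, mem_singleton, not_or, not_and] at hn ⊢
    obtain ⟨⟨⟨h1, h2⟩, h3⟩, h4⟩ := hn
    by_contra hcon
    push Not at hcon
    apply h4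
    · exact ⟨max_le h1 (by omega), h2⟩
    · exact hcon.1
    · exact h3
  have hcard : (T \ T').card ≤ 2 := (card_le_card hdiff).trans card_le_two
  have hsum : ‖∑ n ∈ T, (th n : 𝕜) * z n‖ ≤ ‖∑ n ∈ T', (th n : 𝕜) * z n‖ + 2 * th k := by
    rw [← sum_sdiff hT']
    refine (norm_add_le _ _).trans ?_
    have h1 : ‖∑ n ∈ T \ T', (th n : 𝕜) * z n‖ ≤ ∑ _n ∈ T \ T', th k := by
      refine norm_sum_le_of_le _ fun n hn => ?_
      have hn' : k ≤ n := by
        have := (mem_Ico.1 (Finset.mem_sdiff.1 (Finset.mem_sdiff.1 hn).1).1).1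
        omega
      rw [norm_mul, RCLike.norm_ofReal, abs_of_pos (th_pos n)]
      calc th n * ‖z n‖ ≤ th k * 1 :=
            mul_le_mul (th_anti hn') (hz n) (norm_nonneg _) (th_pos k).le
        _ = th k := mul_one _
    rw [sum_const, nsmul_eq_mul] at h1
    have h2 : ((T \ T').card : ℝ) * th k ≤ 2 * th k :=
      mul_le_mul_of_nonneg_right (by exact_mod_cast hcard) (th_pos k).le
    linarith
  have hs : ∑ n ∈ insert i S, ‖z n‖ ^ 2 = ∑ n ∈ S, ‖z n‖ ^ 2 + 1 := by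
    rw [sum_insert hiS, hi]; ring
  set s := ∑ n ∈ S, ‖z n‖ ^ 2
  have hs0 : 0 ≤ s := sum_nonneg fun _ _ => sq_nonneg _
  have hsk : s ≤ k := by
    calc s ≤ ∑ _n ∈ S, (1 : ℝ) := sum_le_sum fun n _ => by
          have := pow_le_pow_left₀ (norm_nonneg _) (hz n) 2
          simpa using this
      _ = k := by simp [k]
  have hgain : Real.sqrt s + 1 / 2 * th k ≤ Real.sqrt (s + 1) := by
    have h1 : 0 < Real.sqrt (k + 1) := by positivity
    have h2 : Real.sqrt (s + 1) ≤ Real.sqrt (k + 1) := Real.sqrt_le_sqrt (by linarith)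
    have h3 : Real.sqrt s ≤ Real.sqrt (s + 1) := Real.sqrt_le_sqrt (by linarith)
    have h4 := Real.sq_sqrt hs0
    have h5 := Real.sq_sqrt (by linarith : 0 ≤ s + 1)
    have h6 : (Real.sqrt (s + 1) - Real.sqrt s) * (Real.sqrt (s + 1) + Real.sqrt s) = 1 := by
      nlinarith
    have h7 : (Real.sqrt (s + 1) - Real.sqrt s) * (Real.sqrt (s + 1) + Real.sqrt s) ≤
        (Real.sqrt (s + 1) - Real.sqrt s) * (2 * Real.sqrt (k + 1)) :=
      mul_le_mul_of_nonneg_left (by linarith) (by linarith)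
    rw [h6] at h7
    have h8 : 1 / 2 * th k ≤ Real.sqrt (s + 1) - Real.sqrt s := by
      unfold th
      rw [← mul_div_assoc, mul_one, div_le_iff₀ h1]
      linarith
    linarith
  unfold val
  rw [hs]
  have : (0 : ℝ) ≤ th k := (th_pos k).le
  linarith

/-- Absorbing a set of coefficients of modulus one into `S`. -/
lemma val_union {z : ℕ → 𝕜} (hz : ∀ n, ‖z n‖ ≤ 1) (A : Finset ℕ) (hA : ∀ i ∈ A, ‖z i‖ = 1) (M R : ℕ)
    (S : Finset ℕ) (hS : S.card ≤ M) :
    ∃ M', (S ∪ A).card ≤ M' ∧ val z M R S ≤ val z M' R (S ∪ A) := by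
  classical
  induction A using Finset.induction_on with
  | empty => exact ⟨M, by simpa using hS, by simp⟩
  | insert a A ha ih =>
    obtain ⟨M', h1, h2⟩ := ih fun i hi => hA i (mem_insert_of_mem hi)
    by_cases haS : a ∈ S ∪ A
    · refine ⟨M', ?_, ?_⟩
      · rw [union_insert, insert_eq_of_mem haS]; exact h1
      · rw [union_insert, insert_eq_of_mem haS]; exact h2
    · refine ⟨max M' ((S ∪ A).card + 1), ?_, ?_⟩
      · rw [union_insert, card_insert_of_notMem haS]; exact le_max_right _ _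
      · rw [union_insert]
        exact h2.trans (val_insert hz (hA a (mem_insert_self _ _)) M' R _ h1 haS)

/-- The flat vector with signs `ε` on `A`. -/
noncomputable def flat (A : Finset ℕ) (ε : ℕ → 𝕜) : ℕ → 𝕜 := fun n => if n ∈ A then ε n else 0

/-- Transfer of the bound. -/
lemma Bd.transfer {x : ℕ → 𝕜} {A B : Finset ℕ} {ε η : ℕ → 𝕜} (hx : ∀ n, ‖x n‖ ≤ 1)
    (hcard : A.card = B.card) (hdisj : Disjoint A B) (hxA : ∀ n ∈ A, x n = 0)
    (hxB : ∀ n ∈ B, x n = 0) (hε : ∀ n ∈ A, ‖ε n‖ = 1) (hη : ∀ n ∈ B, ‖η n‖ = 1) {C : ℝ}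
    (h : Bd (x + flat B η) C) : Bd (x + flat A ε) C := by
  classical
  set z := x + flat A ε with hz
  have hzA : ∀ n ∈ A, z n = ε n := fun n hn => by simp [hz, flat, hxA n hn, hn]
  have hznA : ∀ n, n ∉ A → z n = x n := fun n hn => by simp [hz, flat, hn]
  set w := x + flat B η with hw
  have hwB : ∀ n ∈ B, w n = η n := fun n hn => by simp [hw, flat, hxB n hn, hn]
  have hwnB : ∀ n, n ∉ B → w n = x n := fun n hn => by simp [hw, flat, hn]
  have hz1 : ∀ n, ‖z n‖ ≤ 1 := by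
    intro n
    by_cases hn : n ∈ A
    · rw [hzA n hn, hε n hn]
    · rw [hznA n hn]; exact hx n
  refine ⟨h.1, fun M R S hS => ?_⟩
  obtain ⟨M', h1, h2⟩ := val_union hz1 A (fun i hi => by rw [hzA i hi]; exact hε i hi) M R S hS
  refine h2.trans ?_
  set S' := S ∪ A
  have hAS : A ⊆ S' := subset_union_right
  set S'' := (S' \ B) \ A ∪ B
  have hABd : A ⊆ S' \ B := fun n hn =>
    Finset.mem_sdiff.2 ⟨hAS hn, fun hB => (disjoint_left.1 hdisj hn hB)⟩
  have hdis2 : Disjoint ((S' \ B) \ A) B := by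
    rw [disjoint_left]
    intro n hn hB
    exact (Finset.mem_sdiff.1 (Finset.mem_sdiff.1 hn).1).2 hB
  have hc : S''.card ≤ M' := by
    rw [card_union_of_disjoint hdis2, card_sdiff_of_subset hABd, ← hcard,
      Nat.sub_add_cancel (card_le_card hABd)]
    exact (card_le_card sdiff_subset).trans h1
  have h3 := h.2 M' R S'' hc
  have e1 : ∑ n ∈ S', ‖z n‖ ^ 2 = ∑ n ∈ S'', ‖w n‖ ^ 2 := by
    have f1 : ∑ n ∈ S', ‖z n‖ ^ 2 = ∑ n ∈ S' \ B, ‖z n‖ ^ 2 := by
      symm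
      refine sum_subset sdiff_subset fun n hn hn' => ?_
      have hB : n ∈ B := by
        by_contra hB
        exact hn' (Finset.mem_sdiff.2 ⟨hn, hB⟩)
      have hnA : n ∉ A := fun hA => disjoint_left.1 hdisj hA hB
      rw [hznA n hnA, hxB n hB]; simp
    rw [f1, ← sum_sdiff hABd, sum_union hdis2]
    congr 1
    · refine sum_congr rfl fun n hn => ?_
      have hnA : n ∉ A := (Finset.mem_sdiff.1 hn).2
      have hnB : n ∉ B := (Finset.mem_sdiff.1 (Finset.mem_sdiff.1 hn).1).2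
      rw [hznA n hnA, hwnB n hnB]
    · have g1 : ∑ n ∈ A, ‖z n‖ ^ 2 = A.card := by
        rw [sum_congr rfl (g := fun _ => (1 : ℝ)) fun n hn => by rw [hzA n hn, hε n hn, one_pow]]
        simp
      have g2 : ∑ n ∈ B, ‖w n‖ ^ 2 = B.card := by
        rw [sum_congr rfl (g := fun _ => (1 : ℝ)) fun n hn => by rw [hwB n hn, hη n hn, one_pow]]
        simp
      rw [g1, g2, hcard]
  have e2 : ∑ n ∈ Ico M' R \ S', (th n : 𝕜) * z n = ∑ n ∈ Ico M' R \ S'', (th n : 𝕜) * w n := by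
    have f1 : ∑ n ∈ Ico M' R \ S', (th n : 𝕜) * z n = ∑ n ∈ Ico M' R \ (S' ∪ B), (th n : 𝕜) * x n := by
      symm
      have : ∑ n ∈ Ico M' R \ S', (th n : 𝕜) * z n = ∑ n ∈ Ico M' R \ S', (th n : 𝕜) * x n := by
        refine sum_congr rfl fun n hn => ?_
        rw [hznA n fun hA => (Finset.mem_sdiff.1 hn).2 (hAS hA)]
      rw [this]
      refine sum_subset (sdiff_subset_sdiff (Subset.refl _) subset_union_left) fun n hn hn' => ?_
      have hB : n ∈ B := by
        by_contra hB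
        exact hn' (Finset.mem_sdiff.2 ⟨(Finset.mem_sdiff.1 hn).1, by
          rw [mem_union, not_or]; exact ⟨(Finset.mem_sdiff.1 hn).2, hB⟩⟩)
      rw [hxB n hB, mul_zero]
    have f2 : ∑ n ∈ Ico M' R \ S'', (th n : 𝕜) * w n =
        ∑ n ∈ Ico M' R \ (S' ∪ B), (th n : 𝕜) * x n := by
      symm
      have : ∑ n ∈ Ico M' R \ S'', (th n : 𝕜) * w n = ∑ n ∈ Ico M' R \ S'', (th n : 𝕜) * x n := by
        refine sum_congr rfl fun n hn => ?_
        rw [hwnB n fun hB => (Finset.mem_sdiff.1 hn).2 (mem_union_right _ hB)]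
      rw [this]
      refine sum_subset (sdiff_subset_sdiff (Subset.refl _) ?_) fun n hn hn' => ?_
      · intro n hn
        rcases mem_union.1 hn with h' | h'
        · exact mem_union_left _ (Finset.mem_sdiff.1 (Finset.mem_sdiff.1 h').1).1
        · exact mem_union_right _ h'
      · have hnS'' : n ∉ S'' := (Finset.mem_sdiff.1 hn).2
        have hB : n ∉ B := fun hB => hnS'' (mem_union_right _ hB)
        have hA : n ∈ A := by
          by_contra hA
          apply hn'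
          refine Finset.mem_sdiff.2 ⟨(Finset.mem_sdiff.1 hn).1, fun h' => ?_⟩
          rcases mem_union.1 h' with h'' | h''
          · exact hnS'' (mem_union_left _ (Finset.mem_sdiff.2 ⟨Finset.mem_sdiff.2 ⟨h'', hB⟩, hA⟩))
          · exact hB h''
        rw [hxA n hA, mul_zero]
    rw [f1, f2]
  unfold val at h3 ⊢
  rw [e1, e2]
  exact h3

end Q197.PropA
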