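import Mathlib
import Pool.Agent.Q197.PropA

/-!
# The Banach space with a conditional basis with Property (A)
-/

set_option autoImplicit false

namespace Q197.PropASpace

open Finset Filter Topology Q197.PropA

variable {𝕜 : Type} [RCLike 𝕜]

variable (𝕜) in
/-- All sequences of finite norm. -/
def Vsub : Submodule 𝕜 (ℕ → 𝕜) where
  carrier := {x | ∃ B, Bd x B}
  zero_mem' := ⟨0, Bd.zero⟩
  add_mem' := by
    rintro x y ⟨A, hA⟩ ⟨B, hB⟩
    exact ⟨A + B, hA.add hB⟩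
  smul_mem' := by
    rintro c x ⟨A, hA⟩
    exact ⟨_, hA.smul c⟩

variable (𝕜) in
/-- The space of all sequences of finite norm. -/
def V : Type := Vsub 𝕜

noncomputable instance : AddCommGroup (V 𝕜) := inferInstanceAs (AddCommGroup (Vsub 𝕜))
noncomputable instance : Module 𝕜 (V 𝕜) := inferInstanceAs (Module 𝕜 (Vsub 𝕜))

/-- The underlying sequence. -/
def V.fn (x : V 𝕜) : ℕ → 𝕜 := x.1

lemma V.ext {x y : V 𝕜} (h : x.fn = y.fn) : x = y := Subtype.ext h

lemma V.fn_add (x y : V 𝕜) : (x + y).fn = x.fn + y.fn := rfl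
lemma V.fn_smul (c : 𝕜) (x : V 𝕜) : (c • x).fn = c • x.fn := rfl
lemma V.fn_zero : (0 : V 𝕜).fn = 0 := rfl
lemma V.fn_sub (x y : V 𝕜) : (x - y).fn = x.fn - y.fn := rfl
lemma V.exists_bd (x : V 𝕜) : ∃ B, Bd x.fn B := x.2

/-- Constructor. -/
def V.mk (g : ℕ → 𝕜) (hb : ∃ B, Bd g B) : V 𝕜 := ⟨g, hb⟩

lemma V.fn_mk (g : ℕ → 𝕜) (hb : ∃ B, Bd g B) : (V.mk g hb).fn = g := rfl

noncomputable instance : Norm (V 𝕜) := ⟨fun x => sInf {B | Bd x.fn B}⟩

lemma V.bddBelow (x : V 𝕜) : BddBelow {B | Bd x.fn B} := ⟨0, fun _ h => h.1⟩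

lemma V.bd (x : V 𝕜) : Bd x.fn ‖x‖ := by
  have hne : {B | Bd x.fn B}.Nonempty := x.exists_bd
  have h0 : 0 ≤ sInf {B | Bd x.fn B} := le_csInf hne fun _ h => h.1
  exact ⟨h0, fun M R S hS => le_csInf hne fun B hB => hB.2 M R S hS⟩

lemma V.norm_le {x : V 𝕜} {B : ℝ} (h : Bd x.fn B) : ‖x‖ ≤ B := csInf_le x.bddBelow h

lemma V.norm_nonneg' (x : V 𝕜) : 0 ≤ ‖x‖ := x.bd.1

lemma V.coord_le (x : V 𝕜) (n : ℕ) : ‖x.fn n‖ ≤ ‖x‖ := x.bd.coord n

lemma V.core : NormedSpace.Core 𝕜 (V 𝕜) where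
  norm_nonneg x := x.norm_nonneg'
  norm_smul c x := by
    refine le_antisymm (V.norm_le (x.bd.smul c)) ?_
    rcases eq_or_ne c 0 with rfl | hc
    · simpa using (V.norm_nonneg' ((0 : 𝕜) • x))
    · have h1 : ‖x‖ ≤ ‖c⁻¹‖ * ‖c • x‖ := by
        refine V.norm_le ?_
        have := (c • x).bd.smul c⁻¹
        rwa [V.fn_smul, inv_smul_smul₀ hc] at this
      have h2 : ‖c‖ * ‖c⁻¹‖ = 1 := by rw [← norm_mul, mul_inv_cancel₀ hc, norm_one]
      calc ‖c‖ * ‖x‖ ≤ ‖c‖ * (‖c⁻¹‖ * ‖c • x‖) := mul_le_mul_of_nonneg_left h1 (norm_nonneg _)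
        _ = ‖c • x‖ := by rw [← mul_assoc, h2, one_mul]
  norm_triangle x y := V.norm_le (x.bd.add y.bd)
  norm_eq_zero_iff x := by
    constructor
    · intro h
      refine V.ext (funext fun t => ?_)
      have := x.coord_le t
      rw [h] at this
      exact norm_le_zero_iff.1 this
    · rintro rfl
      exact le_antisymm (V.norm_le Bd.zero) (V.norm_nonneg' _)

noncomputable instance : NormedAddCommGroup (V 𝕜) := NormedAddCommGroup.ofCore V.core
noncomputable instance : NormedSpace 𝕜 (V 𝕜) := NormedSpace.ofCore V.core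

instance : CompleteSpace (V 𝕜) := by
  refine Metric.complete_of_cauchySeq_tendsto fun x hx => ?_
  have hpt : ∀ t, ∃ a, Tendsto (fun n => (x n).fn t) atTop (𝓝 a) := by
    intro t
    refine cauchySeq_tendsto_of_complete ?_
    rw [Metric.cauchySeq_iff] at hx ⊢
    intro ε hε
    obtain ⟨N, hN⟩ := hx ε hε
    refine ⟨N, fun m hm n hn => ?_⟩
    rw [dist_eq_norm, ← Pi.sub_apply, ← V.fn_sub]
    refine lt_of_le_of_lt ((x m - x n).coord_le t) ?_
    rw [← dist_eq_norm]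
    exact hN m hm n hn
  choose g hg using hpt
  have hlim : ∀ ε > 0, ∃ N, ∀ n ≥ N, Bd ((x n).fn - g) ε := by
    intro ε hε
    obtain ⟨N, hN⟩ := Metric.cauchySeq_iff.1 hx ε hε
    refine ⟨N, fun n hn => ?_⟩
    refine Bd.of_tendsto (x := fun m => (x n).fn - (x m).fn)
      (fun t => tendsto_const_nhds.sub (hg t)) ?_
    filter_upwards [eventually_ge_atTop N] with m hm
    have h1 := (x n - x m).bd
    refine Bd.mono (A := ‖x n - x m‖) h1 ?_
    rw [← dist_eq_norm]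
    exact (hN n hn m hm).le
  have hbd : ∃ B, Bd g B := by
    obtain ⟨N, hN⟩ := hlim 1 one_pos
    have h1 := (hN N le_rfl).smul (-1)
    have h2 := (x N).bd.add h1
    refine ⟨‖x N‖ + ‖(-1 : 𝕜)‖ * 1, ?_⟩
    have : (x N).fn + (-1 : 𝕜) • ((x N).fn - g) = g := by
      funext t; simp
    rwa [this] at h2
  refine ⟨V.mk g hbd, ?_⟩
  rw [Metric.tendsto_atTop]
  intro ε hε
  obtain ⟨N, hN⟩ := hlim (ε / 2) (half_pos hε)
  refine ⟨N, fun n hn => ?_⟩
  rw [dist_eq_norm]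
  have : ‖x n - V.mk g hbd‖ ≤ ε / 2 := V.norm_le (hN n hn)
  linarith

variable (𝕜) in
/-- The coordinate functionals on `V`. -/
noncomputable def coefV (n : ℕ) : V 𝕜 →L[𝕜] 𝕜 :=
  LinearMap.mkContinuous
    { toFun := fun x => x.fn n
      map_add' := fun x y => rfl
      map_smul' := fun r x => rfl } 1 fun x => by rw [one_mul]; exact x.coord_le n

lemma coefV_apply (n : ℕ) (x : V 𝕜) : coefV 𝕜 n x = x.fn n := rfl

lemma th_le_one (n : ℕ) : th n ≤ 1 := by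
  have := th_anti (Nat.zero_le n)
  simpa [th] using this

lemma bd_single (n : ℕ) : Bd (Pi.single n (1 : 𝕜)) 1 := by
  refine ⟨zero_le_one, fun M R S _ => ?_⟩
  unfold PropA.val
  by_cases hn : n ∈ S
  · have h1 : ∑ m ∈ S, ‖(Pi.single n (1 : 𝕜) : ℕ → 𝕜) m‖ ^ 2 = 1 := by
      rw [Finset.sum_eq_single n]
      · simp
      · intro m _ hmn; simp [Pi.single_eq_of_ne hmn]
      · intro h; exact absurd hn h
    have h2 : ∑ m ∈ Ico M R \ S, (th m : 𝕜) * (Pi.single n (1 : 𝕜) : ℕ → 𝕜) m = 0 := by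
      refine Finset.sum_eq_zero fun m hm => ?_
      have : m ≠ n := by rintro rfl; exact (Finset.mem_sdiff.1 hm).2 hn
      rw [Pi.single_eq_of_ne this, mul_zero]
    rw [h1, h2]; simp
  · have h1 : ∑ m ∈ S, ‖(Pi.single n (1 : 𝕜) : ℕ → 𝕜) m‖ ^ 2 = 0 := by
      refine Finset.sum_eq_zero fun m hm => ?_
      have : m ≠ n := by rintro rfl; exact hn hm
      rw [Pi.single_eq_of_ne this]; simp
    have h2 : ‖∑ m ∈ Ico M R \ S, (th m : 𝕜) * (Pi.single n (1 : 𝕜) : ℕ → 𝕜) m‖ ≤ 1 := by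
      by_cases hn' : n ∈ Ico M R \ S
      · rw [Finset.sum_eq_single n]
        · rw [Pi.single_eq_same, mul_one, RCLike.norm_ofReal, abs_of_pos (th_pos n)]
          exact th_le_one n
        · intro m _ hmn; rw [Pi.single_eq_of_ne hmn, mul_zero]
        · intro h; exact absurd hn' h
      · rw [Finset.sum_eq_zero fun m hm => ?_]
        · simp
        · have : m ≠ n := by rintro rfl; exact hn' hm
          rw [Pi.single_eq_of_ne this, mul_zero]
    rw [h1, Real.sqrt_zero]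
    linarith

variable (𝕜) in
/-- The unit vectors. -/
noncomputable def eV (n : ℕ) : V 𝕜 := V.mk (Pi.single n 1) ⟨1, bd_single n⟩

lemma eV_fn (n : ℕ) : (eV 𝕜 n).fn = Pi.single n 1 := rfl

lemma eV_norm (n : ℕ) : ‖eV 𝕜 n‖ = 1 := by
  refine le_antisymm (V.norm_le (bd_single n)) ?_
  have := (eV 𝕜 n).coord_le n
  rwa [eV_fn, Pi.single_eq_same, norm_one] at this

lemma fn_sum {ι : Type*} (s : Finset ι) (x : ι → V 𝕜) (t : ℕ) :
    (∑ i ∈ s, x i).fn t = ∑ i ∈ s, (x i).fn t := by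
  have := map_sum (coefV 𝕜 t) x s
  exact this

lemma fn_sum_smul (A : Finset ℕ) (ε : ℕ → 𝕜) :
    (∑ n ∈ A, ε n • eV 𝕜 n).fn = flat A ε := by
  funext t
  rw [fn_sum]
  unfold flat
  by_cases ht : t ∈ A
  · rw [if_pos ht, Finset.sum_eq_single t]
    · simp [V.fn_smul, eV_fn]
    · intro n _ hnt; simp [V.fn_smul, eV_fn, Pi.single_eq_of_ne (Ne.symm hnt)]
    · intro h; exact absurd ht h
  · rw [if_neg ht]
    refine Finset.sum_eq_zero fun n hn => ?_
    have : t ≠ n := by rintro rfl; exact ht hn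
    simp [V.fn_smul, eV_fn, Pi.single_eq_of_ne this]

/-- Truncation of sequences. -/
def tr (N : ℕ) (x : ℕ → 𝕜) : ℕ → 𝕜 := fun n => if n < N then x n else 0

lemma Bd.tr {x : ℕ → 𝕜} {B : ℝ} (h : Bd x B) (N : ℕ) : Bd (tr N x) B := by
  refine ⟨h.1, fun M R S hS => ?_⟩
  have h1 := h.2 M (min R N) (S.filter (· < N)) ((card_filter_le _ _).trans hS)
  refine le_trans (le_of_eq ?_) h1
  unfold PropA.val
  have e1 : ∑ n ∈ S, ‖PropASpace.tr N x n‖ ^ 2 = ∑ n ∈ S.filter (· < N), ‖x n‖ ^ 2 := by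
    rw [sum_filter]
    refine sum_congr rfl fun n _ => ?_
    unfold PropASpace.tr
    split_ifs <;> simp
  have e2 : ∑ n ∈ Ico M R \ S, (th n : 𝕜) * PropASpace.tr N x n =
      ∑ n ∈ Ico M (min R N) \ S.filter (· < N), (th n : 𝕜) * x n := by
    have : Ico M (min R N) \ S.filter (· < N) = (Ico M R \ S).filter (· < N) := by
      ext n
      simp only [Finset.mem_sdiff, mem_Ico, mem_filter, lt_min_iff]
      tauto
    rw [this, sum_filter]
    refine sum_congr rfl fun n _ => ?_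
    unfold PropASpace.tr
    split_ifs <;> simp
  rw [e1, e2]

/-- Truncation as an operator. -/
noncomputable def Tr (N : ℕ) : V 𝕜 →L[𝕜] V 𝕜 :=
  LinearMap.mkContinuous
    { toFun := fun x => V.mk (tr N x.fn) ⟨_, Bd.tr x.bd N⟩
      map_add' := fun x y => V.ext (by
        funext t
        simp only [V.fn_mk, V.fn_add, tr, Pi.add_apply]
        split_ifs <;> simp)
      map_smul' := fun r x => V.ext (by
        funext t
        simp only [V.fn_mk, V.fn_smul, tr, Pi.smul_apply, RingHom.id_apply]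
        split_ifs <;> simp) } 1 fun x => by
    rw [one_mul]; exact V.norm_le (Bd.tr x.bd N)

lemma Tr_fn (N : ℕ) (x : V 𝕜) : (Tr N x).fn = tr N x.fn := rfl

lemma Tr_norm_le (N : ℕ) (x : V 𝕜) : ‖Tr N x‖ ≤ ‖x‖ := V.norm_le (Bd.tr x.bd N)

lemma Tr_eq_sum (N : ℕ) (x : V 𝕜) : Tr N x = ∑ n ∈ range N, coefV 𝕜 n x • eV 𝕜 n := by
  refine V.ext ?_
  rw [fn_sum_smul, Tr_fn]
  funext t
  simp only [tr, flat, mem_range, coefV_apply]

variable (𝕜) in
/-- The closed linear span of the unit vectors. -/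
noncomputable def Xs : Submodule 𝕜 (V 𝕜) := (Submodule.span 𝕜 (Set.range (eV 𝕜))).topologicalClosure

variable (𝕜) in
/-- The basis. -/
noncomputable def e (n : ℕ) : Xs 𝕜 :=
  ⟨eV 𝕜 n, subset_closure (Submodule.subset_span ⟨n, rfl⟩)⟩

variable (𝕜) in
/-- The coordinate functionals. -/
noncomputable def f (n : ℕ) : StrongDual 𝕜 (Xs 𝕜) := (coefV 𝕜 n).comp (Xs 𝕜).subtypeL

lemma f_apply (n : ℕ) (x : Xs 𝕜) : f 𝕜 n x = (x : V 𝕜).fn n := rfl

instance : CompleteSpace (Xs 𝕜) :=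
  (Submodule.isClosed_topologicalClosure _).completeSpace_coe

lemma f_e (n j : ℕ) : f 𝕜 n (e 𝕜 j) = if n = j then 1 else 0 := by
  rw [f_apply]
  change (eV 𝕜 j).fn n = _
  rw [eV_fn, Pi.single_apply]

lemma e_norm (n : ℕ) : ‖e 𝕜 n‖ = 1 := eV_norm n

lemma f_norm (n : ℕ) : ‖f 𝕜 n‖ = 1 := by
  refine le_antisymm (ContinuousLinearMap.opNorm_le_bound _ zero_le_one fun x => ?_) ?_
  · rw [one_mul]; exact (x : V 𝕜).coord_le n
  · have := (f 𝕜 n).le_opNorm (e 𝕜 n)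
    rw [f_e, if_pos rfl, norm_one, e_norm, mul_one] at this
    exact this

lemma total (x : Xs 𝕜) (h : ∀ n, f 𝕜 n x = 0) : x = 0 :=
  Subtype.ext (V.ext (funext fun n => h n))

lemma coe_sum_smul (A : Finset ℕ) (c : ℕ → 𝕜) :
    ((∑ n ∈ A, c n • e 𝕜 n : Xs 𝕜) : V 𝕜) = ∑ n ∈ A, c n • eV 𝕜 n := by
  rw [Submodule.coe_sum]
  rfl

lemma tendsto_partial (x : Xs 𝕜) :
    Tendsto (fun N => ∑ n ∈ range N, f 𝕜 n x • e 𝕜 n) atTop (𝓝 x) := by
  rw [tendsto_subtype_rng]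
  have h1 : ∀ N, ((∑ n ∈ range N, f 𝕜 n x • e 𝕜 n : Xs 𝕜) : V 𝕜) = Tr N (x : V 𝕜) := by
    intro N
    rw [coe_sum_smul, Tr_eq_sum]
    rfl
  simp only [h1]
  rw [Metric.tendsto_atTop]
  intro ε hε
  have hx : (x : V 𝕜) ∈ closure (Submodule.span 𝕜 (Set.range (eV 𝕜)) : Set (V 𝕜)) := x.2
  obtain ⟨y, hy, hxy⟩ := Metric.mem_closure_iff.1 hx (ε / 2) (half_pos hε)
  have hfin : ∃ N, ∀ n, N ≤ n → Tr n y = y := by
    refine Submodule.span_induction (p := fun y _ => ∃ N, ∀ n, N ≤ n → Tr n y = y) ?_ ?_ ?_ ?_ hy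
    · rintro _ ⟨m, rfl⟩
      refine ⟨m + 1, fun n hn => V.ext ?_⟩
      rw [Tr_fn, eV_fn]
      funext t
      unfold tr
      by_cases ht : t < n
      · rw [if_pos ht]
      · rw [if_neg ht, Pi.single_eq_of_ne (by omega)]
    · exact ⟨0, fun n _ => map_zero _⟩
    · rintro a b _ _ ⟨N, hN⟩ ⟨M, hM⟩
      refine ⟨max N M, fun n hn => ?_⟩
      rw [map_add, hN n ((le_max_left _ _).trans hn), hM n ((le_max_right _ _).trans hn)]
    · rintro c a _ ⟨N, hN⟩
      exact ⟨N, fun n hn => by rw [map_smul, hN n hn]⟩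
  obtain ⟨N, hN⟩ := hfin
  refine ⟨N, fun n hn => ?_⟩
  have h2 : Tr n (x : V 𝕜) - x = Tr n ((x : V 𝕜) - y) - ((x : V 𝕜) - y) := by
    rw [map_sub, hN n hn]; abel
  rw [dist_eq_norm, h2]
  have h3 := Tr_norm_le n ((x : V 𝕜) - y)
  rw [dist_eq_norm] at hxy
  refine lt_of_le_of_lt (norm_sub_le _ _) ?_
  linarith

lemma dense : closure (Submodule.span 𝕜 (Set.range (e 𝕜)) : Set (Xs 𝕜)) = Set.univ := by
  refine Set.eq_univ_of_forall fun x => ?_
  refine mem_closure_of_tendsto (tendsto_partial x) (Eventually.of_forall fun N => ?_)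
  exact Submodule.sum_mem _ fun n _ => Submodule.smul_mem _ _ (Submodule.subset_span ⟨n, rfl⟩)

lemma propertyA (x : Xs 𝕜) (A B : Finset ℕ) (ε η : ℕ → 𝕜) (hx : ∀ n, ‖f 𝕜 n x‖ ≤ 1)
    (hcard : A.card = B.card) (hdisj : Disjoint A B) (hAB : ∀ n ∈ A ∪ B, f 𝕜 n x = 0)
    (hε : ∀ n ∈ A, ‖ε n‖ = 1) (hη : ∀ n ∈ B, ‖η n‖ = 1) :
    ‖x + ∑ n ∈ A, ε n • e 𝕜 n‖ = ‖x + ∑ n ∈ B, η n • e 𝕜 n‖ := by
  have key : ∀ (A B : Finset ℕ) (ε η : ℕ → 𝕜), A.card = B.card → Disjoint A B →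
      (∀ n ∈ A ∪ B, f 𝕜 n x = 0) → (∀ n ∈ A, ‖ε n‖ = 1) → (∀ n ∈ B, ‖η n‖ = 1) →
      ‖x + ∑ n ∈ A, ε n • e 𝕜 n‖ ≤ ‖x + ∑ n ∈ B, η n • e 𝕜 n‖ := by
    intro A B ε η hcard hdisj hAB hε hη
    have h1 : ∀ (A : Finset ℕ) (ε : ℕ → 𝕜), ((x + ∑ n ∈ A, ε n • e 𝕜 n : Xs 𝕜) : V 𝕜).fn =
        (x : V 𝕜).fn + flat A ε := by
      intro A ε
      rw [Submodule.coe_add, V.fn_add, coe_sum_smul, fn_sum_smul]
    have h2 := ((x + ∑ n ∈ B, η n • e 𝕜 n : Xs 𝕜) : V 𝕜).bd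
    rw [h1] at h2
    have h3 := Bd.transfer (A := A) (ε := ε) hx hcard hdisj
      (fun n hn => hAB n (mem_union_left _ hn)) (fun n hn => hAB n (mem_union_right _ hn)) hε hη h2
    have h4 : Bd ((x + ∑ n ∈ A, ε n • e 𝕜 n : Xs 𝕜) : V 𝕜).fn
        ‖((x + ∑ n ∈ B, η n • e 𝕜 n : Xs 𝕜) : V 𝕜)‖ := by
      rw [h1]; exact h3
    exact V.norm_le h4
  exact le_antisymm (key A B ε η hcard hdisj hAB hε hη)
    (key B A η ε hcard.symm hdisj.symm (by rw [union_comm]; exact hAB) hη hε)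

/-! ### Conditionality -/

/-- Harmonic sums. -/
noncomputable def H (L : ℕ) : ℝ := ∑ n ∈ range L, 1 / ((n : ℝ) + 1)

lemma tendsto_H : Tendsto H atTop atTop := Real.tendsto_sum_range_one_div_nat_succ_atTop

lemma H_nonneg (L : ℕ) : 0 ≤ H L := sum_nonneg fun _ _ => by positivity

/-- Alternating sums. -/
lemma alt_le (M R : ℕ) : |∑ n ∈ Ico M R, (-1 : ℝ) ^ n / ((n : ℝ) + 1)| ≤ 1 / ((M : ℝ) + 1) := by
  have key : ∀ k M : ℕ, 0 ≤ (-1 : ℝ) ^ M * ∑ n ∈ Ico M (M + k), (-1 : ℝ) ^ n / ((n : ℝ) + 1) ∧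
      (-1 : ℝ) ^ M * ∑ n ∈ Ico M (M + k), (-1 : ℝ) ^ n / ((n : ℝ) + 1) ≤ 1 / ((M : ℝ) + 1) := by
    intro k
    induction k with
    | zero => intro M; simp; positivity
    | succ k ih =>
      intro M
      obtain ⟨h1, h2⟩ := ih (M + 1)
      have e1 : ∑ n ∈ Ico M (M + (k + 1)), (-1 : ℝ) ^ n / ((n : ℝ) + 1) =
          (-1 : ℝ) ^ M / ((M : ℝ) + 1) +
            ∑ n ∈ Ico (M + 1) (M + 1 + k), (-1 : ℝ) ^ n / ((n : ℝ) + 1) := by
        rw [show M + (k + 1) = M + 1 + k by ring]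
        exact sum_eq_sum_Ico_succ_bot (by omega) _
      have e2 : (-1 : ℝ) ^ M * (-1 : ℝ) ^ M = 1 := by
        rw [← mul_pow]; simp
      have e3 : (-1 : ℝ) ^ M * ∑ n ∈ Ico M (M + (k + 1)), (-1 : ℝ) ^ n / ((n : ℝ) + 1) =
          1 / ((M : ℝ) + 1) - (-1 : ℝ) ^ (M + 1) *
            ∑ n ∈ Ico (M + 1) (M + 1 + k), (-1 : ℝ) ^ n / ((n : ℝ) + 1) := by
        rw [e1, mul_add, ← mul_div_assoc, e2, pow_succ]; ring
      rw [e3]
      have e4 : 1 / (((M + 1 : ℕ) : ℝ) + 1) ≤ 1 / ((M : ℝ) + 1) := by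
        apply one_div_le_one_div_of_le (by positivity)
        push_cast; linarith
      constructor <;> linarith
  rcases le_or_gt M R with h | h
  · obtain ⟨k, rfl⟩ := Nat.exists_eq_add_of_le h
    obtain ⟨h1, h2⟩ := key k M
    have h3 : |∑ n ∈ Ico M (M + k), (-1 : ℝ) ^ n / ((n : ℝ) + 1)| =
        |(-1 : ℝ) ^ M * ∑ n ∈ Ico M (M + k), (-1 : ℝ) ^ n / ((n : ℝ) + 1)| := by
      rw [abs_mul, abs_pow]; simp
    rw [h3, abs_of_nonneg h1]
    exact h2
  · rw [Ico_eq_empty_of_le h.le, sum_empty, abs_zero]; positivity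

variable (𝕜) in
/-- The alternating coefficients. -/
noncomputable def ac (n : ℕ) : 𝕜 := (((-1) ^ n * th n : ℝ) : 𝕜)

lemma ac_norm (n : ℕ) : ‖ac 𝕜 n‖ = th n := by
  unfold ac
  rw [RCLike.norm_ofReal, abs_mul, abs_pow, abs_neg, abs_one, one_pow, one_mul,
    abs_of_pos (th_pos n)]

lemma th_sq (n : ℕ) : th n ^ 2 = 1 / ((n : ℝ) + 1) := by
  unfold th
  rw [div_pow, one_pow, Real.sq_sqrt (by positivity)]

/-- The norm of the alternating vectors is small. -/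
lemma bd_alt (L : ℕ) : Bd (flat (range L) (ac 𝕜)) (Real.sqrt (H L) + 1) := by
  refine ⟨by positivity, fun M R S hS => ?_⟩
  unfold PropA.val
  have h1 : Real.sqrt (∑ n ∈ S, ‖flat (range L) (ac 𝕜) n‖ ^ 2) ≤ Real.sqrt (H L) := by
    apply Real.sqrt_le_sqrt
    have : ∀ n, ‖flat (range L) (ac 𝕜) n‖ ^ 2 = if n < L then 1 / ((n : ℝ) + 1) else 0 := by
      intro n
      unfold flat
      by_cases hn : n < L
      · rw [if_pos (mem_range.2 hn), if_pos hn, ac_norm, th_sq]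
      · rw [if_neg (by simpa using hn), if_neg hn]; simp
    simp only [this]
    rw [← sum_filter]
    unfold H
    refine sum_le_sum_of_subset_of_nonneg (fun n hn => ?_) fun _ _ _ => by positivity
    exact mem_range.2 (mem_filter.1 hn).2
  have h2 : ‖∑ n ∈ Ico M R \ S, (th n : 𝕜) * flat (range L) (ac 𝕜) n‖ ≤ 2 := by
    have e1 : ∑ n ∈ Ico M R \ S, (th n : 𝕜) * flat (range L) (ac 𝕜) n =
        ((∑ n ∈ Ico M (min R L) \ S, (-1 : ℝ) ^ n / ((n : ℝ) + 1) : ℝ) : 𝕜) := by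
      have e2 : Ico M (min R L) \ S = (Ico M R \ S).filter (· < L) := by
        ext n
        simp only [Finset.mem_sdiff, mem_Ico, mem_filter, lt_min_iff]
        tauto
      rw [e2, sum_filter]
      push_cast
      refine sum_congr rfl fun n _ => ?_
      unfold flat
      by_cases hn : n < L
      · rw [if_pos (mem_range.2 hn), if_pos hn]
        unfold ac
        rw [← RCLike.ofReal_mul]
        have : th n * ((-1) ^ n * th n) = (-1) ^ n / ((n : ℝ) + 1) := by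
          have := th_sq n
          calc th n * ((-1) ^ n * th n) = (-1) ^ n * th n ^ 2 := by ring
            _ = _ := by rw [this]; ring
        rw [this]
      · rw [if_neg (by simpa using hn), if_neg hn]; simp
    rw [e1, RCLike.norm_ofReal]
    have e3 : ∑ n ∈ Ico M (min R L) \ S, (-1 : ℝ) ^ n / ((n : ℝ) + 1) =
        ∑ n ∈ Ico M (min R L), (-1 : ℝ) ^ n / ((n : ℝ) + 1) -
          ∑ n ∈ Ico M (min R L) ∩ S, (-1 : ℝ) ^ n / ((n : ℝ) + 1) := by
      rw [eq_sub_iff_add_eq, ← sum_union]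
      · rw [sdiff_union_inter]
      · exact disjoint_sdiff_inter _ _
    rw [e3]
    have e4 := alt_le M (min R L)
    have e5 : |∑ n ∈ Ico M (min R L) ∩ S, (-1 : ℝ) ^ n / ((n : ℝ) + 1)| ≤ 1 := by
      refine (abs_sum_le_sum_abs _ _).trans ?_
      have e6 : ∑ n ∈ Ico M (min R L) ∩ S, |(-1 : ℝ) ^ n / ((n : ℝ) + 1)| ≤
          ∑ _n ∈ Ico M (min R L) ∩ S, 1 / ((M : ℝ) + 1) := by
        refine sum_le_sum fun n hn => ?_
        have hMn : (M : ℝ) ≤ n := by exact_mod_cast (mem_Ico.1 (mem_inter.1 hn).1).1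
        rw [abs_div, abs_pow, abs_neg, abs_one, one_pow, abs_of_pos (by positivity : (0 : ℝ) < (n : ℝ) + 1)]
        exact one_div_le_one_div_of_le (by positivity) (by linarith)
      refine e6.trans ?_
      rw [sum_const, nsmul_eq_mul, mul_one_div, div_le_one (by positivity)]
      have e7 : (Ico M (min R L) ∩ S).card ≤ M := (card_le_card inter_subset_right).trans hS
      have e8 : ((Ico M (min R L) ∩ S).card : ℝ) ≤ M := by exact_mod_cast e7
      linarith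
    have e9 : 1 / ((M : ℝ) + 1) ≤ 1 := by
      rw [div_le_one (by positivity)]; linarith [(Nat.cast_nonneg M : (0 : ℝ) ≤ M)]
    calc |_ - _| ≤ |∑ n ∈ Ico M (min R L), (-1 : ℝ) ^ n / ((n : ℝ) + 1)| +
          |∑ n ∈ Ico M (min R L) ∩ S, (-1 : ℝ) ^ n / ((n : ℝ) + 1)| := abs_sub _ _
      _ ≤ 2 := by linarith
  linarith

/-- The even part has large norm. -/
lemma le_even (L : ℕ) {B : ℝ} (h : Bd (flat ((range (2 * L)).filter Even) (ac 𝕜)) B) :
    1 / 8 * H (2 * L) ≤ B := by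
  have h1 := h.2 0 (2 * L) ∅ (by simp)
  unfold PropA.val at h1
  rw [sum_empty, Real.sqrt_zero, zero_add, sdiff_empty] at h1
  have e1 : ∑ n ∈ Ico 0 (2 * L), (th n : 𝕜) * flat ((range (2 * L)).filter Even) (ac 𝕜) n =
      ((∑ m ∈ range L, 1 / ((2 * m : ℝ) + 1) : ℝ) : 𝕜) := by
    clear h h1
    induction L with
    | zero => simp
    | succ L ih =>
      have f1 : ∀ n, flat ((range (2 * (L + 1))).filter Even) (ac 𝕜) n =
          if n < 2 * (L + 1) ∧ Even n then ac 𝕜 n else 0 := by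
        intro n; unfold flat; simp only [mem_filter, mem_range]
      have f2 : ∀ n, flat ((range (2 * L)).filter Even) (ac 𝕜) n =
          if n < 2 * L ∧ Even n then ac 𝕜 n else 0 := by
        intro n; unfold flat; simp only [mem_filter, mem_range]
      rw [show 2 * (L + 1) = 2 * L + 1 + 1 by ring] at *
      rw [sum_Ico_succ_top (by omega), sum_Ico_succ_top (by omega), sum_range_succ]
      have f3 : ∑ n ∈ Ico 0 (2 * L), (th n : 𝕜) *
          flat ((range (2 * L + 1 + 1)).filter Even) (ac 𝕜) n =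
          ∑ n ∈ Ico 0 (2 * L), (th n : 𝕜) * flat ((range (2 * L)).filter Even) (ac 𝕜) n := by
        refine sum_congr rfl fun n hn => ?_
        have hn' := (mem_Ico.1 hn).2
        rw [f1, f2]
        simp only [hn', show n < 2 * L + 1 + 1 by omega, true_and]
      rw [f3, ih, f1 (2 * L), f1 (2 * L + 1)]
      have o1 : ¬ Even (2 * L + 1) := by simp
      have o2 : Even (2 * L) := by simp
      rw [if_neg (fun h : 2 * L + 1 < 2 * L + 1 + 1 ∧ Even (2 * L + 1) => o1 h.2),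
        if_pos (⟨by omega, o2⟩ : 2 * L < 2 * L + 1 + 1 ∧ Even (2 * L)), mul_zero, add_zero]
      push_cast
      congr 1
      unfold ac
      rw [o2.neg_one_pow, one_mul, ← RCLike.ofReal_mul]
      have := th_sq (2 * L)
      push_cast at this
      rw [← sq, this]
      push_cast
      rfl
  rw [e1, RCLike.norm_ofReal, abs_of_nonneg (sum_nonneg fun _ _ => by positivity)] at h1
  have h2 : H (2 * L) ≤ 2 * ∑ m ∈ range L, 1 / ((2 * m : ℝ) + 1) := by
    clear h h1 e1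
    induction L with
    | zero => simp [H]
    | succ L ih =>
      unfold H at ih ⊢
      rw [show 2 * (L + 1) = 2 * L + 1 + 1 by ring, sum_range_succ, sum_range_succ,
        sum_range_succ]
      have : 1 / (((2 * L + 1 : ℕ) : ℝ) + 1) ≤ 1 / ((2 * L : ℝ) + 1) := by
        apply one_div_le_one_div_of_le (by positivity)
        push_cast; linarith
      push_cast at this ih ⊢
      linarith
  linarith

theorem not_unconditional : ¬ ∀ x : Xs 𝕜, HasSum (fun n => f 𝕜 n x • e 𝕜 n) x := by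
  intro hall
  let P : Finset ℕ → (Xs 𝕜 →L[𝕜] Xs 𝕜) := fun F => ∑ n ∈ F, (f 𝕜 n).smulRight (e 𝕜 n)
  have hP : ∀ F x, P F x = ∑ n ∈ F, f 𝕜 n x • e 𝕜 n := by
    intro F x
    simp only [P]
    rw [_root_.sum_apply]
    rfl
  have hbd : ∀ x, ∃ C, ∀ F, ‖P F x‖ ≤ C := by
    intro x
    classical
    have h1 := (hall x).eventually (Metric.ball_mem_nhds x one_pos)
    obtain ⟨F₀, hF₀⟩ := (eventually_atTop.1 h1)
    obtain ⟨C, hC⟩ := (F₀.powerset.image fun G => ‖P G x‖).exists_le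
    refine ⟨‖x‖ + 1 + C, fun F => ?_⟩
    have h2 := hF₀ (F ∪ F₀) subset_union_right
    rw [dist_eq_norm] at h2
    have h3 : P F x = P (F ∪ F₀) x - P (F₀ \ F) x := by
      rw [hP, hP, hP, eq_sub_iff_add_eq, ← sum_union disjoint_sdiff, union_sdiff_self_eq_union]
    have h4 : ‖P (F₀ \ F) x‖ ≤ C :=
      hC _ (mem_image.2 ⟨F₀ \ F, mem_powerset.2 sdiff_subset, rfl⟩)
    have h5 : ‖P (F ∪ F₀) x‖ ≤ ‖x‖ + 1 := by
      rw [hP]
      have := norm_sub_norm_le (∑ n ∈ F ∪ F₀, f 𝕜 n x • e 𝕜 n) x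
      linarith
    rw [h3]
    exact (norm_sub_le _ _).trans (by linarith)
  obtain ⟨C, hC⟩ := banach_steinhaus hbd
  have hC0 : 0 ≤ C := le_trans (norm_nonneg (P ∅)) (hC ∅)
  have key : ∀ L : ℕ, 1 / 8 * H (2 * L) ≤ C * (Real.sqrt (H (2 * L)) + 1) := by
    intro L
    let y : Xs 𝕜 := ∑ n ∈ range (2 * L), ac 𝕜 n • e 𝕜 n
    have hy : (y : V 𝕜).fn = flat (range (2 * L)) (ac 𝕜) := by
      rw [coe_sum_smul, fn_sum_smul]
    have h1 : ‖y‖ ≤ Real.sqrt (H (2 * L)) + 1 := by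
      refine V.norm_le (x := (y : V 𝕜)) ?_
      rw [hy]; exact bd_alt _
    have h2 := (P ((range (2 * L)).filter Even)).le_opNorm y
    have h3 : ((P ((range (2 * L)).filter Even) y : Xs 𝕜) : V 𝕜).fn =
        flat ((range (2 * L)).filter Even) (ac 𝕜) := by
      rw [hP, coe_sum_smul, fn_sum_smul]
      funext n
      unfold flat
      by_cases hn : n ∈ (range (2 * L)).filter Even
      · rw [if_pos hn, if_pos hn]
        change (y : V 𝕜).fn n = ac 𝕜 n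
        rw [hy]
        unfold flat
        rw [if_pos (mem_filter.1 hn).1]
      · rw [if_neg hn, if_neg hn]
    have h4 : 1 / 8 * H (2 * L) ≤ ‖P ((range (2 * L)).filter Even) y‖ := by
      refine le_even (𝕜 := 𝕜) L ?_
      rw [← h3]
      exact V.bd _
    calc 1 / 8 * H (2 * L) ≤ ‖P ((range (2 * L)).filter Even) y‖ := h4
      _ ≤ ‖P ((range (2 * L)).filter Even)‖ * ‖y‖ := h2
      _ ≤ C * (Real.sqrt (H (2 * L)) + 1) :=
        mul_le_mul (hC _) h1 (norm_nonneg _) hC0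
  have hlim : Tendsto (fun L : ℕ => H (2 * L)) atTop atTop :=
    tendsto_H.comp (tendsto_id.const_mul_atTop' (by norm_num))
  obtain ⟨L, hL⟩ := (hlim.eventually (eventually_gt_atTop ((16 * C + 1) ^ 2))).exists
  have h1 := key L
  set h := H (2 * L)
  have h0 : 0 ≤ h := H_nonneg _
  have h2 := Real.sq_sqrt h0
  have h3 : 16 * C + 1 < Real.sqrt h := by
    rw [Real.lt_sqrt (by positivity)]
    exact hL
  have h4 : (1 : ℝ) ≤ Real.sqrt h := by linarith
  nlinarith [Real.sqrt_nonneg h, mul_nonneg hC0 (by linarith : (0 : ℝ) ≤ Real.sqrt h - 1)]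

end Q197.PropASpace
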