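import Pool.Agent.Q197.HellyFam

/-!
# Disjoint functionals on `L^∞` via Riesz products

If `ψ k`, `k` in a set with `N` elements, are linear functionals on `L^∞` with
`∑ k, |ψ k w| ≤ C ‖w‖`, and `‖v k‖ ≤ R`, then `∑ k, ψ k (v k) ≤ 2 C R √N`.
-/

set_option autoImplicit false
set_option linter.unusedSectionVars false

namespace Pool.Agent.Q197.RieszProd

open Finset MeasureTheory Pool.Agent.Q197.HellyFam
open scoped ENNReal

variable {κ : Type*} [Fintype κ] [DecidableEq κ]

/-- the Riesz product -/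
noncomputable def rp (β : κ → ℝ) (s : κ → Bool) : ℂ :=
  ∏ k, (1 + Complex.I * (sg (s k) : ℂ) * (β k : ℂ))

lemma sum_rp (β : κ → ℝ) (j : κ) :
    ∑ s : κ → Bool, (sg (s j) : ℂ) * rp β s = 2 ^ Fintype.card κ * (Complex.I * (β j : ℂ)) := by
  have h1 : ∀ s : κ → Bool, (sg (s j) : ℂ) * rp β s =
      ∏ k, ((if k = j then (sg (s k) : ℂ) else 1) *
        (1 + Complex.I * (sg (s k) : ℂ) * (β k : ℂ))) := by
    intro s
    rw [Finset.prod_mul_distrib, Finset.prod_ite_eq' Finset.univ j, if_pos (Finset.mem_univ j)]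
    rfl
  rw [Finset.sum_congr rfl fun s _ => h1 s]
  have h2 := Finset.prod_univ_sum (fun _ : κ => (Finset.univ : Finset Bool))
    (fun k c => (if k = j then (sg c : ℂ) else 1) * (1 + Complex.I * (sg c : ℂ) * (β k : ℂ)))
  rw [Fintype.piFinset_univ] at h2
  rw [← h2]
  have h3 : ∀ k : κ, ∑ c : Bool, (if k = j then (sg c : ℂ) else 1) *
      (1 + Complex.I * (sg c : ℂ) * (β k : ℂ)) =
      2 * (if k = j then Complex.I * (β k : ℂ) else 1) := by
    intro k
    rw [Fintype.sum_bool]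
    by_cases hk : k = j
    · simp only [hk, if_true, sg]
      push_cast
      simp
      ring
    · simp only [hk, if_false, sg]
      push_cast
      simp
      ring
  rw [Finset.prod_congr rfl fun k _ => h3 k, Finset.prod_mul_distrib, Finset.prod_const,
    Finset.card_univ, Finset.prod_ite_eq' Finset.univ j, if_pos (Finset.mem_univ j)]

lemma norm_rp (β : κ → ℝ) (s : κ → Bool) (h : ∑ k, β k ^ 2 ≤ 1) : ‖rp β s‖ ≤ 2 := by
  have h1 : ∀ k, ‖(1 + Complex.I * (sg (s k) : ℂ) * (β k : ℂ))‖ ≤ Real.exp (β k ^ 2 / 2) := by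
    intro k
    have h2 : ‖(1 + Complex.I * (sg (s k) : ℂ) * (β k : ℂ))‖ ^ 2 = 1 + β k ^ 2 := by
      rw [← Complex.normSq_eq_norm_sq, Complex.normSq_apply]
      cases s k <;> simp [sg] <;> ring
    have h3 : (Real.exp (β k ^ 2 / 2)) ^ 2 = Real.exp (β k ^ 2) := by
      rw [← Real.exp_nat_mul]
      congr 1
      push_cast
      ring
    have h4 : ‖(1 + Complex.I * (sg (s k) : ℂ) * (β k : ℂ))‖ ^ 2 ≤
        (Real.exp (β k ^ 2 / 2)) ^ 2 := by
      rw [h2, h3]
      have := Real.add_one_le_exp (β k ^ 2)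
      linarith
    exact (sq_le_sq₀ (norm_nonneg _) (Real.exp_pos _).le).1 h4
  unfold rp
  rw [norm_prod]
  calc ∏ k, ‖(1 + Complex.I * (sg (s k) : ℂ) * (β k : ℂ))‖
      ≤ ∏ k, Real.exp (β k ^ 2 / 2) :=
        Finset.prod_le_prod (fun k _ => norm_nonneg _) fun k _ => h1 k
    _ = Real.exp (∑ k, β k ^ 2 / 2) := by rw [Real.exp_sum]
    _ ≤ Real.exp (1 / 2) := by
        rw [Real.exp_le_exp, ← Finset.sum_div]
        linarith
    _ ≤ 2 := by
        have h5 : (Real.exp (1 / 2)) ^ 2 = Real.exp 1 := by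
          rw [← Real.exp_nat_mul]
          congr 1
          push_cast
          ring
        have h6 : Real.exp 1 < 4 := by
          have := Real.exp_one_lt_d9
          linarith
        have h7 : (Real.exp (1 / 2)) ^ 2 ≤ 2 ^ 2 := by
          rw [h5]; linarith
        exact (sq_le_sq₀ (Real.exp_pos _).le (by norm_num)).1 h7

variable {Ω : Type*} [MeasurableSpace Ω] {μ : Measure Ω}

lemma ae_le_norm (f : Lp ℝ ∞ μ) : ∀ᵐ t ∂μ, |f t| ≤ ‖f‖ := by
  filter_upwards [ae_le_eLpNormEssSup (f := f) (μ := μ)] with t ht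
  rw [Lp.norm_def, eLpNorm_exponent_top, ← Real.norm_eq_abs, ← toReal_enorm]
  refine ENNReal.toReal_mono ?_ ht
  rw [← eLpNorm_exponent_top]
  exact (Lp.eLpNorm_lt_top f).ne

lemma norm_le_of_ae (f : Lp ℝ ∞ μ) {C : ℝ} (hC : 0 ≤ C) (h : ∀ᵐ t ∂μ, |f t| ≤ C) : ‖f‖ ≤ C := by
  rw [Lp.norm_def, eLpNorm_exponent_top]
  refine ENNReal.toReal_le_of_le_ofReal hC ?_
  refine eLpNormEssSup_le_of_ae_bound ?_
  filter_upwards [h] with t ht
  rwa [Real.norm_eq_abs]

theorem riesz (v : κ → Lp ℝ ∞ μ) {R C : ℝ} (hR : 0 < R) (hv : ∀ k, ‖v k‖ ≤ R)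
    (ψ : κ → (Lp ℝ ∞ μ →ₗ[ℝ] ℝ)) (hψ : ∀ w, ∑ k, |ψ k w| ≤ C * ‖w‖) (hC : 0 ≤ C) :
    ∑ k, ψ k (v k) ≤ 2 * C * R * √(Fintype.card κ) := by
  classical
  rcases isEmpty_or_nonempty κ with hκ | hκ
  · simp
  set N : ℝ := (Fintype.card κ : ℝ) with hN
  have hN0 : 0 < N := by
    rw [hN]
    exact_mod_cast Fintype.card_pos
  have hsN : 0 < √N := Real.sqrt_pos.2 hN0
  set q : ℝ := (R * √N)⁻¹ with hq
  have hq0 : 0 < q := by positivity
  -- the functions
  set w : (κ → Bool) → Ω → ℝ := fun s t => (rp (fun k => q * v k t) s).im with hw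
  have hmeas : ∀ s, AEStronglyMeasurable (w s) μ := by
    intro s
    have h1 : ∀ k, AEStronglyMeasurable (v k) μ := fun k => Lp.aestronglyMeasurable (v k)
    have h2 : AEStronglyMeasurable (fun t => rp (fun k => q * v k t) s) μ := by
      unfold rp
      refine Finset.aestronglyMeasurable_fun_prod _ fun k _ => ?_
      refine (aestronglyMeasurable_const).add ?_
      refine AEStronglyMeasurable.const_mul ?_ _
      exact Complex.continuous_ofReal.comp_aestronglyMeasurable ((h1 k).const_mul q)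
    exact Complex.continuous_im.comp_aestronglyMeasurable h2
  have hbd : ∀ᵐ t ∂μ, ∀ k, |v k t| ≤ R := by
    rw [ae_all_iff]
    intro k
    filter_upwards [ae_le_norm (v k)] with t ht
    exact ht.trans (hv k)
  have hwb : ∀ s, ∀ᵐ t ∂μ, ‖w s t‖ ≤ 2 := by
    intro s
    filter_upwards [hbd] with t ht
    rw [hw, Real.norm_eq_abs]
    refine (Complex.abs_im_le_norm _).trans (norm_rp _ _ ?_)
    have h1 : ∀ k, (q * v k t) ^ 2 ≤ 1 / N := by
      intro k
      have h2 : (v k t) ^ 2 ≤ R ^ 2 := by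
        rw [← sq_abs]
        exact pow_le_pow_left₀ (abs_nonneg _) (ht k) 2
      have h3 : q ^ 2 = 1 / (R ^ 2 * N) := by
        rw [hq, inv_pow, mul_pow, Real.sq_sqrt hN0.le, one_div]
      rw [mul_pow, h3]
      calc 1 / (R ^ 2 * N) * (v k t) ^ 2 ≤ 1 / (R ^ 2 * N) * R ^ 2 :=
            mul_le_mul_of_nonneg_left h2 (by positivity)
        _ = 1 / N := by field_simp
    calc ∑ k, (q * v k t) ^ 2 ≤ ∑ _k : κ, 1 / N := Finset.sum_le_sum fun k _ => h1 k
      _ = 1 := by
          rw [Finset.sum_const, Finset.card_univ, nsmul_eq_mul, ← hN]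
          field_simp
  have hmem : ∀ s, MemLp (w s) ∞ μ := fun s => memLp_top_of_bound (hmeas s) 2 (hwb s)
  set W : (κ → Bool) → Lp ℝ ∞ μ := fun s => (hmem s).toLp (w s) with hW
  have hWn : ∀ s, ‖W s‖ ≤ 2 := by
    intro s
    refine norm_le_of_ae _ (by norm_num) ?_
    filter_upwards [(hmem s).coeFn_toLp, hwb s] with t h1 h2
    rw [hW]
    simp only
    rw [h1, ← Real.norm_eq_abs]
    exact h2
  -- the identity
  set P : ℝ := 2 ^ Fintype.card κ with hP
  have hP0 : 0 < P := by positivity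
  have hid : ∀ j, ∑ s : κ → Bool, sg (s j) • W s = (P * q) • v j := by
    intro j
    apply Lp.ext
    have h1 : ⇑(∑ s : κ → Bool, sg (s j) • W s) =ᵐ[μ] fun t => ∑ s, sg (s j) * w s t := by
      have h2 : ∀ s : κ → Bool, ⇑(sg (s j) • W s) =ᵐ[μ] fun t => sg (s j) * w s t := by
        intro s
        filter_upwards [Lp.coeFn_smul (sg (s j)) (W s), (hmem s).coeFn_toLp] with t h3 h4
        rw [h3, Pi.smul_apply, smul_eq_mul]
        congr 1
      have h5 := Lp.coeFn_finsetSum (Finset.univ : Finset (κ → Bool)) (fun s => sg (s j) • W s)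
      filter_upwards [h5, (ae_all_iff.2 h2 : ∀ᵐ t ∂μ, ∀ s : κ → Bool, _)] with t h6 h7
      rw [h6, Finset.sum_apply]
      exact Finset.sum_congr rfl fun s _ => h7 s
    filter_upwards [h1, Lp.coeFn_smul (P * q) (v j)] with t h2 h3
    rw [h2, h3, Pi.smul_apply, smul_eq_mul]
    have h4 := congrArg Complex.im (sum_rp (fun k => q * v k t) j)
    rw [Complex.im_sum] at h4
    have h5 : ∀ s : κ → Bool, ((sg (s j) : ℂ) * rp (fun k => q * v k t) s).im =
        sg (s j) * w s t := by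
      intro s
      rw [Complex.im_ofReal_mul]
    rw [Finset.sum_congr rfl fun s _ => h5 s] at h4
    rw [h4]
    have h6 : ((2 : ℂ) ^ Fintype.card κ * (Complex.I * ((q * v j t : ℝ) : ℂ))) =
        ((P * (q * v j t) : ℝ) : ℂ) * Complex.I := by
      rw [hP]
      push_cast
      ring
    rw [h6, Complex.im_ofReal_mul, Complex.I_im]
    ring
  have hsum : ∀ j, P * q * ψ j (v j) = ∑ s : κ → Bool, sg (s j) * ψ j (W s) := by
    intro j
    have h1 := congrArg (ψ j) (hid j)
    rw [map_sum, map_smul, smul_eq_mul] at h1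
    rw [← h1]
    refine Finset.sum_congr rfl fun s _ => ?_
    rw [map_smul, smul_eq_mul]
  have htot : P * q * ∑ k, ψ k (v k) ≤ P * (C * 2) := by
    rw [Finset.mul_sum, Finset.sum_congr rfl fun j _ => hsum j, Finset.sum_comm]
    have h1 : ∀ s : κ → Bool, ∑ j, sg (s j) * ψ j (W s) ≤ C * 2 := by
      intro s
      calc ∑ j, sg (s j) * ψ j (W s) ≤ ∑ j, |ψ j (W s)| := by
            refine Finset.sum_le_sum fun j _ => ?_
            refine (le_abs_self _).trans ?_
            rw [abs_mul, sg_abs, one_mul]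
        _ ≤ C * ‖W s‖ := hψ _
        _ ≤ C * 2 := mul_le_mul_of_nonneg_left (hWn s) hC
    refine (Finset.sum_le_sum fun s _ => h1 s).trans ?_
    rw [Finset.sum_const, Finset.card_univ, Fintype.card_fun, Fintype.card_bool, nsmul_eq_mul]
    push_cast
    exact le_rfl
  have h2 : q * ∑ k, ψ k (v k) ≤ C * 2 := by
    have : P * (q * ∑ k, ψ k (v k)) ≤ P * (C * 2) := by
      rw [← mul_assoc]
      exact htot
    exact le_of_mul_le_mul_left this hP0
  have h3 : ∑ k, ψ k (v k) = (R * √N) * (q * ∑ k, ψ k (v k)) := by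
    rw [← mul_assoc, hq, mul_inv_cancel₀ (by positivity), one_mul]
  rw [h3]
  calc (R * √N) * (q * ∑ k, ψ k (v k)) ≤ (R * √N) * (C * 2) :=
        mul_le_mul_of_nonneg_left h2 (by positivity)
    _ = 2 * C * R * √N := by ring

end Pool.Agent.Q197.RieszProd
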