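import Mathlib

/-!
# Separable invariant subspaces with dense range and dense generalized kernel

Abstract lemma for MP_550623_an.
-/

set_option autoImplicit false

namespace Q197.SepInv

open Filter Topology

variable {𝕜 : Type} [RCLike 𝕜] {E : Type} [NormedAddCommGroup E] [NormedSpace 𝕜 E]

theorem exists_sep (T : E →L[𝕜] E) (W : Set E) (hT : ∀ v ∈ W, T v ∈ W)
    (happ : ∀ v ∈ W, ∀ ε : ℝ, 0 < ε → ∃ w ∈ W, ‖T w - v‖ ≤ ε)
    (hnil : ∀ v ∈ W, ∃ n : ℕ, (T ^ n) v = 0) (u : E) (hu : u ∈ W) :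
    ∃ X : Submodule 𝕜 E, IsClosed (X : Set E) ∧ TopologicalSpace.SeparableSpace X ∧ u ∈ X ∧
      (∀ x ∈ X, T x ∈ X) ∧
      (∀ x ∈ X, ∀ ε : ℝ, 0 < ε → ∃ w ∈ X, ‖T w - x‖ < ε) ∧
      (∀ x ∈ X, ∀ ε : ℝ, 0 < ε → ∃ w ∈ X, (∃ n : ℕ, (T ^ n) w = 0) ∧ ‖w - x‖ < ε) := by
  classical
  choose! q hqW hq using happ
  -- the countable tree of vectors
  let step : Option ℕ → {x : E // x ∈ W} → {x : E // x ∈ W} := fun o p =>
    match o with
    | none => ⟨T p.1, hT p.1 p.2⟩
    | some k => ⟨q p.1 (1 / ((k : ℝ) + 1)), hqW p.1 p.2 _ (by positivity)⟩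
  let v : List (Option ℕ) → {x : E // x ∈ W} := fun l => l.foldr step ⟨u, hu⟩
  let V : Set E := Set.range fun l => (v l : E)
  have hVc : V.Countable := Set.countable_range _
  let X0 : Submodule 𝕜 E := Submodule.span 𝕜 V
  let X : Submodule 𝕜 E := X0.topologicalClosure
  have hX0X : X0 ≤ X := X0.le_topologicalClosure
  have hTV : ∀ x ∈ V, T x ∈ V := by
    rintro _ ⟨l, rfl⟩
    exact ⟨none :: l, rfl⟩
  have hTX0 : ∀ x ∈ X0, T x ∈ X0 := by
    intro x hx
    refine Submodule.span_induction (p := fun x _ => T x ∈ X0) ?_ ?_ ?_ ?_ hx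
    · intro y hy
      exact Submodule.subset_span (hTV y hy)
    · rw [map_zero]; exact X0.zero_mem
    · intro y z _ _ hy hz
      rw [map_add]; exact X0.add_mem hy hz
    · intro c y _ hy
      rw [map_smul]; exact X0.smul_mem c hy
  have hTX : ∀ x ∈ X, T x ∈ X := by
    intro x hx
    have hx' : x ∈ closure (X0 : Set E) := hx
    have h1 : T x ∈ closure (T '' (X0 : Set E)) :=
      image_closure_subset_closure_image T.continuous ⟨x, hx', rfl⟩
    refine closure_mono ?_ h1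
    rintro _ ⟨y, hy, rfl⟩
    exact hTX0 y hy
  refine ⟨X, X0.isClosed_topologicalClosure, ?_, ?_, hTX, ?_, ?_⟩
  · have h1 : TopologicalSpace.IsSeparable (X : Set E) := by
      have h2 : TopologicalSpace.IsSeparable (X0 : Set E) := (hVc.isSeparable).span
      exact h2.closure
    exact h1.separableSpace
  · exact hX0X (Submodule.subset_span ⟨[], rfl⟩)
  · -- dense range
    let R : Submodule 𝕜 E := (X.map (T : E →ₗ[𝕜] E)).topologicalClosure
    have hVR : V ⊆ R := by
      rintro _ ⟨l, rfl⟩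
      change (v l : E) ∈ closure _
      rw [Metric.mem_closure_iff]
      intro ε hε
      obtain ⟨k, hk⟩ := exists_nat_one_div_lt hε
      refine ⟨T (v (some k :: l) : E), ⟨_, hX0X (Submodule.subset_span ⟨some k :: l, rfl⟩), rfl⟩, ?_⟩
      rw [dist_comm, dist_eq_norm]
      refine lt_of_le_of_lt ?_ hk
      exact hq (v l).1 (v l).2 _ (by positivity)
    have hX0R : X0 ≤ R := Submodule.span_le.2 hVR
    have hXR : X ≤ R := X0.topologicalClosure_minimal hX0R (Submodule.isClosed_topologicalClosure _)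
    intro x hx ε hε
    have h1 : x ∈ closure ((X.map (T : E →ₗ[𝕜] E) : Submodule 𝕜 E) : Set E) := hXR hx
    rw [Metric.mem_closure_iff] at h1
    obtain ⟨_, ⟨w, hw, rfl⟩, hd⟩ := h1 ε hε
    refine ⟨w, hw, ?_⟩
    rw [dist_comm, dist_eq_norm] at hd
    exact hd
  · -- dense generalized kernel
    have hnil0 : ∀ x ∈ X0, ∃ n : ℕ, (T ^ n) x = 0 := by
      intro x hx
      refine Submodule.span_induction (p := fun x _ => ∃ n : ℕ, (T ^ n) x = 0) ?_ ?_ ?_ ?_ hx
      · rintro _ ⟨l, rfl⟩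
        exact hnil _ (v l).2
      · exact ⟨0, by simp⟩
      · rintro y z _ _ ⟨a, ha⟩ ⟨b, hb⟩
        refine ⟨a + b, ?_⟩
        rw [map_add]
        have h1 : (T ^ (a + b)) y = 0 := by
          rw [add_comm, pow_add, mul_apply_eq_comp, ha, map_zero]
        have h2 : (T ^ (a + b)) z = 0 := by
          rw [pow_add, mul_apply_eq_comp, hb, map_zero]
        rw [h1, h2, add_zero]
      · rintro c y _ ⟨a, ha⟩
        exact ⟨a, by rw [map_smul, ha, smul_zero]⟩
    intro x hx ε hε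
    have h1 : x ∈ closure (X0 : Set E) := hx
    rw [Metric.mem_closure_iff] at h1
    obtain ⟨w, hw, hd⟩ := h1 ε hε
    refine ⟨w, hX0X hw, hnil0 w hw, ?_⟩
    rw [dist_comm, dist_eq_norm] at hd
    exact hd

end Q197.SepInv
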