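import Pool.Agent.Q197.HopfStrip
import Pool.Agent.Q197.FlatDefs

/-!
The surface `F = RR '' Ω`: the restriction of `RR` to small squares in `Ω` is a parametrisation.
-/

open Set
open scoped ContDiff

namespace Q197.Strip

open Q197.Hopf

/-- The half plane giving the annulus. -/
def OA : Set (ℝ × ℝ) := {x | x.2 < -1}

/-- The strip. -/
def OV : Set (ℝ × ℝ) := {x | |x.2| < 3 / 2 ∧ |x.1 - Real.pi * (x.2 + 1) / 2| < Real.pi / 4}

/-- The parameter domain. -/
def Om : Set (ℝ × ℝ) := OA ∪ OV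

/-- The surface. -/
def FF : Set E4 := RR '' Om

lemma isOpen_OA : IsOpen OA := isOpen_lt continuous_snd continuous_const

lemma isOpen_OV : IsOpen OV := by
  have h1 : IsOpen {x : ℝ × ℝ | |x.2| < 3 / 2} :=
    isOpen_lt (continuous_abs.comp continuous_snd) continuous_const
  have h2 : IsOpen {x : ℝ × ℝ | |x.1 - Real.pi * (x.2 + 1) / 2| < Real.pi / 4} := by
    refine isOpen_lt ?_ continuous_const
    exact continuous_abs.comp (continuous_fst.sub
      ((continuous_const.mul (continuous_snd.add continuous_const)).div_const _))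
  exact h1.inter h2

lemma isOpen_Om : IsOpen Om := isOpen_OA.union isOpen_OV

lemma convex_OA : Convex ℝ OA := by
  intro x hx y hy a b ha hb hab
  simp only [OA, mem_ofPred_eq] at hx hy ⊢
  simp only [Prod.snd_add, Prod.smul_snd, smul_eq_mul]
  rcases eq_or_lt_of_le ha with h | h
  · rw [← h] at hab ⊢; nlinarith
  · nlinarith

lemma convex_OV : Convex ℝ OV := by
  intro x hx y hy a b ha hb hab
  simp only [OV, mem_ofPred_eq, abs_lt] at hx hy ⊢
  simp only [Prod.snd_add, Prod.smul_snd, smul_eq_mul, Prod.fst_add, Prod.smul_fst]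
  obtain ⟨⟨x1, x2⟩, x3, x4⟩ := hx
  obtain ⟨⟨y1, y2⟩, y3, y4⟩ := hy
  have hb' : b = 1 - a := by linarith
  subst hb'
  rcases eq_or_lt_of_le ha with h | h
  · rw [← h]
    refine ⟨⟨by linarith, by linarith⟩, by linarith, by linarith⟩
  · rcases eq_or_lt_of_le hb with h' | h'
    · have : a = 1 := by linarith
      subst this
      refine ⟨⟨by linarith, by linarith⟩, by linarith, by linarith⟩
    · refine ⟨⟨by nlinarith, by nlinarith⟩, by nlinarith, by nlinarith⟩

lemma isConnected_Om : IsConnected Om := by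
  have h1 : ((0 : ℝ), (-5 / 4 : ℝ)) ∈ OA := by
    show (-5 / 4 : ℝ) < -1
    norm_num
  have h2 : ((0 : ℝ), (-5 / 4 : ℝ)) ∈ OV := by
    refine ⟨?_, ?_⟩
    · show |(-5 / 4 : ℝ)| < 3 / 2
      rw [abs_lt]; constructor <;> norm_num
    · show |(0 : ℝ) - Real.pi * (-5 / 4 + 1) / 2| < Real.pi / 4
      rw [abs_lt]
      constructor <;> nlinarith [Real.pi_pos]
  exact IsConnected.union ⟨_, h1, h2⟩ ⟨⟨_, h1⟩, convex_OA.isPreconnected⟩
    ⟨⟨_, h2⟩, convex_OV.isPreconnected⟩

/-! ### Recovering the parameters -/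

/-- `ρ²`. -/
def nn (x : E4) : ℝ := x 0 ^ 2 + x 1 ^ 2

/-- `-Re ζ = s²`. -/
noncomputable def sg (x : E4) : ℝ := -(x 0 * x 2 + x 1 * x 3) / nn x

/-- `Im ζ = k(s)`. -/
noncomputable def kp (x : E4) : ℝ := (x 0 * x 3 - x 1 * x 2) / nn x

/-- `cos (τ - τ₀)`. -/
noncomputable def ch (τ₀ : ℝ) (x : E4) : ℝ :=
  (x 0 * Real.cos τ₀ + x 1 * Real.sin τ₀) / Real.sqrt (nn x)

lemma RR0 (τ s : ℝ) : RR (τ, s) 0 = rr s * Real.cos τ := rfl
lemma RR1 (τ s : ℝ) : RR (τ, s) 1 = rr s * Real.sin τ := rfl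
lemma RR2 (τ s : ℝ) : RR (τ, s) 2 = rr s * (-(s ^ 2) * Real.cos τ - kk s * Real.sin τ) := rfl
lemma RR3 (τ s : ℝ) : RR (τ, s) 3 = rr s * (-(s ^ 2) * Real.sin τ + kk s * Real.cos τ) := rfl

lemma nn_RR (τ s : ℝ) : nn (RR (τ, s)) = rr s ^ 2 := by
  unfold nn
  rw [RR0, RR1]
  linear_combination rr s ^ 2 * Real.sin_sq_add_cos_sq τ

lemma sg_RR (τ s : ℝ) : sg (RR (τ, s)) = s ^ 2 := by
  unfold sg
  rw [nn_RR, RR0, RR1, RR2, RR3]
  have h := (pow_pos (rr_pos s) 2).ne'
  rw [div_eq_iff h]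
  linear_combination (rr s ^ 2 * s ^ 2) * Real.sin_sq_add_cos_sq τ

lemma kp_RR (τ s : ℝ) : kp (RR (τ, s)) = kk s := by
  unfold kp
  rw [nn_RR, RR0, RR1, RR2, RR3]
  have h := (pow_pos (rr_pos s) 2).ne'
  rw [div_eq_iff h]
  linear_combination (rr s ^ 2 * kk s) * Real.sin_sq_add_cos_sq τ

lemma ch_RR (τ₀ τ s : ℝ) : ch τ₀ (RR (τ, s)) = Real.cos (τ - τ₀) := by
  unfold ch
  rw [nn_RR, RR0, RR1, Real.sqrt_sq (rr_pos s).le, Real.cos_sub]
  have h := (rr_pos s).ne'
  field_simp

lemma isOpen_nn : IsOpen {x : E4 | 0 < nn x} := by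
  refine isOpen_lt continuous_const ?_
  unfold nn
  fun_prop

lemma nhd_open (τ₀ s₀ c ε : ℝ) : IsOpen {x : E4 | 0 < nn x ∧ c < ch τ₀ x ∧
    |sg x - s₀ ^ 2| < ε ∧ |kp x - kk s₀| < ε} := by
  have hn : Continuous nn := by unfold nn; fun_prop
  have h1 : ContinuousOn (ch τ₀) {x : E4 | 0 < nn x} := by
    unfold ch
    refine ContinuousOn.div (by fun_prop) (hn.sqrt.continuousOn) ?_
    intro x hx
    exact (Real.sqrt_pos.2 hx).ne'
  have h2 : ContinuousOn sg {x : E4 | 0 < nn x} := by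
    unfold sg
    refine ContinuousOn.div (by fun_prop) hn.continuousOn ?_
    intro x hx
    exact (ne_of_gt hx)
  have h3 : ContinuousOn kp {x : E4 | 0 < nn x} := by
    unfold kp
    refine ContinuousOn.div (by fun_prop) hn.continuousOn ?_
    intro x hx
    exact (ne_of_gt hx)
  have e1 := h1.isOpen_inter_preimage isOpen_nn (isOpen_Ioi (a := c))
  have e2 := (h2.sub continuousOn_const (f := sg) (g := fun _ => s₀ ^ 2)).abs.isOpen_inter_preimage
    isOpen_nn (isOpen_Iio (a := ε))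
  have e3 := (h3.sub continuousOn_const (f := kp) (g := fun _ => kk s₀)).abs.isOpen_inter_preimage
    isOpen_nn (isOpen_Iio (a := ε))
  convert (e1.inter e2).inter e3 using 1
  ext x
  simp only [mem_ofPred_eq, mem_inter_iff, mem_preimage, mem_Ioi, mem_Iio]
  tauto

/-- If `cos (τ - τ₀) > cos δ`, then `τ` is within `δ` of `τ₀` modulo `2π`. -/
lemma near_mod {τ τ₀ δ : ℝ} (hδ : 0 < δ) (hδ' : δ ≤ 1 / 2) (h : Real.cos δ < Real.cos (τ - τ₀)) :
    ∃ m : ℤ, |τ - m * (2 * Real.pi) - τ₀| < δ := by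
  have hpi := Real.pi_gt_three
  -- nearest integer
  set m : ℤ := round ((τ - τ₀) / (2 * Real.pi)) with hm
  refine ⟨m, ?_⟩
  have h1 : |(τ - τ₀) / (2 * Real.pi) - m| ≤ 1 / 2 := abs_sub_round _
  set y : ℝ := τ - m * (2 * Real.pi) - τ₀ with hy
  have h2 : |y| ≤ Real.pi := by
    have h3 : y = ((τ - τ₀) / (2 * Real.pi) - m) * (2 * Real.pi) := by
      rw [hy]; field_simp; ring
    rw [h3, abs_mul, abs_of_pos (by linarith : (0 : ℝ) < 2 * Real.pi)]
    nlinarith
  have h4 : Real.cos y = Real.cos (τ - τ₀) := by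
    have : y = (τ - τ₀) - m * (2 * Real.pi) := by rw [hy]; ring
    rw [this, Real.cos_sub_int_mul_two_pi]
  by_contra hcon
  push Not at hcon
  have h5 : Real.cos |y| ≤ Real.cos δ :=
    Real.cos_le_cos_of_nonneg_of_le_pi hδ.le h2 hcon
  rw [Real.cos_abs, h4] at h5
  linarith

lemma mem_OV_iff {τ s : ℝ} : (τ, s) ∈ OV ↔ |s| < 3 / 2 ∧ |τ - Real.pi * (s + 1) / 2| < Real.pi / 4 :=
  Iff.rfl

lemma mem_OA_iff {τ s : ℝ} : (τ, s) ∈ OA ↔ s < -1 := Iff.rfl

/-- An integer multiple of `2π` cannot be within less than `π` of `π`. -/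
lemma int_ne {m : ℤ} (h : |Real.pi - m * (2 * Real.pi)| < Real.pi) : False := by
  have hpi := Real.pi_pos
  rw [abs_lt] at h
  have h1 : (0 : ℝ) < m := by nlinarith [h.2]
  have h2 : (m : ℝ) < 1 := by nlinarith [h.1]
  have h3 : (0 : ℤ) < m := by exact_mod_cast h1
  have h4 : m < (1 : ℤ) := by exact_mod_cast h2
  omega

/-- Key lemma: near `RR (τ₀, s₀)` the surface is covered by parameters close to `(τ₀, s₀)`. -/
lemma key {τ₀ s₀ δ : ℝ} (h0 : (τ₀, s₀) ∈ Om) (hδ : 0 < δ) (hδ' : δ ≤ 1 / 2) :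
    ∃ V : Set E4, IsOpen V ∧ RR (τ₀, s₀) ∈ V ∧ ∀ x ∈ Om, RR x ∈ V →
      ∃ y : ℝ × ℝ, |y.1 - τ₀| < δ ∧ |y.2 - s₀| < δ ∧ RR y = RR x := by
  -- reduce to the choice of `ε` and of `s'`
  suffices hs : ∃ ε, 0 < ε ∧ ∀ τ s, (τ, s) ∈ Om → |s ^ 2 - s₀ ^ 2| < ε → |kk s - kk s₀| < ε →
      (∃ m : ℤ, |τ - m * (2 * Real.pi) - τ₀| < δ) →
      ∃ s', |s' - s₀| < δ ∧ (s' = s ∨ (s' = -s ∧ 1 ≤ s ^ 2)) by
    obtain ⟨ε, hε, h⟩ := hs
    refine ⟨_, nhd_open τ₀ s₀ (Real.cos δ) ε, ?_, ?_⟩
    · refine ⟨?_, ?_, ?_, ?_⟩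
      · rw [nn_RR]; exact pow_pos (rr_pos s₀) 2
      · rw [ch_RR, sub_self, Real.cos_zero]
        have := Real.cos_lt_cos_of_nonneg_of_le_pi (le_refl (0 : ℝ))
          (by linarith [Real.pi_gt_three]) hδ
        rwa [Real.cos_zero] at this
      · rw [sg_RR, sub_self, abs_zero]; exact hε
      · rw [kp_RR, sub_self, abs_zero]; exact hε
    · rintro ⟨τ, s⟩ hx ⟨_, h2, h3, h4⟩
      rw [ch_RR] at h2
      rw [sg_RR] at h3
      rw [kp_RR] at h4
      obtain ⟨m, hm⟩ := near_mod hδ hδ' h2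
      obtain ⟨s', hs', hs''⟩ := h τ s hx h3 h4 ⟨m, hm⟩
      refine ⟨(τ - m * (2 * Real.pi), s'), hm, hs', ?_⟩
      have e1 : RR (τ - m * (2 * Real.pi), s') = RR (τ, s') := by
        have := RR_add (τ - m * (2 * Real.pi)) s' m
        rw [← this]
        congr 2
        ring
      rw [e1]
      rcases hs'' with rfl | ⟨rfl, h5⟩
      · rfl
      · exact RR_neg h5
  have hpi := Real.pi_gt_three
  have hpi4 := Real.pi_lt_four
  rcases lt_trichotomy (s₀ ^ 2) 1 with hlt | heq | hgt
  · -- |s₀| < 1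
    rcases lt_trichotomy s₀ 0 with hneg | hzero | hpos
    · -- s₀ < 0
      have hk := kk_neg_of hneg hlt
      refine ⟨min (-kk s₀) (min (δ * (-s₀)) (1 - s₀ ^ 2)), ?_, ?_⟩
      · refine lt_min (by linarith) (lt_min (by nlinarith) (by linarith))
      · intro τ s _ h1 h2 _
        have h3 := lt_of_lt_of_le h1 (min_le_right _ _)
        have h4 := lt_of_lt_of_le h3 (min_le_left _ _)
        have h5 := lt_of_lt_of_le h3 (min_le_right _ _)
        have h6 := lt_of_lt_of_le h2 (min_le_left _ _)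
        rw [abs_lt] at h4 h5 h6
        have hs : s < 0 := by
          by_contra hcon
          push Not at hcon
          have hs2 : s ^ 2 < 1 := by linarith
          have : 0 ≤ kk s := by
            rcases eq_or_lt_of_le hcon with h | h
            · rw [← h]; simp [kk]
            · exact (kk_pos h hs2).le
          linarith
        refine ⟨s, ?_, Or.inl rfl⟩
        rw [abs_lt]
        constructor
        · nlinarith
        · nlinarith
    · -- s₀ = 0
      subst hzero
      refine ⟨δ ^ 2, by positivity, ?_⟩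
      intro τ s _ h1 _ _
      refine ⟨s, ?_, Or.inl rfl⟩
      rw [sub_zero]
      have h2 : s ^ 2 < δ ^ 2 := by
        have := (abs_lt.1 h1).2
        simpa using this
      exact abs_lt_of_sq_lt_sq h2 hδ.le
    · -- 0 < s₀
      have hk := kk_pos hpos hlt
      refine ⟨min (kk s₀) (min (δ * s₀) (1 - s₀ ^ 2)), ?_, ?_⟩
      · refine lt_min (by linarith) (lt_min (by nlinarith) (by linarith))
      · intro τ s _ h1 h2 _
        have h3 := lt_of_lt_of_le h1 (min_le_right _ _)
        have h4 := lt_of_lt_of_le h3 (min_le_left _ _)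
        have h5 := lt_of_lt_of_le h3 (min_le_right _ _)
        have h6 := lt_of_lt_of_le h2 (min_le_left _ _)
        rw [abs_lt] at h4 h5 h6
        have hs : 0 < s := by
          by_contra hcon
          push Not at hcon
          have hs2 : s ^ 2 < 1 := by linarith
          have : kk s ≤ 0 := by
            rcases eq_or_lt_of_le hcon with h | h
            · rw [h]; simp [kk]
            · exact (kk_neg_of h hs2).le
          linarith
        refine ⟨s, ?_, Or.inl rfl⟩
        rw [abs_lt]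
        constructor
        · nlinarith
        · nlinarith
  · -- |s₀| = 1
    have hs0 : s₀ = 1 ∨ s₀ = -1 := by
      have : (s₀ - 1) * (s₀ + 1) = 0 := by linear_combination heq
      rcases mul_eq_zero.1 this with h | h
      · left; linarith
      · right; linarith
    rcases hs0 with rfl | rfl
    · -- s₀ = 1
      have h0' : |τ₀ - Real.pi| < Real.pi / 4 := by
        rcases h0 with h | h
        · exfalso; rw [mem_OA_iff] at h; linarith
        · have := (mem_OV_iff.1 h).2
          have e : Real.pi * ((1 : ℝ) + 1) / 2 = Real.pi := by ring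
          rwa [e] at this
      refine ⟨min δ (1 / 4), lt_min hδ (by norm_num), ?_⟩
      rintro τ s hx h1 _ ⟨m, hm⟩
      have h3 := lt_of_lt_of_le h1 (min_le_left _ _)
      have h4 := lt_of_lt_of_le h1 (min_le_right _ _)
      rw [abs_lt] at h3 h4
      rcases lt_trichotomy s 0 with hneg | hzero | hpos
      · -- s near -1
        rcases le_or_gt s (-1) with hle | hgt
        · refine ⟨-s, ?_, Or.inr ⟨rfl, by nlinarith⟩⟩
          rw [abs_lt]
          constructor
          · nlinarith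
          · nlinarith
        · exfalso
          have hV : (τ, s) ∈ OV := by
            rcases hx with h | h
            · exact absurd (mem_OA_iff.1 h) (by linarith)
            · exact h
          have h5 := (mem_OV_iff.1 hV).2
          rw [abs_lt] at h5 h0' hm
          have h6 : -1 < s := hgt
          have h7 : s < -3 / 4 := by nlinarith
          have h8 : Real.pi * (s + 1) / 2 < Real.pi / 8 := by nlinarith
          have h9 : 0 < Real.pi * (s + 1) / 2 := by
            have : 0 < Real.pi * (s + 1) := mul_pos Real.pi_pos (by linarith)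
            linarith
          refine int_ne (m := -m) ?_
          push_cast
          rw [abs_lt]
          constructor
          · linarith
          · linarith
      · subst hzero
        norm_num at h4
      · refine ⟨s, ?_, Or.inl rfl⟩
        rw [abs_lt]
        constructor
        · nlinarith
        · nlinarith
    · -- s₀ = -1
      have h0' : |τ₀| < Real.pi / 4 := by
        rcases h0 with h | h
        · exfalso; rw [mem_OA_iff] at h; linarith
        · have := (mem_OV_iff.1 h).2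
          have e : Real.pi * ((-1 : ℝ) + 1) / 2 = 0 := by ring
          rwa [e, sub_zero] at this
      refine ⟨min δ (1 / 4), lt_min hδ (by norm_num), ?_⟩
      rintro τ s hx h1 _ ⟨m, hm⟩
      have h3 := lt_of_lt_of_le h1 (min_le_left _ _)
      have h4 := lt_of_lt_of_le h1 (min_le_right _ _)
      rw [abs_lt] at h3 h4
      rcases lt_trichotomy s 0 with hneg | hzero | hpos
      · refine ⟨s, ?_, Or.inl rfl⟩
        rw [abs_lt]
        constructor
        · nlinarith
        · nlinarith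
      · subst hzero
        norm_num at h4
      · exfalso
        have hV : (τ, s) ∈ OV := by
          rcases hx with h | h
          · exact absurd (mem_OA_iff.1 h) (by linarith)
          · exact h
        have h5 := (mem_OV_iff.1 hV).2
        rw [abs_lt] at h5 h0' hm
        have h6 : 3 / 4 < s := by nlinarith
        have h7 : s < 5 / 4 := by nlinarith
        have h8 : Real.pi * (s + 1) / 2 < Real.pi + Real.pi / 8 := by nlinarith
        have h9 : Real.pi - Real.pi / 8 < Real.pi * (s + 1) / 2 := by nlinarith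
        refine int_ne (m := m) ?_
        rw [abs_lt]
        constructor
        · linarith
        · linarith
  · -- |s₀| > 1
    have hs0 : s₀ ≠ 0 := by
      rintro rfl
      norm_num at hgt
    refine ⟨min (s₀ ^ 2 - 1) (δ * |s₀|), lt_min (by linarith) (mul_pos hδ (abs_pos.2 hs0)), ?_⟩
    intro τ s _ h1 _ _
    have h3 := lt_of_lt_of_le h1 (min_le_left _ _)
    have h4 := lt_of_lt_of_le h1 (min_le_right _ _)
    have h5 : 1 ≤ s ^ 2 := by
      rw [abs_lt] at h3
      linarith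
    -- choose the sign
    by_cases hsg : 0 ≤ s * s₀
    · refine ⟨s, ?_, Or.inl rfl⟩
      have h6 : |s - s₀| * |s + s₀| < δ * |s₀| := by
        rw [← abs_mul]
        have : (s - s₀) * (s + s₀) = s ^ 2 - s₀ ^ 2 := by ring
        rwa [this]
      have h7 : |s₀| ≤ |s + s₀| := by
        rw [← sq_le_sq]
        nlinarith [sq_nonneg s]
      have h8 : |s - s₀| * |s₀| < δ * |s₀| :=
        lt_of_le_of_lt (mul_le_mul_of_nonneg_left h7 (abs_nonneg _)) h6
      exact lt_of_mul_lt_mul_right h8 (abs_nonneg _)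
    · push Not at hsg
      refine ⟨-s, ?_, Or.inr ⟨rfl, h5⟩⟩
      have h6 : |-s - s₀| * |-s + s₀| < δ * |s₀| := by
        rw [← abs_mul]
        have : (-s - s₀) * (-s + s₀) = s ^ 2 - s₀ ^ 2 := by ring
        rwa [this]
      have h7 : |s₀| ≤ |-s + s₀| := by
        rw [← sq_le_sq]
        nlinarith [sq_nonneg s]
      have h8 : |-s - s₀| * |s₀| < δ * |s₀| :=
        lt_of_le_of_lt (mul_le_mul_of_nonneg_left h7 (abs_nonneg _)) h6
      exact lt_of_mul_lt_mul_right h8 (abs_nonneg _)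

lemma inj_local {τ s τ' s' : ℝ} (h : RR (τ, s) = RR (τ', s')) (h1 : |τ - τ'| < 2)
    (h2 : |s - s'| < 2) : τ = τ' ∧ s = s' := by
  have hpi := Real.pi_gt_three
  have e1 : s ^ 2 = s' ^ 2 := by
    have := congrArg sg h
    rwa [sg_RR, sg_RR] at this
  have e2 : kk s = kk s' := by
    have := congrArg kp h
    rwa [kp_RR, kp_RR] at this
  have e3 : Real.cos (τ - τ') = 1 := by
    have := congrArg (ch τ') h
    rwa [ch_RR, ch_RR, sub_self, Real.cos_zero] at this
  refine ⟨?_, ?_⟩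
  · have h3 := (Real.cos_eq_one_iff_of_lt_of_lt (by linarith [(abs_lt.1 h1).1])
      (by linarith [(abs_lt.1 h1).2])).1 e3
    linarith
  · have h4 : (s - s') * (s + s') = 0 := by linear_combination e1
    rcases mul_eq_zero.1 h4 with h5 | h5
    · linarith
    · have h6 : s' = -s := by linarith
      subst h6
      have h7 : |s| < 1 := by
        have : s - -s = 2 * s := by ring
        rw [this, abs_mul, abs_two] at h2
        linarith
      have h8 : s ^ 2 < 1 := by
        rw [← sq_abs]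
        nlinarith [abs_nonneg s]
      rw [kk_neg] at e2
      have h9 : kk s = 0 := by linarith
      rcases lt_trichotomy s 0 with h | h | h
      · exact absurd h9 (kk_neg_of h h8).ne
      · rw [h]; ring
      · exact absurd h9 (kk_pos h h8).ne'

/-- Small squares. -/
def sq (y : ℝ × ℝ) (δ : ℝ) : Set (ℝ × ℝ) := {x | |x.1 - y.1| < δ ∧ |x.2 - y.2| < δ}

lemma sq_eq (y : ℝ × ℝ) (δ : ℝ) : sq y δ = Metric.ball y δ := by
  ext x
  simp only [sq, mem_ofPred_eq, Metric.mem_ball, Prod.dist_eq, max_lt_iff, Real.dist_eq]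

lemma isOpen_sq (y : ℝ × ℝ) (δ : ℝ) : IsOpen (sq y δ) := by
  rw [sq_eq]; exact Metric.isOpen_ball

lemma open_image {W : Set (ℝ × ℝ)} (hW : W ⊆ Om) (hWo : IsOpen W) :
    ∃ V : Set E4, IsOpen V ∧ RR '' W = FF ∩ V := by
  refine ⟨⋃₀ {V | IsOpen V ∧ FF ∩ V ⊆ RR '' W}, isOpen_sUnion fun V hV => hV.1, ?_⟩
  apply Subset.antisymm
  · rintro x ⟨y, hy, rfl⟩
    refine ⟨mem_image_of_mem _ (hW hy), ?_⟩
    obtain ⟨δ, hδ, hball⟩ := Metric.isOpen_iff.1 hWo y hy
    obtain ⟨V, hV, hyV, hk⟩ := key (τ₀ := y.1) (s₀ := y.2) (δ := min δ (1 / 2)) (hW hy)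
      (lt_min hδ (by norm_num)) (min_le_right _ _)
    refine ⟨V, ⟨hV, ?_⟩, hyV⟩
    rintro z ⟨⟨w, hw, rfl⟩, hzV⟩
    obtain ⟨v, hv1, hv2, hv3⟩ := hk w hw hzV
    refine ⟨v, hball ?_, hv3⟩
    rw [← sq_eq]
    exact ⟨lt_of_lt_of_le hv1 (min_le_left _ _), lt_of_lt_of_le hv2 (min_le_left _ _)⟩
  · rintro x ⟨hxF, V, ⟨_, hV⟩, hxV⟩
    exact hV ⟨hxF, hxV⟩

/-- Around each point of `Ω` there is a small square on which `RR` is a parametrisation. -/
lemma exists_param {y : ℝ × ℝ} (hy : y ∈ Om) (k : WithTop ℕ∞) (hk : k ≤ ∞) :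
    ∃ W, Flat.IsParam k FF W RR ∧ y ∈ W ∧ W ⊆ Om := by
  obtain ⟨δ, hδ, hball⟩ := Metric.isOpen_iff.1 isOpen_Om y hy
  refine ⟨sq y (min δ (1 / 2)), ?_, ?_, ?_⟩
  · have hsub : sq y (min δ (1 / 2)) ⊆ Om := by
      rw [sq_eq]
      exact (Metric.ball_subset_ball (min_le_left _ _)).trans hball
    refine ⟨isOpen_sq _ _, (contDiff_RR.of_le hk).contDiffOn, fun q _ => fderiv_injective q,
      ?_, fun W hW hWo => open_image (hW.trans hsub) hWo⟩
    rintro ⟨τ, s⟩ ⟨h1, h2⟩ ⟨τ', s'⟩ ⟨h3, h4⟩ h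
    simp only at h1 h2 h3 h4
    have hm : min δ (1 / 2) ≤ 1 / 2 := min_le_right _ _
    rw [abs_lt] at h1 h2 h3 h4
    obtain ⟨h5, h6⟩ := inj_local h (by rw [abs_lt]; constructor <;> linarith)
      (by rw [abs_lt]; constructor <;> linarith)
    rw [h5, h6]
  · rw [sq_eq]
    exact Metric.mem_ball_self (lt_min hδ (by norm_num))
  · rw [sq_eq]
    exact (Metric.ball_subset_ball (min_le_left _ _)).trans hball

end Q197.Strip
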