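import Pool.Agent.Q197.Elim

/-!
A plane algebraic curve is tangent, away from the origin, to only finitely many lines through
the origin.
-/

open Polynomial

namespace Q197.Tang

open Q197.Elim

/-- Substitution `y = m x`: outer variable `x`, inner variable `m`. -/
noncomputable def tw (R : MvPolynomial (Fin 2) ℂ) : ℂ[X][X] :=
  MvPolynomial.aeval ![(X : ℂ[X][X]), C X * X] R

lemma tw_eval (R : MvPolynomial (Fin 2) ℂ) (m x : ℂ) :
    (tw R).evalEval m x = MvPolynomial.eval ![x, m * x] R := by
  unfold tw
  induction R using MvPolynomial.induction_on with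
  | C a =>
    simp only [MvPolynomial.algHom_C, MvPolynomial.eval_C]
    rw [Polynomial.algebraMap_apply, Polynomial.evalEval_C, Polynomial.algebraMap_apply]
    simp
  | add p q hp hq =>
    rw [map_add, Polynomial.evalEval_add, hp, hq, map_add]
  | mul_X p i hp =>
    rw [map_mul, Polynomial.evalEval_mul, hp, map_mul, MvPolynomial.aeval_X, MvPolynomial.eval_X]
    congr 1
    fin_cases i
    · simp
    · simp only [Fin.mk_one, Matrix.cons_val_one, Matrix.cons_val_fin_one]
      rw [Polynomial.evalEval_mul, Polynomial.evalEval_C, Polynomial.evalEval_X]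
      simp

lemma tw_mul (R S : MvPolynomial (Fin 2) ℂ) : tw (R * S) = tw R * tw S := by
  unfold tw; rw [map_mul]

lemma tw_ne_zero {R : MvPolynomial (Fin 2) ℂ} (hR : R ≠ 0) : tw R ≠ 0 := by
  intro h0
  have h1 : R * MvPolynomial.X 0 = 0 := by
    apply MvPolynomial.funext
    intro v
    rw [map_mul, map_zero, MvPolynomial.eval_X]
    by_cases hv : v 0 = 0
    · rw [hv, mul_zero]
    · have h2 := tw_eval R (v 1 / v 0) (v 0)
      rw [h0] at h2
      have h3 : ![v 0, v 1 / v 0 * v 0] = v := by
        ext i
        fin_cases i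
        · simp
        · simp [hv]
      rw [h3] at h2
      rw [← h2]
      simp
  rcases mul_eq_zero.1 h1 with h2 | h2
  · exact hR h2
  · exact MvPolynomial.X_ne_zero _ h2

lemma chain (R : MvPolynomial (Fin 2) ℂ) (f : ℂ → Fin 2 → ℂ) (f' : Fin 2 → ℂ) (t : ℂ)
    (hf : ∀ i, HasDerivAt (fun s => f s i) (f' i) t) :
    HasDerivAt (fun s => MvPolynomial.eval (f s) R)
      (MvPolynomial.eval (f t) (MvPolynomial.pderiv 0 R) * f' 0 +
        MvPolynomial.eval (f t) (MvPolynomial.pderiv 1 R) * f' 1) t := by
  induction R using MvPolynomial.induction_on with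
  | C a =>
    simp only [MvPolynomial.eval_C, MvPolynomial.pderiv_C, map_zero, zero_mul, add_zero]
    exact hasDerivAt_const _ _
  | add p q hp hq =>
    have := hp.add hq
    simp only [map_add]
    refine this.congr_deriv ?_
    ring
  | mul_X p i hp =>
    have := hp.mul (hf i)
    simp only [map_mul, MvPolynomial.eval_X]
    refine this.congr_deriv ?_
    simp only [Derivation.leibniz, map_add, smul_eq_mul, map_mul, MvPolynomial.eval_X,
      MvPolynomial.pderiv_X]
    fin_cases i
    · simp
      ring
    · simp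
      ring

/-- Outer derivative of `evalEval`. -/
lemma hasDeriv_outer (g : ℂ[X][X]) (m x : ℂ) :
    HasDerivAt (fun s => g.evalEval m s) ((derivative g).evalEval m x) x := by
  have hev : ∀ (q : ℂ[X][X]) (s : ℂ), q.evalEval m s = (q.map (evalRingHom m)).eval s := by
    intro q s
    rw [Polynomial.eval_map]
    rw [Polynomial.evalEval, ← Polynomial.coe_evalRingHom, Polynomial.eval, Polynomial.hom_eval₂]
    simp
  rw [hev, ← Polynomial.derivative_map]
  simp only [hev]
  exact Polynomial.hasDerivAt _ _

/-- The inner evaluation is a polynomial function, hence differentiable. -/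
lemma diff_inner (g : ℂ[X][X]) (m x : ℂ) :
    ∃ d, HasDerivAt (fun s => g.evalEval s x) d m :=
  ⟨_, Polynomial.hasDerivAt (g.eval (C x)) m⟩

/-- Main lemma. -/
theorem finite_tangent (P : MvPolynomial (Fin 2) ℂ) (hP : P ≠ 0) :
    ∃ E : Set ℂ, E.Finite ∧ ∀ m, m ∉ E → ∀ x, x ≠ 0 → MvPolynomial.eval ![x, m * x] P = 0 →
      ∀ R : MvPolynomial (Fin 2) ℂ,
        (∀ q, MvPolynomial.eval q P = 0 → MvPolynomial.eval q R = 0) →
        MvPolynomial.eval ![x, m * x] (MvPolynomial.pderiv 0 R) +
          m * MvPolynomial.eval ![x, m * x] (MvPolynomial.pderiv 1 R) = 0 →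
        MvPolynomial.eval ![x, m * x] (MvPolynomial.pderiv 0 R) = 0 ∧
          MvPolynomial.eval ![x, m * x] (MvPolynomial.pderiv 1 R) = 0 := by
  obtain ⟨E, hE, hgood⟩ := good (tw P) (tw_ne_zero hP)
  refine ⟨E, hE, fun m hm x hx hP0 R hR htan => ?_⟩
  obtain ⟨g, hgP, hg, hdeg, hg0, hg1⟩ := hgood m hm x (by rw [tw_eval]; exact hP0)
  obtain ⟨w, hw⟩ := hgP
  have hdvd : g ∣ tw R := by
    refine dvd_of_zeros hg hdeg fun m' x' h0 => ?_
    rw [tw_eval]
    apply hR
    rw [← tw_eval, hw, Polynomial.evalEval_mul, h0, zero_mul]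
  obtain ⟨h, hh⟩ := hdvd
  have key : ∀ m' x', MvPolynomial.eval ![x', m' * x'] R = g.evalEval m' x' * h.evalEval m' x' := by
    intro m' x'
    rw [← tw_eval, hh, Polynomial.evalEval_mul]
  -- derivative in x
  have d1 : HasDerivAt (fun s => MvPolynomial.eval ![s, m * s] R)
      (MvPolynomial.eval ![x, m * x] (MvPolynomial.pderiv 0 R) * 1 +
        MvPolynomial.eval ![x, m * x] (MvPolynomial.pderiv 1 R) * m) x := by
    refine chain R (fun s => ![s, m * s]) ![1, m] x ?_
    intro i
    fin_cases i
    · exact hasDerivAt_id' x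
    · have h9 := (hasDerivAt_id' x).const_mul m
      rw [mul_one] at h9
      exact h9
  have d1' := (hasDeriv_outer g m x).mul (hasDeriv_outer h m x)
  have e1 := d1.unique (d1'.congr_of_eventuallyEq (Filter.Eventually.of_forall fun s => key m s))
  rw [hg0, zero_mul, add_zero] at e1
  have hh0 : h.evalEval m x = 0 := by
    have : (derivative g).evalEval m x * h.evalEval m x = 0 := by
      rw [← e1, ← htan]; ring
    rcases mul_eq_zero.1 this with h1 | h1
    · exact absurd h1 hg1
    · exact h1
  -- derivative in m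
  have d2 : HasDerivAt (fun s => MvPolynomial.eval ![x, s * x] R)
      (MvPolynomial.eval ![x, m * x] (MvPolynomial.pderiv 0 R) * 0 +
        MvPolynomial.eval ![x, m * x] (MvPolynomial.pderiv 1 R) * x) m := by
    refine chain R (fun s => ![x, s * x]) ![0, x] m ?_
    intro i
    fin_cases i
    · exact hasDerivAt_const m x
    · have h9 := (hasDerivAt_id' m).mul_const x
      rw [one_mul] at h9
      exact h9
  obtain ⟨a, ha⟩ := diff_inner g m x
  obtain ⟨b, hb⟩ := diff_inner h m x
  have d2' := ha.mul hb
  have e2 := d2.unique (d2'.congr_of_eventuallyEq (Filter.Eventually.of_forall fun s => key s x))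
  rw [hg0, hh0] at e2
  have hy : MvPolynomial.eval ![x, m * x] (MvPolynomial.pderiv 1 R) = 0 := by
    have : MvPolynomial.eval ![x, m * x] (MvPolynomial.pderiv 1 R) * x = 0 := by
      simpa using e2
    rcases mul_eq_zero.1 this with h1 | h1
    · exact h1
    · exact absurd h1 hx
  refine ⟨?_, hy⟩
  rw [hy, mul_zero, add_zero] at htan
  exact htan

end Q197.Tang
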